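import Pool.Agent.H243R3.PCP.Apx

/-!
# MAX-3SAT-B is APX-hard
-/

namespace Pool.Agent.NPC.DP

open Pool.Agent.H243R3.PCP Pool.Agent.NPC.TP

open H243R3.TP (OptProblem InAPX APXHard APReduces PolyFn max3Sat numSat)

theorem bt_total {mx : Bool} {a b : ℚ} (h : ¬ bt mx 1 a b) : bt mx 1 b a := by
  unfold bt at *
  cases mx <;> simp at * <;> linarith

theorem bt_trans {mx : Bool} {ρ a b c : ℚ} (hρ : 0 ≤ ρ) (h : bt mx ρ a b) (h' : bt mx 1 b c) :
    bt mx ρ a c := by
  unfold bt at *
  cases mx <;> simp at * <;> nlinarith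

theorem bt_refl (mx : Bool) (a : ℚ) : bt mx 1 a a := by
  unfold bt
  cases mx <;> simp

/-- The data of a problem in APX, for one instance. -/
structure Dat (P : OptProblem) (fe va ap : List Bool → List Bool) (q : Polynomial ℕ)
    (m : P.Inst → P.Sol → ℚ) (c : ℚ) (x : P.Inst) : Prop where
  hfe : ∀ w : List Bool, fe (pairBits (bits x) w) = [true] ↔ ∃ y : P.Sol, P.feas x y ∧ bits y = w
  hm : ∀ y : P.Sol, P.feas x y → (bits y).length ≤ q.eval (bits x).length ∧ 0 ≤ m x y ∧
        P.val x y = m x y ∧ va (pairBits (bits x) (bits y)) = bits (m x y)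
  hap : ∃ y : P.Sol, ap (bits x) = bits y ∧ P.Approx c x y

section

variable {P : OptProblem} {fe va ap : List Bool → List Bool} {q : Polynomial ℕ}
  {m : P.Inst → P.Sol → ℚ} {c : ℚ} {x : P.Inst}

theorem Dat.ok (D : Dat P fe va ap q m c x) {w : List Bool} :
    okB fe (bits x) w = true ↔ ∃ y : P.Sol, P.feas x y ∧ bits y = w := by
  unfold okB
  rw [decide_eq_true_eq, D.hfe]

theorem Dat.vl (D : Dat P fe va ap q m c x) {y : P.Sol} (hy : P.feas x y) :
    vl va (bits x) (bits y) = nd (m x y) := vl_eq (D.hm y hy).2.2.2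

theorem Dat.foldl_spec (D : Dat P fe va ap q m c x) (mx : Bool) : ∀ (C : List (List Bool))
    (y₁ : P.Sol), P.feas x y₁ → ∃ y, P.feas x y ∧
      bits y = C.foldl (sel fe va mx (bits x)) (bits y₁) ∧ bt mx 1 (m x y₁) (m x y) ∧
      ∀ w ∈ C, ∀ y', P.feas x y' → bits y' = w → bt mx 1 (m x y') (m x y) := by
  intro C
  induction C with
  | nil => intro y₁ h; exact ⟨y₁, h, rfl, bt_refl _ _, by simp⟩
  | cons w C ih =>
    intro y₁ h₁
    obtain ⟨y₂, h2, h3, h4, h5⟩ : ∃ y₂, P.feas x y₂ ∧ bits y₂ = sel fe va mx (bits x) (bits y₁) w ∧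
        bt mx 1 (m x y₁) (m x y₂) ∧ ∀ y', P.feas x y' → bits y' = w → bt mx 1 (m x y') (m x y₂) := by
      by_cases hs : (okB fe (bits x) w && geM mx 1 (DP.vl va (bits x) (bits y₁))
          (DP.vl va (bits x) w)) = true
      · have hs' := hs
        rw [Bool.and_eq_true] at hs
        obtain ⟨y', hy', rfl⟩ := D.ok.1 hs.1
        refine ⟨y', hy', ?_, ?_, ?_⟩
        · unfold sel
          rw [hs']
          rfl
        · have h6 := hs.2
          rw [D.vl h₁, D.vl hy', geM_iff (by norm_num) (D.hm _ h₁).2.1 (D.hm _ hy').2.1] at h6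
          exact h6
        · intro y'' _ he
          rw [bits_injective he]
          exact bt_refl _ _
      · refine ⟨y₁, h₁, ?_, bt_refl _ _, ?_⟩
        · unfold sel
          rw [Bool.not_eq_true] at hs
          rw [hs]
          rfl
        · intro y' hy' he
          subst he
          apply bt_total
          intro hb
          apply hs
          rw [Bool.and_eq_true]
          refine ⟨D.ok.2 ⟨y', hy', rfl⟩, ?_⟩
          rw [D.vl h₁, D.vl hy', geM_iff (by norm_num) (D.hm _ h₁).2.1 (D.hm _ hy').2.1]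
          exact hb
    obtain ⟨y, k1, k2, k3, k4⟩ := ih y₂ h2
    refine ⟨y, k1, ?_, bt_trans (by norm_num) h4 k3, ?_⟩
    · rw [List.foldl_cons, ← h3]; exact k2
    · intro w' hw' y' hy' he
      rw [List.mem_cons] at hw'
      rcases hw' with rfl | hw'
      · exact bt_trans (by norm_num) (h5 y' hy' he) k3
      · exact k4 w' hw' y' hy' he

/-- The best of the candidates is a feasible solution. -/
theorem Dat.best_spec (D : Dat P fe va ap q m c x) (mx : Bool) (C : List (List Bool)) :
    ∃ yT y, ap (bits x) = bits yT ∧ P.Approx c x yT ∧ P.feas x y ∧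
      bits y = best fe va ap mx (bits x) C ∧ bt mx 1 (m x yT) (m x y) ∧
      ∀ w ∈ C, ∀ y', P.feas x y' → bits y' = w → bt mx 1 (m x y') (m x y) := by
  obtain ⟨yT, h1, h2⟩ := D.hap
  obtain ⟨y, k1, k2, k3, k4⟩ := D.foldl_spec mx C yT h2.1
  refine ⟨yT, y, h1, h2, k1, ?_, k3, k4⟩
  unfold best
  rw [h1]
  exact k2

end

/-- The number of thresholds. -/
theorem exists_k {C R : ℚ} (hC : 2 ≤ C) (hR : 1 < R) :
    ∃ k : ℕ, 1 ≤ k ∧ C ≤ R ^ k ∧ (R < C → (k : ℚ) * (R - 1) < 2 * (C - 1)) := by
  refine ⟨⌈(C - 1) / (R - 1)⌉₊, ?_, ?_, ?_⟩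
  · rw [Nat.one_le_ceil_iff]
    exact div_pos (by linarith) (by linarith)
  · have h1 : (C - 1) / (R - 1) ≤ ⌈(C - 1) / (R - 1)⌉₊ := Nat.le_ceil _
    rw [div_le_iff₀ (by linarith)] at h1
    have h2 := one_add_mul_le_pow (a := R - 1) (by linarith) ⌈(C - 1) / (R - 1)⌉₊
    have h3 : (1 + (R - 1)) = R := by ring
    rw [h3] at h2
    linarith
  · intro hRC
    have h1 := Nat.ceil_lt_add_one (a := (C - 1) / (R - 1))
      (div_nonneg (by linarith) (by linarith))
    have h2 : 1 < (C - 1) / (R - 1) := by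
      rw [lt_div_iff₀ (by linarith)]; linarith
    have h3 : (C - 1) / (R - 1) * (R - 1) = C - 1 := div_mul_cancel₀ _ (by linarith)
    have h4 : 0 < R - 1 := by linarith
    nlinarith

theorem poly_bitsOf {ι : Type} [TEnc ι] : Poly (fun x : ι => (bits x : List Bool)) := by
  obtain ⟨c, p, h⟩ := PC.rawIn
  exact ⟨c, p, fun a => h (bits a)⟩

theorem parse_bits {ι : Type} [TEnc ι] (x : ι) : parse (bits x) = some (toT x) := parse_enc _

/-- A function with values given by their codes. -/
theorem poly_of_code {ι κ : Type} [TEnc ι] [TEnc κ] {g : ι → κ} {G : ι → List Bool}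
    (hG : Poly G) (h : ∀ a, bits (g a) = G a) : Poly g := by
  have h1 : Poly (fun a => ((parse (G a)).getD T.nil : T)) :=
    poly_optGetD (poly_parse.comp hG) (Poly.const _)
  refine Poly.of_toT (h1.congr fun a => ?_)
  rw [← h a, parse_bits]
  rfl

/-- **MAX-3SAT-B is APX-hard.** -/
theorem apxHard_max3Sat : APXHard (max3Sat Bd) := by
  rintro P ⟨⟨y₀⟩, isv, fe, va, ap, q, m, c, hisv, hfe, hva, hap, hvalid, hP⟩
  have hD : ∀ x, P.valid x → Dat P fe va ap q m c x := fun x hx =>
    ⟨(hP x hx).1, (hP x hx).2.1, (hP x hx).2.2⟩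
  set mx := P.maximize with hmx
  obtain ⟨C, hC2, hcC⟩ : ∃ C : ℚ, 2 ≤ C ∧ c ≤ C := ⟨max 2 c, le_max_left _ _, le_max_right _ _⟩
  have hK : (1 : ℚ) ≤ K0 := by unfold K0 c1; norm_num
  set a : ℚ := 4 * K0 * C with ha
  have ha1 : 1 ≤ a := by rw [ha]; nlinarith
  have hR : ∀ r : ℚ, 1 < r → 1 < 1 + a * (r - 1) := by
    intro r hr
    have : 0 < a * (r - 1) := mul_pos (by linarith) (by linarith)
    linarith
  have hk : ∀ r : ℚ, ∃ k : ℕ, 1 < r → 1 ≤ k ∧ C ≤ (1 + a * (r - 1)) ^ k ∧
      (1 + a * (r - 1) < C → (k : ℚ) * (1 + a * (r - 1) - 1) < 2 * (C - 1)) := by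
    intro r
    by_cases hr : 1 < r
    · obtain ⟨k, h⟩ := exists_k hC2 (hR r hr)
      exact ⟨k, fun _ => h⟩
    · exact ⟨0, fun h => absurd h hr⟩
  choose k hk using hk
  choose red ext hred using fun r : ℚ => exists_red hfe hva hap mx (1 + a * (r - 1)) q
  -- the best candidate, as a string
  set gs : ℚ → P.Inst → List ℕ → List Bool := fun r x A =>
    if isv (bits x) = [true] then best fe va ap mx (bits x) (cands (k r) (red r) (ext r) (bits x) A)
    else bits y₀ with hgs
  have hcode : ∀ r x A, ∃ y : P.Sol, bits y = gs r x A := by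
    intro r x A
    simp only [hgs]
    split_ifs with h
    · obtain ⟨_, y, _, _, _, h2, _⟩ := (hD x ((hvalid x).1 h)).best_spec mx
        (cands (k r) (red r) (ext r) (bits x) A)
      exact ⟨y, h2⟩
    · exact ⟨y₀, rfl⟩
  choose g hg using hcode
  refine ⟨a, fun r x => dj (cps (k r) fun i => red r i (bits x)), g, ha1, ?_, ?_, ?_⟩
  · intro r _
    refine polyFn_of (poly_dj (poly_cps (F := fun i x => red r i (bits x)) fun i => ?_))
    exact (hred r i).1.comp poly_bitsOf
  · intro r _
    refine polyFn_of ?_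
    have e1 : Poly (fun z : P.Inst × List ℕ => (bits z.1 : List Bool)) :=
      poly_bitsOf.comp (Poly.fst Poly.id)
    have e2 : Poly (fun z : P.Inst × List ℕ => z.2) := Poly.snd Poly.id
    have e3 : Poly (fun z : P.Inst × List ℕ => cands (k r) (red r) (ext r) (bits z.1) z.2) :=
      Poly.comp (g := fun z : List Bool × List ℕ => cands (k r) (red r) (ext r) z.1 z.2)
        (f := fun z : P.Inst × List ℕ => ((bits z.1 : List Bool), z.2))
        (poly_cands (fun i => (hred r i).1) fun i => (hred r i).2.1) (Poly.pair e1 e2)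
    have e4 : Poly (fun z : P.Inst × List ℕ => gs r z.1 z.2) :=
      Poly.ite (Poly.decide_eq ((poly_raw hisv).comp e1) (Poly.const _))
        (poly_best hfe hva hap mx e1 e3) (Poly.const _)
    exact poly_of_code e4 fun z => hg r z.1 z.2
  · intro r hr x hx
    have D := hD x hx
    obtain ⟨hk1, hk2, hk3⟩ := hk r hr
    have hRr := hR r hr
    set R : ℚ := 1 + a * (r - 1) with hRdef
    set F : ℕ → List H243R3.TP.Clause := fun i => red r i (bits x) with hF
    have hval : ∀ i, F i ≠ [] ∧ ∀ v, (H243R3.TP.occ (F i)).count v ≤ Bd := fun i =>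
      ((hred r i).2.2 (bits x)).1
    refine ⟨⟨dj_ne hk1 fun i _ => (hval i).1, occ_dj _ _ fun b hb v => ?_⟩, fun _ => ⟨[], ?_⟩, ?_⟩
    · rw [(mem_cps hb).2]
      exact (hval b.1).2 v
    · exact ⟨by simp, by simp⟩
    · intro A _
      obtain ⟨yT, y, b1, b2, b3, b4, b5, b6⟩ := D.best_spec mx
        (cands (k r) (red r) (ext r) (bits x) A)
      have hgy : g r x A = y := by
        apply bits_injective
        rw [hg, b4]
        simp only [hgs]
        rw [if_pos ((hvalid x).2 hx)]
      rw [hgy]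
      refine ⟨b3, fun hA => ⟨b3, fun y' hy' => ?_⟩⟩
      have vT := D.hm yT b2.1
      have vy := D.hm y b3
      have vy' := D.hm y' hy'
      have hcy := b2.2 y' hy'
      -- the performance of the approximation algorithm
      have hC' : if mx = true then m x y' ≤ C * m x yT else m x yT ≤ C * m x y' := by
        rw [vT.2.2.1, vy'.2.2.1] at hcy
        by_cases hmm : mx = true
        · rw [if_pos hmm]
          rw [← hmx, if_pos hmm] at hcy
          have h1 : m x y' ≤ c * m x yT := by exact_mod_cast hcy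
          exact h1.trans (mul_le_mul_of_nonneg_right hcC vT.2.1)
        · rw [if_neg hmm]
          rw [← hmx, if_neg hmm] at hcy
          have h1 : m x yT ≤ c * m x y' := by exact_mod_cast hcy
          exact h1.trans (mul_le_mul_of_nonneg_right hcC vy'.2.1)
      -- the conclusion in rational numbers
      suffices hfin : if mx = true then m x y' ≤ R * m x y else m x y ≤ R * m x y' by
        rw [vy.2.2.1, vy'.2.2.1, ← hmx]
        split_ifs at hfin ⊢ with hmm
        · exact_mod_cast hfin
        · exact_mod_cast hfin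
      by_cases hRC : R < C
      · refine final_ineq hRr.le hk2 vT.2.1 vy.2.1 vy'.2.1 b5 hC' ?_
        intro i hi hbt
        obtain ⟨a1, a2, a3⟩ := (hred r i).2.2 (bits x)
        -- the formula number `i` is satisfiable
        obtain ⟨As, hAs⟩ := a2 ⟨bits y', vy'.1, by
          unfold verB
          rw [Bool.and_eq_true, D.ok, b1, D.vl b2.1, D.vl hy',
            geM_iff (pow_nonneg (by linarith) _) vT.2.1 vy'.2.1]
          exact ⟨⟨y', hy', rfl⟩, hbt⟩⟩
        -- some copy is well satisfied
        obtain ⟨bj, hbj, hbi, hlt⟩ : ∃ bj ∈ (cps (k r) F).zipIdx, bj.1.1 = i ∧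
            K0 * unsat bj.1.2 (rs (cps (k r) F).length bj.2 A) < (F i).length := by
          by_contra hcon
          push Not at hcon
          obtain ⟨A', c1', c2', c3'⟩ := cps_improve (k := k r) (F := F) (i := i) (K := K0)
            (fun i _ => (hval i).1) hi As A hAs fun bj hbj hbi => hcon bj hbj hbi
          have h1 := hA.2 A' ⟨c1', c2'⟩
          have h1' : ((numSat (dj (cps (k r) F)) A' : ℕ) : ℝ) ≤
              (r : ℝ) * ((numSat (dj (cps (k r) F)) A : ℕ) : ℝ) := h1
          have h2 : ((numSat (dj (cps (k r) F)) A' : ℕ) : ℚ) ≤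
              r * ((numSat (dj (cps (k r) F)) A : ℕ) : ℚ) := by exact_mod_cast h1'
          have h3 : (2 * (K0 : ℚ) * (numSat (dj (cps (k r) F)) A : ℕ)) + tot (k r) F ≤
              2 * K0 * (numSat (dj (cps (k r) F)) A' : ℕ) := by exact_mod_cast c3'
          have h4 : ((numSat (dj (cps (k r) F)) A : ℕ) : ℚ) ≤ (k r : ℚ) * tot (k r) F := by
            have h5 := unsat_add (dj (cps (k r) F)) A
            have h6 := length_dj_cps (k r) F
            have h7 : numSat (dj (cps (k r) F)) A ≤ k r * tot (k r) F := by omega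
            exact_mod_cast h7
          have h5 : (1 : ℚ) ≤ tot (k r) F := by
            have := (copies_le (F := F) (fun i _ => (hval i).1) hi).2
            exact_mod_cast this
          set N : ℚ := ((numSat (dj (cps (k r) F)) A : ℕ) : ℚ)
          set T₁ : ℚ := (tot (k r) F : ℚ)
          have h6 : T₁ ≤ 2 * K0 * ((r - 1) * N) := by nlinarith
          have h7 : 2 * (K0 : ℚ) * ((r - 1) * N) ≤ 2 * K0 * ((r - 1) * ((k r : ℚ) * T₁)) := by
            refine mul_le_mul_of_nonneg_left ?_ (by linarith)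
            exact mul_le_mul_of_nonneg_left h4 (by linarith)
          have h8 := hk3 hRC
          have h9 : (k r : ℚ) * (a * (r - 1)) < 2 * (C - 1) := by
            have e : R - 1 = a * (r - 1) := by rw [hRdef]; ring
            rw [← e]; exact h8
          -- contradiction
          have h10 : 2 * (K0 : ℚ) * ((r - 1) * ((k r : ℚ) * T₁)) < T₁ := by
            have e1 : (k r : ℚ) * (a * (r - 1)) = 4 * C * K0 * ((k r : ℚ) * (r - 1)) := by
              rw [ha]; ring
            rw [e1] at h9
            have h11 : 2 * (K0 : ℚ) * ((k r : ℚ) * (r - 1)) < 1 := by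
              by_contra hc2
              push Not at hc2
              nlinarith
            calc 2 * (K0 : ℚ) * ((r - 1) * ((k r : ℚ) * T₁)) =
                (2 * (K0 : ℚ) * ((k r : ℚ) * (r - 1))) * T₁ := by ring
              _ < 1 * T₁ := mul_lt_mul_of_pos_right h11 (by linarith)
              _ = T₁ := one_mul _
          linarith
        -- the candidate of this copy
        have hb2 : bj.1.2 = F i := by
          obtain ⟨b, j⟩ := bj
          have := (mem_cps (List.mem_of_getElem? (zipIdx_lt hbj).2)).2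
          rw [this]
          simp only at hbi
          rw [hbi]
        rw [hb2] at hlt
        have hver := a3 _ hlt
        have hmem := mem_cands (ext := ext r) (A := A) hbj
        rw [hbi] at hmem
        unfold verB at hver
        rw [Bool.and_eq_true, D.ok] at hver
        obtain ⟨⟨y'', hy'', he⟩, hge⟩ := hver
        rw [← he, b1, D.vl b2.1, D.vl hy'',
          geM_iff (pow_nonneg (by linarith) _) vT.2.1 (D.hm y'' hy'').2.1] at hge
        exact bt_trans (pow_nonneg (by linarith) _) hge (b6 _ hmem y'' hy'' he)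
      · push Not at hRC
        unfold bt at b5
        split_ifs at b5 hC' ⊢ with hmm
        · nlinarith [vT.2.1, vy.2.1, vy'.2.1]
        · nlinarith [vT.2.1, vy.2.1, vy'.2.1]

end Pool.Agent.NPC.DP
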