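import Pool.Agent.H243R3.PCP.Main

/-!
# The PCP theorem: gap 3-satisfiability with bounded occurrences is NP-hard
-/

namespace Pool.Agent.NPC.DP

open Pool.Agent.H243R3.PCP Pool.Agent.NPC.TP

/-- **The PCP theorem** in the form of a gap: every language in `NP` reduces in polynomial time to
nonempty 3-CNF formulas in which every variable has at most `Bd` occurrences, such that the words
of the language give satisfiable formulas, and the other words give formulas of which every
assignment leaves at least the fraction `1 / K0` of the clauses unsatisfied. -/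
theorem gap3Sat {L : Set (List Bool)} (hL : InNP L) :
    ∃ f : List Bool → List H243R3.TP.Clause,
      PC (fun x : List Bool => x) (bits : List H243R3.TP.Clause → List Bool) f ∧
      ∀ x, f x ≠ [] ∧ (∀ v, (H243R3.TP.occ (f x)).count v ≤ Bd) ∧
        (x ∈ L → ∃ A : List ℕ, (∀ v ∈ A, v ∈ H243R3.TP.occ (f x)) ∧
          A.length ≤ (H243R3.TP.occ (f x)).length ∧
          H243R3.TP.numSat (f x) A = (f x).length) ∧
        (x ∉ L → ∀ A : List ℕ, (f x).length ≤
          K0 * ((f x).length - H243R3.TP.numSat (f x) A)) := by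
  obtain ⟨V, p, hV, h⟩ := hL
  obtain ⟨red, ext, h1, _, h3⟩ := pcp hV p
  refine ⟨red, PC.comp (eb := (bits : List Bool → List Bool)) h1 PC.ofBits, fun x => ?_⟩
  obtain ⟨⟨a1, a2⟩, a3, a4⟩ := h3 x
  refine ⟨a1, a2, fun hx => ?_, fun hx A => ?_⟩
  · obtain ⟨A, ⟨b1, b2⟩, b3⟩ := a3 ((h x).1 hx)
    have := unsat_add (red x) A
    exact ⟨A, b1, b2, by omega⟩
  · by_contra hc
    push Not at hc
    have h5 := unsat_add (red x) A
    have h6 : (red x).length - H243R3.TP.numSat (red x) A = unsat (red x) A := by omega
    rw [h6] at hc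
    exact hx ((h x).2 ⟨_, (a4 A hc).1, (a4 A hc).2⟩)

end Pool.Agent.NPC.DP
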