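import Pool.Agent.H243R3.PCP.Occ

/-!
# Disjoint unions of formulas
-/

namespace Pool.Agent.H243R3.PCP

open Finset Pool.Agent.H243R3.TP

/-- Renaming of the variables of a clause. -/
def renC (n j : ℕ) (c : Clause) : Clause :=
  ((c.1.1 * n + j, c.1.2), (c.2.1.1 * n + j, c.2.1.2), (c.2.2.1 * n + j, c.2.2.2))

/-- The disjoint union of formulas. -/
def dj (B : List (ℕ × List Clause)) : List Clause :=
  B.zipIdx.flatMap fun bj => bj.1.2.map (renC B.length bj.2)

/-- The restriction of an assignment to a block. -/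
def rs (n j : ℕ) (A : List ℕ) : List ℕ := (A.filter fun v => decide (v % n = j)).map (· / n)

theorem mem_rs {n j v : ℕ} {A : List ℕ} (hj : j < n) : v ∈ rs n j A ↔ v * n + j ∈ A := by
  have e1 : (v * n + j) % n = j := by rw [mul_comm, Nat.mul_add_mod, Nat.mod_eq_of_lt hj]
  have e2 : (v * n + j) / n = v := by
    rw [mul_comm, Nat.mul_add_div (by omega), Nat.div_eq_of_lt hj, add_zero]
  unfold rs
  rw [List.mem_map]
  constructor
  · rintro ⟨u, hu, rfl⟩
    rw [List.mem_filter, decide_eq_true_eq] at hu
    have := Nat.div_add_mod u n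
    rw [hu.2, mul_comm] at this
    rw [this]
    exact hu.1
  · intro h
    exact ⟨v * n + j, List.mem_filter.2 ⟨h, by rw [decide_eq_true_eq]; exact e1⟩, e2⟩

theorem clauseSat_iff (A : List ℕ) (c : Clause) : ClauseSat A c ↔
    LitTrue A c.1 ∨ LitTrue A c.2.1 ∨ LitTrue A c.2.2 := by
  simp [ClauseSat, lits]

theorem clauseSat_ren {n j : ℕ} (hj : j < n) (A : List ℕ) (c : Clause) :
    ClauseSat A (renC n j c) ↔ ClauseSat (rs n j A) c := by
  rw [clauseSat_iff, clauseSat_iff]
  unfold LitTrue renC
  simp only [mem_rs hj]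

theorem zipIdx_lt {β : Type} {B : List β} {b : β} {j : ℕ} (h : (b, j) ∈ B.zipIdx) :
    j < B.length ∧ B[j]? = some b := by
  rw [List.mem_zipIdx_iff_getElem?] at h
  simp only at h
  refine ⟨?_, h⟩
  by_contra hc
  rw [List.getElem?_eq_none (by omega)] at h
  simp at h

theorem unsat_map_congr {β : Type} (L : List β) (f g : β → Clause) (A A' : List ℕ)
    (h : ∀ b ∈ L, (ClauseSat A (f b) ↔ ClauseSat A' (g b))) :
    unsat (L.map f) A = unsat (L.map g) A' := by
  unfold unsat
  rw [List.countP_map, List.countP_map]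
  refine List.countP_congr fun b hb => ?_
  simp only [Function.comp_apply, Bool.not_eq_true', decide_eq_false_iff_not, h b hb]

theorem unsat_ren {n j : ℕ} (hj : j < n) (φ : List Clause) (A : List ℕ) :
    unsat (φ.map (renC n j)) A = unsat φ (rs n j A) := by
  have h := unsat_map_congr φ (renC n j) (fun c => c) A (rs n j A) fun c _ => clauseSat_ren hj A c
  rw [h, List.map_id']

theorem unsat_dj (B : List (ℕ × List Clause)) (A : List ℕ) : unsat (dj B) A =
    (B.zipIdx.map fun bj => unsat bj.1.2 (rs B.length bj.2 A)).sum := by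
  unfold dj
  rw [unsat_flatMap]
  congr 1
  refine List.map_congr_left fun bj hbj => ?_
  exact unsat_ren (zipIdx_lt (b := bj.1) (j := bj.2) hbj).1 _ _

theorem length_dj (B : List (ℕ × List Clause)) :
    (dj B).length = (B.map fun b => b.2.length).sum := by
  unfold dj
  rw [List.length_flatMap]
  simp only [List.length_map]
  have : (B.zipIdx.map fun bj => bj.1.2.length) = B.map fun b => b.2.length := by
    conv_rhs => rw [← List.zipIdx_map_fst 0 B, List.map_map]
    rfl
  rw [this]

/-- The number of occurrences. -/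
theorem occ_dj (B : List (ℕ × List Clause)) (D : ℕ) (h : ∀ b ∈ B, ∀ x, (occ b.2).count x ≤ D)
    (x : ℕ) : (occ (dj B)).count x ≤ D := by
  change cnt x (dj B) ≤ D
  unfold dj
  rw [cnt_flatMap]
  have h1 : ∀ bj ∈ B.zipIdx, cnt x (bj.1.2.map (renC B.length bj.2)) ≤
      if bj.2 = x % B.length then D else 0 := by
    rintro ⟨b, j⟩ hbj
    obtain ⟨hj, hb⟩ := zipIdx_lt hbj
    simp only
    have e : occ (b.2.map (renC B.length j)) = (occ b.2).map fun v => v * B.length + j := by
      unfold occ
      rw [List.flatMap_map, List.map_flatMap]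
      rfl
    unfold cnt
    rw [e]
    split_ifs with hx
    · have e2 : x = (x / B.length) * B.length + j := by
        rw [hx, mul_comm]; exact (Nat.div_add_mod x B.length).symm
      conv_lhs => rw [e2]
      rw [List.count_map_of_injective (occ b.2) (fun v => v * B.length + j) (by
        intro u v huv
        simp only [Nat.add_right_cancel_iff] at huv
        exact Nat.eq_of_mul_eq_mul_right (by omega) huv)]
      exact h b (List.mem_of_getElem? hb) _
    · rw [Nat.le_zero, List.count_eq_zero]
      intro hm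
      rw [List.mem_map] at hm
      obtain ⟨v, _, hv⟩ := hm
      apply hx
      rw [← hv, mul_comm, Nat.mul_add_mod, Nat.mod_eq_of_lt hj]
  refine (List.sum_le_sum h1).trans ?_
  have h2 : ∀ (L : List (ℕ × List Clause)) (k c : ℕ),
      ((L.zipIdx k).map fun bj => if bj.2 = c then D else 0).sum ≤ if c < k then 0 else D := by
    intro L
    induction L with
    | nil => intro k c; simp
    | cons b L ih =>
      intro k c
      rw [List.zipIdx_cons, List.map_cons, List.sum_cons]
      have := ih (k + 1) c
      simp only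
      split_ifs at this ⊢ <;> omega
  refine (h2 B 0 _).trans ?_
  simp

/-- **Improvement of an assignment on the blocks of a kind.** -/
theorem improve (B : List (ℕ × List Clause)) (i : ℕ) (As A : List ℕ)
    (hAs : ∀ b ∈ B, b.1 = i → unsat b.2 As = 0) :
    ∃ A' : List ℕ, (∀ x ∈ A', x ∈ occ (dj B)) ∧ A'.length ≤ (occ (dj B)).length ∧
      unsat (dj B) A' + (B.zipIdx.map fun bj => if bj.1.1 = i then
        unsat bj.1.2 (rs B.length bj.2 A) else 0).sum = unsat (dj B) A := by
  classical
  set n := B.length with hn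
  set pr : ℕ → Bool := fun v => if (B.getD (v % n) (0, [])).1 = i then decide (v / n ∈ As)
    else decide (v ∈ A) with hpr
  set A' := (occ (dj B)).filter pr with hA'
  refine ⟨A', fun x hx => (List.mem_filter.1 hx).1, List.length_filter_le _ _, ?_⟩
  rw [unsat_dj B A', unsat_dj B A, ← List.sum_map_add]
  congr 1
  refine List.map_congr_left ?_
  rintro ⟨b, j⟩ hbj
  obtain ⟨hj, hb⟩ := zipIdx_lt hbj
  rw [← hn] at hj
  simp only
  have hocc : ∀ c ∈ b.2, ∀ l ∈ lits c, l.1 * n + j ∈ occ (dj B) := by
    intro c hc l hl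
    unfold occ
    rw [List.mem_flatMap]
    refine ⟨renC n j c, ?_, ?_⟩
    · unfold dj
      rw [List.mem_flatMap]
      exact ⟨(b, j), hbj, List.mem_map_of_mem hc⟩
    · simp only [lits, renC, List.mem_cons, List.not_mem_nil, or_false, List.map_cons,
        List.map_nil] at hl ⊢
      rcases hl with rfl | rfl | rfl <;> simp
  have hbd : B.getD j (0, []) = b := by
    rw [List.getD_eq_getElem?_getD, hb]; rfl
  have e1 : ∀ v, (v * n + j) % n = j := by
    intro v; rw [mul_comm, Nat.mul_add_mod, Nat.mod_eq_of_lt hj]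
  have e2 : ∀ v, (v * n + j) / n = v := by
    intro v; rw [mul_comm, Nat.mul_add_div (by omega), Nat.div_eq_of_lt hj, add_zero]
  have hlit : ∀ c ∈ b.2, ∀ l ∈ lits c, (l.1 ∈ rs n j A' ↔
      if b.1 = i then l.1 ∈ As else l.1 ∈ rs n j A) := by
    intro c hc l hl
    have hv : pr (l.1 * n + j) = if b.1 = i then decide (l.1 ∈ As) else
        decide (l.1 * n + j ∈ A) := by
      simp only [hpr, e1, e2, hbd]
    rw [mem_rs hj, mem_rs hj, hA', List.mem_filter, hv]
    have ho := hocc c hc l hl
    by_cases hbi : b.1 = i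
    · rw [if_pos hbi, if_pos hbi, decide_eq_true_eq]
      exact ⟨fun h => h.2, fun h => ⟨ho, h⟩⟩
    · rw [if_neg hbi, if_neg hbi, decide_eq_true_eq]
      exact ⟨fun h => h.2, fun h => ⟨ho, h⟩⟩
  by_cases hbi : b.1 = i
  · rw [if_pos hbi]
    have h1 : unsat b.2 (rs n j A') = unsat b.2 As := by
      have := unsat_map_congr b.2 (fun c => c) (fun c => c) (rs n j A') As (by
        intro c hc
        rw [clauseSat_iff, clauseSat_iff]
        unfold LitTrue
        rw [hlit c hc c.1 (by simp [lits]), hlit c hc c.2.1 (by simp [lits]),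
          hlit c hc c.2.2 (by simp [lits]), if_pos hbi, if_pos hbi, if_pos hbi])
      rw [List.map_id'] at this
      exact this
    rw [h1, hAs b (List.mem_of_getElem? hb) hbi, zero_add]
  · rw [if_neg hbi, add_zero]
    have := unsat_map_congr b.2 (fun c => c) (fun c => c) (rs n j A') (rs n j A) (by
        intro c hc
        rw [clauseSat_iff, clauseSat_iff]
        unfold LitTrue
        rw [hlit c hc c.1 (by simp [lits]), hlit c hc c.2.1 (by simp [lits]),
          hlit c hc c.2.2 (by simp [lits]), if_neg hbi, if_neg hbi, if_neg hbi])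
    rw [List.map_id'] at this
    exact this

/-! ### Copies of comparable total size -/

/-- The total size of the formulas. -/
def tot (k : ℕ) (F : ℕ → List Clause) : ℕ := ((List.range k).flatMap F).length

/-- Copies of the formulas. -/
def cps (k : ℕ) (F : ℕ → List Clause) : List (ℕ × List Clause) :=
  (List.range k).flatMap fun i => (List.range (tot k F / (F i).length)).map fun _ => (i, F i)

theorem tot_eq (k : ℕ) (F : ℕ → List Clause) : tot k F = ∑ i ∈ range k, (F i).length := by
  unfold tot
  rw [List.length_flatMap, sum_range_list]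

theorem mem_cps {k : ℕ} {F : ℕ → List Clause} {b : ℕ × List Clause} (h : b ∈ cps k F) :
    b.1 < k ∧ b.2 = F b.1 := by
  unfold cps at h
  rw [List.mem_flatMap] at h
  obtain ⟨i, hi, h⟩ := h
  rw [List.mem_map] at h
  obtain ⟨_, _, rfl⟩ := h
  exact ⟨List.mem_range.1 hi, rfl⟩

theorem sum_cps (k : ℕ) (F : ℕ → List Clause) (g : ℕ × List Clause → ℕ) :
    ((cps k F).map g).sum = ∑ i ∈ range k, tot k F / (F i).length * g (i, F i) := by
  unfold cps
  rw [List.map_flatMap, List.flatMap_def, List.sum_flatten, List.map_map, sum_range_list]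
  refine sum_congr rfl fun i _ => ?_
  simp [List.map_map]

theorem length_dj_cps (k : ℕ) (F : ℕ → List Clause) : (dj (cps k F)).length ≤ k * tot k F := by
  rw [length_dj, sum_cps]
  have h : ∀ i ∈ range k, tot k F / (F i).length * (F i).length ≤ tot k F :=
    fun i _ => Nat.div_mul_le_self _ _
  refine (sum_le_sum h).trans ?_
  rw [sum_const, card_range, smul_eq_mul]

theorem copies_le {k : ℕ} {F : ℕ → List Clause} (hF : ∀ i < k, F i ≠ []) {i : ℕ} (hi : i < k) :
    tot k F ≤ 2 * (tot k F / (F i).length * (F i).length) ∧ 1 ≤ tot k F := by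
  have h1 : 1 ≤ (F i).length := List.length_pos_iff.2 (hF i hi)
  have h2 : (F i).length ≤ tot k F := by
    rw [tot_eq]
    exact single_le_sum (f := fun i => (F i).length) (fun _ _ => Nat.zero_le _) (mem_range.2 hi)
  have h3 := Nat.div_add_mod (tot k F) (F i).length
  have h4 := Nat.mod_lt (tot k F) (show (F i).length > 0 by omega)
  have h5 : 1 ≤ tot k F / (F i).length := (Nat.one_le_div_iff (by omega)).2 h2
  have h6 : (F i).length ≤ tot k F / (F i).length * (F i).length := Nat.le_mul_of_pos_left _ h5
  rw [mul_comm (F i).length] at h3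
  exact ⟨by omega, by omega⟩

theorem dj_ne {k : ℕ} {F : ℕ → List Clause} (hk : 1 ≤ k) (hF : ∀ i < k, F i ≠ []) :
    dj (cps k F) ≠ [] := by
  intro h
  have h1 : (dj (cps k F)).length = 0 := by rw [h]; rfl
  rw [length_dj, sum_cps] at h1
  change ∑ i ∈ range k, tot k F / (F i).length * (F i).length = 0 at h1
  obtain ⟨h2, h3⟩ := copies_le hF (show 0 < k from hk)
  have h4 := single_le_sum (f := fun i => tot k F / (F i).length * (F i).length)
    (fun _ _ => Nat.zero_le _) (mem_range.2 (show 0 < k from hk))
  omega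

/-- If an assignment is bad on all copies of a satisfiable formula, it can be much improved. -/
theorem cps_improve {k : ℕ} {F : ℕ → List Clause} (hF : ∀ i < k, F i ≠ []) {i K : ℕ} (hi : i < k)
    (As A : List ℕ) (hAs : unsat (F i) As = 0)
    (hbad : ∀ bj ∈ (cps k F).zipIdx, bj.1.1 = i →
      (F i).length ≤ K * unsat bj.1.2 (rs (cps k F).length bj.2 A)) :
    ∃ A' : List ℕ, (∀ x ∈ A', x ∈ occ (dj (cps k F))) ∧
      A'.length ≤ (occ (dj (cps k F))).length ∧
      2 * K * numSat (dj (cps k F)) A + tot k F ≤ 2 * K * numSat (dj (cps k F)) A' := by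
  obtain ⟨A', h1, h2, h3⟩ := improve (cps k F) i As A (by
    intro b hb hbi
    rw [(mem_cps hb).2, hbi]
    exact hAs)
  refine ⟨A', h1, h2, ?_⟩
  set S := ((cps k F).zipIdx.map fun bj => if bj.1.1 = i then
        unsat bj.1.2 (rs (cps k F).length bj.2 A) else 0).sum with hS
  have h4 : ((cps k F).zipIdx.map fun bj => if bj.1.1 = i then (F i).length else 0).sum ≤
      K * S := by
    rw [hS, ← List.sum_map_mul_left]
    refine List.sum_le_sum ?_
    intro bj hbj
    split_ifs with h
    · exact hbad bj hbj h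
    · exact Nat.zero_le _
  have h5 : ((cps k F).zipIdx.map fun bj => if bj.1.1 = i then (F i).length else 0) =
      (cps k F).map fun b => if b.1 = i then (F i).length else 0 := by
    conv_rhs => rw [← List.zipIdx_map_fst 0 (cps k F), List.map_map]
    rfl
  rw [h5, sum_cps] at h4
  have h6 := single_le_sum (f := fun i' => tot k F / (F i').length *
    (if i' = i then (F i).length else 0)) (fun _ _ => Nat.zero_le _) (mem_range.2 hi)
  simp only [if_true] at h6
  obtain ⟨h7, _⟩ := copies_le hF hi
  have h8 := unsat_add (dj (cps k F)) A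
  have h9 := unsat_add (dj (cps k F)) A'
  have h10 : tot k F ≤ 2 * (K * S) := by
    refine h7.trans (Nat.mul_le_mul_left 2 (h6.trans ?_))
    exact h4
  have h11 : numSat (dj (cps k F)) A' = numSat (dj (cps k F)) A + S := by omega
  rw [h11]
  have : 2 * K * (numSat (dj (cps k F)) A + S) = 2 * K * numSat (dj (cps k F)) A + 2 * (K * S) := by
    ring
  omega

end Pool.Agent.H243R3.PCP
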