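import Pool.Agent.H243R3.PCP.Lev

/-!
# The first constraint graph
-/

namespace Pool.Agent.NPC.DP

open Pool.Agent.H243R3.PCP Pool.Agent.NPC.TP

section

variable {V : Type}

/-- The literals of a clause. -/
def ltr (c : Lit V × Lit V × Lit V) (p : ℕ) : Lit V :=
  if p = 0 then c.1 else if p = 1 then c.2.1 else c.2.2

/-- The table of the constraint between a clause and its literal number `p`. -/
def tbl (p : ℕ) (s : Bool × Bool × Bool) : List Bool := (List.range 256).map fun z =>
  decide ((z / 16).testBit p = decide (z % 16 % 2 = 1)) &&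
    (decide ((z / 16).testBit 0 = s.1) || decide ((z / 16).testBit 1 = s.2.1) ||
      decide ((z / 16).testBit 2 = s.2.2))

theorem rel_tbl (p : ℕ) (s : Bool × Bool × Bool) {a b : ℕ} (ha : a < 16) (hb : b < 16) :
    rel (tbl p s) a b = (decide (a.testBit p = decide (b % 2 = 1)) &&
    (decide (a.testBit 0 = s.1) || decide (a.testBit 1 = s.2.1) ||
      decide (a.testBit 2 = s.2.2))) := by
  unfold tbl
  rw [rel_tab _ ha hb, show (16 * a + b) / 16 = a by omega, show (16 * a + b) % 16 = b by omega]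

/-- The signs of a clause. -/
def sgs (c : Lit V × Lit V × Lit V) : Bool × Bool × Bool := (c.1.1, c.2.1.1, c.2.2.1)

variable [TEnc V]

/-- The constraints of a clause. -/
noncomputable def iniC (ψ : List (Lit V × Lit V × Lit V)) (cj : (Lit V × Lit V × Lit V) × ℕ) :
    List Con :=
  (List.range 3).map fun p => (2 * cj.2 + 1, 2 * index (vars3 ψ) (ltr cj.1 p).2, tbl p (sgs cj.1))

/-- The trivial constraint. -/
def triv : Con := (0, 0, (List.range 256).map fun _ => true)

/-- The constraints of a formula. -/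
noncomputable def ini (ψ : List (Lit V × Lit V × Lit V)) : List Con :=
  triv :: ψ.zipIdx.flatMap (iniC ψ)

/-- The first graph. -/
noncomputable def pad (t : ℕ) (ψ : List (Lit V × Lit V × Lit V)) : List Con :=
  (List.range t).flatMap fun _ => ini ψ

theorem viol_eq_zero {G : List Con} {τ : ℕ → ℕ} : viol G τ = 0 ↔ ∀ c ∈ G, sat τ c = true := by
  unfold viol
  rw [List.countP_eq_zero]
  simp

theorem length_pad (t : ℕ) (ψ : List (Lit V × Lit V × Lit V)) : t ≤ (pad t ψ).length := by
  unfold pad
  rw [List.length_flatMap]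
  simp only [List.map_const', List.sum_replicate, List.length_range, smul_eq_mul]
  exact Nat.le_mul_of_pos_right _ (by simp [ini])

theorem pad_complete (t : ℕ) (ψ : List (Lit V × Lit V × Lit V)) (τ : V → Bool)
    (h : ∀ c ∈ ψ, τ c.1.2 = c.1.1 ∨ τ c.2.1.2 = c.2.1.1 ∨ τ c.2.2.2 = c.2.2.1) :
    ∃ τ', viol (pad t ψ) τ' = 0 := by
  let τ' : ℕ → ℕ := fun x => if x % 2 = 0 then (match (vars3 ψ)[x / 2]? with
      | some v => if τ v then 1 else 0
      | none => 0) else (match ψ[x / 2]? with
      | some c => bits4 fun p => τ (ltr c p).2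
      | none => 0)
  refine ⟨τ', viol_eq_zero.2 ?_⟩
  intro c hc
  unfold pad at hc
  rw [List.mem_flatMap] at hc
  obtain ⟨_, _, hc⟩ := hc
  unfold ini at hc
  rw [List.mem_cons] at hc
  rcases hc with rfl | hc
  · unfold sat triv
    simp only
    rw [rel_tab _ (Nat.mod_lt _ (by norm_num)) (Nat.mod_lt _ (by norm_num))]
  · rw [List.mem_flatMap] at hc
    obtain ⟨⟨d, j⟩, hdj, hc⟩ := hc
    rw [List.mem_zipIdx_iff_getElem?] at hdj
    simp only at hdj
    have hd : d ∈ ψ := List.mem_of_getElem? hdj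
    unfold iniC at hc
    rw [List.mem_map] at hc
    obtain ⟨p, hp, rfl⟩ := hc
    rw [List.mem_range] at hp
    have e1 : τ' (2 * j + 1) = bits4 fun p => τ (ltr d p).2 := by
      simp only [τ']
      rw [if_neg (by omega), show (2 * j + 1) / 2 = j by omega, hdj]
    have hm : (ltr d p).2 ∈ vars3 ψ := by
      have := mem_vars3 hd
      unfold ltr
      split_ifs
      · exact this.1
      · exact this.2.1
      · exact this.2.2
    have e2 : τ' (2 * index (vars3 ψ) (ltr d p).2) = if τ (ltr d p).2 then 1 else 0 := by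
      simp only [τ']
      rw [if_pos (by omega), show 2 * index (vars3 ψ) (ltr d p).2 / 2 =
        index (vars3 ψ) (ltr d p).2 by omega, getElem?_index hm]
    unfold sat
    simp only
    rw [rel_tbl _ _ (Nat.mod_lt _ (by norm_num)) (Nat.mod_lt _ (by norm_num)), e1, e2,
      Nat.mod_eq_of_lt (bits4_lt _)]
    rw [Bool.and_eq_true, decide_eq_true_eq, testBit_bits4 _ (by omega)]
    constructor
    · cases τ (ltr d p).2 <;> simp
    · rw [testBit_bits4 _ (by norm_num), testBit_bits4 _ (by norm_num),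
        testBit_bits4 _ (by norm_num)]
      rcases h d hd with h | h | h <;> simp [ltr, sgs, h]

/-- The truth assignment for an assignment of symbols. -/
noncomputable def toB (ψ : List (Lit V × Lit V × Lit V)) (τ' : ℕ → ℕ) (v : V) : Bool :=
  decide (τ' (2 * index (vars3 ψ) v) % 16 % 2 = 1)

theorem pad_sound {t : ℕ} (ht : 1 ≤ t) (ψ : List (Lit V × Lit V × Lit V)) (τ' : ℕ → ℕ)
    (h : viol (pad t ψ) τ' = 0) : ∀ c ∈ ψ, toB ψ τ' c.1.2 = c.1.1 ∨ toB ψ τ' c.2.1.2 = c.2.1.1 ∨
      toB ψ τ' c.2.2.2 = c.2.2.1 := by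
  intro c hc
  rw [viol_eq_zero] at h
  obtain ⟨j, hj, hjc⟩ := List.getElem_of_mem hc
  have key : ∀ p < 3, ((τ' (2 * j + 1) % 16).testBit p = toB ψ τ' (ltr c p).2) ∧
      (((τ' (2 * j + 1) % 16).testBit 0 = (sgs c).1 ∨
        (τ' (2 * j + 1) % 16).testBit 1 = (sgs c).2.1) ∨
        (τ' (2 * j + 1) % 16).testBit 2 = (sgs c).2.2) := by
    intro p hp
    have h1 := h (2 * j + 1, 2 * index (vars3 ψ) (ltr c p).2, tbl p (sgs c)) (by
      unfold pad
      rw [List.mem_flatMap]
      refine ⟨0, List.mem_range.2 (by omega), ?_⟩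
      unfold ini
      refine List.mem_cons_of_mem _ ?_
      rw [List.mem_flatMap]
      refine ⟨(c, j), ?_, ?_⟩
      · rw [List.mem_zipIdx_iff_getElem?]
        simp only
        rw [List.getElem?_eq_getElem hj, hjc]
      · unfold iniC
        exact List.mem_map_of_mem (f := fun p => ((2 * j + 1, 2 * index (vars3 ψ) (ltr c p).2,
          tbl p (sgs c)) : Con)) (List.mem_range.2 hp))
    unfold sat at h1
    simp only at h1
    rw [rel_tbl _ _ (Nat.mod_lt _ (by norm_num)) (Nat.mod_lt _ (by norm_num))] at h1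
    simpa [toB] using h1
  obtain ⟨a0, b0⟩ := key 0 (by norm_num)
  obtain ⟨a1, _⟩ := key 1 (by norm_num)
  obtain ⟨a2, _⟩ := key 2 (by norm_num)
  rw [a0, a1, a2] at b0
  simp only [ltr, sgs] at b0
  simp only [if_true, one_ne_zero, if_false, OfNat.ofNat_ne_zero, OfNat.ofNat_ne_one] at b0
  rcases b0 with (h | h) | h
  · exact Or.inl h
  · exact Or.inr (Or.inl h)
  · exact Or.inr (Or.inr h)

/-! ### From the split formula to the formula -/

omit [TEnc V] in
theorem split3_back (φ : List (List (Bool × V))) (σ : SV V → Bool)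
    (hσ : ∀ c ∈ split3 φ, σ c.1.2 = c.1.1 ∨ σ c.2.1.2 = c.2.1.1 ∨ σ c.2.2.2 = c.2.2.1) :
    ∀ c ∈ φ, ∃ l ∈ c, σ (Sum.inl l.2) = l.1 := by
  intro cl hc
  obtain ⟨i, hi, hic⟩ := List.getElem_of_mem hc
  have hmem : ∀ d ∈ splitClause i cl, d ∈ split3 φ := by
    intro d hd
    rw [split3, List.mem_flatMap]
    refine ⟨(cl, i), ?_, hd⟩
    rw [List.mem_zipIdx_iff_getElem?]
    simp only
    rw [List.getElem?_eq_getElem hi, hic]
  have h0 : σ (aux i 0) = true := unit3_holds.1 (fun d hd => hσ d (hmem d (by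
    rw [splitClause]; exact List.mem_append_left _ hd)))
  have hN : σ (aux i cl.length) = false := unit3_holds.1 (fun d hd => hσ d (hmem d (by
    rw [splitClause]; exact List.mem_append_right _ (List.mem_append_left _ hd))))
  by_contra hne
  push Not at hne
  have key : ∀ j ≤ cl.length, σ (aux i j) = true := by
    intro j
    induction j with
    | zero => intro _; exact h0
    | succ j ih =>
      intro hj
      have h1 := ih (by omega)
      have hj' : j < cl.length := by omega
      have h2 := hσ ((false, aux i j), (cl[j].1, Sum.inl cl[j].2), (true, aux i (j + 1)))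
        (hmem _ (by
          rw [splitClause]
          refine List.mem_append_right _ (List.mem_append_right _ ?_)
          rw [List.mem_map]
          refine ⟨(cl[j], j), ?_, rfl⟩
          rw [List.mem_zipIdx_iff_getElem?]
          simp only
          rw [List.getElem?_eq_getElem hj']))
      simp only at h2
      rcases h2 with h2 | h2 | h2
      · rw [h1] at h2; simp at h2
      · exact absurd h2 (hne _ (List.getElem_mem hj'))
      · exact h2
  have := key cl.length le_rfl
  rw [hN] at this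
  simp at this

/-! ### Polynomial time -/

variable {α : Type} [TEnc α]

theorem poly_vars3 {ψ : α → List (Lit V × Lit V × Lit V)} (h : Poly ψ) :
    Poly (fun a => vars3 (ψ a)) := by
  unfold vars3
  exact Poly.flatMap (F := fun _ (c : Lit V × Lit V × Lit V) => [c.1.2, c.2.1.2, c.2.2.2]) h
    (CL.pList3 (Poly.snd (Poly.fst (Poly.snd Poly.id)))
      (Poly.snd (Poly.fst (Poly.snd (Poly.snd Poly.id))))
      (Poly.snd (Poly.snd (Poly.snd (Poly.snd Poly.id)))))

theorem poly_iniC {ψ : α → List (Lit V × Lit V × Lit V)} {cj : α → (Lit V × Lit V × Lit V) × ℕ}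
    (h : Poly ψ) (hc : Poly cj) : Poly (fun a => iniC (ψ a) (cj a)) := by
  unfold iniC
  refine poly_map_const _ fun p _ => ?_
  have f1 : Poly (fun a => (cj a).1) := Poly.fst hc
  have f2 : Poly (fun a => ltr (cj a).1 p) := by
    unfold ltr
    exact Poly.ite (Poly.const _) (Poly.fst f1) (Poly.ite (Poly.const _) (Poly.fst (Poly.snd f1))
      (Poly.snd (Poly.snd f1)))
  have f3 : Poly (fun a => sgs (cj a).1) := by
    unfold sgs
    exact Poly.pair (Poly.fst (Poly.fst f1)) (Poly.pair (Poly.fst (Poly.fst (Poly.snd f1)))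
      (Poly.fst (Poly.snd (Poly.snd f1))))
  have f4 : Poly (fun a => tbl p (sgs (cj a).1)) := poly_fin f3 (Set.toFinite _) (tbl p)
  have f5 : Poly (fun a => 2 * index (vars3 (ψ a)) (ltr (cj a).1 p).2) :=
    Poly.mul (Poly.const 2) (Poly.index (poly_vars3 h) (Poly.snd f2))
  have f6 : Poly (fun a => 2 * (cj a).2 + 1) :=
    Poly.add (Poly.mul (Poly.const 2) (Poly.snd hc)) (Poly.const 1)
  exact Poly.pair f6 (Poly.pair f5 f4)

theorem poly_pad (t : ℕ) {ψ : α → List (Lit V × Lit V × Lit V)} (h : Poly ψ) :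
    Poly (fun a => pad t (ψ a)) := by
  unfold pad
  refine poly_flatMap_const _ fun _ _ => ?_
  unfold ini
  refine Poly.cons (Poly.const _) (Poly.flatMap (F := fun a cj => iniC (ψ a) cj) (Poly.zipIdx h) ?_)
  exact poly_iniC (h.comp (Poly.fst Poly.id)) (Poly.snd Poly.id)

theorem poly_toB {ψ : α → List (Lit V × Lit V × Lit V)} {G : α → List Con} {L : α → List ℕ}
    {v : α → V} (hψ : Poly ψ) (hG : Poly G) (hL : Poly L) (hv : Poly v) :
    Poly (fun a => toB (ψ a) (asg (G a) (L a)) (v a)) := by
  unfold toB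
  exact Poly.decide_eq (Poly.mod (Poly.mod (poly_asg hG hL (Poly.mul (Poly.const 2)
    (Poly.index (poly_vars3 hψ) hv))) (Poly.const 16)) (Poly.const 2)) (Poly.const 1)

end

end Pool.Agent.NPC.DP
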