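import Pool.Agent.H243R3.PCP.Occ
import Pool.Agent.H243R3.PCP.Init

/-!
# The PCP theorem, with extraction of certificates
-/

namespace Pool.Agent.NPC.DP

open Pool.Agent.H243R3.PCP Pool.Agent.NPC.TP Pool.Agent.NPC.CL

variable {α : Type} [TEnc α]

/-! ### The final formula is computable in polynomial time -/

theorem poly_lt8 {s s' : α → ℕ} (hs : Poly s) (hs' : Poly s') (a b j : ℕ) :
    Poly (fun x => lt8 (s x) (s' x) a b j) := by
  unfold lt8
  exact Poly.ite (Poly.const _)
    (Poly.pair (Poly.mul (Poly.const _) (Poly.add (Poly.mul (Poly.const _) hs) (Poly.const _)))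
      (Poly.const _))
    (Poly.pair (Poly.mul (Poly.const _) (Poly.add (Poly.mul (Poly.const _) hs') (Poly.const _)))
      (Poly.const _))

theorem poly_zn {y : α → ℕ} (hy : Poly y) (k : ℕ) : Poly (fun x => zn (y x) k) := by
  unfold zn
  exact Poly.add (Poly.mul (Poly.const _) (Poly.add (Poly.mul hy (Poly.const _)) (Poly.const _)))
    (Poly.const _)

theorem poly_cl6 {l : α → ℕ → H243R3.TP.Lit} {z : α → ℕ → ℕ} (hl : ∀ j, Poly (fun x => l x j))
    (hz : ∀ k, Poly (fun x => z x k)) : Poly (fun x => cl6 (l x) (z x)) := by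
  unfold cl6
  have zt : ∀ k, Poly (fun x => ((z x k, true) : H243R3.TP.Lit)) := fun k =>
    Poly.pair (hz k) (Poly.const _)
  have zf : ∀ k, Poly (fun x => ((z x k, false) : H243R3.TP.Lit)) := fun k =>
    Poly.pair (hz k) (Poly.const _)
  exact Poly.cons (Poly.pair (hl 0) (Poly.pair (hl 1) (zt 0)))
    (Poly.cons (Poly.pair (zf 0) (Poly.pair (hl 2) (zt 1)))
    (Poly.cons (Poly.pair (zf 1) (Poly.pair (hl 3) (zt 2)))
    (Poly.cons (Poly.pair (zf 2) (Poly.pair (hl 4) (zt 3)))
    (Poly.cons (Poly.pair (zf 3) (Poly.pair (hl 5) (zt 4)))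
    (Poly.cons (Poly.pair (zf 4) (Poly.pair (hl 6) (hl 7))) (Poly.const []))))))

theorem poly_bl {G : α → List Con} {s : α → ℕ} (hG : Poly G) (hs : Poly s) (i p : ℕ) :
    Poly (fun x => bl (G x) (s x) i p) := by
  unfold bl
  have hy : Poly (fun x => yn (s x) i p) := by
    unfold yn
    exact Poly.add (Poly.mul (Poly.add (Poly.mul hs (Poly.const _)) (Poly.const _)) (Poly.const _))
      (Poly.const _)
  have hr : Poly (fun x => (rotG (G x) (s x) i).1) := Poly.fst (poly_rotG hG hs (Poly.const i))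
  exact Poly.ite (Poly.decide_bool (poly_conG hG hs i _ _)) (Poly.const [])
    (poly_cl6 (fun j => poly_lt8 hs hr _ _ j) fun k => poly_zn hy k)

theorem poly_phi {G : α → List Con} (hG : Poly G) : Poly (fun x => phi (G x)) := by
  have hN : Poly (fun x => 8 * (2 * (G x).length)) :=
    Poly.mul (Poly.const _) (upoly_2len hG).toPoly
  have f1 : Poly (fun x : α × ℕ => G x.1) := hG.comp (Poly.fst Poly.id)
  have f2 : Poly (fun x : α × ℕ => x.2) := Poly.snd Poly.id
  have h1 : Poly (fun x : α × ℕ => (List.range 130).flatMap fun i =>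
      (List.range 256).flatMap fun p => bl (G x.1) x.2 i p) := by
    refine poly_flatMap_const _ fun i _ => ?_
    refine poly_flatMap_const _ fun p _ => ?_
    exact poly_bl f1 f2 i p
  have h2 : Poly (fun x => (List.range (2 * (G x).length)).flatMap fun s =>
      (List.range 130).flatMap fun i => (List.range 256).flatMap fun p => bl (G x) s i p) :=
    Poly.flatMap (F := fun x s => (List.range 130).flatMap fun i =>
      (List.range 256).flatMap fun p => bl (G x) s i p) (upoly_2len hG).range h1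
  exact Poly.cons (Poly.pair (Poly.pair hN (Poly.const true)) (Poly.pair
    (Poly.pair hN (Poly.const false)) (Poly.pair hN (Poly.const true)))) h2

/-! ### From truth assignments to symbols -/

/-- The decoded list of symbols. -/
noncomputable def lk (G : List Con) (A : List ℕ) : List ℕ :=
  (List.range (2 * G.length)).map fun s => plu G (rA A) (nm G s)

theorem asg_lk (G : List Con) (A : List ℕ) {s : ℕ} (hs : s < 2 * G.length) :
    asg G (lk G A) (nm G s) = plu G (rA A) (nm G s) := by
  unfold asg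
  have hm : s ∈ cl G (nm G s) := mem_cl.2 ⟨hs, rfl⟩
  cases hh : (cl G (nm G s)).head? with
  | none =>
    rw [List.head?_eq_none_iff] at hh
    rw [hh] at hm
    simp at hm
  | some s' =>
    have h1 := mem_cl.1 (List.mem_of_head? hh)
    rw [Option.getD_some]
    unfold lk
    rw [List.getD_eq_getElem?_getD, List.getElem?_map, List.getElem?_range h1.1]
    simp only [Option.map_some, Option.getD_some]
    rw [h1.2]

theorem poly_mem {l : α → List ℕ} {x : α → ℕ} (hl : Poly l) (hx : Poly x) :
    Poly (fun a => decide (x a ∈ l a)) := by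
  refine (Poly.any (p := fun a y => decide (y = x a)) hl (Poly.decide_eq (Poly.snd Poly.id)
    (hx.comp (Poly.fst Poly.id)))).congr fun a => ?_
  by_cases h : x a ∈ l a
  · simp [h]
  · have : ∀ y ∈ l a, ¬ y = x a := fun y hy hyx => h (hyx ▸ hy)
    simp only [h, decide_false]
    rw [Bool.eq_false_iff]
    intro hc
    rw [List.any_eq_true] at hc
    obtain ⟨y, hy, hyx⟩ := hc
    exact this y hy (of_decide_eq_true hyx)

theorem poly_rA {A : α → List ℕ} {s : α → ℕ} (hA : Poly A) (hs : Poly s) :
    Poly (fun x => rA (A x) (s x)) := by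
  unfold rA bits4
  have h : ∀ j, Poly (fun x => decide (2 * (4 * s x + j) ∈ A x)) := fun j =>
    poly_mem hA (Poly.mul (Poly.const _) (Poly.add (Poly.mul (Poly.const _) hs) (Poly.const _)))
  exact Poly.add (Poly.add (Poly.add
    (Poly.ite (Poly.decide_bool (h 0)) (Poly.const _) (Poly.const _))
    (Poly.ite (Poly.decide_bool (h 1)) (Poly.const _) (Poly.const _)))
    (Poly.ite (Poly.decide_bool (h 2)) (Poly.const _) (Poly.const _)))
    (Poly.ite (Poly.decide_bool (h 3)) (Poly.const _) (Poly.const _))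

theorem poly_lk {G : α → List Con} {A : α → List ℕ} (hG : Poly G) (hA : Poly A) :
    Poly (fun x => lk (G x) (A x)) := by
  have f1 : Poly (fun x : α × ℕ => G x.1) := hG.comp (Poly.fst Poly.id)
  have f2 : Poly (fun x : α × ℕ => x.2) := Poly.snd Poly.id
  have f3 : Poly (fun y : (α × ℕ) × ℕ => A y.1.1) := hA.comp (Poly.fst (Poly.fst Poly.id))
  have f4 : Poly (fun y : (α × ℕ) × ℕ => y.2) := Poly.snd Poly.id
  have h1 : Poly (fun x : α × ℕ => plu (G x.1) (rA (A x.1)) (nm (G x.1) x.2)) :=
    poly_plu (ρ := fun x : α × ℕ => rA (A x.1)) f1 (poly_rA f3 f4) (poly_nm f1 f2)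
  exact Poly.map (F := fun a s => plu (G a) (rA (A a)) (nm (G a) s)) (upoly_2len hG).range h1

/-- The constant of the gap. -/
def K0 : ℕ := 2560 * c1 * 417 * 400000

/-- Few unsatisfied clauses: few violated constraints. -/
theorem phi_gap (G : List Con) (hG : 1 ≤ G.length) (A : List ℕ)
    (h : K0 * unsat (phi G) A < (phi G).length) :
    2560 * c1 * viol G (asg G (lk G A)) < G.length := by
  have h1 : viol G (asg G (lk G A)) = viol G (plu G (rA A)) :=
    viol_congr fun _ hs => asg_lk G A hs
  have h2 := viol_le G (rA A) (rA_lt A)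
  have h3 : viol G (plu G (rA A)) ≤ 417 * (FG G (rA A)).card := by exact_mod_cast h2
  have h4 := phi_sound G A
  have h5 := length_phi G
  rw [h1]
  set v := viol G (plu G (rA A))
  set u := unsat (phi G) A
  have h6 : v ≤ 417 * u := h3.trans (Nat.mul_le_mul_left _ h4)
  have h7 : 400000 * (2560 * c1 * v) ≤ K0 * u := by
    calc 400000 * (2560 * c1 * v) ≤ 400000 * (2560 * c1 * (417 * u)) :=
          Nat.mul_le_mul_left _ (Nat.mul_le_mul_left _ h6)
      _ = K0 * u := by unfold K0; ring
  have h8 : 400000 * (2560 * c1 * v) < 400000 * G.length := by omega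
  exact lt_of_mul_lt_mul_left h8 (by norm_num)

/-! ### The PCP theorem -/

/-- The number of walks' length; a large constant. -/
def t0 : ℕ := 32 * 417 * 20800 * c1

theorem length_fin {t : ℕ} (ht1 : 1 ≤ t) {G : List Con} (hG : 1 ≤ G.length) :
    1 ≤ (fin t G).length := by
  unfold fin
  rw [length_iter]
  have h1 : 1 ≤ fac t ^ nit G := Nat.one_le_pow _ _ (fac_pos ht1)
  exact le_trans h1 (Nat.le_mul_of_pos_right _ hG)

theorem fin_sound {t : ℕ} (ht : 32 * 417 * 20800 * c1 ≤ t) (G : List Con) (hG : t ≤ G.length)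
    (A : List ℕ) (hA : K0 * unsat (phi (fin t G)) A < (phi (fin t G)).length) :
    viol G (asg G (dec t G (lk (fin t G) A))) = 0 := by
  have ht1 : 1 ≤ t := le_trans (by unfold c1; norm_num) ht
  exact dec_sound ht G hG _ (phi_gap _ (length_fin ht1 (ht1.trans hG)) A hA)

theorem fin_compl (t : ℕ) (G : List Con) (h : ∃ τ, viol G τ = 0) :
    ∃ A, (H243R3.TP.max3Sat Bd).feas (phi (fin t G)) A ∧ unsat (phi (fin t G)) A = 0 := by
  obtain ⟨τ₁, h1⟩ := iter_complete t (nit G) G h
  obtain ⟨A, hA1, hA2, hA3⟩ := phi_complete (fin t G) τ₁ h1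
  exact ⟨A, ⟨hA1, hA2⟩, hA3⟩

section

variable {U : Type} [TEnc U]

/-- The first graph of a formula. -/
noncomputable def gr (t : ℕ) (φ : List (List (Bool × U))) : List Con := pad t (split3 φ)

theorem length_gr (t : ℕ) (φ : List (List (Bool × U))) : t ≤ (gr t φ).length := length_pad t _

/-- The decoded truth assignment. -/
noncomputable def tau (t : ℕ) (φ : List (List (Bool × U))) (A : List ℕ) (u : U) : Bool :=
  toB (split3 φ) (asg (gr t φ) (dec t (gr t φ) (lk (fin t (gr t φ)) A))) (Sum.inl u)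

theorem tau_sound {t : ℕ} (ht : 32 * 417 * 20800 * c1 ≤ t) (φ : List (List (Bool × U)))
    (A : List ℕ) (hA : K0 * unsat (phi (fin t (gr t φ))) A < (phi (fin t (gr t φ))).length) :
    Holds (tau t φ A) φ := by
  have ht1 : 1 ≤ t := le_trans (by unfold c1; norm_num) ht
  have h2 := fin_sound ht (gr t φ) (length_gr t φ) A hA
  have h3 := pad_sound ht1 (split3 φ) _ h2
  exact split3_back φ _ h3

theorem gr_compl (t : ℕ) (φ : List (List (Bool × U))) (h : ∃ σ, Holds σ φ) :
    ∃ A, (H243R3.TP.max3Sat Bd).feas (phi (fin t (gr t φ))) A ∧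
      unsat (phi (fin t (gr t φ))) A = 0 := by
  obtain ⟨σ', hσ'⟩ := (split3_sat φ).1 h
  exact fin_compl t _ (pad_complete t (split3 φ) σ' hσ')

theorem poly_gr (t : ℕ) {φ : α → List (List (Bool × U))} (h : Poly φ) :
    Poly (fun a => gr t (φ a)) := by
  unfold gr
  exact poly_pad t (split3_poly.comp h)

theorem poly_tau (t : ℕ) {φ : α → List (List (Bool × U))} {A : α → List ℕ} {u : α → U}
    (h : Poly φ) (hA : Poly A) (hu : Poly u) : Poly (fun a => tau t (φ a) (A a) (u a)) := by
  unfold tau
  have h1 := poly_gr t h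
  have h2 := poly_fin_graph t h1
  exact poly_toB (split3_poly.comp h) h1 (poly_dec t h1 (poly_lk h2 hA)) (Poly.inl hu)

end

/-- **The PCP theorem**, for formulas with three literals per clause and boundedly many occurrences
of each variable, with extraction of certificates. -/
theorem pcp {V : List Bool → List Bool} (hV : PolyTime V) (p : Polynomial ℕ) :
    ∃ (red : List Bool → List H243R3.TP.Clause) (ext : List Bool → List ℕ → List Bool),
      Poly red ∧ Poly (fun z : List Bool × List ℕ => ext z.1 z.2) ∧ ∀ x,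
      (H243R3.TP.max3Sat Bd).valid (red x) ∧
      ((∃ w : List Bool, w.length ≤ p.eval x.length ∧ V (pairBits x w) = [true]) →
        ∃ A, (H243R3.TP.max3Sat Bd).feas (red x) A ∧ unsat (red x) A = 0) ∧
      ∀ A, K0 * unsat (red x) A < (red x).length →
        (ext x A).length ≤ p.eval x.length ∧ V (pairBits x (ext x A)) = [true] := by
  obtain ⟨U, iU, f, v0, v1, pf, pv0, pv1, h⟩ := cookLevin_ext hV p
  obtain ⟨t, ht⟩ : ∃ t, 32 * 417 * 20800 * c1 ≤ t := ⟨_, le_rfl⟩
  refine ⟨fun x => phi (fin t (gr t (f x))), fun x A => extW (p.eval x.length)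
    (fun j => tau t (f x) A (v0 j)) (fun j => tau t (f x) A (v1 j)),
    poly_phi (poly_fin_graph t (poly_gr t pf)), ?_, fun x => ⟨⟨phi_ne _, phi_occ _⟩, fun hw => ?_,
    fun A hA => ?_⟩⟩
  · -- polynomial time of the extraction
    have f1 : Poly (fun z : List Bool × List ℕ => z.1) := Poly.fst Poly.id
    have f2 : Poly (fun z : List Bool × List ℕ => z.2) := Poly.snd Poly.id
    have e1 : Poly (fun y : (List Bool × List ℕ) × ℕ => f y.1.1) :=
      pf.comp (Poly.fst (Poly.fst Poly.id))
    have e2 : Poly (fun y : (List Bool × List ℕ) × ℕ => y.1.2) := Poly.snd (Poly.fst Poly.id)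
    have k0 : Poly (fun y : (List Bool × List ℕ) × ℕ => tau t (f y.1.1) y.1.2 (v0 y.2)) :=
      poly_tau t e1 e2 (pv0.comp (Poly.snd Poly.id))
    have k1 : Poly (fun y : (List Bool × List ℕ) × ℕ => tau t (f y.1.1) y.1.2 (v1 y.2)) :=
      poly_tau t e1 e2 (pv1.comp (Poly.snd Poly.id))
    have g6 : Poly (fun z : List Bool × List ℕ => List.range (p.eval z.1.length)) :=
      (UPoly.eval (UPoly.length f1) p).range
    exact Poly.reverse (Poly.map (F := fun (z : List Bool × List ℕ) j => tau t (f z.1) z.2 (v1 j))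
      (Poly.filter (p := fun (z : List Bool × List ℕ) j => !(tau t (f z.1) z.2 (v0 j))) g6
        (Poly.not k0)) k1)
  · exact gr_compl t _ ((h x).1 hw)
  · exact (h x).2 _ (tau_sound ht _ A hA)

end Pool.Agent.NPC.DP
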