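import Pool.Agent.H243R3.PCP.Raw
import Pool.Agent.H243R3.PCP.Blk
import Pool.Agent.H243R3.PCP.Main

/-!
# The class APX, and the reduction of its problems to MAX-3SAT-B
-/

namespace Pool.Agent.H243R3.TP

open Pool.Agent.NPC

/-- **The class APX.** An optimization problem `P` (with at least one possible solution) belongs to
APX if

* it can be tested in polynomial time (by `isv`) whether a code is the code of an instance;
* for every instance `x` it can be tested in polynomial time (by `fe`) whether a bit string is the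
  code of a feasible solution of `x`;
* the codes of the feasible solutions are polynomially bounded in the length of the code of the
  instance, and their values `m x y` are nonnegative rational numbers computable in polynomial time
  (by `va`);
* for some constant `c`, a polynomial-time algorithm `ap` finds, for every instance, a feasible
  solution of performance ratio at most `c`.

Polynomial time is Mathlib's `Turing.TM2ComputableInPolyTime` for functions on bit strings. -/
def InAPX (P : OptProblem) : Prop :=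
  Nonempty P.Sol ∧
  ∃ (isv fe va ap : List Bool → List Bool) (q : Polynomial ℕ) (m : P.Inst → P.Sol → ℚ) (c : ℚ),
    PolyTime isv ∧ PolyTime fe ∧ PolyTime va ∧ PolyTime ap ∧
    (∀ x : P.Inst, isv (bits x) = [true] ↔ P.valid x) ∧
    ∀ x : P.Inst, P.valid x →
      (∀ w : List Bool, fe (pairBits (bits x) w) = [true] ↔ ∃ y : P.Sol, P.feas x y ∧ bits y = w) ∧
      (∀ y : P.Sol, P.feas x y → (bits y).length ≤ q.eval (bits x).length ∧ 0 ≤ m x y ∧
        P.val x y = m x y ∧ va (pairBits (bits x) (bits y)) = bits (m x y)) ∧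
      ∃ y : P.Sol, ap (bits x) = bits y ∧ P.Approx c x y

/-- **APX-hardness**: every problem in APX is AP-reducible to `Q`. -/
def APXHard (Q : OptProblem) : Prop := ∀ P : OptProblem, InAPX P → APReduces P Q

end Pool.Agent.H243R3.TP

namespace Pool.Agent.NPC.DP

open Pool.Agent.H243R3.PCP Pool.Agent.NPC.TP

variable {α : Type} [TEnc α]

/-! ### Values -/

/-- Numerator and denominator of a nonnegative rational number. -/
def nd (q : ℚ) : ℕ × ℕ := (q.num.natAbs, q.den)

/-- The value of a string. -/
def vl (va : List Bool → List Bool) (X w : List Bool) : ℕ × ℕ :=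
  match unbits ((Bool × ℕ) × ℕ) (va (pairBits X w)) with
  | none => (0, 1)
  | some p => (p.1.2, p.2)

theorem vl_eq {va : List Bool → List Bool} {X w : List Bool} {q : ℚ}
    (h : va (pairBits X w) = bits q) : vl va X w = nd q := by
  unfold vl
  rw [h]
  have : bits q = bits ((decide (q.num < 0), q.num.natAbs), q.den) := rfl
  rw [this, unbits_bits]
  rfl

/-- `ρ z ≤ w`. -/
def leM (ρ : ℚ) (z w : ℕ × ℕ) : Bool := decide (ρ.num.natAbs * (z.1 * w.2) ≤ ρ.den * (w.1 * z.2))

theorem eq_nd {q : ℚ} (h : 0 ≤ q) : q = ((nd q).1 : ℚ) / (nd q).2 := by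
  have h1 : ((q.num.natAbs : ℕ) : ℤ) = q.num := Int.natAbs_of_nonneg (Rat.num_nonneg.2 h)
  have h2 : ((q.num.natAbs : ℕ) : ℚ) = (q.num : ℚ) := by
    rw [← Int.cast_natCast (R := ℚ) q.num.natAbs, h1]
  unfold nd
  simp only
  rw [h2]
  exact (Rat.num_div_den q).symm

theorem leM_iff {ρ a b : ℚ} (h : 0 ≤ ρ) (ha : 0 ≤ a) (hb : 0 ≤ b) :
    leM ρ (nd a) (nd b) = true ↔ ρ * a ≤ b := by
  have e1 := eq_nd h
  have e2 := eq_nd ha
  have e3 := eq_nd hb
  have p1 : (0 : ℚ) < (nd ρ).2 := by exact_mod_cast ρ.pos
  have p2 : (0 : ℚ) < (nd a).2 := by exact_mod_cast a.pos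
  have p3 : (0 : ℚ) < (nd b).2 := by exact_mod_cast b.pos
  unfold leM
  rw [decide_eq_true_eq]
  conv_rhs => rw [e1, e2, e3]
  rw [div_mul_div_comm, div_le_div_iff₀ (by positivity) p3]
  change (nd ρ).1 * ((nd a).1 * (nd b).2) ≤ (nd ρ).2 * ((nd b).1 * (nd a).2) ↔ _
  rw [← Nat.cast_le (α := ℚ)]
  push_cast
  constructor
  · intro h; nlinarith
  · intro h; nlinarith

/-- `w` is `ρ` times as good as `z`. -/
def geM (mx : Bool) (ρ : ℚ) (z w : ℕ × ℕ) : Bool := bif mx then leM ρ z w else leM ρ w z

/-- `b` is `ρ` times as good as `a`. -/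
def bt (mx : Bool) (ρ a b : ℚ) : Prop := if mx = true then ρ * a ≤ b else ρ * b ≤ a

theorem geM_iff {mx : Bool} {ρ a b : ℚ} (h : 0 ≤ ρ) (ha : 0 ≤ a) (hb : 0 ≤ b) :
    geM mx ρ (nd a) (nd b) = true ↔ bt mx ρ a b := by
  unfold geM bt
  cases mx
  · simpa using leM_iff h hb ha
  · simpa using leM_iff h ha hb

/-- The final inequality. -/
theorem final_ineq {mx : Bool} {R C vT vr v' : ℚ} {k : ℕ} (hR : 1 ≤ R) (hk : C ≤ R ^ k)
    (hT : 0 ≤ vT) (hr : 0 ≤ vr) (hv : 0 ≤ v') (h0 : bt mx 1 vT vr)
    (hC : if mx = true then v' ≤ C * vT else vT ≤ C * v')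
    (hstep : ∀ i < k, bt mx (R ^ (i + 1)) vT v' → bt mx (R ^ (i + 1)) vT vr) :
    if mx = true then v' ≤ R * vr else vr ≤ R * v' := by
  cases mx with
  | true =>
    simp only [bt, if_true] at h0 hC hstep ⊢
    have key : ∀ i ≤ k, R ^ i * vT ≤ vr ∨ v' ≤ R * vr := by
      intro i
      induction i with
      | zero => intro _; left; simpa using h0
      | succ i ih =>
        intro hi
        rcases ih (by omega) with h | h
        · by_cases h1 : R ^ (i + 1) * vT ≤ v'
          · left; exact hstep i (by omega) h1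
          · right
            push Not at h1
            have : R ^ (i + 1) * vT = R * (R ^ i * vT) := by ring
            nlinarith
        · right; exact h
    rcases key k le_rfl with h | h
    · have h1 : C * vT ≤ R ^ k * vT := mul_le_mul_of_nonneg_right hk hT
      nlinarith
    · exact h
  | false =>
    simp only [bt, Bool.false_eq_true, if_false] at h0 hC hstep ⊢
    have hRi : ∀ i : ℕ, 0 < R ^ i := fun i => pow_pos (by linarith) i
    have key : ∀ i ≤ k, R ^ i * vr ≤ vT ∨ vr ≤ R * v' := by
      intro i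
      induction i with
      | zero => intro _; left; simpa using h0
      | succ i ih =>
        intro hi
        rcases ih (by omega) with h | h
        · by_cases h1 : R ^ (i + 1) * v' ≤ vT
          · left; exact hstep i (by omega) h1
          · right
            push Not at h1
            have e : R ^ (i + 1) * v' = R ^ i * (R * v') := by ring
            have h2 : R ^ i * vr ≤ R ^ i * (R * v') := by linarith
            exact le_of_mul_le_mul_left h2 (hRi i)
        · right; exact h
    rcases key k le_rfl with h | h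
    · have h1 : C * v' ≤ R ^ k * v' := mul_le_mul_of_nonneg_right hk hv
      have h2 : R ^ k * vr ≤ R ^ k * v' := by linarith
      have h3 := le_of_mul_le_mul_left h2 (hRi k)
      nlinarith
    · exact h

/-! ### The verifiers -/

section Ver

variable (fe va ap : List Bool → List Bool) (mx : Bool) (R : ℚ)

/-- The test of feasibility. -/
def okB (X w : List Bool) : Bool := decide (fe (pairBits X w) = [true])

/-- The verifier number `i`. -/
def verB (i : ℕ) (X w : List Bool) : Bool :=
  okB fe X w && geM mx (R ^ (i + 1)) (vl va X (ap X)) (vl va X w)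

/-- The choice of a best solution. -/
def sel (X cur w : List Bool) : List Bool :=
  bif okB fe X w && geM mx 1 (vl va X cur) (vl va X w) then w else cur

end Ver

theorem poly_pairBits {X w : α → List Bool} (hX : Poly X) (hw : Poly w) :
    Poly (fun a => pairBits (X a) (w a)) :=
  Poly.append (Poly.flatMap (F := fun _ b => [true, b]) hX
    (CL.pList2 (Poly.const true) (Poly.snd Poly.id))) (Poly.cons (Poly.const _) hw)

theorem poly_okB {fe : List Bool → List Bool} (hfe : PolyTime fe) {X w : α → List Bool}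
    (hX : Poly X) (hw : Poly w) : Poly (fun a => okB fe (X a) (w a)) :=
  Poly.decide_eq ((poly_raw hfe).comp (poly_pairBits hX hw)) (Poly.const _)

theorem poly_vl {va : List Bool → List Bool} (hva : PolyTime va) {X w : α → List Bool}
    (hX : Poly X) (hw : Poly w) : Poly (fun a => vl va (X a) (w a)) := by
  have h1 : Poly (fun a => unbits ((Bool × ℕ) × ℕ) (va (pairBits (X a) (w a)))) :=
    (poly_unbits (α := (Bool × ℕ) × ℕ)).comp ((poly_raw hva).comp (poly_pairBits hX hw))
  refine (Poly.optCases (h := fun _ (p : (Bool × ℕ) × ℕ) => (p.1.2, p.2)) h1 (Poly.const (0, 1))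
    (Poly.pair (Poly.snd (Poly.fst (Poly.snd Poly.id))) (Poly.snd (Poly.snd Poly.id)))).congr
      fun a => ?_
  unfold vl
  cases unbits ((Bool × ℕ) × ℕ) (va (pairBits (X a) (w a))) <;> rfl

theorem poly_leM (ρ : ℚ) {z w : α → ℕ × ℕ} (hz : Poly z) (hw : Poly w) :
    Poly (fun a => leM ρ (z a) (w a)) :=
  Poly.decide_le (Poly.mul (Poly.const _) (Poly.mul (Poly.fst hz) (Poly.snd hw)))
    (Poly.mul (Poly.const _) (Poly.mul (Poly.fst hw) (Poly.snd hz)))

theorem poly_geM (mx : Bool) (ρ : ℚ) {z w : α → ℕ × ℕ} (hz : Poly z) (hw : Poly w) :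
    Poly (fun a => geM mx ρ (z a) (w a)) :=
  Poly.cond (Poly.const mx) (poly_leM ρ hz hw) (poly_leM ρ hw hz)

theorem poly_verB {fe va ap : List Bool → List Bool} (hfe : PolyTime fe) (hva : PolyTime va)
    (hap : PolyTime ap) (mx : Bool) (R : ℚ) (i : ℕ) {X w : α → List Bool}
    (hX : Poly X) (hw : Poly w) : Poly (fun a => verB fe va ap mx R i (X a) (w a)) :=
  Poly.and (poly_okB hfe hX hw) (poly_geM mx _ (poly_vl hva hX ((poly_raw hap).comp hX))
    (poly_vl hva hX hw))

theorem poly_sel {fe va : List Bool → List Bool} (hfe : PolyTime fe) (hva : PolyTime va)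
    (mx : Bool) {X u w : α → List Bool} (hX : Poly X) (hu : Poly u) (hw : Poly w) :
    Poly (fun a => sel fe va mx (X a) (u a) (w a)) :=
  Poly.cond (Poly.and (poly_okB hfe hX hw) (poly_geM mx _ (poly_vl hva hX hu) (poly_vl hva hX hw)))
    hw hu

theorem exists_red {fe va ap : List Bool → List Bool} (hfe : PolyTime fe) (hva : PolyTime va)
    (hap : PolyTime ap) (mx : Bool) (R : ℚ) (q : Polynomial ℕ) :
    ∃ (red : ℕ → List Bool → List H243R3.TP.Clause) (ext : ℕ → List Bool → List ℕ → List Bool),
      ∀ i, Poly (red i) ∧ Poly (fun z : List Bool × List ℕ => ext i z.1 z.2) ∧ ∀ x,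
      (H243R3.TP.max3Sat Bd).valid (red i x) ∧
      ((∃ w : List Bool, w.length ≤ q.eval x.length ∧ verB fe va ap mx R i x w = true) →
        ∃ A, unsat (red i x) A = 0) ∧
      ∀ A, K0 * unsat (red i x) A < (red i x).length →
        verB fe va ap mx R i x (ext i x A) = true := by
  have key : ∀ i, ∃ (red : List Bool → List H243R3.TP.Clause)
      (ext : List Bool → List ℕ → List Bool), Poly red ∧
      Poly (fun z : List Bool × List ℕ => ext z.1 z.2) ∧ ∀ x,
      (H243R3.TP.max3Sat Bd).valid (red x) ∧
      ((∃ w : List Bool, w.length ≤ q.eval x.length ∧ verB fe va ap mx R i x w = true) →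
        ∃ A, unsat (red x) A = 0) ∧
      ∀ A, K0 * unsat (red x) A < (red x).length →
        verB fe va ap mx R i x (ext x A) = true := by
    intro i
    have hV : PolyTime (fun y => [verB fe va ap mx R i (unpair y).1 (unpair y).2]) :=
      polyTime_of_poly (poly_verB hfe hva hap mx R i (Poly.fst poly_unpair)
        (Poly.snd poly_unpair))
    obtain ⟨red, ext, h1, h2, h3⟩ := pcp hV q
    refine ⟨red, ext, h1, h2, fun x => ?_⟩
    obtain ⟨a1, a2, a3⟩ := h3 x
    refine ⟨a1, fun ⟨w, hw, hw'⟩ => ?_, fun A hA => ?_⟩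
    · obtain ⟨A, _, hA⟩ := a2 ⟨w, hw, by rw [unpair_pairBits, hw']⟩
      exact ⟨A, hA⟩
    · have := (a3 A hA).2
      rw [unpair_pairBits] at this
      exact (List.cons.inj this).1
  choose red ext h using key
  exact ⟨red, ext, h⟩

/-! ### The blocks -/

theorem poly_cps {k : ℕ} {F : ℕ → α → List H243R3.TP.Clause} (hF : ∀ i, Poly (F i)) :
    Poly (fun a => cps k fun i => F i a) := by
  have h1 : UPoly (fun a => tot k fun i => F i a) :=
    UPoly.length (poly_flatMap_const (F := fun a i => F i a) (List.range k) fun i _ => hF i)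
  unfold cps
  refine poly_flatMap_const _ fun i _ => ?_
  have h2 : UPoly (fun a => (tot k fun i => F i a) / (F i a).length) :=
    UPoly.of_le (Poly.div h1.toPoly (Poly.length (hF i))) h1 fun a => Nat.div_le_self _ _
  exact Poly.map (F := fun a _ => (i, F i a)) h2.range
    (Poly.pair (Poly.const i) ((hF i).comp (Poly.fst Poly.id)))

theorem poly_renC {n j : α → ℕ} {c : α → H243R3.TP.Clause} (hn : Poly n) (hj : Poly j)
    (hc : Poly c) : Poly (fun a => renC (n a) (j a) (c a)) := by
  unfold renC
  have e : ∀ {l : α → H243R3.TP.Lit}, Poly l → Poly (fun a => ((l a).1 * n a + j a, (l a).2)) :=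
    fun hl => Poly.pair (Poly.add (Poly.mul (Poly.fst hl) hn) hj) (Poly.snd hl)
  exact Poly.pair (e (Poly.fst hc)) (Poly.pair (e (Poly.fst (Poly.snd hc)))
    (e (Poly.snd (Poly.snd hc))))

theorem poly_dj {B : α → List (ℕ × List H243R3.TP.Clause)} (hB : Poly B) :
    Poly (fun a => dj (B a)) := by
  unfold dj
  refine Poly.flatMap (F := fun a (bj : (ℕ × List H243R3.TP.Clause) × ℕ) =>
    bj.1.2.map (renC (B a).length bj.2)) (Poly.zipIdx hB) ?_
  refine Poly.map (F := fun (x : α × ((ℕ × List H243R3.TP.Clause) × ℕ)) c =>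
    renC (B x.1).length x.2.2 c) (Poly.snd (Poly.fst (Poly.snd Poly.id))) ?_
  exact poly_renC (Poly.length (hB.comp (Poly.fst (Poly.fst Poly.id))))
    (Poly.snd (Poly.snd (Poly.fst Poly.id))) (Poly.snd Poly.id)

theorem poly_rs {n j : α → ℕ} {A : α → List ℕ} (hn : Poly n) (hj : Poly j) (hA : Poly A) :
    Poly (fun a => rs (n a) (j a) (A a)) := by
  unfold rs
  refine Poly.map (F := fun a v => v / n a) (Poly.filter (p := fun a v => decide (v % n a = j a))
    hA ?_) ?_
  · exact Poly.decide_eq (Poly.mod (Poly.snd Poly.id) (hn.comp (Poly.fst Poly.id)))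
      (hj.comp (Poly.fst Poly.id))
  · exact Poly.div (Poly.snd Poly.id) (hn.comp (Poly.fst Poly.id))

section Cand

variable (k : ℕ) (red : ℕ → List Bool → List H243R3.TP.Clause)
  (ext : ℕ → List Bool → List ℕ → List Bool)

/-- The candidates for solutions. -/
def cands (X : List Bool) (A : List ℕ) : List (List Bool) :=
  (List.range k).flatMap fun i => ((cps k fun i => red i X).zipIdx.filter fun bj =>
    decide (bj.1.1 = i)).map fun bj => ext i X (rs (cps k fun i => red i X).length bj.2 A)

variable {k red ext}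

theorem mem_cands {X : List Bool} {A : List ℕ} {bj : (ℕ × List H243R3.TP.Clause) × ℕ}
    (h : bj ∈ (cps k fun i => red i X).zipIdx) :
    ext bj.1.1 X (rs (cps k fun i => red i X).length bj.2 A) ∈ cands k red ext X A := by
  have hlt : bj.1.1 < k := by
    obtain ⟨b, j⟩ := bj
    exact (mem_cps (List.mem_of_getElem? (zipIdx_lt h).2)).1
  unfold cands
  rw [List.mem_flatMap]
  refine ⟨bj.1.1, List.mem_range.2 hlt, ?_⟩
  exact List.mem_map_of_mem (f := fun b : (ℕ × List H243R3.TP.Clause) × ℕ =>
    ext bj.1.1 X (rs (cps k fun i => red i X).length b.2 A))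
    (List.mem_filter.2 ⟨h, by simp⟩)

theorem poly_cands (hred : ∀ i, Poly (red i))
    (hext : ∀ i, Poly (fun z : List Bool × List ℕ => ext i z.1 z.2)) :
    Poly (fun z : List Bool × List ℕ => cands k red ext z.1 z.2) := by
  have hB : Poly (fun z : List Bool × List ℕ => cps k fun i => red i z.1) :=
    poly_cps (F := fun i (z : List Bool × List ℕ) => red i z.1)
      fun i => (hred i).comp (Poly.fst Poly.id)
  unfold cands
  refine poly_flatMap_const _ fun i _ => ?_
  have h1 : Poly (fun z : List Bool × List ℕ => (cps k fun i => red i z.1).zipIdx.filter fun bj =>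
      decide (bj.1.1 = i)) :=
    Poly.filter (p := fun _ (bj : (ℕ × List H243R3.TP.Clause) × ℕ) => decide (bj.1.1 = i))
      (Poly.zipIdx hB) (Poly.decide_eq (Poly.fst (Poly.fst (Poly.snd Poly.id))) (Poly.const i))
  refine Poly.map (F := fun (z : List Bool × List ℕ) (bj : (ℕ × List H243R3.TP.Clause) × ℕ) =>
    ext i z.1 (rs (cps k fun i => red i z.1).length bj.2 z.2)) h1 ?_
  have f1 : Poly (fun y : (List Bool × List ℕ) × ((ℕ × List H243R3.TP.Clause) × ℕ) => y.1.1) :=
    Poly.fst (Poly.fst Poly.id)
  have f2 : Poly (fun y : (List Bool × List ℕ) × ((ℕ × List H243R3.TP.Clause) × ℕ) =>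
      rs (cps k fun i => red i y.1.1).length y.2.2 y.1.2) :=
    poly_rs (Poly.length (hB.comp (Poly.fst Poly.id))) (Poly.snd (Poly.snd Poly.id))
      (Poly.snd (Poly.fst Poly.id))
  exact Poly.comp (g := fun z : List Bool × List ℕ => ext i z.1 z.2)
    (f := fun y : (List Bool × List ℕ) × ((ℕ × List H243R3.TP.Clause) × ℕ) =>
      (y.1.1, rs (cps k fun i => red i y.1.1).length y.2.2 y.1.2)) (hext i) (Poly.pair f1 f2)

end Cand

/-- The best of the candidates. -/
def best (fe va ap : List Bool → List Bool) (mx : Bool) (X : List Bool) (C : List (List Bool)) :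
    List Bool := C.foldl (sel fe va mx X) (ap X)

theorem foldl_sel_mem (fe va : List Bool → List Bool) (mx : Bool) (X : List Bool) :
    ∀ (C : List (List Bool)) (s : List Bool), C.foldl (sel fe va mx X) s ∈ s :: C := by
  intro C
  induction C with
  | nil => intro s; simp
  | cons w C ih =>
    intro s
    rw [List.foldl_cons]
    have h := ih (sel fe va mx X s w)
    rw [List.mem_cons] at h
    rcases h with h | h
    · rw [h]
      unfold sel
      cases okB fe X w && geM mx 1 (vl va X s) (vl va X w) <;> simp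
    · simp [h]

theorem poly_best {fe va ap : List Bool → List Bool} (hfe : PolyTime fe) (hva : PolyTime va)
    (hap : PolyTime ap) (mx : Bool) {X : α → List Bool} {C : α → List (List Bool)}
    (hX : Poly X) (hC : Poly C) : Poly (fun a => best fe va ap mx (X a) (C a)) := by
  unfold best
  have hs : Poly (fun a => ap (X a)) := (poly_raw hap).comp hX
  obtain ⟨r, hr⟩ := hs.sz_le
  obtain ⟨r', hr'⟩ := hC.sz_le
  refine Poly.foldl (F := fun a cur w => sel fe va mx (X a) cur w) hC hs
    (poly_sel hfe hva mx (hX.comp (Poly.fst Poly.id)) (Poly.fst (Poly.snd Poly.id))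
      (Poly.snd (Poly.snd Poly.id))) (r + r') ?_
  intro a n _
  have h1 := foldl_sel_mem fe va mx (X a) ((C a).take n) (ap (X a))
  have h2 := hr a
  have h3 := hr' a
  have h4 := Poly.sz_take_le (C a) n
  rw [Polynomial.eval_add]
  change sz (((C a).take n).foldl (sel fe va mx (X a)) (ap (X a))) ≤ _
  rw [List.mem_cons] at h1
  rcases h1 with h1 | h1
  · rw [h1]; omega
  · have := sz_le_of_mem h1
    omega

end Pool.Agent.NPC.DP
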