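import Mathlib

/-!
# The linearity test and a test of the long code
-/

namespace Pool.Agent.H243R3.PCP

open Finset

section Chi

variable {Y : Type} [Fintype Y] [DecidableEq Y]

/-- Pointwise exclusive or, and conjunction. -/
def xr {Y : Type} (x y : Y → Bool) : Y → Bool := fun i => x i ^^ y i
def an {Y : Type} (x y : Y → Bool) : Y → Bool := fun i => x i && y i

/-- The sign. -/
def sgn (b : Bool) : ℝ := if b then -1 else 1

theorem sgn_xor (a b : Bool) : sgn (a ^^ b) = sgn a * sgn b := by cases a <;> cases b <;> simp [sgn]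
theorem sgn_inj {a b : Bool} (h : sgn a = sgn b) : a = b := by
  cases a <;> cases b <;> simp [sgn] at h ⊢ <;> norm_num at h
theorem sgn_sq (a : Bool) : sgn a * sgn a = 1 := by cases a <;> simp [sgn]

/-- The inner product. -/
def dot (z x : Y → Bool) : Bool := decide ((univ.filter fun i => (z i && x i) = true).card % 2 = 1)

/-- The characters. -/
def chi (z x : Y → Bool) : ℝ := ∏ i, sgn (z i && x i)

theorem chi_eq (z x : Y → Bool) : chi z x = sgn (dot z x) := by
  unfold chi dot sgn
  rw [prod_ite]
  simp only [prod_const, one_pow, mul_one]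
  rcases Nat.mod_two_eq_zero_or_one (univ.filter fun i => (z i && x i) = true).card with h | h
  · rw [Even.neg_one_pow (Nat.even_iff.2 h), h]
    simp
  · rw [Odd.neg_one_pow (Nat.odd_iff.2 h), h]
    simp

theorem chi_xr (z x y : Y → Bool) : chi z (xr x y) = chi z x * chi z y := by
  unfold chi xr
  rw [← prod_mul_distrib]
  refine prod_congr rfl fun i _ => ?_
  rw [← sgn_xor]
  congr 1
  cases z i <;> simp

theorem dot_xr (z x y : Y → Bool) : dot z (xr x y) = (dot z x ^^ dot z y) := by
  apply sgn_inj
  rw [sgn_xor, ← chi_eq, ← chi_eq, ← chi_eq, chi_xr]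

theorem dot_comm (z x : Y → Bool) : dot z x = dot x z := by
  unfold dot
  simp only [Bool.and_comm]

theorem sum_chi (x : Y → Bool) : ∑ z : Y → Bool, chi z x =
    if x = (fun _ => false) then (Fintype.card (Y → Bool) : ℝ) else 0 := by
  have h := Finset.prod_univ_sum (fun _ : Y => (univ : Finset Bool)) fun i b => sgn (b && x i)
  rw [Fintype.piFinset_univ] at h
  have h1 : ∀ z : Y → Bool, chi z x = ∏ i, sgn (z i && x i) := fun z => rfl
  simp only [h1]
  rw [← h]
  split_ifs with hx
  · subst hx
    simp [sgn]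
  · have : ∃ i, x i = true := by
      by_contra hc
      push Not at hc
      apply hx
      funext i
      simpa using hc i
    obtain ⟨i, hi⟩ := this
    apply prod_eq_zero (mem_univ i)
    simp [sgn, hi]

theorem xr_self (x : Y → Bool) : xr x x = fun _ => false := by funext i; simp [xr]
omit [Fintype Y] [DecidableEq Y] in
theorem xr_eq_zero {x y : Y → Bool} : xr x y = (fun _ => false) ↔ x = y := by
  constructor
  · intro h
    funext i
    have := congrFun h i
    simpa [xr] using this
  · rintro rfl
    funext i; simp [xr]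
omit [Fintype Y] [DecidableEq Y] in
theorem xr_xr (x y : Y → Bool) : xr (xr x y) y = x := by funext i; simp [xr]
omit [Fintype Y] [DecidableEq Y] in
theorem xr_comm (x y : Y → Bool) : xr x y = xr y x := by funext i; simp [xr, Bool.xor_comm]

/-- Translation as a bijection. -/
def xrE (e : Y → Bool) : (Y → Bool) ≃ (Y → Bool) := ⟨fun x => xr x e, fun x => xr x e,
  fun x => xr_xr x e, fun x => xr_xr x e⟩

theorem sum_xr (e : Y → Bool) (g : (Y → Bool) → ℝ) : ∑ x, g (xr x e) = ∑ x, g x :=
  Equiv.sum_comp (xrE e) g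

/-- The transform. -/
noncomputable def hat (F : (Y → Bool) → ℝ) (z : Y → Bool) : ℝ := ∑ x, F x * chi z x

theorem hat_sq (F : (Y → Bool) → ℝ) :
    ∑ z, hat F z ^ 2 = (Fintype.card (Y → Bool) : ℝ) * ∑ x, F x ^ 2 := by
  have h1 : ∀ z, hat F z ^ 2 = ∑ x, ∑ y, (F x * F y) * chi z (xr x y) := by
    intro z
    unfold hat
    rw [sq, Finset.sum_mul_sum]
    refine sum_congr rfl fun x _ => sum_congr rfl fun y _ => ?_
    rw [chi_xr]
    ring
  simp only [h1]
  rw [sum_comm, mul_sum]
  refine sum_congr rfl fun x _ => ?_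
  rw [sum_comm]
  simp only [← mul_sum, sum_chi, xr_eq_zero]
  rw [sum_eq_single x]
  · simp
    ring
  · intro y _ hy
    rw [if_neg (fun h => hy h.symm), mul_zero]
  · intro h; exact absurd (mem_univ x) h

theorem hat_cube (F : (Y → Bool) → ℝ) :
    ∑ z, hat F z ^ 3 = (Fintype.card (Y → Bool) : ℝ) * ∑ x, ∑ y, F x * F y * F (xr x y) := by
  have h1 : ∀ z, hat F z ^ 3 = ∑ x, ∑ y, ∑ w, (F x * F y * F w) * chi z (xr (xr x y) w) := by
    intro z
    unfold hat
    rw [pow_succ, sq, Finset.sum_mul_sum, Finset.sum_mul]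
    refine sum_congr rfl fun x _ => ?_
    rw [Finset.sum_mul]
    refine sum_congr rfl fun y _ => ?_
    rw [Finset.mul_sum]
    refine sum_congr rfl fun w _ => ?_
    rw [chi_xr, chi_xr]
    ring
  simp only [h1]
  rw [sum_comm, mul_sum]
  refine sum_congr rfl fun x _ => ?_
  rw [sum_comm, mul_sum]
  refine sum_congr rfl fun y _ => ?_
  rw [sum_comm]
  simp only [← mul_sum, sum_chi, xr_eq_zero]
  rw [sum_eq_single (xr x y)]
  · simp
    ring
  · intro w _ hw
    rw [if_neg (fun h => hw h.symm), mul_zero]
  · intro h; exact absurd (mem_univ _) h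

/-- Counting by an indicator. -/
def ind (b : Bool) : ℝ := if b then 1 else 0

theorem ind_nonneg (b : Bool) : 0 ≤ ind b := by cases b <;> simp [ind]
theorem sgn_ind (b : Bool) : sgn b = 1 - 2 * ind b := by cases b <;> simp [sgn, ind]; norm_num

/-- **The linearity test.** -/
theorem blr (f : (Y → Bool) → Bool) : ∃ z : Y → Bool,
    (∑ x, ind (f x ^^ dot z x)) * Fintype.card (Y → Bool) ≤
      ∑ x, ∑ y, ind (f x ^^ f y ^^ f (xr x y)) := by
  set w : ℝ := (Fintype.card (Y → Bool) : ℝ) with hw
  have hwpos : 0 < w := by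
    rw [hw]
    exact_mod_cast Fintype.card_pos
  set F : (Y → Bool) → ℝ := fun x => sgn (f x) with hF
  set e : ℝ := ∑ x, ∑ y, ind (f x ^^ f y ^^ f (xr x y)) with he
  have h1 : ∑ x, ∑ y, F x * F y * F (xr x y) = w * w - 2 * e := by
    have : ∀ x y, F x * F y * F (xr x y) = 1 - 2 * ind (f x ^^ f y ^^ f (xr x y)) := by
      intro x y
      simp only [hF]
      rw [← sgn_xor, ← sgn_xor, sgn_ind]
    simp only [this, sum_sub_distrib, ← mul_sum]
    rw [he]
    simp [hw]
  have h2 : ∑ x, F x ^ 2 = w := by
    have : ∀ x, F x ^ 2 = 1 := by intro x; simp only [hF]; rw [sq, sgn_sq]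
    simp only [this]
    simp [hw]
  have h3 := hat_cube F
  have h4 := hat_sq F
  rw [h1] at h3
  rw [h2] at h4
  rw [← hw] at h3 h4
  obtain ⟨z, hz⟩ : ∃ z, w * w - 2 * e ≤ w * hat F z := by
    by_contra hc
    push Not at hc
    have h5 : ∑ z, w * hat F z ^ 3 < ∑ z, (w * w - 2 * e) * hat F z ^ 2 := by
      have hne : ∃ z, hat F z ≠ 0 := by
        by_contra hcc
        push Not at hcc
        have : ∑ z, hat F z ^ 2 = 0 := sum_eq_zero fun z _ => by rw [hcc z]; ring
        rw [this] at h4
        nlinarith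
      obtain ⟨z0, hz0⟩ := hne
      refine sum_lt_sum (fun z _ => ?_) ⟨z0, mem_univ _, ?_⟩
      · have := mul_le_mul_of_nonneg_right (hc z).le (sq_nonneg (hat F z))
        nlinarith
      · have hp : 0 < hat F z0 ^ 2 := by positivity
        have := mul_lt_mul_of_pos_right (hc z0) hp
        nlinarith
    rw [← mul_sum, ← mul_sum, h3, h4] at h5
    nlinarith
  refine ⟨z, ?_⟩
  have h6 : hat F z = w - 2 * ∑ x, ind (f x ^^ dot z x) := by
    unfold hat
    have : ∀ x, F x * chi z x = 1 - 2 * ind (f x ^^ dot z x) := by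
      intro x
      simp only [hF]
      rw [chi_eq, ← sgn_xor, sgn_ind]
    simp only [this, sum_sub_distrib, ← mul_sum]
    simp [hw]
  rw [h6] at hz
  nlinarith

/-- A unit vector. -/
def sing (i : Y) : Y → Bool := fun j => decide (j = i)

theorem dot_sing (z : Y → Bool) (i : Y) : dot z (sing i) = z i := by
  unfold dot sing
  have : (univ.filter fun j => (z j && decide (j = i)) = true) = if z i = true then {i} else ∅ := by
    ext j
    simp only [mem_filter, mem_univ, true_and, Bool.and_eq_true, decide_eq_true_eq]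
    split_ifs with h
    · simp only [mem_singleton]
      constructor
      · exact fun h' => h'.2
      · rintro rfl; exact ⟨h, rfl⟩
    · simp only [notMem_empty, iff_false, not_and]
      rintro h1 rfl
      exact h h1
  rw [this]
  cases z i <;> simp

/-- Two different linear functions disagree on half of the vectors. -/
theorem dot_half {z z' : Y → Bool} (h : z ≠ z') :
    2 * ∑ x, ind (dot z x ^^ dot z' x) = Fintype.card (Y → Bool) := by
  obtain ⟨i, hi⟩ : ∃ i, z i ≠ z' i := by
    by_contra hc
    push Not at hc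
    exact h (funext hc)
  have h1 : ∑ x, ind (dot z x ^^ dot z' x) = ∑ x, (1 - ind (dot z x ^^ dot z' x)) := by
    rw [← sum_xr (sing i)]
    refine sum_congr rfl fun x _ => ?_
    rw [dot_xr, dot_xr, dot_sing, dot_sing]
    revert hi
    generalize z i = a
    generalize z' i = b
    cases a <;> cases b <;> cases dot z x <;> cases dot z' x <;> simp [ind]
  rw [sum_sub_distrib] at h1
  simp only [sum_const, card_univ, nsmul_eq_mul, mul_one] at h1
  linarith

/-- Decoding is unique. -/
theorem decode_unique (A : (Y → Bool) → Bool) {z z' : Y → Bool}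
    (h : 4 * ∑ x, ind (A x ^^ dot x z) < Fintype.card (Y → Bool))
    (h' : 4 * ∑ x, ind (A x ^^ dot x z') < Fintype.card (Y → Bool)) : z = z' := by
  by_contra hne
  have h1 := dot_half hne
  have h2 : ∑ x, ind (dot z x ^^ dot z' x) ≤
      ∑ x, ind (A x ^^ dot x z) + ∑ x, ind (A x ^^ dot x z') := by
    rw [← sum_add_distrib]
    refine sum_le_sum fun x _ => ?_
    rw [dot_comm x z, dot_comm x z']
    cases A x <;> cases dot z x <;> cases dot z' x <;> simp [ind]
  linarith

theorem bilinear {z : Y → Bool} {i j : Y} (hij : i ≠ j) (hi : z i = true) (hj : z j = true) :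
    (Fintype.card (Y → Bool) : ℝ) * Fintype.card (Y → Bool) ≤
      4 * ∑ x, ∑ y, ind (dot z (an x y) ^^ (dot z x && dot z y)) := by
  set D : (Y → Bool) → (Y → Bool) → ℝ := fun x y => ind (dot z (an x y) ^^ (dot z x && dot z y))
    with hD
  have h1 : ∀ x y, 1 ≤ D x y + D (xr x (sing i)) y + D x (xr y (sing j)) +
      D (xr x (sing i)) (xr y (sing j)) := by
    intro x y
    simp only [hD]
    have e1 : an (xr x (sing i)) y = xr (an x y) (an (sing i) y) := by
      funext k; simp only [an, xr]; cases x k <;> cases y k <;> cases sing i k <;> rfl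
    have e2 : an x (xr y (sing j)) = xr (an x y) (an x (sing j)) := by
      funext k; simp only [an, xr]; cases x k <;> cases y k <;> cases sing j k <;> rfl
    have e3 : an (xr x (sing i)) (xr y (sing j)) = xr (xr (an x y) (an (sing i) y))
        (an x (sing j)) := by
      funext k
      simp only [an, xr]
      have : (sing i k && sing j k) = false := by
        simp only [sing]
        by_cases h : k = i
        · subst h; simp [hij]
        · simp [h]
      revert this
      cases x k <;> cases y k <;> cases sing i k <;> cases sing j k <;> simp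
    rw [e1, e2, e3]
    simp only [dot_xr, dot_sing, hi, hj]
    cases dot z (an x y) <;> cases dot z (an (sing i) y) <;> cases dot z (an x (sing j)) <;>
      cases dot z x <;> cases dot z y <;> simp [ind] <;> norm_num
  have h2 : ∑ x, ∑ y, D (xr x (sing i)) y = ∑ x, ∑ y, D x y := sum_xr (sing i) fun x => ∑ y, D x y
  have h3 : ∑ x, ∑ y, D x (xr y (sing j)) = ∑ x, ∑ y, D x y :=
    sum_congr rfl fun x _ => sum_xr (sing j) (D x)
  have h4 : ∑ x, ∑ y, D (xr x (sing i)) (xr y (sing j)) = ∑ x, ∑ y, D x y := by
    rw [sum_xr (sing i) fun x => ∑ y, D x (xr y (sing j))]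
    exact h3
  have h5 : ∑ _x : Y → Bool, ∑ _y : Y → Bool, (1 : ℝ) ≤ ∑ x, ∑ y, (D x y + D (xr x (sing i)) y +
      D x (xr y (sing j)) + D (xr x (sing i)) (xr y (sing j))) :=
    sum_le_sum fun x _ => sum_le_sum fun y _ => h1 x y
  simp only [sum_add_distrib, h2, h3, h4] at h5
  simp only [sum_const, card_univ, nsmul_eq_mul, mul_one] at h5
  linarith

end Chi

/-! ### The test -/

section Test

variable {X : Type} [Fintype X] [DecidableEq X]

/-- The first and second components as vectors of functions. -/
def lin1 (s : X → Bool) : ((X → Bool) × (X → Bool)) → Bool := fun p => dot s p.1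
def lin2 (s : X → Bool) : ((X → Bool) × (X → Bool)) → Bool := fun p => dot s p.2

/-- **Soundness of the test.** -/
theorem test_sound (f : (((X → Bool) × (X → Bool)) → Bool) → Bool)
    (C : ((X → Bool) × (X → Bool)) → Bool) (hf : ∀ x, f (an x C) = f x) (A A' : (X → Bool) → Bool)
    (w n : ℝ) (hw : w = Fintype.card (((X → Bool) × (X → Bool)) → Bool))
    (hn : n = Fintype.card (X → Bool))
    (e1 : 32 * ∑ x, ∑ y, ind (f x ^^ f y ^^ f (xr x y)) < w * w)
    (e2 : 32 * ∑ x, ∑ y, ∑ r, ind (f (xr r (an x y)) ^^ f r ^^ (f x && f y)) < w * w * w)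
    (e3 : 32 * ∑ r, ind (!(f (xr r fun _ => true) ^^ f r)) < w)
    (e4 : 32 * ∑ s, ∑ r, ind (A s ^^ f (xr r (lin1 s)) ^^ f r) < n * w)
    (e5 : 32 * ∑ s, ∑ r, ind (A' s ^^ f (xr r (lin2 s)) ^^ f r) < n * w) :
    ∃ α β : X → Bool, C (α, β) = true ∧ 4 * ∑ s, ind (A s ^^ dot s α) < n ∧
      4 * ∑ s, ind (A' s ^^ dot s β) < n := by
  obtain ⟨z, hz⟩ := blr f
  have hwpos : 0 < w := by
    rw [hw]; exact_mod_cast Fintype.card_pos
  have hnpos : 0 < n := by
    rw [hn]; exact_mod_cast Fintype.card_pos
  rw [← hw] at hz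
  set δ := ∑ x, ind (f x ^^ dot z x) with hδ
  have hδw : 32 * δ < w := by nlinarith
  have hδ0 : 0 ≤ δ := sum_nonneg fun _ _ => ind_nonneg _
  have hsw : ∀ c : ℝ, ∑ _x : ((X → Bool) × (X → Bool)) → Bool, c = w * c := by
    intro c; simp [hw]
  have hsn : ∀ c : ℝ, ∑ _x : X → Bool, c = n * c := by
    intro c; simp [hn]
  -- the support of z
  have ha : ∀ p, z p = true → C p = true := by
    intro p hp
    by_contra hC
    have hC : C p = false := by simpa using hC
    have h1 : ∀ x, f (xr x (sing p)) = f x := by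
      intro x
      rw [← hf (xr x (sing p)), ← hf x]
      congr 1
      funext q
      simp only [an, xr, sing]
      by_cases hq : q = p
      · subst hq; simp [hC]
      · simp [hq]
    have h2 : δ = ∑ x, (1 - ind (f x ^^ dot z x)) := by
      rw [hδ, ← sum_xr (sing p)]
      refine sum_congr rfl fun x _ => ?_
      rw [h1, dot_xr, dot_sing, hp]
      cases f x <;> cases dot z x <;> simp [ind]
    rw [sum_sub_distrib, hsw, ← hδ] at h2
    linarith
  -- at most one
  have hb : ∀ p q, p ≠ q → z p = true → z q = true → False := by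
    intro p q hpq hp hq
    have h1 := bilinear hpq hp hq
    rw [← hw] at h1
    have h2 : (∑ x, ∑ y, ind (dot z (an x y) ^^ (dot z x && dot z y))) * w ≤
        ∑ x, ∑ y, ∑ r, ind (f (xr r (an x y)) ^^ f r ^^ (f x && f y)) + 4 * (δ * w * w) := by
      have h3 : ∀ x y r, ind (dot z (an x y) ^^ (dot z x && dot z y)) ≤
          ind (f (xr r (an x y)) ^^ f r ^^ (f x && f y)) +
          ind (f (xr r (an x y)) ^^ dot z (xr r (an x y))) + ind (f r ^^ dot z r) +
          ind (f x ^^ dot z x) + ind (f y ^^ dot z y) := by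
        intro x y r
        rw [dot_xr]
        generalize f (xr r (an x y)) = a1
        generalize f r = a2
        generalize f x = a3
        generalize f y = a4
        generalize dot z (an x y) = b1
        generalize dot z r = b2
        generalize dot z x = b3
        generalize dot z y = b4
        cases a1 <;> cases a2 <;> cases a3 <;> cases a4 <;> cases b1 <;> cases b2 <;> cases b3 <;>
          cases b4 <;> simp [ind] <;> norm_num
      have h4 := sum_le_sum fun x (_ : x ∈ univ) => sum_le_sum fun y (_ : y ∈ univ) =>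
        sum_le_sum fun r (_ : r ∈ (univ : Finset (((X → Bool) × (X → Bool)) → Bool))) => h3 x y r
      simp only [sum_add_distrib] at h4
      have h5 : ∀ x y, ∑ r, ind (f (xr r (an x y)) ^^ dot z (xr r (an x y))) = δ := by
        intro x y
        rw [sum_xr (an x y) fun r => ind (f r ^^ dot z r)]
      simp only [h5, hsw, ← mul_sum] at h4
      rw [← hδ] at h4
      rw [mul_comm]
      linarith
    have h6 : w * w * w ≤ 4 * ((∑ x, ∑ y, ind (dot z (an x y) ^^ (dot z x && dot z y))) * w) := by
      nlinarith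
    have h7 : 32 * (δ * w * w) < w * w * w := by
      have : 0 < w * w := by positivity
      nlinarith
    have h8 : 0 < w * w * w := by positivity
    linarith
  -- at least one
  have hc : dot z (fun _ => true) = true := by
    by_contra hcc
    have hcc : dot z (fun _ => true) = false := by simpa using hcc
    have h3 : ∀ r, (1 : ℝ) ≤ ind (!(f (xr r fun _ => true) ^^ f r)) +
        ind (f (xr r fun _ => true) ^^ dot z (xr r fun _ => true)) + ind (f r ^^ dot z r) := by
      intro r
      rw [dot_xr, hcc]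
      cases f (xr r fun _ => true) <;> cases f r <;> cases dot z r <;> simp [ind]
    have h4 := sum_le_sum fun r (_ : r ∈ (univ : Finset (((X → Bool) × (X → Bool)) → Bool))) => h3 r
    simp only [sum_add_distrib] at h4
    rw [sum_xr (fun _ => true) fun r => ind (f r ^^ dot z r), hsw, ← hδ] at h4
    linarith
  obtain ⟨⟨α, β⟩, hp⟩ : ∃ p, z p = true := by
    by_contra hcc
    push Not at hcc
    have : z = fun _ => false := by funext p; simpa using hcc p
    rw [this] at hc
    simp [dot] at hc
  have hzs : z = sing (α, β) := by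
    funext q
    simp only [sing]
    by_cases hq : q = (α, β)
    · rw [hq, hp]; simp
    · cases hzq : z q
      · simp [hq]
      · exact (hb q (α, β) hq hzq hp).elim
  have hdz : ∀ x, dot z x = x (α, β) := by
    intro x
    rw [hzs, dot_comm, dot_sing]
  refine ⟨α, β, ha _ hp, ?_, ?_⟩
  · have h3 : ∀ s r, ind (A s ^^ dot s α) ≤ ind (A s ^^ f (xr r (lin1 s)) ^^ f r) +
        ind (f (xr r (lin1 s)) ^^ dot z (xr r (lin1 s))) + ind (f r ^^ dot z r) := by
      intro s r
      have hl : lin1 s (α, β) = dot s α := rfl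
      rw [dot_xr, hdz (lin1 s), hl]
      generalize f (xr r (lin1 s)) = a1
      cases A s <;> cases a1 <;> cases f r <;> cases dot z r <;>
        cases dot s α <;> simp [ind]
    have h4 := sum_le_sum fun s (_ : s ∈ univ) =>
      sum_le_sum fun r (_ : r ∈ (univ : Finset (((X → Bool) × (X → Bool)) → Bool))) => h3 s r
    simp only [sum_add_distrib] at h4
    have h5 : ∀ s, ∑ r, ind (f (xr r (lin1 s)) ^^ dot z (xr r (lin1 s))) = δ := by
      intro s
      rw [sum_xr (lin1 s) fun r => ind (f r ^^ dot z r)]
    simp only [h5, hsw, ← mul_sum, hsn] at h4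
    rw [← hδ] at h4
    have h6 : w * (4 * ∑ s, ind (A s ^^ dot s α)) < w * n := by nlinarith
    exact lt_of_mul_lt_mul_left h6 hwpos.le
  · have h3 : ∀ s r, ind (A' s ^^ dot s β) ≤ ind (A' s ^^ f (xr r (lin2 s)) ^^ f r) +
        ind (f (xr r (lin2 s)) ^^ dot z (xr r (lin2 s))) + ind (f r ^^ dot z r) := by
      intro s r
      have hl : lin2 s (α, β) = dot s β := rfl
      rw [dot_xr, hdz (lin2 s), hl]
      generalize f (xr r (lin2 s)) = a1
      cases A' s <;> cases a1 <;> cases f r <;> cases dot z r <;>
        cases dot s β <;> simp [ind]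
    have h4 := sum_le_sum fun s (_ : s ∈ univ) =>
      sum_le_sum fun r (_ : r ∈ (univ : Finset (((X → Bool) × (X → Bool)) → Bool))) => h3 s r
    simp only [sum_add_distrib] at h4
    have h5 : ∀ s, ∑ r, ind (f (xr r (lin2 s)) ^^ dot z (xr r (lin2 s))) = δ := by
      intro s
      rw [sum_xr (lin2 s) fun r => ind (f r ^^ dot z r)]
    simp only [h5, hsw, ← mul_sum, hsn] at h4
    rw [← hδ] at h4
    have h6 : w * (4 * ∑ s, ind (A' s ^^ dot s β)) < w * n := by nlinarith
    exact lt_of_mul_lt_mul_left h6 hwpos.le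

end Test

end Pool.Agent.H243R3.PCP
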