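import Pool.Agent.H243R3.PCP.Step

/-!
# The main step keeps satisfiability
-/

namespace Pool.Agent.H243R3.PCP

open Finset Pool.Agent.NPC

variable {t : ℕ}

theorem prd_true (C : Wt t) (α β : St t) (hC : C (α, β) = true) (ω : Om t) {i : ℕ} (hi : i < 5) :
    prd i (fun j => (qs C ω i j).ans (fun s => dot s α) (fun s => dot s β)
      (fun x => x (α, β))) = true := by
  obtain ⟨x, y, r, s⟩ := ω
  interval_cases i
  · simp [prd, qs, Q.ans, an, xr, hC]
  · have e : ∀ a b c : Bool, (!((c ^^ (a && b)) ^^ c ^^ (a && b))) = true := by decide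
    simpa [prd, qs, Q.ans, an, xr, hC] using e (x (α, β)) (y (α, β)) (r (α, β))
  · have e : ∀ c : Bool, ((c ^^ true) ^^ c) = true := by decide
    simpa [prd, qs, Q.ans, an, xr, hC] using e (r (α, β))
  · have e : ∀ a c : Bool, (!(a ^^ (c ^^ a) ^^ c)) = true := by decide
    simpa [prd, qs, Q.ans, an, xr, hC, lin1] using e (dot s α) (r (α, β))
  · have e : ∀ a c : Bool, (!(a ^^ (c ^^ a) ^^ c)) = true := by decide
    simpa [prd, qs, Q.ans, an, xr, hC, lin2] using e (dot s β) (r (α, β))

theorem qr_inj {n q q' r r' : ℕ} (hr : r < n) (hr' : r' < n) (h : q * n + r = q' * n + r') :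
    q = q' ∧ r = r' := by
  have h1 : (q * n + r) / n = q := by
    rw [mul_comm, Nat.mul_add_div (by omega), Nat.div_eq_of_lt hr, add_zero]
  have h2 : (q' * n + r') / n = q' := by
    rw [mul_comm, Nat.mul_add_div (by omega), Nat.div_eq_of_lt hr', add_zero]
  have h3 : q = q' := by rw [← h1, ← h2, h]
  subst h3
  exact ⟨rfl, by omega⟩

/-- The abstract names. -/
abbrev NmT (t : ℕ) : Type := (ℕ × St t) ⊕ (ℕ × Wt t) ⊕ (ℕ × Om t × Fin 5)

/-- The name as a number. -/
noncomputable def encN : NmT t → ℕ
  | Sum.inl (a, s) => 3 * (a * Fintype.card (St t) + idx s)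
  | Sum.inr (Sum.inl (q, x)) => 3 * (q * Fintype.card (Wt t) + idx x) + 1
  | Sum.inr (Sum.inr (q, ω, i)) => 3 * (q * (Fintype.card (Om t) * 5) + (idx ω * 5 + i.val)) + 2

theorem ix5 {A : Type} [Fintype A] (a : A) (i : Fin 5) : idx a * 5 + i.val < Fintype.card A * 5 := by
  have := idx_lt a
  have := i.isLt
  omega

theorem encN_inj : Function.Injective (encN (t := t)) := by
  rintro (⟨a, s⟩ | ⟨q, x⟩ | ⟨q, ω, i⟩) (⟨a', s'⟩ | ⟨q', x'⟩ | ⟨q', ω', i'⟩) h
  · simp only [encN] at h
    have h0 : a * Fintype.card (St t) + idx s = a' * Fintype.card (St t) + idx s' := by omega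
    obtain ⟨h1, h2⟩ := qr_inj (idx_lt s) (idx_lt s') h0
    rw [h1, idx_inj h2]
  · simp only [encN] at h; omega
  · simp only [encN] at h; omega
  · simp only [encN] at h; omega
  · simp only [encN] at h
    have h0 : q * Fintype.card (Wt t) + idx x = q' * Fintype.card (Wt t) + idx x' := by omega
    obtain ⟨h1, h2⟩ := qr_inj (idx_lt x) (idx_lt x') h0
    rw [h1, idx_inj h2]
  · simp only [encN] at h; omega
  · simp only [encN] at h; omega
  · simp only [encN] at h; omega
  · simp only [encN] at h
    have h0 : q * (Fintype.card (Om t) * 5) + (idx ω * 5 + i.val) =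
      q' * (Fintype.card (Om t) * 5) + (idx ω' * 5 + i'.val) := by omega
    obtain ⟨h1, h2⟩ := qr_inj (ix5 ω i) (ix5 ω' i') h0
    obtain ⟨h3, h4⟩ := qr_inj i.isLt i'.isLt h2
    rw [h1, idx_inj h3, Fin.ext h4]

section

variable (G : List Con) (τ : ℕ → ℕ)

/-- The symbols of the slots. -/
def slo (s : ℕ) : ℕ := τ (nm G s) % 16

theorem slo_ok (h : viol G τ = 0) {s : ℕ} (hs : s < 2 * G.length) (i : ℕ) :
    conG G s i (slo G τ s) (slo G τ (rotG G s i).1) = true := by
  have hsat : sat τ (cn G s) = true := by
    unfold viol at h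
    rw [List.countP_eq_zero] at h
    have hm : cn G s ∈ G := by
      unfold cn
      rw [List.getD_eq_getElem?_getD, List.getElem?_eq_getElem (by omega)]
      exact List.getElem_mem _
    have := h _ hm
    simpa using this
  by_cases h0 : i = 0
  · subst h0
    have e1 : rotG G s 0 = (partner s, 0) := by unfold rotG; rw [if_pos rfl]
    rw [e1]
    unfold conG slo
    rw [if_pos rfl]
    unfold sat at hsat
    have e2 : cn G (partner s) = cn G s := by unfold cn; rw [partner_div]
    by_cases hp : s % 2 = 0
    · have e3 : nm G s = (cn G s).1 := by unfold nm; rw [if_pos hp]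
      have e4 : nm G (partner s) = (cn G s).2.1 := by
        unfold nm; rw [partner_mod, if_neg (by omega), e2]
      rw [if_pos hp]
      simp only
      rw [e3, e4]
      exact hsat
    · have e3 : nm G s = (cn G s).2.1 := by unfold nm; rw [if_neg hp]
      have e4 : nm G (partner s) = (cn G s).1 := by
        unfold nm; rw [partner_mod, if_pos (by omega), e2]
      rw [if_neg hp]
      simp only
      rw [e3, e4]
      exact hsat
  · by_cases h1 : i ≤ 32
    · obtain ⟨_, h2, _⟩ := cloud_step hs h0 h1
      unfold conG slo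
      rw [if_neg h0, if_pos h1, h2]
      simp
    · unfold conG
      rw [if_neg h0, if_neg h1]

/-- The honest opinion vector. -/
noncomputable def hv (t a : ℕ) : St t := vec t fun l => slo G τ (endp (rotG G) a l)

theorem slo_lt (s : ℕ) : slo G τ s < 16 := Nat.mod_lt _ (by norm_num)

theorem CV_true (h : viol G τ = 0) {a : ℕ} (ha : a < 2 * G.length) {l : List ℕ}
    (hl : ∀ i ∈ l, i < 130) :
    CV t l (view G a l) (hv G τ t a, hv G τ t (endp (rotG G) a l)) = true := by
  rw [CV_eq G ha hl]
  intro k hk hkt hkt'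
  have hr := isRotG G
  have hdec : l = l.take k ++ l[k] :: l.drop (k + 1) := by
    rw [← List.drop_eq_getElem_cons hk, List.take_append_drop]
  have hgd : l.getD k 0 = l[k] := by
    rw [List.getD_eq_getElem?_getD, List.getElem?_eq_getElem hk]; rfl
  rw [hgd]
  set u := endp (rotG G) a (l.take k) with hu
  set v := (rotG G u l[k]).1 with hv'
  have hlt : ∀ i ∈ l.take k, i < 130 := fun i hi => hl i (List.mem_of_mem_take hi)
  have hu' : u < 2 * G.length := hr.endp_lt _ _ ha hlt
  have hk130 : l[k] < 130 := hl _ (List.getElem_mem hk)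
  have hv1 : v < 2 * G.length := hr.lt1 u hu' _ hk130
  have hdl : ∀ i ∈ l.drop (k + 1), i < 130 := fun i hi => hl i (List.mem_of_mem_drop hi)
  have e1 : endp (rotG G) a l = endp (rotG G) v (l.drop (k + 1)) := by
    conv_lhs => rw [hdec]
    rw [endp_append]; rfl
  have e2 : (revl (rotG G) a l).take (l.length - 1 - k) = revl (rotG G) v (l.drop (k + 1)) := by
    conv_lhs => rw [hdec]
    rw [revl_append]
    change ((revl (rotG G) v (l.drop (k + 1)) ++ [_]) ++ _).take _ = _
    have hlen : (revl (rotG G) v (l.drop (k + 1))).length = l.length - 1 - k := by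
      rw [length_revl, List.length_drop]; omega
    have hlen2 : (l.take k ++ l[k] :: l.drop (k + 1)).length = l.length := by rw [← hdec]
    rw [hlen2, List.append_assoc, List.take_append_of_le_length (by omega),
      List.take_of_length_le (by omega)]
  have e3 : sym (hv G τ t a) (l.take k) = slo G τ u := by
    unfold hv
    rw [sym_vec (mem_Us.2 ⟨by rw [List.length_take]; omega, hlt⟩) (slo_lt _ _ _)]
  have e4 : sym (hv G τ t (endp (rotG G) a l)) ((revl (rotG G) a l).take (l.length - 1 - k)) =
      slo G τ v := by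
    rw [e2, e1]
    unfold hv
    have hmem : revl (rotG G) v (l.drop (k + 1)) ∈ Us t := by
      refine mem_Us.2 ⟨by rw [length_revl, List.length_drop]; omega, ?_⟩
      have h2 : ∀ (l : List ℕ) (a : ℕ), a < 2 * G.length → (∀ i ∈ l, i < 130) →
          ∀ i ∈ revl (rotG G) a l, i < 130 := by
        intro l
        induction l with
        | nil => intro a _ _ i hi; simp [revl] at hi
        | cons e l ih =>
          intro a ha hl i hi
          simp only [revl, List.mem_append, List.mem_singleton] at hi
          rcases hi with hi | hi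
          · exact ih _ (hr.lt1 a ha e (hl e List.mem_cons_self))
              (fun j hj => hl j (List.mem_cons_of_mem _ hj)) i hi
          · rw [hi]
            exact hr.lt2 a ha e (hl e List.mem_cons_self)
      exact h2 _ _ hv1 hdl
    rw [sym_vec hmem (slo_lt _ _ _), endp_revl hr _ _ hv1 hdl]
  rw [e3, e4]
  exact slo_ok G τ h hu' l[k]

/-- The values of the honest assignment. -/
noncomputable def valN (t : ℕ) : NmT t → ℕ
  | Sum.inl (a, s) => if dot s (hv G τ t a) then 1 else 0
  | Sum.inr (Sum.inl (q, x)) =>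
    if x (hv G τ t (q / (PL t).length), hv G τ t (endp (rotG G) (q / (PL t).length)
      ((PL t).getD (q % (PL t).length) []))) then 1 else 0
  | Sum.inr (Sum.inr (q, ω, i)) => bits4 fun j =>
    (qs (CV t ((PL t).getD (q % (PL t).length) []) (view G (q / (PL t).length)
      ((PL t).getD (q % (PL t).length) []))) ω i.val j).ans
      (fun s => dot s (hv G τ t (q / (PL t).length)))
      (fun s => dot s (hv G τ t (endp (rotG G) (q / (PL t).length)
        ((PL t).getD (q % (PL t).length) []))))
      (fun x => x (hv G τ t (q / (PL t).length), hv G τ t (endp (rotG G) (q / (PL t).length)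
        ((PL t).getD (q % (PL t).length) []))))

/-- The honest assignment. -/
noncomputable def hon (t : ℕ) : ℕ → ℕ := Function.extend encN (valN G τ t) fun _ => 0

theorem hon_enc (v : NmT t) : hon G τ t (encN v) = valN G τ t v :=
  encN_inj.extend_apply _ _ _

theorem mem_PL {l : List ℕ} (h : l ∈ PL t) : ∀ i ∈ l, i < 130 := by
  unfold PL at h
  rw [List.mem_flatMap] at h
  obtain ⟨n, _, h⟩ := h
  rw [List.mem_map] at h
  obtain ⟨l', h', rfl⟩ := h
  rw [Finset.mem_toList, mem_T] at h'
  intro i hi
  exact h'.2 i (List.mem_of_mem_take hi)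

/-- **The main step keeps satisfiability.** -/
theorem step_complete (t : ℕ) (h : viol G τ = 0) : viol (stp t G) (hon G τ t) = 0 := by
  unfold viol
  rw [List.countP_eq_zero]
  intro c hc
  unfold stp at hc
  rw [List.mem_flatMap] at hc
  obtain ⟨a, ha, hc⟩ := hc
  rw [List.mem_flatMap] at hc
  obtain ⟨⟨l, p⟩, hlp, hc⟩ := hc
  rw [List.mem_range] at ha
  rw [List.mem_zipIdx_iff_getElem?] at hlp
  simp only at hlp hc
  have hp : p < (PL t).length := by
    by_contra hcon
    rw [List.getElem?_eq_none (by omega)] at hlp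
    simp at hlp
  have hq1 : (a * (PL t).length + p) / (PL t).length = a := by
    rw [mul_comm, Nat.mul_add_div (by omega), Nat.div_eq_of_lt hp, add_zero]
  have hq2 : (a * (PL t).length + p) % (PL t).length = p := by
    rw [mul_comm, Nat.mul_add_mod, Nat.mod_eq_of_lt hp]
  have hq3 : (PL t).getD p [] = l := by
    rw [List.getD_eq_getElem?_getD, hlp]; rfl
  have hl := mem_PL (List.mem_of_getElem? hlp)
  set b := endp (rotG G) a l with hb
  set α := hv G τ t a with hα
  set β := hv G τ t b with hβ
  set C := CV t l (view G a l) with hC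
  have hCt : C (α, β) = true := CV_true G τ h ha hl
  unfold gad at hc
  rw [List.mem_map] at hc
  obtain ⟨lc, hlc, rfl⟩ := hc
  unfold tests at hlc
  rw [List.mem_flatMap] at hlc
  obtain ⟨ω, _, hlc⟩ := hlc
  rw [List.mem_flatMap] at hlc
  obtain ⟨i, hi, hlc⟩ := hlc
  unfold blk at hlc
  rw [List.mem_map] at hlc
  obtain ⟨j, hj, rfl⟩ := hlc
  rw [List.mem_range] at hi hj
  -- the values
  have e1 : hon G τ t (rn t a b (a * (PL t).length + p) (3, idx ω * 5 + i)) =
      bits4 fun j => (qs C ω i j).ans (fun s => dot s α) (fun s => dot s β)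
        (fun x => x (α, β)) := by
    have e0 : rn t a b (a * (PL t).length + p) (3, idx ω * 5 + i) =
        encN (t := t) (Sum.inr (Sum.inr (a * (PL t).length + p, ω, (⟨i, hi⟩ : Fin 5)))) := rfl
    rw [e0, hon_enc]
    simp only [valN, hq1, hq2, hq3]
    rfl
  have e2 : ∀ u : Q t, hon G τ t (rn t a b (a * (PL t).length + p) u.code) =
      if u.ans (fun s => dot s α) (fun s => dot s β) (fun x => x (α, β)) then 1 else 0 := by
    intro u
    cases u with
    | A s =>
      have e0 : rn t a b (a * (PL t).length + p) (Q.A s).code =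
        encN (t := t) (Sum.inl (a, s)) := rfl
      rw [e0, hon_enc]; rfl
    | B s =>
      have e0 : rn t a b (a * (PL t).length + p) (Q.B s).code =
        encN (t := t) (Sum.inl (b, s)) := rfl
      rw [e0, hon_enc]; rfl
    | F x =>
      have e0 : rn t a b (a * (PL t).length + p) (Q.F x).code =
        encN (t := t) (Sum.inr (Sum.inl (a * (PL t).length + p, x))) := rfl
      rw [e0, hon_enc]
      simp only [valN, hq1, hq2, hq3]
      rfl
  have hsat : sat (hon G τ t) (glob t a b (a * (PL t).length + p)
      ((3, idx ω * 5 + i), (qs C ω i j).code, tb i j)) = true := by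
    unfold sat glob
    simp only
    rw [rel_tb i j (Nat.mod_lt _ (by norm_num)) (Nat.mod_lt _ (by norm_num)), e1, e2,
      Nat.mod_eq_of_lt (bits4_lt _)]
    rw [Bool.and_eq_true, decide_eq_true_eq, testBit_bits4 _ hj]
    constructor
    · cases (qs C ω i j).ans (fun s => dot s α) (fun s => dot s β) (fun x => x (α, β)) <;> simp
    · rw [prd_congr i fun j hj => testBit_bits4 _ hj]
      exact prd_true C α β hCt ω hi
  rw [hsat]
  simp

end

end Pool.Agent.H243R3.PCP
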