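import Pool.Agent.H243R3.PCP.Comp
import Pool.Agent.H243R3.TP.Defs

/-!
# The final formula
-/

namespace Pool.Agent.H243R3.PCP

open Finset Pool.Agent.H243R3.TP

/-- The eight literals excluding the pair `(a, b)` of symbols at `(s, s')`. -/
def lt8 (s s' a b : ℕ) (j : ℕ) : TP.Lit :=
  if j < 4 then (2 * (4 * s + j), !(a.testBit j)) else (2 * (4 * s' + (j - 4)), !(b.testBit (j - 4)))

/-- A clause with eight literals, split. -/
def cl6 (l : ℕ → TP.Lit) (z : ℕ → ℕ) : List Clause :=
  [(l 0, l 1, (z 0, true)), ((z 0, false), l 2, (z 1, true)), ((z 1, false), l 3, (z 2, true)),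
    ((z 2, false), l 4, (z 3, true)), ((z 3, false), l 5, (z 4, true)), ((z 4, false), l 6, l 7)]

/-- The number of a forbidden pair. -/
def yn (s i p : ℕ) : ℕ := (s * 130 + i) * 256 + p

/-- The auxiliary variables. -/
def zn (y k : ℕ) : ℕ := 2 * (y * 5 + k) + 1

/-- The clauses for a pair of symbols. -/
noncomputable def bl (G : List Con) (s i p : ℕ) : List Clause :=
  if conG G s i (p / 16) (p % 16) = true then []
  else cl6 (lt8 s (rotG G s i).1 (p / 16) (p % 16)) (zn (yn s i p))

/-- The final formula. -/
noncomputable def phi (G : List Con) : List Clause :=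
  ((8 * (2 * G.length), true), (8 * (2 * G.length), false), (8 * (2 * G.length), true)) ::
    (List.range (2 * G.length)).flatMap fun s => (List.range 130).flatMap fun i =>
      (List.range 256).flatMap fun p => bl G s i p

theorem phi_ne (G : List Con) : phi G ≠ [] := by simp [phi]

/-! ### Number of clauses -/

theorem length_flatMap_le {β γ : Type} (L : List β) (f : β → List γ) (B : ℕ)
    (h : ∀ b ∈ L, (f b).length ≤ B) : (L.flatMap f).length ≤ L.length * B := by
  induction L with
  | nil => simp
  | cons b L ih =>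
    rw [List.flatMap_cons, List.length_append, List.length_cons]
    have h1 := h b List.mem_cons_self
    have h2 := ih fun c hc => h c (List.mem_cons_of_mem _ hc)
    linarith [Nat.succ_mul L.length B, (rfl : (L.length + 1) * B = (L.length + 1) * B),
      add_mul L.length 1 B]

theorem length_phi (G : List Con) : (phi G).length ≤ 1 + 2 * G.length * (130 * (256 * 6)) := by
  unfold phi
  rw [List.length_cons, add_comm]
  refine Nat.add_le_add_left ?_ 1
  refine (length_flatMap_le _ _ (130 * (256 * 6)) fun s _ => ?_).trans (by rw [List.length_range])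
  refine (length_flatMap_le _ _ (256 * 6) fun i _ => ?_).trans (by rw [List.length_range])
  refine (length_flatMap_le _ _ 6 fun p _ => ?_).trans (by rw [List.length_range])
  unfold bl cl6
  split_ifs <;> simp

/-! ### Soundness -/

/-- The symbols given by a truth assignment. -/
def rA (A : List ℕ) (s : ℕ) : ℕ := bits4 fun j => decide (2 * (4 * s + j) ∈ A)

theorem rA_lt (A : List ℕ) (s : ℕ) : rA A s < 16 := bits4_lt _

theorem cl6_sound (l : ℕ → TP.Lit) (z : ℕ → ℕ) (A : List ℕ) (h : ∀ j < 8, ¬ LitTrue A (l j)) :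
    1 ≤ (cl6 l z).countP fun c => !(decide (ClauseSat A c)) := by
  rw [Nat.one_le_iff_ne_zero, ← Nat.pos_iff_ne_zero, List.countP_pos_iff]
  by_contra hc
  push Not at hc
  have key : ∀ c ∈ cl6 l z, ClauseSat A c := by
    intro c hcm
    have := hc c hcm
    simpa using this
  have hh : ∀ l1 l2 l3 : TP.Lit, ClauseSat A (l1, l2, l3) ↔
      LitTrue A l1 ∨ LitTrue A l2 ∨ LitTrue A l3 := by
    intro l1 l2 l3
    simp [ClauseSat, lits]
  have hz : ∀ x : ℕ, LitTrue A (x, true) ↔ x ∈ A := by intro x; simp [LitTrue]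
  have hz' : ∀ x : ℕ, LitTrue A (x, false) ↔ x ∉ A := by intro x; simp [LitTrue]
  have k0 := key (l 0, l 1, (z 0, true)) (by simp [cl6])
  have k1 := key ((z 0, false), l 2, (z 1, true)) (by simp [cl6])
  have k2 := key ((z 1, false), l 3, (z 2, true)) (by simp [cl6])
  have k3 := key ((z 2, false), l 4, (z 3, true)) (by simp [cl6])
  have k4 := key ((z 3, false), l 5, (z 4, true)) (by simp [cl6])
  have k5 := key ((z 4, false), l 6, l 7) (by simp [cl6])
  rw [hh, hz] at k0
  rw [hh, hz, hz'] at k1 k2 k3 k4
  rw [hh, hz'] at k5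
  have h0 := h 0 (by norm_num)
  have h1 := h 1 (by norm_num)
  have h2 := h 2 (by norm_num)
  have h3 := h 3 (by norm_num)
  have h4 := h 4 (by norm_num)
  have h5 := h 5 (by norm_num)
  have h6 := h 6 (by norm_num)
  have h7 := h 7 (by norm_num)
  tauto

/-- The number of unsatisfied clauses. -/
def unsat (φ : List Clause) (A : List ℕ) : ℕ := φ.countP fun c => !(decide (ClauseSat A c))

theorem unsat_add (φ : List Clause) (A : List ℕ) : numSat φ A + unsat φ A = φ.length := by
  unfold numSat unsat
  have := List.length_eq_countP_add_countP (fun c => decide (ClauseSat A c)) (l := φ)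
  rw [this]
  congr 1
  refine List.countP_congr fun c _ => ?_
  simp

theorem unsat_flatMap {β : Type} (L : List β) (f : β → List Clause) (A : List ℕ) :
    unsat (L.flatMap f) A = (L.map fun b => unsat (f b) A).sum := by
  induction L with
  | nil => simp [unsat]
  | cons b L ih =>
    rw [List.flatMap_cons, List.map_cons, List.sum_cons, ← ih]
    unfold unsat
    rw [List.countP_append]

theorem phi_sound (G : List Con) (A : List ℕ) : (FG G (rA A)).card ≤ unsat (phi G) A := by
  have h1 : ∑ s ∈ range (2 * G.length), ∑ i ∈ range 130, ∑ p ∈ range 256, unsat (bl G s i p) A ≤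
      unsat (phi G) A := by
    unfold phi
    unfold unsat
    rw [List.countP_cons]
    refine le_trans (le_of_eq ?_) (Nat.le_add_right _ _)
    have e1 := unsat_flatMap (List.range (2 * G.length)) (fun s => (List.range 130).flatMap fun i =>
      (List.range 256).flatMap fun p => bl G s i p) A
    unfold unsat at e1
    rw [e1, sum_range_list]
    refine sum_congr rfl fun s _ => ?_
    have e2 := unsat_flatMap (List.range 130) (fun i =>
      (List.range 256).flatMap fun p => bl G s i p) A
    unfold unsat at e2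
    rw [e2, sum_range_list]
    refine sum_congr rfl fun i _ => ?_
    have e3 := unsat_flatMap (List.range 256) (fun p => bl G s i p) A
    unfold unsat at e3
    rw [e3, sum_range_list]
  refine le_trans ?_ h1
  have h2 : (FG G (rA A)).card = ∑ s ∈ range (2 * G.length), ∑ i ∈ range 130,
      if conG G s i (rA A s) (rA A (rotG G s i).1) = false then 1 else 0 := by
    unfold FG
    rw [card_filter, sum_product]
  rw [h2]
  refine sum_le_sum fun s _ => sum_le_sum fun i _ => ?_
  split_ifs with h
  · set a := rA A s with ha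
    set b := rA A (rotG G s i).1 with hb
    have ha16 : a < 16 := rA_lt _ _
    have hb16 : b < 16 := rA_lt _ _
    have hp : 16 * a + b ∈ range 256 := mem_range.2 (by omega)
    refine le_trans ?_ (single_le_sum (f := fun p => unsat (bl G s i p) A)
      (fun _ _ => Nat.zero_le _) hp)
    unfold bl
    rw [show (16 * a + b) / 16 = a by omega, show (16 * a + b) % 16 = b by omega, h,
      if_neg (by simp)]
    refine cl6_sound _ _ A fun j hj => ?_
    unfold lt8 LitTrue
    by_cases hj4 : j < 4
    · rw [if_pos hj4]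
      simp only
      rw [ha]
      unfold rA
      rw [testBit_bits4 _ hj4]
      simp
    · rw [if_neg hj4]
      simp only
      rw [hb]
      unfold rA
      rw [testBit_bits4 _ (by omega)]
      simp
  · exact Nat.zero_le _

/-! ### Completeness -/

section Compl

variable (G : List Con) (ρ : ℕ → ℕ)

/-- The truth values of the variables of the symbols. -/
def vE (x : ℕ) : Bool := (ρ (x / 8)).testBit (x / 2 % 4)

/-- The truth value of a literal on such a variable. -/
def lv (l : TP.Lit) : Bool := decide (vE ρ l.1 = l.2)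

/-- The truth values of the auxiliary variables. -/
noncomputable def vZ (y k : ℕ) : Bool :=
  (List.range (k + 2)).all fun j => !(lv ρ (lt8 (y / 256 / 130) (rotG G (y / 256 / 130)
    (y / 256 % 130)).1 (y % 256 / 16) (y % 256 % 16) j))

/-- All truth values. -/
noncomputable def vA (x : ℕ) : Bool :=
  if x % 2 = 0 then vE ρ x else vZ G ρ (x / 10) (x / 2 % 5)

theorem vA_even (x : ℕ) (h : x % 2 = 0) : vA G ρ x = vE ρ x := by unfold vA; rw [if_pos h]

theorem vA_odd (y : ℕ) {k : ℕ} (hk : k < 5) : vA G ρ (zn y k) = vZ G ρ y k := by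
  unfold vA zn
  rw [if_neg (by omega), show (2 * (y * 5 + k) + 1) / 10 = y by omega,
    show (2 * (y * 5 + k) + 1) / 2 % 5 = k by omega]

theorem lt8_even (s s' a b j : ℕ) : (lt8 s s' a b j).1 % 2 = 0 := by
  unfold lt8; split_ifs <;> simp only <;> omega

theorem cl6_complete (l : ℕ → TP.Lit) (z : ℕ → ℕ) (v : ℕ → Bool)
    (hz : ∀ k < 5, v (z k) = (List.range (k + 2)).all fun j => !(decide (v (l j).1 = (l j).2)))
    (h : ∃ j < 8, v (l j).1 = (l j).2) : ∀ c ∈ cl6 l z, v c.1.1 = c.1.2 ∨ v c.2.1.1 = c.2.1.2 ∨
      v c.2.2.1 = c.2.2.2 := by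
  have z0 := hz 0 (by norm_num)
  have z1 := hz 1 (by norm_num)
  have z2 := hz 2 (by norm_num)
  have z3 := hz 3 (by norm_num)
  have z4 := hz 4 (by norm_num)
  obtain ⟨j, hj, h⟩ := h
  have h8 : (v (l 0).1 = (l 0).2 ∨ v (l 1).1 = (l 1).2 ∨ v (l 2).1 = (l 2).2 ∨
      v (l 3).1 = (l 3).2 ∨ v (l 4).1 = (l 4).2 ∨ v (l 5).1 = (l 5).2 ∨ v (l 6).1 = (l 6).2 ∨
      v (l 7).1 = (l 7).2) := by
    interval_cases j <;> simp [h]
  simp only [List.range_succ, List.range_zero, List.nil_append, List.all_append, List.all_cons,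
    List.all_nil, Bool.and_true] at z0 z1 z2 z3 z4
  intro c hc
  simp only [cl6, List.mem_cons, List.not_mem_nil, or_false] at hc
  rcases hc with rfl | rfl | rfl | rfl | rfl | rfl
  all_goals
    simp only
    simp only [z0, z1, z2, z3, z4]
    by_cases h0 : v (l 0).1 = (l 0).2 <;> by_cases h1 : v (l 1).1 = (l 1).2 <;>
    by_cases h2 : v (l 2).1 = (l 2).2 <;> by_cases h3 : v (l 3).1 = (l 3).2 <;>
    by_cases h4 : v (l 4).1 = (l 4).2 <;> by_cases h5 : v (l 5).1 = (l 5).2 <;>
    simp_all

theorem bl_complete {s i p : ℕ} (hi : i < 130) (hp : p < 256) (hρ : ∀ s, ρ s < 16)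
    (h : conG G s i (ρ s) (ρ (rotG G s i).1) = true) : ∀ c ∈ bl G s i p,
      vA G ρ c.1.1 = c.1.2 ∨ vA G ρ c.2.1.1 = c.2.1.2 ∨ vA G ρ c.2.2.1 = c.2.2.2 := by
  unfold bl
  split_ifs with hc
  · simp
  · refine cl6_complete _ _ _ ?_ ?_
    · intro k hk
      rw [vA_odd G ρ _ hk]
      unfold vZ
      have e1 : yn s i p / 256 / 130 = s := by unfold yn; omega
      have e2 : yn s i p / 256 % 130 = i := by unfold yn; omega
      have e3 : yn s i p % 256 = p := by unfold yn; omega
      rw [e1, e2, e3]
      congr 1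
      funext j
      rw [vA_even _ _ _ (lt8_even _ _ _ _ _)]
      rfl
    · by_contra hcon
      push Not at hcon
      have key : ∀ j < 4, (ρ s).testBit j = (p / 16).testBit j ∧
          (ρ (rotG G s i).1).testBit j = (p % 16).testBit j := by
        intro j hj
        have h1 := hcon j (by omega)
        have h2 := hcon (j + 4) (by omega)
        rw [vA_even _ _ _ (lt8_even _ _ _ _ _)] at h1 h2
        unfold lt8 vE at h1 h2
        rw [if_pos hj] at h1
        rw [if_neg (by omega)] at h2
        simp only at h1 h2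
        rw [show 2 * (4 * s + j) / 8 = s by omega, show 2 * (4 * s + j) / 2 % 4 = j by omega] at h1
        rw [show j + 4 - 4 = j by omega,
          show 2 * (4 * (rotG G s i).1 + j) / 8 = (rotG G s i).1 by omega,
          show 2 * (4 * (rotG G s i).1 + j) / 2 % 4 = j by omega] at h2
        constructor
        · cases h3 : (ρ s).testBit j <;> cases h4 : (p / 16).testBit j <;> simp_all
        · cases h3 : (ρ (rotG G s i).1).testBit j <;> cases h4 : (p % 16).testBit j <;> simp_all
      have e1 : ρ s = p / 16 := by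
        rw [← bits4_testBit (hρ s), ← bits4_testBit (show p / 16 < 16 by omega)]
        exact bits4_congr fun j hj => (key j hj).1
      have e2 : ρ (rotG G s i).1 = p % 16 := by
        rw [← bits4_testBit (hρ (rotG G s i).1),
          ← bits4_testBit (show p % 16 < 16 from Nat.mod_lt _ (by norm_num))]
        exact bits4_congr fun j hj => (key j hj).2
      rw [e1, e2] at h
      exact hc h

/-- **Completeness.** -/
theorem phi_complete (G : List Con) (τ : ℕ → ℕ) (h : viol G τ = 0) :
    ∃ A : List ℕ, (∀ x ∈ A, x ∈ occ (phi G)) ∧ A.length ≤ (occ (phi G)).length ∧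
      unsat (phi G) A = 0 := by
  set ρ := slo G τ with hρ
  refine ⟨(occ (phi G)).filter (vA G ρ), fun x hx => (List.mem_filter.1 hx).1,
    List.length_filter_le _ _, ?_⟩
  unfold unsat
  rw [List.countP_eq_zero]
  intro c hc
  simp only [Bool.not_eq_true', decide_eq_false_iff_not, not_not]
  have hsat : vA G ρ c.1.1 = c.1.2 ∨ vA G ρ c.2.1.1 = c.2.1.2 ∨ vA G ρ c.2.2.1 = c.2.2.2 := by
    unfold phi at hc
    rw [List.mem_cons] at hc
    rcases hc with rfl | hc
    · simp only
      cases vA G ρ (8 * (2 * G.length)) <;> simp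
    · rw [List.mem_flatMap] at hc
      obtain ⟨s, hs, hc⟩ := hc
      rw [List.mem_flatMap] at hc
      obtain ⟨i, hi, hc⟩ := hc
      rw [List.mem_flatMap] at hc
      obtain ⟨p, hp, hc⟩ := hc
      rw [List.mem_range] at hs hi hp
      exact bl_complete G ρ hi hp (slo_lt G τ) (slo_ok G τ h hs i) c hc
  have hin : ∀ l ∈ lits c, l.1 ∈ occ (phi G) := by
    intro l hl
    unfold occ
    rw [List.mem_flatMap]
    exact ⟨c, hc, List.mem_map_of_mem hl⟩
  have hl : ∀ l ∈ lits c, vA G ρ l.1 = l.2 → LitTrue ((occ (phi G)).filter (vA G ρ)) l := by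
    intro l hl h1
    unfold LitTrue
    rw [List.mem_filter]
    constructor
    · rintro ⟨_, h2⟩; rw [← h1]; exact h2
    · intro h2; exact ⟨hin l hl, by rw [h1]; exact h2⟩
  unfold ClauseSat
  rcases hsat with h | h | h
  · exact ⟨c.1, by simp [lits], hl _ (by simp [lits]) h⟩
  · exact ⟨c.2.1, by simp [lits], hl _ (by simp [lits]) h⟩
  · exact ⟨c.2.2, by simp [lits], hl _ (by simp [lits]) h⟩

end Compl

end Pool.Agent.H243R3.PCP
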