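import Mathlib

/-!
# Fourier analysis on `(ℤ/n)²`
-/

namespace Pool.Agent.H243R3.PCP

open Finset Complex ZMod

variable {n : ℕ} [NeZero n]

/-- The Fourier transform. -/
noncomputable def ft (f : ZMod n × ZMod n → ℂ) (ξ : ZMod n × ZMod n) : ℂ :=
  ∑ z : ZMod n × ZMod n, f z * stdAddChar (ξ.1 * z.1 + ξ.2 * z.2)

theorem sum_char (a b : ZMod n) : ∑ ξ : ZMod n × ZMod n, (stdAddChar (ξ.1 * a + ξ.2 * b) : ℂ) =
    if a = 0 ∧ b = 0 then (n : ℂ) ^ 2 else 0 := by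
  rw [Fintype.sum_prod_type]
  simp only [AddChar.map_add_eq_mul]
  rw [← Finset.sum_mul_sum, AddChar.sum_mulShift a (isPrimitive_stdAddChar n),
    AddChar.sum_mulShift b (isPrimitive_stdAddChar n), ZMod.card]
  by_cases ha : a = 0 <;> by_cases hb : b = 0 <;> simp [ha, hb, sq]

theorem parseval (f : ZMod n × ZMod n → ℂ) :
    ∑ ξ, ‖ft f ξ‖ ^ 2 = (n : ℝ) ^ 2 * ∑ z, ‖f z‖ ^ 2 := by
  have key : ∀ w : ℂ, ((‖w‖ ^ 2 : ℝ) : ℂ) = w * (starRingEnd ℂ) w := by
    intro w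
    rw [Complex.mul_conj, Complex.normSq_eq_norm_sq]
  apply Complex.ofReal_injective
  rw [Complex.ofReal_sum, Complex.ofReal_mul, Complex.ofReal_sum]
  simp only [key]
  have h1 : ∀ ξ : ZMod n × ZMod n, ft f ξ * (starRingEnd ℂ) (ft f ξ) =
      ∑ z : ZMod n × ZMod n, ∑ w : ZMod n × ZMod n, (f z * (starRingEnd ℂ) (f w)) *
        stdAddChar (ξ.1 * (z.1 - w.1) + ξ.2 * (z.2 - w.2)) := by
    intro ξ
    unfold ft
    rw [map_sum, Finset.sum_mul_sum]
    refine sum_congr rfl fun z _ => sum_congr rfl fun w _ => ?_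
    rw [map_mul, ← AddChar.map_neg_eq_conj]
    have : ξ.1 * (z.1 - w.1) + ξ.2 * (z.2 - w.2) = (ξ.1 * z.1 + ξ.2 * z.2) +
        (-(ξ.1 * w.1 + ξ.2 * w.2)) := by ring
    rw [this, AddChar.map_add_eq_mul _ (ξ.1 * z.1 + ξ.2 * z.2) (-(ξ.1 * w.1 + ξ.2 * w.2))]
    ring
  simp only [h1]
  rw [sum_comm]
  rw [Finset.mul_sum]
  refine sum_congr rfl fun z _ => ?_
  rw [sum_comm]
  simp only [← Finset.mul_sum, sum_char]
  rw [Finset.sum_eq_single z]
  · simp
    ring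
  · intro w _ hw
    rw [if_neg, mul_zero]
    rintro ⟨h1, h2⟩
    exact hw (Prod.ext (sub_eq_zero.1 h1).symm (sub_eq_zero.1 h2).symm)
  · intro h
    exact absurd (mem_univ z) h

theorem ft_sub (f g : ZMod n × ZMod n → ℂ) (ξ) : ft (fun z => f z - g z) ξ = ft f ξ - ft g ξ := by
  unfold ft
  rw [← sum_sub_distrib]
  exact sum_congr rfl fun z _ => by ring

/-- The transform of `f (x + y, y)`. -/
theorem ft_A (f : ZMod n × ZMod n → ℂ) (ξ : ZMod n × ZMod n) :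
    ft (fun z => f (z.1 + z.2, z.2)) ξ = ft f (ξ.1, ξ.2 - ξ.1) := by
  unfold ft
  refine Finset.sum_nbij' (fun z => (z.1 + z.2, z.2)) (fun z => (z.1 - z.2, z.2)) ?_ ?_ ?_ ?_ ?_
  · intro z _; exact mem_univ _
  · intro z _; exact mem_univ _
  · intro z _; simp
  · intro z _; simp
  · intro z _
    simp only
    congr 2
    ring

theorem ft_B (f : ZMod n × ZMod n → ℂ) (ξ : ZMod n × ZMod n) :
    ft (fun z => f (z.1, z.2 + z.1)) ξ = ft f (ξ.1 - ξ.2, ξ.2) := by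
  unfold ft
  refine Finset.sum_nbij' (fun z => (z.1, z.2 + z.1)) (fun z => (z.1, z.2 - z.1)) ?_ ?_ ?_ ?_ ?_
  · intro z _; exact mem_univ _
  · intro z _; exact mem_univ _
  · intro z _; simp
  · intro z _; simp
  · intro z _
    simp only
    congr 2
    ring

theorem ft_E (f : ZMod n × ZMod n → ℂ) (ξ : ZMod n × ZMod n) :
    ft (fun z => f (z.1 + 1, z.2)) ξ = stdAddChar (-ξ.1) * ft f ξ := by
  unfold ft
  rw [mul_sum]
  refine Finset.sum_nbij' (fun z => (z.1 + 1, z.2)) (fun z => (z.1 - 1, z.2)) ?_ ?_ ?_ ?_ ?_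
  · intro z _; exact mem_univ _
  · intro z _; exact mem_univ _
  · intro z _; simp
  · intro z _; simp
  · intro z _
    simp only
    have : ξ.1 * z.1 + ξ.2 * z.2 = -ξ.1 + (ξ.1 * (z.1 + 1) + ξ.2 * z.2) := by ring
    rw [this, AddChar.map_add_eq_mul]
    ring

theorem ft_E' (f : ZMod n × ZMod n → ℂ) (ξ : ZMod n × ZMod n) :
    ft (fun z => f (z.1, z.2 + 1)) ξ = stdAddChar (-ξ.2) * ft f ξ := by
  unfold ft
  rw [mul_sum]
  refine Finset.sum_nbij' (fun z => (z.1, z.2 + 1)) (fun z => (z.1, z.2 - 1)) ?_ ?_ ?_ ?_ ?_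
  · intro z _; exact mem_univ _
  · intro z _; exact mem_univ _
  · intro z _; simp
  · intro z _; simp
  · intro z _
    simp only
    have : ξ.1 * z.1 + ξ.2 * z.2 = -ξ.2 + (ξ.1 * z.1 + ξ.2 * (z.2 + 1)) := by ring
    rw [this, AddChar.map_add_eq_mul]
    ring

/-- Frequencies that are not near `0`. -/
def Far (a : ZMod n) : Prop := n ≤ 4 * a.val ∧ 4 * a.val ≤ 3 * n

theorem far_char {a : ZMod n} (h : Far a) : 2 ≤ ‖(stdAddChar (-a) : ℂ) - 1‖ ^ 2 := by
  have h1 : (stdAddChar (-a) : ℂ) = (starRingEnd ℂ) (stdAddChar a) := AddChar.map_neg_eq_conj _ _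
  have h2 : (stdAddChar a : ℂ) = Complex.exp (2 * Real.pi * I * a.val / n) := by
    rw [stdAddChar_apply, toCircle_apply]
  have hn : (0 : ℝ) < n := by exact_mod_cast NeZero.pos n
  have h3 : (2 * Real.pi * I * a.val / n : ℂ) = ((2 * Real.pi * a.val / n : ℝ) : ℂ) * I := by
    push_cast
    ring
  rw [h1, h2, h3, ← Complex.normSq_eq_norm_sq, Complex.normSq_apply]
  simp only [Complex.sub_re, Complex.conj_re, Complex.exp_ofReal_mul_I_re, Complex.one_re,
    Complex.sub_im, Complex.conj_im, Complex.exp_ofReal_mul_I_im, Complex.one_im]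
  set t : ℝ := 2 * Real.pi * a.val / n with ht
  have hcos : Real.cos t ≤ 0 := by
    apply Real.cos_nonpos_of_pi_div_two_le_of_le
    · rw [ht, div_le_div_iff₀ (by norm_num) hn]
      have : (n : ℝ) ≤ 4 * a.val := by exact_mod_cast h.1
      nlinarith [Real.pi_pos]
    · rw [ht, div_le_iff₀ hn]
      have : (4 * a.val : ℝ) ≤ 3 * n := by exact_mod_cast h.2
      nlinarith [Real.pi_pos]
  have := Real.sin_sq_add_cos_sq t
  nlinarith

end Pool.Agent.H243R3.PCP
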