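import Mathlib

/-!
# Walks in graphs given by rotation maps
-/

namespace Pool.Agent.H243R3.PCP

open Finset

/-- `rot` is the rotation map of a `d`-regular graph with the vertices `0, …, N - 1`. -/
structure IsRot (N d : ℕ) (rot : ℕ → ℕ → ℕ × ℕ) : Prop where
  lt1 : ∀ v < N, ∀ i < d, (rot v i).1 < N
  lt2 : ∀ v < N, ∀ i < d, (rot v i).2 < d
  inv : ∀ v < N, ∀ i < d, rot (rot v i).1 (rot v i).2 = (v, i)

variable {N d : ℕ} {rot : ℕ → ℕ → ℕ × ℕ}

theorem IsRot.sum (h : IsRot N d rot) (g : ℕ → ℕ → ℝ) :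
    ∑ v ∈ range N, ∑ i ∈ range d, g (rot v i).1 (rot v i).2 =
      ∑ v ∈ range N, ∑ i ∈ range d, g v i := by
  rw [← sum_product', ← sum_product']
  refine Finset.sum_nbij' (fun q => rot q.1 q.2) (fun q => rot q.1 q.2) ?_ ?_ ?_ ?_ ?_
  · rintro ⟨v, i⟩ hq
    rw [mem_product, mem_range, mem_range] at hq
    rw [mem_product, mem_range, mem_range]
    exact ⟨h.lt1 _ hq.1 _ hq.2, h.lt2 _ hq.1 _ hq.2⟩
  · rintro ⟨v, i⟩ hq
    rw [mem_product, mem_range, mem_range] at hq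
    rw [mem_product, mem_range, mem_range]
    exact ⟨h.lt1 _ hq.1 _ hq.2, h.lt2 _ hq.1 _ hq.2⟩
  · rintro ⟨v, i⟩ hq
    rw [mem_product, mem_range, mem_range] at hq
    exact h.inv _ hq.1 _ hq.2
  · rintro ⟨v, i⟩ hq
    rw [mem_product, mem_range, mem_range] at hq
    exact h.inv _ hq.1 _ hq.2
  · rintro ⟨v, i⟩ _
    rfl

/-! ### Lists of labels -/

/-- The lists of `n` labels below `d`. -/
def T (d : ℕ) : ℕ → Finset (List ℕ)
  | 0 => {[]}
  | n + 1 => (range d ×ˢ T d n).image fun p => p.1 :: p.2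

theorem sum_T_zero (φ : List ℕ → ℝ) : ∑ l ∈ T d 0, φ l = φ [] := by
  simp [T]

theorem sum_T_succ (n : ℕ) (φ : List ℕ → ℝ) :
    ∑ l ∈ T d (n + 1), φ l = ∑ i ∈ range d, ∑ l ∈ T d n, φ (i :: l) := by
  change ∑ l ∈ (range d ×ˢ T d n).image (fun p => p.1 :: p.2), φ l = _
  rw [sum_image, sum_product]
  rintro ⟨a, l⟩ _ ⟨b, l'⟩ _ h
  simp only [List.cons.injEq] at h
  exact Prod.ext h.1 h.2

theorem mem_T {n : ℕ} : ∀ {l : List ℕ}, l ∈ T d n ↔ l.length = n ∧ ∀ i ∈ l, i < d := by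
  induction n with
  | zero =>
    intro l
    simp only [T, mem_singleton, List.length_eq_zero_iff]
    constructor
    · rintro rfl; simp
    · exact fun h => h.1
  | succ n ih =>
    intro l
    simp only [T, mem_image, mem_product, mem_range, Prod.exists]
    constructor
    · rintro ⟨a, b, ⟨h1, h2⟩, rfl⟩
      rw [ih] at h2
      refine ⟨by simp [h2.1], ?_⟩
      intro i hi
      rw [List.mem_cons] at hi
      rcases hi with rfl | hi
      · exact h1
      · exact h2.2 i hi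
    · rintro ⟨h1, h2⟩
      cases l with
      | nil => simp at h1
      | cons a b =>
        refine ⟨a, b, ⟨h2 a List.mem_cons_self, ?_⟩, rfl⟩
        rw [ih]
        exact ⟨by simpa using h1, fun i hi => h2 i (List.mem_cons_of_mem _ hi)⟩

theorem card_T (n : ℕ) : ∑ _l ∈ T d n, (1 : ℝ) = (d : ℝ) ^ n := by
  induction n with
  | zero => simp [T]
  | succ n ih =>
    rw [sum_T_succ]
    simp only [ih, sum_const, card_range, nsmul_eq_mul]
    ring

theorem sum_T_const (n : ℕ) (c : ℝ) : ∑ _l ∈ T d n, c = (d : ℝ) ^ n * c := by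
  rw [← card_T, sum_mul]
  simp

theorem sum_T_append (m n : ℕ) : ∀ φ : List ℕ → ℝ,
    ∑ l ∈ T d (m + n), φ l = ∑ l ∈ T d m, ∑ l' ∈ T d n, φ (l ++ l') := by
  induction m with
  | zero => intro φ; rw [Nat.zero_add, sum_T_zero]; simp
  | succ m ih =>
    intro φ
    rw [show m + 1 + n = (m + n) + 1 by ring, sum_T_succ, sum_T_succ]
    refine sum_congr rfl fun i _ => ?_
    rw [ih]
    simp

theorem sum_T_snoc (n : ℕ) (φ : List ℕ → ℝ) :
    ∑ l ∈ T d (n + 1), φ l = ∑ l ∈ T d n, ∑ i ∈ range d, φ (l ++ [i]) := by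
  rw [sum_T_append]
  refine sum_congr rfl fun l _ => ?_
  rw [show (1 : ℕ) = 0 + 1 from rfl, sum_T_succ]
  simp only [sum_T_zero]

theorem sum_T_take {m n : ℕ} (h : m ≤ n) (φ : List ℕ → ℝ) :
    ∑ l ∈ T d n, φ (l.take m) = (d : ℝ) ^ (n - m) * ∑ l ∈ T d m, φ l := by
  obtain ⟨e, rfl⟩ := Nat.exists_eq_add_of_le h
  rw [sum_T_append, Nat.add_sub_cancel_left, mul_sum]
  refine sum_congr rfl fun l hl => ?_
  have : ∀ l' : List ℕ, (l ++ l').take m = l := by
    intro l'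
    rw [← (mem_T.1 hl).1, List.take_left']
    rfl
  simp only [this, sum_T_const]

/-! ### Walks -/

/-- The end of the walk from `v` with the labels `l`. -/
def endp (rot : ℕ → ℕ → ℕ × ℕ) : ℕ → List ℕ → ℕ
  | v, [] => v
  | v, i :: l => endp rot (rot v i).1 l

/-- The labels of the way back. -/
def revl (rot : ℕ → ℕ → ℕ × ℕ) : ℕ → List ℕ → List ℕ
  | _, [] => []
  | v, i :: l => revl rot (rot v i).1 l ++ [(rot v i).2]

theorem IsRot.endp_lt (h : IsRot N d rot) : ∀ (l : List ℕ) (v : ℕ), v < N → (∀ i ∈ l, i < d) →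
    endp rot v l < N := by
  intro l
  induction l with
  | nil => intro v hv _; exact hv
  | cons i l ih =>
    intro v hv hl
    exact ih _ (h.lt1 v hv i (hl i List.mem_cons_self)) fun j hj => hl j (List.mem_cons_of_mem _ hj)

theorem length_revl : ∀ (l : List ℕ) (v : ℕ), (revl rot v l).length = l.length := by
  intro l
  induction l with
  | nil => intro v; rfl
  | cons i l ih => intro v; simp [revl, ih]

theorem endp_append : ∀ (l l' : List ℕ) (v : ℕ), endp rot v (l ++ l') = endp rot (endp rot v l) l' := by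
  intro l
  induction l with
  | nil => intro l' v; rfl
  | cons i l ih => intro l' v; exact ih l' _

theorem revl_append : ∀ (l l' : List ℕ) (v : ℕ),
    revl rot v (l ++ l') = revl rot (endp rot v l) l' ++ revl rot v l := by
  intro l
  induction l with
  | nil => intro l' v; simp [revl, endp]
  | cons i l ih =>
    intro l' v
    simp only [List.cons_append, revl, endp, ih, List.append_assoc]

/-- Sums over all walks of a given length can be rewritten by reversing the walks. -/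
theorem IsRot.sum_rev (h : IsRot N d rot) (n : ℕ) : ∀ g : ℕ → List ℕ → ℝ,
    ∑ v ∈ range N, ∑ l ∈ T d n, g (endp rot v l) (revl rot v l) =
      ∑ v ∈ range N, ∑ l ∈ T d n, g v l := by
  induction n with
  | zero => intro g; simp [sum_T_zero, endp, revl]
  | succ n ih =>
    intro g
    have e1 : ∀ v, ∑ l ∈ T d (n + 1), g (endp rot v l) (revl rot v l) =
        ∑ i ∈ range d, (fun w j => ∑ l ∈ T d n, g (endp rot w l) (revl rot w l ++ [j]))
          (rot v i).1 (rot v i).2 := by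
      intro v
      rw [sum_T_succ]
      rfl
    simp only [e1]
    rw [h.sum (fun w j => ∑ l ∈ T d n, g (endp rot w l) (revl rot w l ++ [j])), sum_comm]
    have e2 : ∀ i, ∑ v ∈ range N, ∑ l ∈ T d n, g (endp rot v l) (revl rot v l ++ [i]) =
        ∑ v ∈ range N, ∑ l ∈ T d n, g v (l ++ [i]) := fun i => ih fun w l => g w (l ++ [i])
    simp only [e2]
    rw [sum_comm]
    refine sum_congr rfl fun v _ => ?_
    rw [sum_T_snoc, sum_comm]

/-- Sums over the ends of all walks of a given length. -/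
theorem IsRot.sum_end (h : IsRot N d rot) (n : ℕ) : ∀ g : ℕ → ℝ,
    ∑ v ∈ range N, ∑ l ∈ T d n, g (endp rot v l) = (d : ℝ) ^ n * ∑ v ∈ range N, g v := by
  intro g
  rw [h.sum_rev n fun v _ => g v, mul_sum]
  exact sum_congr rfl fun v _ => sum_T_const n _

/-! ### The adjacency operator -/

/-- The adjacency operator. -/
def adj (rot : ℕ → ℕ → ℕ × ℕ) (d : ℕ) (f : ℕ → ℝ) (v : ℕ) : ℝ := ∑ i ∈ range d, f (rot v i).1

theorem sum_adj (h : IsRot N d rot) (f : ℕ → ℝ) :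
    ∑ v ∈ range N, adj rot d f v = d * ∑ v ∈ range N, f v := by
  unfold adj
  rw [h.sum fun v _ => f v, mul_sum]
  exact sum_congr rfl fun v _ => by simp

/-- The graph is lazy and satisfies a Poincaré inequality. -/
structure IsExp (N d₀ : ℕ) (K : ℝ) (rot : ℕ → ℕ → ℕ × ℕ) : Prop where
  isrot : IsRot N (2 * d₀) rot
  loop : ∀ v < N, ∀ i, d₀ ≤ i → i < 2 * d₀ → rot v i = (v, i)
  pos : 0 < K
  poinc : ∀ f : ℕ → ℝ, ∑ v ∈ range N, f v = 0 →
    ∑ v ∈ range N, f v ^ 2 ≤ K * ∑ v ∈ range N, ∑ i ∈ range d₀, (f (rot v i).1 - f v) ^ 2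

variable {d₀ : ℕ} {K : ℝ}

theorem IsExp.half (h : IsExp N d₀ K rot) : IsRot N d₀ rot := by
  refine ⟨fun v hv i hi => h.isrot.lt1 v hv i (by omega), fun v hv i hi => ?_,
    fun v hv i hi => h.isrot.inv v hv i (by omega)⟩
  by_contra hc
  have h1 := h.isrot.lt1 v hv i (by omega)
  have h2 := h.isrot.lt2 v hv i (by omega)
  have h3 := h.isrot.inv v hv i (by omega)
  rw [h.loop _ h1 _ (by omega) h2] at h3
  have := (Prod.ext_iff.1 h3).2
  simp only at this
  omega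

theorem IsExp.contract (h : IsExp N d₀ K rot) (hd : 1 ≤ d₀) (f : ℕ → ℝ)
    (h0 : ∑ v ∈ range N, f v = 0) :
    ∑ v ∈ range N, adj rot (2 * d₀) f v ^ 2 ≤
      (2 * d₀ : ℝ) ^ 2 * (1 - 1 / (4 * d₀ * K)) * ∑ v ∈ range N, f v ^ 2 := by
  have hh := h.half
  have hd' : (1 : ℝ) ≤ d₀ := by exact_mod_cast hd
  have hK := h.pos
  set Q := ∑ v ∈ range N, f v ^ 2 with hQ
  set E := ∑ v ∈ range N, ∑ i ∈ range d₀, (f (rot v i).1 - f v) ^ 2 with hE
  set A' : ℕ → ℝ := fun v => ∑ i ∈ range d₀, f (rot v i).1 with hA'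
  have e1 : ∀ v ∈ range N, adj rot (2 * d₀) f v = A' v + d₀ * f v := by
    intro v hv
    rw [mem_range] at hv
    unfold adj
    rw [two_mul, sum_range_add]
    have : ∀ i ∈ range d₀, f (rot v (d₀ + i)).1 = f v := by
      intro i hi
      rw [mem_range] at hi
      rw [h.loop v hv _ (by omega) (by omega)]
    rw [sum_congr rfl this]
    simp [hA']
  have e2 : ∑ v ∈ range N, A' v ^ 2 ≤ d₀ ^ 2 * Q := by
    have h1 : ∀ v ∈ range N, A' v ^ 2 ≤ d₀ * ∑ i ∈ range d₀, f (rot v i).1 ^ 2 := by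
      intro v _
      have := sum_mul_sq_le_sq_mul_sq (range d₀) (fun _ => (1 : ℝ)) (fun i => f (rot v i).1)
      simpa using this
    refine (sum_le_sum h1).trans ?_
    rw [← mul_sum, hh.sum fun v _ => f v ^ 2]
    simp only [sum_const, card_range, nsmul_eq_mul]
    rw [← mul_sum]
    rw [sq, mul_assoc]
  have e3 : ∑ v ∈ range N, f v * A' v = d₀ * Q - E / 2 := by
    have h1 : E = ∑ v ∈ range N, ∑ i ∈ range d₀, (f (rot v i).1 ^ 2 - 2 * (f v * f (rot v i).1) +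
        f v ^ 2) := by
      rw [hE]
      exact sum_congr rfl fun v _ => sum_congr rfl fun i _ => by ring
    simp only [sum_add_distrib, sum_sub_distrib] at h1
    rw [hh.sum fun v _ => f v ^ 2] at h1
    simp only [sum_const, card_range, nsmul_eq_mul, ← mul_sum] at h1
    rw [h1, hA']
    simp only
    rw [← hQ]
    ring
  have e4 : ∑ v ∈ range N, adj rot (2 * d₀) f v ^ 2 =
      ∑ v ∈ range N, A' v ^ 2 + 2 * d₀ * ∑ v ∈ range N, f v * A' v + d₀ ^ 2 * Q := by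
    rw [sum_congr rfl fun v hv => by rw [e1 v hv], hQ, mul_sum, mul_sum, ← sum_add_distrib,
      ← sum_add_distrib]
    exact sum_congr rfl fun v _ => by ring
  have e5 : Q / K ≤ E := by
    rw [div_le_iff₀ hK, mul_comm]
    exact h.poinc f h0
  rw [e4, e3]
  have e6 : (2 * d₀ : ℝ) ^ 2 * (1 - 1 / (4 * d₀ * K)) * Q = 4 * d₀ ^ 2 * Q - d₀ * (Q / K) := by
    field_simp
    ring
  rw [e6]
  nlinarith

/-- The contraction factor. -/
noncomputable def lam (d₀ : ℕ) (K : ℝ) : ℝ := 1 - 1 / (8 * d₀ * K)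

theorem lam_sq (hd : 1 ≤ d₀) (hK : 0 < K) : 1 - 1 / (4 * d₀ * K) ≤ lam d₀ K ^ 2 := by
  have hd' : (1 : ℝ) ≤ d₀ := by exact_mod_cast hd
  unfold lam
  have : (1 : ℝ) / (4 * d₀ * K) = 2 * (1 / (8 * d₀ * K)) := by field_simp; norm_num
  rw [this]
  nlinarith [sq_nonneg (1 / (8 * d₀ * K))]

/-- Powers of the adjacency operator. -/
def adjn (rot : ℕ → ℕ → ℕ × ℕ) (d : ℕ) (f : ℕ → ℝ) (n : ℕ) : ℕ → ℝ := (adj rot d)^[n] f

theorem adjn_succ (f : ℕ → ℝ) (n : ℕ) : adjn rot d f (n + 1) = adj rot d (adjn rot d f n) := by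
  unfold adjn
  rw [Function.iterate_succ_apply']

theorem IsExp.contract_n (h : IsExp N d₀ K rot) (hd : 1 ≤ d₀) (f : ℕ → ℝ)
    (h0 : ∑ v ∈ range N, f v = 0) (n : ℕ) :
    ∑ v ∈ range N, adjn rot (2 * d₀) f n v = 0 ∧
    ∑ v ∈ range N, adjn rot (2 * d₀) f n v ^ 2 ≤
      ((2 * d₀ : ℝ) ^ n * lam d₀ K ^ n) ^ 2 * ∑ v ∈ range N, f v ^ 2 := by
  induction n with
  | zero => simp [adjn, h0]
  | succ n ih =>
    rw [adjn_succ]
    refine ⟨?_, ?_⟩
    · rw [sum_adj h.isrot, ih.1, mul_zero]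
    · refine (h.contract hd _ ih.1).trans ?_
      have h1 := lam_sq (K := K) hd h.pos
      have h2 : 0 ≤ ∑ v ∈ range N, adjn rot (2 * d₀) f n v ^ 2 := sum_nonneg fun _ _ => sq_nonneg _
      have h3 : (2 * d₀ : ℝ) ^ 2 * (1 - 1 / (4 * d₀ * K)) ≤ (2 * d₀ : ℝ) ^ 2 * lam d₀ K ^ 2 :=
        mul_le_mul_of_nonneg_left h1 (sq_nonneg _)
      refine (mul_le_mul_of_nonneg_right h3 h2).trans ?_
      refine (mul_le_mul_of_nonneg_left ih.2 (by positivity)).trans (le_of_eq ?_)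
      ring

/-- **Mixing.** -/
theorem IsExp.mixing (h : IsExp N d₀ K rot) (hd : 1 ≤ d₀) (hN : 1 ≤ N) (hl : 0 ≤ lam d₀ K)
    (x y : ℕ → ℝ) (Q : ℝ)
    (hx : ∑ v ∈ range N, x v ^ 2 ≤ Q) (hy : ∑ v ∈ range N, y v ^ 2 ≤ Q) (n : ℕ) :
    ∑ v ∈ range N, x v * adjn rot (2 * d₀) y n v ≤ (2 * d₀ : ℝ) ^ n *
      ((∑ v ∈ range N, x v) * (∑ v ∈ range N, y v) / N + lam d₀ K ^ n * Q) := by
  have hN' : (0 : ℝ) < N := by exact_mod_cast hN
  set ym : ℝ := (∑ v ∈ range N, y v) / N with hym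
  set y₀ : ℕ → ℝ := fun v => y v - ym with hy₀
  have h0 : ∑ v ∈ range N, y₀ v = 0 := by
    simp only [hy₀, sum_sub_distrib, sum_const, card_range, nsmul_eq_mul, hym]
    field_simp
    ring
  have hdec : ∀ k, ∀ v ∈ range N, adjn rot (2 * d₀) y k v =
      (2 * d₀ : ℝ) ^ k * ym + adjn rot (2 * d₀) y₀ k v := by
    intro k
    induction k with
    | zero => intro v _; simp [adjn, hy₀]
    | succ k ih =>
      intro v hv
      rw [adjn_succ, adjn_succ]
      unfold adj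
      rw [mem_range] at hv
      have : ∀ i ∈ range (2 * d₀), adjn rot (2 * d₀) y k (rot v i).1 =
          (2 * d₀ : ℝ) ^ k * ym + adjn rot (2 * d₀) y₀ k (rot v i).1 := by
        intro i hi
        exact ih _ (mem_range.2 (h.isrot.lt1 v hv i (mem_range.1 hi)))
      rw [sum_congr rfl this, sum_add_distrib, sum_const, card_range, nsmul_eq_mul]
      push_cast
      ring
  have e1 : ∑ v ∈ range N, x v * adjn rot (2 * d₀) y n v =
      (2 * d₀ : ℝ) ^ n * ym * ∑ v ∈ range N, x v +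
      ∑ v ∈ range N, x v * adjn rot (2 * d₀) y₀ n v := by
    rw [sum_congr rfl fun v hv => by rw [hdec n v hv], mul_sum, ← sum_add_distrib]
    exact sum_congr rfl fun v _ => by ring
  have hy0Q : ∑ v ∈ range N, y₀ v ^ 2 ≤ Q := by
    refine le_trans ?_ hy
    have : ∑ v ∈ range N, y v ^ 2 = ∑ v ∈ range N, y₀ v ^ 2 + N * ym ^ 2 := by
      have h1 : ∀ v ∈ range N, y v ^ 2 = y₀ v ^ 2 + 2 * ym * y₀ v + ym ^ 2 := by
        intro v _; simp only [hy₀]; ring
      rw [sum_congr rfl h1, sum_add_distrib, sum_add_distrib, ← mul_sum, h0]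
      simp
    rw [this]
    have : 0 ≤ (N : ℝ) * ym ^ 2 := by positivity
    linarith
  have hQ : 0 ≤ Q := le_trans (sum_nonneg fun _ _ => sq_nonneg _) hx
  have e2 : (∑ v ∈ range N, x v * adjn rot (2 * d₀) y₀ n v) ^ 2 ≤
      ((2 * d₀ : ℝ) ^ n * lam d₀ K ^ n * Q) ^ 2 := by
    refine (sum_mul_sq_le_sq_mul_sq _ _ _).trans ?_
    have h1 := (h.contract_n hd y₀ h0 n).2
    have h2 : ∑ v ∈ range N, adjn rot (2 * d₀) y₀ n v ^ 2 ≤
        ((2 * d₀ : ℝ) ^ n * lam d₀ K ^ n) ^ 2 * Q :=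
      h1.trans (mul_le_mul_of_nonneg_left hy0Q (sq_nonneg _))
    have h3 : 0 ≤ ∑ v ∈ range N, adjn rot (2 * d₀) y₀ n v ^ 2 := sum_nonneg fun _ _ => sq_nonneg _
    refine (mul_le_mul hx h2 h3 hQ).trans (le_of_eq ?_)
    ring
  have e3 : ∑ v ∈ range N, x v * adjn rot (2 * d₀) y₀ n v ≤
      (2 * d₀ : ℝ) ^ n * lam d₀ K ^ n * Q :=
    le_trans (le_abs_self _) (abs_le_of_sq_le_sq e2 (by positivity))
  rw [e1, hym]
  have e4 : (2 * d₀ : ℝ) ^ n * ((∑ v ∈ range N, y v) / N) * ∑ v ∈ range N, x v =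
      (2 * d₀ : ℝ) ^ n * ((∑ v ∈ range N, x v) * (∑ v ∈ range N, y v) / N) := by ring
  rw [e4]
  linarith

end Pool.Agent.H243R3.PCP
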