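import Pool.Agent.H243R3.PCP.Xr
import Pool.Agent.H243R3.PCP.Walk
import Pool.Agent.NPC.Sat

/-!
# Constraint graphs, and their transformation into expanders of fixed degree
-/

namespace Pool.Agent.H243R3.PCP

open Finset Pool.Agent.NPC

/-- A constraint: two variables, and the table of a relation on `16` symbols. -/
abbrev Con : Type := ℕ × ℕ × List Bool

/-- The relation with a given table. -/
def rel (tb : List Bool) (a b : ℕ) : Bool := tb.getD (16 * a + b) false

/-- The constraint holds under an assignment of symbols. -/
def sat (τ : ℕ → ℕ) (c : Con) : Bool := rel c.2.2 (τ c.1 % 16) (τ c.2.1 % 16)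

/-- The number of violated constraints. -/
def viol (G : List Con) (τ : ℕ → ℕ) : ℕ := G.countP fun c => !(sat τ c)

/-- The constraint of a slot. -/
def cn (G : List Con) (s : ℕ) : Con := G.getD (s / 2) (0, 0, [])

/-- The variable in a slot: the constraint number `j` has the slots `2 j` and `2 j + 1`. -/
def nm (G : List Con) (s : ℕ) : ℕ := if s % 2 = 0 then (cn G s).1 else (cn G s).2.1

/-- The other slot of the same constraint. -/
def partner (s : ℕ) : ℕ := if s % 2 = 0 then s + 1 else s - 1

theorem partner_lt {s m : ℕ} (h : s < 2 * m) : partner s < 2 * m := by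
  unfold partner; split_ifs <;> omega
theorem partner_partner (s : ℕ) : partner (partner s) = s := by
  unfold partner; split_ifs <;> omega
theorem partner_div (s : ℕ) : partner s / 2 = s / 2 := by
  unfold partner; split_ifs <;> omega
theorem partner_mod (s : ℕ) : partner s % 2 = 1 - s % 2 := by
  unfold partner; split_ifs <;> omega

/-- The slots with the variable `x`. -/
def cl (G : List Con) (x : ℕ) : List ℕ := (List.range (2 * G.length)).filter fun s => decide (nm G s = x)

theorem mem_cl {G : List Con} {x s : ℕ} : s ∈ cl G x ↔ s < 2 * G.length ∧ nm G s = x := by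
  unfold cl
  rw [List.mem_filter, List.mem_range, decide_eq_true_eq]

theorem nodup_cl (G : List Con) (x : ℕ) : (cl G x).Nodup := List.Nodup.filter _ List.nodup_range

theorem countP_range (p : ℕ → Bool) (m : ℕ) :
    (List.range m).countP p = ((range m).filter fun j => p j = true).card := by
  induction m with
  | zero => simp
  | succ m ih =>
    rw [List.range_succ, List.countP_append, ih, range_add_one, filter_insert]
    by_cases h : p m = true
    · rw [if_pos h, card_insert_of_notMem (by simp)]
      simp [List.countP_cons, h]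
    · rw [if_neg h]
      simp [List.countP_cons, h]

theorem index_lt' {l : List ℕ} {v : ℕ} (h : v ∈ l) : index l v < l.length := by
  have := getElem?_index h
  by_contra hc
  rw [List.getElem?_eq_none (by omega)] at this
  simp at this

theorem getD_index {l : List ℕ} {v : ℕ} (h : v ∈ l) : l.getD (index l v) 0 = v := by
  rw [List.getD_eq_getElem?_getD, getElem?_index h]
  rfl

theorem index_getD {l : List ℕ} (hl : l.Nodup) {j : ℕ} (hj : j < l.length) :
    index l (l.getD j 0) = j := by
  have h1 : l.getD j 0 = l[j] := by
    rw [List.getD_eq_getElem?_getD, List.getElem?_eq_getElem hj]; rfl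
  have h2 : l[j] ∈ l := List.getElem_mem hj
  have h3 := getElem?_index h2
  have h4 := index_lt' h2
  rw [h1]
  rw [List.getElem?_eq_getElem h4, Option.some.injEq] at h3
  exact (hl.getElem_inj_iff).1 h3

/-- The rotation map of the expander on the slots. -/
noncomputable def rotG (G : List Con) (s i : ℕ) : ℕ × ℕ :=
  if i = 0 then (partner s, 0)
  else if i ≤ 32 then
    ((cl G (nm G s)).getD (xrot (cl G (nm G s)).length (index (cl G (nm G s)) s) (i - 1)).1 0,
      (xrot (cl G (nm G s)).length (index (cl G (nm G s)) s) (i - 1)).2 + 1)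
  else if i ≤ 64 then
    ((xrot (2 * G.length) s (i - 33)).1, (xrot (2 * G.length) s (i - 33)).2 + 33)
  else (s, i)

/-- The constraints of the expander on the slots. -/
def conG (G : List Con) (s i a b : ℕ) : Bool :=
  if i = 0 then (if s % 2 = 0 then rel (cn G s).2.2 a b else rel (cn G s).2.2 b a)
  else if i ≤ 32 then decide (a = b) else true

theorem cloud_step {G : List Con} {s i : ℕ} (hs : s < 2 * G.length) (h0 : i ≠ 0) (h1 : i ≤ 32) :
    (rotG G s i).1 < 2 * G.length ∧ nm G (rotG G s i).1 = nm G s ∧
      1 ≤ (rotG G s i).2 ∧ (rotG G s i).2 ≤ 32 ∧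
      rotG G (rotG G s i).1 (rotG G s i).2 = (s, i) := by
  set c := cl G (nm G s) with hc
  have hsc : s ∈ c := mem_cl.2 ⟨hs, rfl⟩
  have hj := index_lt' hsc
  have h2 := xrot_lt (l := i - 1) hj (by omega)
  have h3 := xrot_xrot (l := i - 1) hj (by omega)
  set q := xrot c.length (index c s) (i - 1) with hq
  have e1 : rotG G s i = (c.getD q.1 0, q.2 + 1) := by
    unfold rotG
    rw [if_neg h0, if_pos h1]
  have hm : c.getD q.1 0 ∈ c := by
    rw [List.getD_eq_getElem?_getD, List.getElem?_eq_getElem h2.1]
    exact List.getElem_mem _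
  have hm' := mem_cl.1 (hc ▸ hm)
  have e2 : rotG G (c.getD q.1 0) (q.2 + 1) = (s, i) := by
    unfold rotG
    rw [if_neg (by omega), if_pos (by omega), hm'.2, ← hc, index_getD (nodup_cl G _) h2.1,
      Nat.add_sub_cancel, h3]
    simp only
    rw [getD_index hsc]
    congr 1
    omega
  rw [e1]
  exact ⟨hm'.1, hm'.2, by omega, by omega, e2⟩

theorem isRotG (G : List Con) : IsRot (2 * G.length) (2 * 65) (rotG G) := by
  have key : ∀ s < 2 * G.length, ∀ i < 2 * 65, (rotG G s i).1 < 2 * G.length ∧
      (rotG G s i).2 < 2 * 65 ∧ rotG G (rotG G s i).1 (rotG G s i).2 = (s, i) := by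
    intro s hs i hi
    by_cases h0 : i = 0
    · subst h0
      have e1 : ∀ s, rotG G s 0 = (partner s, 0) := fun s => by unfold rotG; rw [if_pos rfl]
      rw [e1]
      refine ⟨partner_lt hs, by norm_num, ?_⟩
      simp only
      rw [e1, partner_partner]
    · by_cases h1 : i ≤ 32
      · obtain ⟨a1, _, a3, a4, a5⟩ := cloud_step hs h0 h1
        exact ⟨a1, by omega, a5⟩
      · by_cases h2 : i ≤ 64
        · have e1 : rotG G s i = ((xrot (2 * G.length) s (i - 33)).1,
              (xrot (2 * G.length) s (i - 33)).2 + 33) := by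
            unfold rotG
            rw [if_neg h0, if_neg h1, if_pos h2]
          have h3 := xrot_lt (l := i - 33) hs (by omega)
          have h4 := xrot_xrot (l := i - 33) hs (by omega)
          rw [e1]
          refine ⟨h3.1, by simp only; omega, ?_⟩
          simp only
          unfold rotG
          rw [if_neg (by omega), if_neg (by omega), if_pos (by omega), Nat.add_sub_cancel, h4]
          simp only
          congr 1
          omega
        · have e1 : rotG G s i = (s, i) := by
            unfold rotG
            rw [if_neg h0, if_neg h1, if_neg h2]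
          rw [e1]
          exact ⟨hs, hi, e1⟩
  exact ⟨fun s hs i hi => (key s hs i hi).1, fun s hs i hi => (key s hs i hi).2.1,
    fun s hs i hi => (key s hs i hi).2.2⟩

theorem conG_symm {G : List Con} {s i : ℕ} (hs : s < 2 * G.length) (a b : ℕ) :
    conG G (rotG G s i).1 (rotG G s i).2 b a = conG G s i a b := by
  by_cases h0 : i = 0
  · subst h0
    have e1 : rotG G s 0 = (partner s, 0) := by unfold rotG; rw [if_pos rfl]
    rw [e1]
    unfold conG cn
    simp only [if_true, partner_div, partner_mod]
    rcases Nat.mod_two_eq_zero_or_one s with h | h <;> simp [h]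
  · by_cases h1 : i ≤ 32
    · obtain ⟨_, _, a3, a4, _⟩ := cloud_step hs h0 h1
      unfold conG
      rw [if_neg (by omega), if_pos a4, if_neg h0, if_pos h1]
      simp only [decide_eq_decide]
      exact eq_comm
    · by_cases h2 : i ≤ 64
      · have e1 : (rotG G s i).2 = (xrot (2 * G.length) s (i - 33)).2 + 33 := by
          unfold rotG
          rw [if_neg h0, if_neg h1, if_pos h2]
        unfold conG
        rw [e1, if_neg (by omega), if_neg (by omega), if_neg h0, if_neg h1]
      · have e1 : rotG G s i = (s, i) := by
          unfold rotG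
          rw [if_neg h0, if_neg h1, if_neg h2]
        rw [e1]
        unfold conG
        rw [if_neg h0, if_neg h1, if_neg h0, if_neg h1]

theorem isExpG (G : List Con) (hG : 1 ≤ G.length) : IsExp (2 * G.length) 65 104 (rotG G) := by
  refine ⟨isRotG G, ?_, by norm_num, ?_⟩
  · intro v _ i h1 _
    unfold rotG
    rw [if_neg (by omega), if_neg (by omega), if_neg (by omega)]
  · intro f h0
    obtain ⟨m, hm⟩ := poincare_x (2 * G.length) (by omega) f
    have e1 : ∑ v ∈ range (2 * G.length), f v ^ 2 ≤ ∑ v ∈ range (2 * G.length), (f v - m) ^ 2 := by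
      have : ∀ v ∈ range (2 * G.length), (f v - m) ^ 2 = f v ^ 2 - 2 * m * f v + m ^ 2 := by
        intro v _; ring
      rw [sum_congr rfl this, sum_add_distrib, sum_sub_distrib, ← mul_sum, h0]
      have : 0 ≤ ∑ v ∈ range (2 * G.length), m ^ 2 := sum_nonneg fun _ _ => sq_nonneg _
      linarith
    refine e1.trans (hm.trans ?_)
    refine mul_le_mul_of_nonneg_left (sum_le_sum fun v _ => ?_) (by norm_num)
    have e2 : ∀ l ∈ range 32, (f (xrot (2 * G.length) v l).1 - f v) ^ 2 =
        (fun i => (f (rotG G v i).1 - f v) ^ 2) (33 + l) := by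
      intro l hl
      rw [mem_range] at hl
      simp only
      unfold rotG
      rw [if_neg (by omega), if_neg (by omega), if_pos (by omega), Nat.add_sub_cancel_left]
    rw [sum_congr rfl e2, show (65 : ℕ) = 33 + 32 from rfl, sum_range_add]
    have : 0 ≤ ∑ i ∈ range 33, (f (rotG G v i).1 - f v) ^ 2 := sum_nonneg fun _ _ => sq_nonneg _
    linarith

/-! ### Plurality -/

/-- The place of the maximum of `g` on the numbers below `n`. -/
def amax (n : ℕ) (g : ℕ → ℕ) : ℕ :=
  (List.range n).foldl (fun b a => if g b < g a then a else b) 0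

theorem amax_spec (g : ℕ → ℕ) : ∀ n, (1 ≤ n → amax n g < n) ∧ ∀ a < n, g a ≤ g (amax n g) := by
  intro n
  induction n with
  | zero => simp
  | succ n ih =>
    have e : amax (n + 1) g = if g (amax n g) < g n then n else amax n g := by
      unfold amax
      rw [List.range_succ, List.foldl_append]
      rfl
    rw [e]
    constructor
    · intro _
      split_ifs
      · omega
      · rcases Nat.eq_zero_or_pos n with h | h
        · subst h; simp [amax]
        · have := ih.1 h; omega
    · intro a ha
      rcases Nat.lt_succ_iff_lt_or_eq.1 ha with h | h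
      · have := ih.2 a h
        split_ifs with h2
        · exact this.trans h2.le
        · exact this
      · subst h
        split_ifs with h2
        · exact le_rfl
        · omega

/-- The most frequent symbol in the slots of a variable. -/
def plu (G : List Con) (ρ : ℕ → ℕ) (x : ℕ) : ℕ :=
  amax 16 fun a => (cl G x).countP fun s => decide (ρ s = a)

/-- The violated edges. -/
noncomputable def FG (G : List Con) (ρ : ℕ → ℕ) : Finset (ℕ × ℕ) :=
  (range (2 * G.length) ×ˢ range (2 * 65)).filter fun q =>
    conG G q.1 q.2 (ρ q.1) (ρ (rotG G q.1 q.2).1) = false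

theorem FG_sub (G : List Con) (ρ : ℕ → ℕ) : FG G ρ ⊆ range (2 * G.length) ×ˢ range (2 * 65) :=
  filter_subset _ _

/-- Few slots of a variable disagree with its most frequent symbol. -/
theorem cloud_le (G : List Con) (ρ : ℕ → ℕ) (hρ : ∀ s, ρ s < 16) (x : ℕ) :
    (((cl G x).toFinset.filter fun s => ρ s ≠ plu G ρ x).card : ℝ) ≤
      416 * ((FG G ρ).filter fun q => nm G q.1 = x ∧ q.2 ≠ 0).card := by
  set c := cl G x with hc
  rcases Nat.eq_zero_or_pos c.length with h0 | hpos
  · have : c = [] := List.length_eq_zero_iff.1 h0
    rw [this]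
    simp
  have hnd := nodup_cl G x
  rw [← hc] at hnd
  -- the symbols along the cloud
  set g : ℕ → ℕ := fun j => ρ (c.getD j 0) with hg
  set v₀ := plu G ρ x with hv₀
  have hcount : ∀ a, c.countP (fun s => decide (ρ s = a)) =
      ((range c.length).filter fun j => g j = a).card := by
    intro a
    have h1 : c = (List.range c.length).map fun j => c.getD j 0 := by
      apply List.ext_getElem
      · simp
      · intro i h1 h2
        simp [List.getD_eq_getElem?_getD, List.getElem?_eq_getElem h1]
    conv_lhs => rw [h1]
    rw [List.countP_map, countP_range]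
    congr 1
    ext j
    simp only [Function.comp_apply, decide_eq_true_eq, mem_filter]
    exact Iff.rfl
  have hmax : ∀ a < 16, ((range c.length).filter fun j => g j = a).card ≤
      ((range c.length).filter fun j => g j = v₀).card := by
    intro a ha
    rw [← hcount, ← hcount, hv₀]
    exact (amax_spec (fun a => (cl G x).countP fun s => decide (ρ s = a)) 16).2 a ha
  -- sizes of the classes
  set n : ℕ → ℝ := fun a => (((range c.length).filter fun j => g j = a).card : ℝ) with hn
  have hn2 : ∀ a < 16, a ≠ v₀ → 2 * n a ≤ c.length := by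
    intro a ha hne
    have h1 := hmax a ha
    have h2 : ((range c.length).filter fun j => g j = a).card +
        ((range c.length).filter fun j => g j = v₀).card ≤ c.length := by
      rw [← card_union_of_disjoint]
      · refine (card_le_card (union_subset (filter_subset _ _) (filter_subset _ _))).trans ?_
        simp
      · rw [disjoint_left]
        intro j h3 h4
        rw [mem_filter] at h3 h4
        exact hne (h3.2.symm.trans h4.2)
    have h3 : 2 * ((range c.length).filter fun j => g j = a).card ≤ c.length := by omega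
    simp only [hn]
    exact_mod_cast h3
  -- the Poincaré inequality for each class
  have hE : ∀ a < 16, a ≠ v₀ → n a ≤ 208 * ∑ j ∈ range c.length, ∑ l ∈ range 32,
      ((if g (xrot c.length j l).1 = a then (1 : ℝ) else 0) - if g j = a then 1 else 0) ^ 2 := by
    intro a ha hne
    obtain ⟨m, hm⟩ := poincare_x c.length hpos fun j => if g j = a then (1 : ℝ) else 0
    have h1 : n a / 2 ≤ ∑ j ∈ range c.length, ((if g j = a then (1 : ℝ) else 0) - m) ^ 2 := by
      have h2 : ∀ j ∈ range c.length, ((if g j = a then (1 : ℝ) else 0) - m) ^ 2 =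
          (if g j = a then 1 - 2 * m else 0) + m ^ 2 := by
        intro j _
        split_ifs <;> ring
      rw [sum_congr rfl h2, sum_add_distrib, ← sum_filter, sum_const, sum_const, card_range,
        nsmul_eq_mul, nsmul_eq_mul]
      change n a / 2 ≤ n a * (1 - 2 * m) + c.length * m ^ 2
      have h3 := hn2 a ha hne
      have h4 : 0 ≤ n a := Nat.cast_nonneg _
      nlinarith [sq_nonneg (m - 1 / 2), sq_nonneg m]
    linarith
  -- the disagreements
  have hD : (((cl G x).toFinset.filter fun s => ρ s ≠ plu G ρ x).card : ℝ) ≤
      ∑ a ∈ (range 16).filter (fun a => a ≠ v₀), n a := by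
    rw [← hc, ← hv₀]
    have h1 : (c.toFinset.filter fun s => ρ s ≠ v₀) ⊆
        ((range 16).filter (fun a => a ≠ v₀)).biUnion fun a =>
          ((range c.length).filter fun j => g j = a).image fun j => c.getD j 0 := by
      intro s hs
      rw [mem_filter, List.mem_toFinset] at hs
      rw [mem_biUnion]
      refine ⟨ρ s, mem_filter.2 ⟨mem_range.2 (hρ s), hs.2⟩, ?_⟩
      rw [mem_image]
      refine ⟨index c s, mem_filter.2 ⟨mem_range.2 (index_lt' hs.1), ?_⟩, getD_index hs.1⟩
      simp only [hg]
      rw [getD_index hs.1]
    have h2 := (card_le_card h1).trans card_biUnion_le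
    have h3 : ∑ a ∈ (range 16).filter (fun a => a ≠ v₀),
        (((range c.length).filter fun j => g j = a).image fun j => c.getD j 0).card ≤
        ∑ a ∈ (range 16).filter (fun a => a ≠ v₀), ((range c.length).filter fun j => g j = a).card :=
      sum_le_sum fun a _ => card_image_le
    simp only [hn]
    exact_mod_cast h2.trans h3
  refine hD.trans ?_
  have h1 : ∑ a ∈ (range 16).filter (fun a => a ≠ v₀), n a ≤
      208 * ∑ a ∈ range 16, ∑ j ∈ range c.length, ∑ l ∈ range 32,
      ((if g (xrot c.length j l).1 = a then (1 : ℝ) else 0) - if g j = a then 1 else 0) ^ 2 := by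
    rw [mul_sum]
    refine le_trans (sum_le_sum fun a ha => ?_) (sum_le_sum_of_subset_of_nonneg (filter_subset _ _)
      fun a _ _ => ?_)
    · rw [mem_filter, mem_range] at ha
      exact hE a ha.1 ha.2
    · exact mul_nonneg (by norm_num) (sum_nonneg fun _ _ => sum_nonneg fun _ _ => sq_nonneg _)
  refine h1.trans ?_
  have h2 : ∑ a ∈ range 16, ∑ j ∈ range c.length, ∑ l ∈ range 32,
      ((if g (xrot c.length j l).1 = a then (1 : ℝ) else 0) - if g j = a then 1 else 0) ^ 2 ≤
      ∑ j ∈ range c.length, ∑ l ∈ range 32, if g (xrot c.length j l).1 = g j then (0 : ℝ) else 2 := by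
    rw [sum_comm]
    refine sum_le_sum fun j hj => ?_
    rw [sum_comm]
    refine sum_le_sum fun l _ => ?_
    by_cases h : g (xrot c.length j l).1 = g j
    · rw [if_pos h, h]
      simp
    · rw [if_neg h]
      have h3 : ∀ a ∈ range 16, ((if g (xrot c.length j l).1 = a then (1 : ℝ) else 0) -
          if g j = a then 1 else 0) ^ 2 ≤ (if g (xrot c.length j l).1 = a then (1 : ℝ) else 0) +
          if g j = a then 1 else 0 := by
        intro a _
        split_ifs <;> norm_num
      refine (sum_le_sum h3).trans ?_
      rw [sum_add_distrib]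
      have h4 : ∀ b, ∑ a ∈ range 16, (if b = a then (1 : ℝ) else 0) ≤ 1 := by
        intro b
        rw [sum_ite_eq]
        split_ifs <;> norm_num
      linarith [h4 (g (xrot c.length j l).1), h4 (g j)]
  have h3 : ∑ j ∈ range c.length, ∑ l ∈ range 32,
      (if g (xrot c.length j l).1 = g j then (0 : ℝ) else 2) =
      2 * (((range c.length ×ˢ range 32).filter fun q : ℕ × ℕ =>
        ¬ g (xrot c.length q.1 q.2).1 = g q.1).card : ℝ) := by
    rw [← sum_product' (f := fun j l => if g (xrot c.length j l).1 = g j then (0 : ℝ) else 2)]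
    rw [sum_congr rfl (fun q _ => show (if g (xrot c.length q.1 q.2).1 = g q.1 then (0 : ℝ) else 2) =
      if ¬ g (xrot c.length q.1 q.2).1 = g q.1 then 2 else 0 by split_ifs <;> simp_all)]
    rw [← sum_filter, sum_const, nsmul_eq_mul, mul_comm]
  have h4 : ((range c.length ×ˢ range 32).filter fun q : ℕ × ℕ =>
        ¬ g (xrot c.length q.1 q.2).1 = g q.1).card ≤
      ((FG G ρ).filter fun q => nm G q.1 = x ∧ q.2 ≠ 0).card := by
    refine card_le_card_of_injOn (fun q => (c.getD q.1 0, q.2 + 1)) ?_ ?_
    · rintro ⟨j, l⟩ hq
      simp only [coe_filter, mem_product, mem_range, Set.mem_ofPred_eq] at hq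
      obtain ⟨⟨hj, hl⟩, hne⟩ := hq
      have hm : c.getD j 0 ∈ c := by
        rw [List.getD_eq_getElem?_getD, List.getElem?_eq_getElem hj]
        exact List.getElem_mem _
      have hm' := mem_cl.1 (hc ▸ hm)
      simp only [coe_filter, Set.mem_ofPred_eq, FG, mem_filter, mem_product, mem_range]
      refine ⟨⟨⟨hm'.1, by omega⟩, ?_⟩, hm'.2, by omega⟩
      have e1 : (rotG G (c.getD j 0) (l + 1)).1 = c.getD (xrot c.length j l).1 0 := by
        unfold rotG
        rw [if_neg (by omega), if_pos (by omega), hm'.2, ← hc, index_getD hnd hj,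
          Nat.add_sub_cancel]
      rw [e1]
      unfold conG
      rw [if_neg (by omega), if_pos (by omega)]
      simp only [decide_eq_false_iff_not]
      exact fun h => hne h.symm
    · rintro ⟨j, l⟩ hq ⟨j', l'⟩ hq' he
      simp only [coe_filter, mem_product, mem_range, Set.mem_ofPred_eq] at hq hq'
      simp only [Prod.mk.injEq] at he
      have e1 := congrArg (index c) he.1
      rw [index_getD hnd hq.1.1, index_getD hnd hq'.1.1] at e1
      have e2 : l = l' := by omega
      rw [e1, e2]
  have h5 : (((range c.length ×ˢ range 32).filter fun q : ℕ × ℕ =>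
        ¬ g (xrot c.length q.1 q.2).1 = g q.1).card : ℝ) ≤
      ((FG G ρ).filter fun q => nm G q.1 = x ∧ q.2 ≠ 0).card := by exact_mod_cast h4
  linarith

/-- **Degree reduction.** -/
theorem viol_le (G : List Con) (ρ : ℕ → ℕ) (hρ : ∀ s, ρ s < 16) :
    (viol G (plu G ρ) : ℝ) ≤ 417 * (FG G ρ).card := by
  -- violated constraints as a set
  have h1 : viol G (plu G ρ) = ((range G.length).filter fun j =>
      sat (plu G ρ) (G.getD j (0, 0, [])) = false).card := by
    have h2 : ∀ H : List Con, viol H (plu G ρ) = ((range H.length).filter fun j =>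
        sat (plu G ρ) (H.getD j (0, 0, [])) = false).card := by
      intro H
      have h3 : H = (List.range H.length).map fun j => H.getD j (0, 0, []) := by
        apply List.ext_getElem
        · simp
        · intro i h1 h2
          simp [List.getD_eq_getElem?_getD, List.getElem?_eq_getElem h1]
      unfold viol
      conv_lhs => rw [h3]
      rw [List.countP_map]
      rw [countP_range]
      congr 1
      ext j
      simp only [Function.comp_apply, Bool.not_eq_true', mem_filter]
    exact h2 G
  set σ := plu G ρ with hσ
  have hσ16 : ∀ x, σ x < 16 := fun x =>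
    (amax_spec (fun a => (cl G x).countP fun s => decide (ρ s = a)) 16).1 (by norm_num)
  set V := (range G.length).filter fun j => sat σ (G.getD j (0, 0, [])) = false with hV
  set Dis := (range (2 * G.length)).filter fun s => ρ s ≠ σ (nm G s) with hDis
  set F0 := (FG G ρ).filter fun q => q.2 = 0 with hF0
  have h2 : V ⊆ F0.image (fun q => q.1 / 2) ∪ Dis.image (fun s => s / 2) := by
    intro j hj
    rw [hV, mem_filter, mem_range] at hj
    rw [mem_union, mem_image, mem_image]
    by_cases ha : ρ (2 * j) = σ (nm G (2 * j))
    · by_cases hb : ρ (2 * j + 1) = σ (nm G (2 * j + 1))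
      · left
        refine ⟨(2 * j, 0), ?_, by simp⟩
        rw [hF0, mem_filter, FG, mem_filter, mem_product, mem_range, mem_range]
        refine ⟨⟨⟨by omega, by norm_num⟩, ?_⟩, rfl⟩
        have e1 : rotG G (2 * j) 0 = (2 * j + 1, 0) := by
          unfold rotG partner
          rw [if_pos rfl, if_pos (by omega)]
        simp only [e1]
        unfold conG
        rw [if_pos rfl, if_pos (by omega), ha, hb]
        have e2 : nm G (2 * j) = (G.getD j (0, 0, [])).1 := by
          unfold nm cn
          rw [if_pos (by omega)]
          congr 2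
          omega
        have e3 : nm G (2 * j + 1) = (G.getD j (0, 0, [])).2.1 := by
          unfold nm cn
          rw [if_neg (by omega)]
          congr 3
          omega
        have e4 : cn G (2 * j) = G.getD j (0, 0, []) := by
          unfold cn
          congr 1
          omega
        rw [e2, e3, e4]
        have := hj.2
        unfold sat at this
        rwa [Nat.mod_eq_of_lt (hσ16 _), Nat.mod_eq_of_lt (hσ16 _)] at this
      · right
        exact ⟨2 * j + 1, mem_filter.2 ⟨mem_range.2 (by omega), hb⟩, by omega⟩
    · right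
      exact ⟨2 * j, mem_filter.2 ⟨mem_range.2 (by omega), ha⟩, by omega⟩
  have h3 : V.card ≤ F0.card + Dis.card :=
    (card_le_card h2).trans ((card_union_le _ _).trans (add_le_add card_image_le card_image_le))
  -- the disagreements, cloud by cloud
  set Nm := (range (2 * G.length)).image (nm G) with hNm
  have h4 : (Dis.card : ℝ) ≤ 416 * ((FG G ρ).filter fun q => q.2 ≠ 0).card := by
    have e1 : Dis = Nm.biUnion fun x => (cl G x).toFinset.filter fun s => ρ s ≠ σ x := by
      ext s
      rw [hDis, mem_filter, mem_range, mem_biUnion]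
      constructor
      · rintro ⟨h5, h6⟩
        exact ⟨nm G s, mem_image.2 ⟨s, mem_range.2 h5, rfl⟩, mem_filter.2
          ⟨List.mem_toFinset.2 (mem_cl.2 ⟨h5, rfl⟩), h6⟩⟩
      · rintro ⟨x, _, h6⟩
        rw [mem_filter, List.mem_toFinset, mem_cl] at h6
        refine ⟨h6.1.1, ?_⟩
        rw [h6.1.2]
        exact h6.2
    have e2 : (Dis.card : ℝ) ≤ ∑ x ∈ Nm, (((cl G x).toFinset.filter fun s => ρ s ≠ σ x).card : ℝ) := by
      rw [e1]
      exact_mod_cast card_biUnion_le
    have e3 : ∑ x ∈ Nm, (((cl G x).toFinset.filter fun s => ρ s ≠ σ x).card : ℝ) ≤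
        ∑ x ∈ Nm, 416 * (((FG G ρ).filter fun q => nm G q.1 = x ∧ q.2 ≠ 0).card : ℝ) :=
      sum_le_sum fun x _ => cloud_le G ρ hρ x
    rw [← mul_sum] at e3
    refine e2.trans (e3.trans (mul_le_mul_of_nonneg_left ?_ (by norm_num)))
    have e4 : ∑ x ∈ Nm, ((FG G ρ).filter fun q => nm G q.1 = x ∧ q.2 ≠ 0).card =
        (Nm.biUnion fun x => (FG G ρ).filter fun q => nm G q.1 = x ∧ q.2 ≠ 0).card := by
      rw [card_biUnion]
      intro x _ y _ hxy
      simp only [Function.onFun]
      rw [disjoint_left]
      intro q h5 h6
      rw [mem_filter] at h5 h6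
      exact hxy (h5.2.1.symm.trans h6.2.1)
    have e5 : (Nm.biUnion fun x => (FG G ρ).filter fun q => nm G q.1 = x ∧ q.2 ≠ 0) ⊆
        (FG G ρ).filter fun q => q.2 ≠ 0 := by
      intro q hq
      rw [mem_biUnion] at hq
      obtain ⟨x, _, hq⟩ := hq
      rw [mem_filter] at hq ⊢
      exact ⟨hq.1, hq.2.2⟩
    have e6 := card_le_card e5
    rw [← e4] at e6
    exact_mod_cast e6
  have h5 : F0.card + ((FG G ρ).filter fun q => q.2 ≠ 0).card = (FG G ρ).card := by
    rw [hF0]
    exact card_filter_add_card_filter_not (s := FG G ρ) (fun q : ℕ × ℕ => q.2 = 0)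
  rw [h1]
  have h6 : (V.card : ℝ) ≤ F0.card + Dis.card := by exact_mod_cast h3
  have h7 : (F0.card : ℝ) + ((FG G ρ).filter fun q => q.2 ≠ 0).card = (FG G ρ).card := by
    exact_mod_cast h5
  have h8 : (0 : ℝ) ≤ F0.card := Nat.cast_nonneg _
  linarith

end Pool.Agent.H243R3.PCP
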