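import Pool.Agent.H243R3.PCP.PolyS

/-!
# The iteration of the main step
-/

namespace Pool.Agent.NPC.DP

open Pool.Agent.H243R3.PCP Pool.Agent.NPC.TP

variable {α : Type} [TEnc α]

/-! ### Sizes -/

theorem szn (n : ℕ) : sz n ≤ 4 * n + 1 := by
  have h1 := sz_nat_le n
  have h2 := Poly.size_le_self n
  omega

/-- The factor by which the number of constraints grows. -/
noncomputable def fac (t : ℕ) : ℕ := 2 * ((PL t).length * (Fintype.card (Om t) * 20))

theorem length_stp' (t : ℕ) (G : List Con) : (stp t G).length = fac t * G.length := by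
  rw [length_stp, fac]; ring

theorem PL_pos {t : ℕ} (ht : 1 ≤ t) : 1 ≤ (PL t).length := by
  have h := PL_length t
  have h1 : (1 : ℝ) ≤ (2 * t - 1 : ℕ) := by
    have : 1 ≤ 2 * t - 1 := by omega
    exact_mod_cast this
  have h2 : (1 : ℝ) ≤ (130 : ℝ) ^ (2 * t - 1) := one_le_pow₀ (by norm_num)
  have h3 : (1 : ℝ) ≤ ((PL t).length : ℝ) := by
    rw [h]; nlinarith
  exact_mod_cast h3

theorem fac_pos {t : ℕ} (ht : 1 ≤ t) : 1 ≤ fac t := by
  unfold fac
  have h1 := PL_pos ht
  have h2 : 1 ≤ Fintype.card (Om t) := Fintype.card_pos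
  have h3 : 1 ≤ (PL t).length * (Fintype.card (Om t) * 20) :=
    Nat.one_le_iff_ne_zero.2 (by positivity)
  omega

/-- Bound for the local names. -/
noncomputable def B0 (t : ℕ) : ℕ :=
  Fintype.card (St t) + Fintype.card (Wt t) + Fintype.card (Om t) * 5

theorem rn_le {t a b q m : ℕ} {c : ℕ × ℕ} (ha : a ≤ m) (hb : b ≤ m) (hq : q ≤ m)
    (hc : c.2 ≤ B0 t) : rn t a b q c ≤ 3 * (m * B0 t + B0 t) + 2 := by
  unfold rn
  have h1 : a * Fintype.card (St t) ≤ m * B0 t :=
    Nat.mul_le_mul ha (by unfold B0; omega)
  have h2 : b * Fintype.card (St t) ≤ m * B0 t :=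
    Nat.mul_le_mul hb (by unfold B0; omega)
  have h3 : q * Fintype.card (Wt t) ≤ m * B0 t :=
    Nat.mul_le_mul hq (by unfold B0; omega)
  have h4 : q * (Fintype.card (Om t) * 5) ≤ m * B0 t :=
    Nat.mul_le_mul hq (by unfold B0; omega)
  split_ifs <;> omega

/-- The size of the constraints. -/
theorem sz_con_le (t : ℕ) (G : List Con) {c : Con} (hc : c ∈ stp t G) :
    sz c ≤ 2 * (4 * (3 * ((2 * G.length * ((PL t).length + 1)) * B0 t + B0 t) + 2) + 1) + 1027 := by
  unfold stp at hc
  rw [List.mem_flatMap] at hc
  obtain ⟨a, ha, hc⟩ := hc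
  rw [List.mem_flatMap] at hc
  obtain ⟨⟨l, p⟩, hlp, hc⟩ := hc
  rw [List.mem_range] at ha
  rw [List.mem_zipIdx_iff_getElem?] at hlp
  simp only at hlp hc
  have hp : p < (PL t).length := by
    by_contra hcon
    rw [List.getElem?_eq_none (by omega)] at hlp
    simp at hlp
  have hl := mem_PL (List.mem_of_getElem? hlp)
  unfold gad at hc
  rw [List.mem_map] at hc
  obtain ⟨lc, hlc, rfl⟩ := hc
  unfold tests at hlc
  rw [List.mem_flatMap] at hlc
  obtain ⟨ω, _, hlc⟩ := hlc
  rw [List.mem_flatMap] at hlc
  obtain ⟨i, hi, hlc⟩ := hlc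
  unfold blk at hlc
  rw [List.mem_map] at hlc
  obtain ⟨j, hj, rfl⟩ := hlc
  rw [List.mem_range] at hi hj
  have hb : endp (rotG G) a l < 2 * G.length := (isRotG G).endp_lt _ _ ha hl
  set m := 2 * G.length * ((PL t).length + 1) with hm
  have e1 : 2 * G.length ≤ m := by rw [hm]; nlinarith
  have e2 : a * (PL t).length + p ≤ m := by
    rw [hm]
    have : (a + 1) * (PL t).length ≤ 2 * G.length * (PL t).length :=
      Nat.mul_le_mul_right _ (by omega)
    nlinarith
  have e3 : idx ω * 5 + i ≤ B0 t := by
    have := idx_lt ω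
    unfold B0
    omega
  have e4 : ∀ u : Q t, u.code.2 ≤ B0 t := by
    intro u
    cases u with
    | A s => have := idx_lt s; simp only [Q.code]; unfold B0; omega
    | B s => have := idx_lt s; simp only [Q.code]; unfold B0; omega
    | F x => have := idx_lt x; simp only [Q.code]; unfold B0; omega
  have e5 := rn_le (c := (3, idx ω * 5 + i)) (ha.le.trans e1) (hb.le.trans e1) e2 e3
  have e6 := rn_le (ha.le.trans e1) (hb.le.trans e1) e2 (e4 (qs (CV t l (view G a l)) ω i j))
  have e7 : sz (tb i j) ≤ 1025 := by
    have := sz_le_length_mul (tb i j) 3 (fun b _ => sz_bool_le b)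
    simp only [tb, List.length_map, List.length_range] at this
    exact this
  have e8 := szn (rn t a (endp (rotG G) a l) (a * (PL t).length + p) (3, idx ω * 5 + i))
  have e9 := szn (rn t a (endp (rotG G) a l) (a * (PL t).length + p)
    (qs (CV t l (view G a l)) ω i j).code)
  unfold glob
  simp only [sz_pair]
  omega

theorem exists_sz_stp (t : ℕ) : ∃ R : Polynomial ℕ, ∀ G : List Con, sz (stp t G) ≤
    R.eval G.length := by
  refine ⟨(Polynomial.C (fac t) * Polynomial.X) * (Polynomial.C 2 * (Polynomial.C 4 *
    (Polynomial.C 3 * ((Polynomial.C 2 * Polynomial.X * Polynomial.C ((PL t).length + 1)) *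
      Polynomial.C (B0 t) + Polynomial.C (B0 t)) + Polynomial.C 2) + Polynomial.C 1) +
        Polynomial.C 1028) + Polynomial.C 1, fun G => ?_⟩
  have h := sz_le_length_mul (stp t G) _ fun c hc => sz_con_le t G hc
  rw [length_stp'] at h
  refine h.trans (le_of_eq ?_)
  simp only [Polynomial.eval_add, Polynomial.eval_mul, Polynomial.eval_C, Polynomial.eval_X]

theorem length_iter (t : ℕ) (G : List Con) (k : ℕ) :
    ((stp t)^[k] G).length = fac t ^ k * G.length := by
  induction k with
  | zero => simp
  | succ k ih => rw [Function.iterate_succ_apply', length_stp', ih]; ring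

theorem fac_pow_le (t m : ℕ) {k : ℕ} (hk : k ≤ m.size) :
    fac t ^ k ≤ (2 * m + 1) ^ (fac t).size := by
  have h1 : fac t ≤ 2 ^ (fac t).size := (Nat.lt_size_self _).le
  calc fac t ^ k ≤ (2 ^ (fac t).size) ^ k := Nat.pow_le_pow_left h1 k
    _ ≤ (2 ^ (fac t).size) ^ m.size := Nat.pow_le_pow_right (by positivity) hk
    _ = (2 ^ m.size) ^ (fac t).size := by rw [← pow_mul, ← pow_mul, mul_comm]
    _ ≤ _ := Nat.pow_le_pow_left (pow_size_le m) _

theorem poly_mono (R : Polynomial ℕ) {m n : ℕ} (h : m ≤ n) : R.eval m ≤ R.eval n := by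
  induction R using Polynomial.induction_on' with
  | add p q hp hq => simp only [Polynomial.eval_add]; omega
  | monomial k c =>
    simp only [Polynomial.eval_monomial]
    exact Nat.mul_le_mul_left _ (Nat.pow_le_pow_left h k)

/-- All iterates are of polynomial size. -/
theorem exists_sz_iter (t : ℕ) : ∃ R : Polynomial ℕ, ∀ G : List Con, ∀ k ≤ G.length.size,
    sz ((stp t)^[k] G) ≤ R.eval (sz G) := by
  obtain ⟨R, hR⟩ := exists_sz_stp t
  refine ⟨Polynomial.X + R.comp ((Polynomial.C 2 * Polynomial.X + Polynomial.C 1) ^ (fac t).size *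
    Polynomial.X), fun G k hk => ?_⟩
  have hm : G.length ≤ sz G := (length_lt_sz G).le
  rw [Polynomial.eval_add, Polynomial.eval_X, Polynomial.eval_comp]
  cases k with
  | zero => simp
  | succ k =>
    rw [Function.iterate_succ_apply']
    refine (hR _).trans ((poly_mono R ?_).trans (Nat.le_add_left _ _))
    rw [length_iter]
    simp only [Polynomial.eval_add, Polynomial.eval_mul, Polynomial.eval_C, Polynomial.eval_X,
      Polynomial.eval_pow]
    refine Nat.mul_le_mul ((fac_pow_le t G.length (by omega)).trans ?_) hm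
    exact Nat.pow_le_pow_left (by omega) _

/-! ### The iteration with history -/

/-- One step, remembering the previous graph. -/
noncomputable def stH (t : ℕ) (s : List Con × List (List Con)) : List Con × List (List Con) :=
  (stp t s.1, s.1 :: s.2)

/-- The graphs before the last one, the last first. -/
noncomputable def hist (t : ℕ) : ℕ → List Con → List (List Con)
  | 0, _ => []
  | k + 1, G => hist t k (stp t G) ++ [G]

theorem stH_iter (t : ℕ) : ∀ (k : ℕ) (G : List Con) (H : List (List Con)),
    (stH t)^[k] (G, H) = ((stp t)^[k] G, hist t k G ++ H) := by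
  intro k
  induction k with
  | zero => intro G H; rfl
  | succ k ih =>
    intro G H
    rw [Function.iterate_succ_apply, Function.iterate_succ_apply]
    change (stH t)^[k] (stp t G, G :: H) = _
    rw [ih]
    simp [hist]

theorem length_hist (t : ℕ) : ∀ (k : ℕ) (G : List Con), (hist t k G).length = k := by
  intro k
  induction k with
  | zero => intro G; rfl
  | succ k ih => intro G; simp [hist, ih]

theorem mem_hist (t : ℕ) : ∀ (k : ℕ) (G H : List Con), H ∈ hist t k G →
    ∃ j < k, H = (stp t)^[j] G := by
  intro k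
  induction k with
  | zero => intro G H h; simp [hist] at h
  | succ k ih =>
    intro G H h
    simp only [hist, List.mem_append, List.mem_singleton] at h
    rcases h with h | h
    · obtain ⟨j, hj, h⟩ := ih _ _ h
      exact ⟨j + 1, by omega, by rw [h, Function.iterate_succ_apply]⟩
    · exact ⟨0, by omega, by rw [h]; rfl⟩

theorem exists_sz_stH (t : ℕ) : ∃ R : Polynomial ℕ, ∀ G : List Con, ∀ k ≤ G.length.size,
    sz ((stH t)^[k] (G, [])) ≤ R.eval (sz G) := by
  obtain ⟨R, hR⟩ := exists_sz_iter t
  refine ⟨R + (Polynomial.X * (R + Polynomial.C 1) + Polynomial.C 1) + Polynomial.C 1,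
    fun G k hk => ?_⟩
  have hm : G.length ≤ sz G := (length_lt_sz G).le
  have hs := Poly.size_le_self G.length
  rw [stH_iter, List.append_nil, sz_pair]
  have h1 := hR G k hk
  have h2 := sz_le_length_mul (hist t k G) (R.eval (sz G)) (by
    intro H hH
    obtain ⟨j, hj, rfl⟩ := mem_hist t k G H hH
    exact hR G j (by omega))
  rw [length_hist] at h2
  simp only [Polynomial.eval_add, Polynomial.eval_mul, Polynomial.eval_C, Polynomial.eval_X]
  have h3 : k * (R.eval (sz G) + 1) ≤ sz G * (R.eval (sz G) + 1) :=
    Nat.mul_le_mul_right _ (by omega)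
  omega

theorem poly_stH (t : ℕ) : Poly (stH t) :=
  Poly.pair (poly_stp t (Poly.fst Poly.id)) (Poly.cons (Poly.fst Poly.id) (Poly.snd Poly.id))

/-- The number of iterations. -/
def nit (G : List Con) : ℕ := G.length.size

theorem poly_iterH (t : ℕ) {G : α → List Con} (hG : Poly G) :
    Poly (fun a => (stH t)^[nit (G a)] (G a, [])) := by
  obtain ⟨R, hR⟩ := exists_sz_stH t
  have h1 : Poly (fun G : List Con => (stH t)^[(G.length.bits).length] (G, [])) := by
    refine Poly.iterLen (l := fun G : List Con => G.length.bits) (s := fun G => (G, []))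
      (F := fun _ s => stH t s) (Poly.natBits (Poly.length Poly.id))
      (Poly.pair Poly.id (Poly.const [])) ((poly_stH t).comp (Poly.snd Poly.id)) R ?_
    intro G k hk
    exact hR G k (by rwa [Nat.size_eq_bits_len] at hk)
  refine (h1.comp hG).congr fun a => ?_
  rw [nit, Nat.size_eq_bits_len]

/-- The final graph. -/
noncomputable def fin (t : ℕ) (G : List Con) : List Con := (stp t)^[nit G] G

theorem poly_fin_graph (t : ℕ) {G : α → List Con} (hG : Poly G) : Poly (fun a => fin t (G a)) :=
  (Poly.fst (poly_iterH t hG)).congr fun a => by rw [stH_iter]; rfl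

/-! ### Decoding -/

/-- Decoding through `k` steps. -/
noncomputable def decI (t : ℕ) : ℕ → List Con → List ℕ → List ℕ
  | 0, _, L => L
  | k + 1, G, L => decL t G (decI t k (stp t G) L)

theorem decI_eq (t : ℕ) : ∀ (k : ℕ) (G : List Con) (L : List ℕ),
    decI t k G L = (hist t k G).foldl (fun L G => decL t G L) L := by
  intro k
  induction k with
  | zero => intro G L; rfl
  | succ k ih => intro G L; rw [decI, ih, hist, List.foldl_append]; rfl

theorem plu_lt (G : List Con) (ρ : ℕ → ℕ) (x : ℕ) : plu G ρ x < 16 :=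
  (amax_spec _ 16).1 (by norm_num)

theorem sz_decL (t : ℕ) (G : List Con) (L : List ℕ) : sz (decL t G L) ≤ 134 * sz G + 1 := by
  have h := sz_le_length_mul (decL t G L) 65 (by
    intro a ha
    unfold decL at ha
    rw [List.mem_map] at ha
    obtain ⟨s, _, rfl⟩ := ha
    have h1 := plu_lt G (rho t G (asg (stp t G) L)) (nm G s)
    have h2 := szn (dcG t G (asg (stp t G) L) (nm G s))
    unfold dcG at h2 ⊢
    omega)
  have h2 : (decL t G L).length = 2 * G.length := by simp [decL]
  have h3 := length_lt_sz G
  rw [h2] at h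
  omega

theorem sz_foldl_dec (t : ℕ) (H : List (List Con)) (L : List ℕ) :
    sz (H.foldl (fun L G => decL t G L) L) ≤ sz L + 134 * sz H + 1 := by
  rcases List.eq_nil_or_concat H with h | ⟨H', G, h⟩
  · subst h
    simp only [List.foldl_nil]
    omega
  · subst h
    rw [List.concat_eq_append, List.foldl_append]
    have h1 := sz_decL t G (H'.foldl (fun L G => decL t G L) L)
    have h2 : sz G < sz (H' ++ [G]) := sz_le_of_mem (by simp)
    simp only [List.foldl_cons, List.foldl_nil]
    omega

theorem poly_decF (t : ℕ) {H : α → List (List Con)} {L : α → List ℕ} (hH : Poly H) (hL : Poly L) :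
    Poly (fun a => (H a).foldl (fun L G => decL t G L) (L a)) := by
  obtain ⟨r, hr⟩ := hH.sz_le
  obtain ⟨r', hr'⟩ := hL.sz_le
  refine Poly.foldl (F := fun _ L G => decL t G L) hH hL
    (poly_decL t (Poly.snd (Poly.snd Poly.id)) (Poly.fst (Poly.snd Poly.id)))
    (r' + Polynomial.C 134 * r + Polynomial.C 1) ?_
  intro a k _
  have h1 := sz_foldl_dec t ((H a).take k) (L a)
  have h2 := Poly.sz_take_le (H a) k
  have h3 := hr a
  have h4 := hr' a
  simp only [Polynomial.eval_add, Polynomial.eval_mul, Polynomial.eval_C]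
  omega

/-- Decoding. -/
noncomputable def dec (t : ℕ) (G : List Con) (L : List ℕ) : List ℕ := decI t (nit G) G L

theorem poly_dec (t : ℕ) {G : α → List Con} {L : α → List ℕ} (hG : Poly G) (hL : Poly L) :
    Poly (fun a => dec t (G a) (L a)) :=
  (poly_decF t (Poly.snd (poly_iterH t hG)) hL).congr fun a => by
    rw [stH_iter, List.append_nil, dec, decI_eq]

/-! ### Correctness -/

theorem iter_complete (t : ℕ) : ∀ (k : ℕ) (G : List Con), (∃ τ, viol G τ = 0) →
    ∃ τ, viol ((stp t)^[k] G) τ = 0 := by
  intro k
  induction k with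
  | zero => intro G h; exact h
  | succ k ih =>
    rintro G ⟨τ, h⟩
    rw [Function.iterate_succ_apply]
    exact ih _ ⟨_, step_complete G τ t h⟩

theorem iter_sound {t : ℕ} (ht : 32 * 417 * 20800 * c1 ≤ t) : ∀ (k : ℕ) (G : List Con)
    (L : List ℕ), t ≤ G.length →
    viol G (asg G (decI t k G L)) = 0 ∨
      ((stp t)^[k] G).length ≤ 2560 * c1 * viol ((stp t)^[k] G) (asg ((stp t)^[k] G) L) ∨
      2 ^ k * viol G (asg G (decI t k G L)) * ((stp t)^[k] G).length ≤
        viol ((stp t)^[k] G) (asg ((stp t)^[k] G) L) * G.length := by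
  have ht1 : 1 ≤ t := le_trans (by unfold c1; norm_num) ht
  intro k
  induction k with
  | zero =>
    intro G L _
    right; right
    simp [decI]
  | succ k ih =>
    intro G L hG
    have hG' : t ≤ (stp t G).length := by
      rw [length_stp']
      exact hG.trans (Nat.le_mul_of_pos_left _ (fac_pos ht1))
    have hpos : 0 < (stp t G).length := by omega
    have h1 := ih (stp t G) L hG'
    rw [Function.iterate_succ_apply]
    simp only [decI]
    set Gk := (stp t)^[k] (stp t G) with hGk
    set vk := viol Gk (asg Gk L) with hvk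
    set L' := decI t k (stp t G) L with hL'
    have h2 := step_sound ht G hG (asg (stp t G) L')
    rw [viol_decL]
    set v0 := viol G (dcG t G (asg (stp t G) L')) with hv0
    set v1 := viol (stp t G) (asg (stp t G) L') with hv1
    set g' := (stp t G).length with hg'
    rcases h1 with h1 | h1 | h1
    · left
      rw [h1] at h2
      rcases h2 with h2 | h2
      · by_contra hc
        have : 0 < 2 * v0 * g' := by positivity
        omega
      · omega
    · right; left; exact h1
    · right
      rcases h2 with h2 | h2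
      · right
        have h3 : g' * (2 ^ (k + 1) * v0 * Gk.length) ≤ g' * (vk * G.length) := by
          calc g' * (2 ^ (k + 1) * v0 * Gk.length) = (2 * v0 * g') * (2 ^ k * Gk.length) := by ring
            _ ≤ (v1 * G.length) * (2 ^ k * Gk.length) := Nat.mul_le_mul_right _ h2
            _ = (2 ^ k * v1 * Gk.length) * G.length := by ring
            _ ≤ (vk * g') * G.length := Nat.mul_le_mul_right _ h1
            _ = _ := by ring
        exact Nat.le_of_mul_le_mul_left h3 hpos
      · left
        have h3 : g' * Gk.length ≤ g' * (2560 * c1 * vk) := by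
          calc g' * Gk.length ≤ (2560 * c1 * v1) * Gk.length := Nat.mul_le_mul_right _ h2
            _ = (2560 * c1) * (1 * v1 * Gk.length) := by ring
            _ ≤ (2560 * c1) * (2 ^ k * v1 * Gk.length) := by
              refine Nat.mul_le_mul_left _ ?_
              refine Nat.mul_le_mul_right _ (Nat.mul_le_mul_right _ Nat.one_le_two_pow)
            _ ≤ (2560 * c1) * (vk * g') := Nat.mul_le_mul_left _ h1
            _ = _ := by ring
        exact Nat.le_of_mul_le_mul_left h3 hpos

/-- **Gap amplification**: if few constraints of the final graph are violated, the decoded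
assignment satisfies all constraints of the first one. -/
theorem dec_sound {t : ℕ} (ht : 32 * 417 * 20800 * c1 ≤ t) (G : List Con) (hG : t ≤ G.length)
    (L : List ℕ) (h : 2560 * c1 * viol (fin t G) (asg (fin t G) L) < (fin t G).length) :
    viol G (asg G (dec t G L)) = 0 := by
  have ht1 : 1 ≤ t := le_trans (by unfold c1; norm_num) ht
  rcases iter_sound ht (nit G) G L hG with h1 | h1 | h1
  · exact h1
  · exact absurd h1 (not_le.2 h)
  · change 2 ^ nit G * viol G (asg G (dec t G L)) * (fin t G).length ≤
      viol (fin t G) (asg (fin t G) L) * G.length at h1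
    by_contra hc
    have h2 : G.length < 2 ^ nit G := Nat.lt_size_self _
    set v := viol (fin t G) (asg (fin t G) L) with hv
    set F := (fin t G).length with hF
    set v0 := viol G (asg G (dec t G L)) with hv0
    have h3 : 1 ≤ v0 := Nat.one_le_iff_ne_zero.2 hc
    have h4 : 2 ^ nit G * F ≤ v * 2 ^ nit G := by
      calc 2 ^ nit G * F = 2 ^ nit G * 1 * F := by ring
        _ ≤ 2 ^ nit G * v0 * F := Nat.mul_le_mul_right _ (Nat.mul_le_mul_left _ h3)
        _ ≤ v * G.length := h1
        _ ≤ v * 2 ^ nit G := Nat.mul_le_mul_left _ h2.le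
    have h5 : F ≤ v := by
      rw [mul_comm v] at h4
      exact Nat.le_of_mul_le_mul_left h4 (by positivity)
    have h6 : v ≤ 2560 * c1 * v := Nat.le_mul_of_pos_left _ (by unfold c1; norm_num)
    omega

end Pool.Agent.NPC.DP
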