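import Pool.Agent.NPC.CookLevin3
import Pool.Agent.NPC.Sat
import Pool.Agent.H243R3.PCP.Iter

/-!
# The Cook-Levin theorem with extraction of certificates
-/

namespace Pool.Agent.NPC.CL

open Function (update)

/-- The certificate read off from an assignment: `a j` says that cell `j` is blank, `b j` is its
bit. -/
def extW (P : ℕ) (a b : ℕ → Bool) : List Bool :=
  (((List.range P).filter fun j => !(a j)).map b).reverse

section Complete

open Var

variable {Q K A : Type} [DecidableEq K] {D : Tab Q K A}
variable {P N : ℕ} {y : List Bool} {τ : Var Q K A → Bool}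

theorem init_extract' (hτ : Holds τ (inClauses D P y)) (w : List Bool)
    (hwdef : w = extW P (fun j => τ (ce 0 D.k₀ j none))
      (fun j => τ (ce 0 D.k₀ j (some (D.sym true))))) :
    w.length ≤ P ∧ ∀ j < P + y.length, τ (ce 0 D.k₀ j ((init D P y w).m D.k₀ j)) = true := by
  rw [inClauses, ← List.singleton_append, Holds.append_iff, Holds.append_iff, Holds.append_iff,
    Holds.append_iff] at hτ
  obtain ⟨_, _, h3, h4, h5⟩ := hτ
  have h4' : ∀ j < P, τ (ce 0 D.k₀ j none) = true ∨ τ (ce 0 D.k₀ j (some (D.sym false))) = true ∨
      τ (ce 0 D.k₀ j (some (D.sym true))) = true := by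
    intro j hj
    obtain ⟨l, hl, hl'⟩ := h4 _ (List.mem_map.2 ⟨j, List.mem_range.2 hj, rfl⟩)
    simp only [List.mem_cons, List.not_mem_nil, or_false] at hl
    rcases hl with rfl | rfl | rfl
    · exact Or.inl hl'
    · exact Or.inr (Or.inl hl')
    · exact Or.inr (Or.inr hl')
  have h5' : ∀ j, j + 1 < P → τ (ce 0 D.k₀ (j + 1) none) = true → τ (ce 0 D.k₀ j none) = true := by
    intro j hj hh
    have := h5 _ (List.mem_map.2 ⟨j, List.mem_range.2 (by omega), rfl⟩)
    rw [holds_imp] at this
    exact this (by simpa using hh)
  have h5'' : ∀ d j, j + d < P → τ (ce 0 D.k₀ (j + d) none) = true →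
      τ (ce 0 D.k₀ j none) = true := by
    intro d
    induction d with
    | zero => intro j _ h; simpa using h
    | succ d ih =>
      intro j hj hh
      exact ih j (by omega) (h5' (j + d) (by omega) (by rw [← add_assoc] at hh; exact hh))
  -- the number of blanks
  obtain ⟨b, hb, hb1, hb2⟩ : ∃ b ≤ P, (∀ j < b, τ (ce 0 D.k₀ j none) = true) ∧
      (∀ j, b ≤ j → j < P → τ (ce 0 D.k₀ j none) = false) := by
    classical
    by_cases hex : ∃ j, j < P ∧ τ (ce 0 D.k₀ j none) = false
    · refine ⟨Nat.find hex, (Nat.find_spec hex).1.le, ?_, ?_⟩
      · intro j hj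
        have := Nat.find_min hex hj
        have hjP : j < P := lt_trans hj (Nat.find_spec hex).1
        simpa [hjP] using this
      · intro j hj hjP
        have h0 := (Nat.find_spec hex).2
        by_contra hne
        have hne : τ (ce 0 D.k₀ j none) = true := by simpa using hne
        have := h5'' (j - Nat.find hex) (Nat.find hex) (by omega)
          (by rwa [show Nat.find hex + (j - Nat.find hex) = j by omega])
        rw [this] at h0
        simp at h0
    · refine ⟨P, le_rfl, ?_, ?_⟩
      · intro j hj
        by_contra hne
        exact hex ⟨j, hj, by simpa using hne⟩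
      · intro j h1 h2
        omega
  have hfil : (List.range P).filter (fun j => !(τ (ce 0 D.k₀ j none))) =
      (List.range (P - b)).map (fun i => b + i) := by
    obtain ⟨e, rfl⟩ := Nat.exists_eq_add_of_le hb
    rw [Nat.add_sub_cancel_left, List.range_add, List.filter_append]
    have e1 : (List.range b).filter (fun j => !(τ (ce 0 D.k₀ j none))) = [] := by
      rw [List.filter_eq_nil_iff]
      intro j hj
      rw [List.mem_range] at hj
      simp [hb1 j hj]
    rw [e1, List.nil_append, List.filter_eq_self]
    intro j hj
    rw [List.mem_map] at hj
    obtain ⟨i, hi, rfl⟩ := hj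
    rw [List.mem_range] at hi
    rw [hb2 (b + i) (by omega) (by omega)]
    rfl
  have hw2 : w = ((List.range (P - b)).map (fun i => τ (ce 0 D.k₀ (b + i)
      (some (D.sym true))))).reverse := by
    rw [hwdef, extW, hfil, List.map_map]
    rfl
  rw [hw2]
  refine ⟨by simp, ?_⟩
  intro j hj
  simp only [init, if_true]
  rw [List.map_append, List.reverse_append, List.map_reverse, List.reverse_reverse]
  simp only [List.length_reverse, List.length_map, List.length_range]
  rw [show P - (P - b) = b by omega]
  by_cases hj1 : j < b
  · rw [List.getElem?_append_left (by simpa using hj1)]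
    simp only [List.getElem?_replicate, hj1, if_true, Option.join_some]
    exact hb1 j hj1
  · rw [List.getElem?_append_right (by simpa using hj1), List.length_replicate]
    by_cases hj2 : j < P
    · rw [List.getElem?_append_left (by simp; omega)]
      rw [List.getElem?_map, List.getElem?_map, List.getElem?_range (by omega)]
      simp only [Option.map_some, Option.join_some]
      rw [show b + (j - b) = j by omega]
      have e1 := hb2 j (by omega) hj2
      rcases h4' j hj2 with h | h | h
      · rw [h] at e1; simp at e1
      · cases hc : τ (ce 0 D.k₀ j (some (D.sym true)))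
        · exact h
        · exact hc
      · rw [h]; exact h
    · rw [List.getElem?_append_right (by simp; omega)]
      simp only [List.length_map, List.length_range]
      rw [show j - b - (P - b) = j - P by omega]
      have hlt : j - P < y.reverse.length := by simp; omega
      rw [← List.map_reverse, List.getElem?_map, List.getElem?_eq_getElem hlt]
      simp only [Option.map_some, Option.join_some]
      obtain ⟨l, hl, hl'⟩ := h3 _ (List.mem_map.2 ⟨(y.reverse[j - P], j - P),
        List.mem_zipIdx_iff_getElem?.2 (by rw [List.getElem?_eq_getElem hlt]), rfl⟩)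
      simp only [List.mem_singleton] at hl
      subst hl
      simp only at hl'
      rw [show P + (j - P) = j by omega] at hl'
      exact hl'

theorem formula_complete' (hqs : ∀ q, q ∈ D.qs) (hks : ∀ k, k ∈ D.ks) (hos : ∀ o, o ∈ D.os)
    (hτ : Holds τ (formula D P y N)) (w : List Bool) (hcell : ∀ j < P + y.length,
      τ (ce 0 D.k₀ j ((init D P y w).m D.k₀ j)) = true) :
    Accepts D (run D P y w N) := by
  rw [formula, Holds.append_iff, Holds.append_iff] at hτ
  obtain ⟨hin, htr, hfi⟩ := hτ
  have hbound : ∀ t k, (run D P y w t).h k ≤ P + y.length + t := by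
    intro t k
    have h1 := iterate_ptr_le D.M (init D P y w) k t
    have h2 : (init D P y w).h k ≤ P + y.length := by
      simp only [init]
      split_ifs <;> omega
    unfold run
    omega
  have htr' : ∀ t < N, ∀ h ≤ P + y.length + N, Holds τ (tClauses D t h) := by
    intro t ht h hh c hc
    apply htr
    rw [List.mem_flatMap]
    refine ⟨t, List.mem_range.2 ht, ?_⟩
    rw [List.mem_flatMap]
    exact ⟨h, List.mem_range.2 (by omega), hc⟩
  have main : ∀ t ≤ N, τ (Var.st t (run D P y w t).q) = true ∧
      (∀ k, τ (hp t k ((run D P y w t).h k)) = true) ∧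
      (∀ k, ∀ j < (run D P y w t).h k, τ (ce t k j ((run D P y w t).m k j)) = true) := by
    intro t
    induction t with
    | zero =>
      intro _
      rw [inClauses, ← List.singleton_append, Holds.append_iff, Holds.append_iff] at hin
      obtain ⟨i1, i2, _⟩ := hin
      refine ⟨?_, ?_, ?_⟩
      · obtain ⟨l, hl, hl'⟩ := i1 _ (List.mem_singleton_self _)
        simp only [List.mem_singleton] at hl
        subst hl
        exact hl'
      · intro k
        obtain ⟨l, hl, hl'⟩ := i2 _ (List.mem_map.2 ⟨k, hks k, rfl⟩)
        simp only [List.mem_singleton] at hl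
        subst hl
        exact hl'
      · intro k j hj
        by_cases hk : k = D.k₀
        · subst hk
          apply hcell
          simpa [run, init] using hj
        · simp [run, init, hk] at hj
    | succ t ih =>
      intro ht
      obtain ⟨s1, s2, s3⟩ := ih (by omega)
      set c := run D P y w t with hc
      rw [run_succ, ← hc]
      have hT := htr' t (by omega)
      -- the consulted stack
      have hcons : τ (Var.st (t + 1) (D.M.δ c.q (c.read (D.M.κ c.q))).1) = true ∧
          τ (hp (t + 1) (D.M.κ c.q) (newPtr (D.M.δ c.q (c.read (D.M.κ c.q))).2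
            (c.read (D.M.κ c.q)) (c.h (D.M.κ c.q)))) = true ∧
          ∀ a, (D.M.δ c.q (c.read (D.M.κ c.q))).2 = Op.push a →
            τ (ce (t + 1) (D.M.κ c.q) (c.h (D.M.κ c.q)) (some a)) = true := by
        have hb := hbound t (D.M.κ c.q)
        rw [← hc] at hb
        have hT' := hT (c.h (D.M.κ c.q)) (by omega)
        rw [tClauses, Holds.append_iff] at hT'
        have hT'' : Holds τ (trClauses D t (c.h (D.M.κ c.q)) c.q) := by
          intro cl hcl
          apply hT'.1
          rw [List.mem_flatMap]
          exact ⟨c.q, hqs _, List.mem_append_left _ hcl⟩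
        cases hh : c.h (D.M.κ c.q) with
        | zero =>
          have hr : c.read (D.M.κ c.q) = none := by rw [Cf.read, hh]
          rw [hh] at hT''
          rw [hr]
          exact rdClauses_complete hT'' s1 (by rw [← hh]; exact s2 _) (by simp)
        | succ n =>
          have hr : c.read (D.M.κ c.q) = c.m (D.M.κ c.q) n := by rw [Cf.read, hh]
          rw [hh] at hT''
          rw [hr]
          have : Holds τ (rdClauses D t c.q (n + 1) [ce t (D.M.κ c.q) n (c.m (D.M.κ c.q) n)]
              (c.m (D.M.κ c.q) n)) := by
            intro cl hcl
            apply hT''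
            rw [trClauses, List.mem_flatMap]
            exact ⟨_, hos _, hcl⟩
          exact rdClauses_complete this s1 (by rw [← hh]; exact s2 _) (by
            intro p hp
            rw [List.mem_singleton] at hp
            subst hp
            exact s3 _ _ (by omega))
      refine ⟨hcons.1, ?_, ?_⟩
      · intro k
        by_cases hk : k = D.M.κ c.q
        · subst hk
          simp only [NM.step, Function.update_self]
          exact hcons.2.1
        · simp only [NM.step, Function.update_of_ne hk]
          have hb := hbound t k
          rw [← hc] at hb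
          have hT' := hT (c.h k) (by omega)
          rw [tClauses, Holds.append_iff] at hT'
          have := hT'.1 (imp [Var.st t c.q, hp t k (c.h k)] (hp (t + 1) k (c.h k))) (by
            rw [List.mem_flatMap]
            refine ⟨c.q, hqs _, List.mem_append_right _ ?_⟩
            rw [fpClauses, List.mem_map]
            exact ⟨k, List.mem_filter.2 ⟨hks k, decide_eq_true hk⟩, rfl⟩)
          rw [holds_imp] at this
          apply this
          intro p hp
          simp only [List.mem_cons, List.not_mem_nil, or_false] at hp
          rcases hp with rfl | rfl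
          · exact s1
          · exact s2 k
      · intro k j hj
        have frame : ∀ j < c.h k, τ (ce (t + 1) k j ((D.M.step c).m k j)) = true := by
          intro j hj
          rw [step_mem_below _ _ _ _ hj]
          have hb := hbound t k
          rw [← hc] at hb
          have hT' := hT (c.h k) (by omega)
          rw [tClauses, Holds.append_iff] at hT'
          have := hT'.2 (imp [hp t k (c.h k), ce t k j (c.m k j)] (ce (t + 1) k j (c.m k j))) (by
            rw [fmClauses, List.mem_flatMap]
            refine ⟨j, List.mem_range.2 hj, ?_⟩
            rw [List.mem_flatMap]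
            refine ⟨k, hks k, ?_⟩
            rw [List.mem_map]
            exact ⟨_, hos _, rfl⟩)
          rw [holds_imp] at this
          apply this
          intro p hp
          simp only [List.mem_cons, List.not_mem_nil, or_false] at hp
          rcases hp with rfl | rfl
          · exact s2 k
          · exact s3 k j hj
        by_cases hjk : j < c.h k
        · exact frame j hjk
        · have h1 := step_ptr_le D.M c k
          have hjeq : j = c.h k := by omega
          by_cases hk : k = D.M.κ c.q
          · subst hk
            cases hop : (D.M.δ c.q (c.read (D.M.κ c.q))).2 with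
            | keep =>
              simp only [NM.step, Function.update_self, hop, newPtr] at hj
              omega
            | pop =>
              simp only [NM.step, Function.update_self, hop, newPtr] at hj
              cases hr : c.read (D.M.κ c.q) with
              | none => simp only [hr] at hj; omega
              | some a => simp only [hr] at hj; omega
            | push a =>
              have := hcons.2.2 a hop
              simp only [NM.step, Function.update_self, hop, newMem]
              rw [hjeq, Function.update_self]
              exact this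
          · simp only [NM.step, Function.update_of_ne hk] at hj
            omega
  obtain ⟨m1, m2, m3⟩ := main N le_rfl
  set c := run D P y w N with hc
  rw [fiClauses, Holds.append_iff, Holds.append_iff, Holds.append_iff] at hfi
  obtain ⟨f1, f2, f3, f4⟩ := hfi
  have hb := hbound N D.k₁
  rw [← hc] at hb
  refine ⟨?_, ?_⟩
  · by_contra hne
    have hne : D.acc c.q = false := by simpa using hne
    have := f1 _ (List.mem_map.2 ⟨c.q, List.mem_filter.2 ⟨hqs _, by simp [hne]⟩, rfl⟩)
    rw [holds_forb] at this
    exact this (by simpa using m1)
  · cases hh : c.h D.k₁ with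
    | zero =>
      exfalso
      have := f2 _ (List.mem_singleton_self _)
      rw [holds_forb] at this
      apply this
      intro p hp
      rw [List.mem_singleton] at hp
      subst hp
      rw [← hh]
      exact m2 _
    | succ n =>
      refine ⟨n, rfl, ?_, ?_⟩
      · by_contra hne
        have hne : D.good (c.m D.k₁ n) = false := by simpa using hne
        have := f3 (forb [hp N D.k₁ (n + 1), ce N D.k₁ n (c.m D.k₁ n)]) (by
          rw [List.mem_flatMap]
          refine ⟨n, List.mem_range.2 (by omega), ?_⟩
          rw [List.mem_map]
          exact ⟨_, List.mem_filter.2 ⟨hos _, by simp [hne]⟩, rfl⟩)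
        rw [holds_forb] at this
        apply this
        intro p hp
        simp only [List.mem_cons, List.not_mem_nil, or_false] at hp
        rcases hp with rfl | rfl
        · rw [← hh]; exact m2 _
        · exact m3 _ _ (by omega)
      · intro n' hn'
        subst hn'
        by_contra hne
        have := f4 (forb [hp N D.k₁ (n' + 2), ce N D.k₁ n' (c.m D.k₁ n')]) (by
          rw [List.mem_flatMap]
          refine ⟨n', List.mem_range.2 (by omega), ?_⟩
          rw [List.mem_map]
          exact ⟨_, List.mem_filter.2 ⟨hos _, by simpa [Option.isSome_iff_ne_none] using hne⟩,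
            rfl⟩)
        rw [holds_forb] at this
        apply this
        intro p hp
        simp only [List.mem_cons, List.not_mem_nil, or_false] at hp
        rcases hp with rfl | rfl
        · have := m2 D.k₁; rw [hh] at this; exact this
        · exact m3 _ _ (by omega)

end Complete

theorem np_tab' {V : List Bool → List Bool} (hV : PolyTime V) (p : Polynomial ℕ) :
    ∃ (tm : Turing.FinTM2) (inE : tm.Γ tm.k₀ ≃ Bool) (outE : tm.Γ tm.k₁ ≃ Bool) (R : Polynomial ℕ),
      ∀ x, ((∃ w : List Bool, w.length ≤ p.eval x.length ∧ V (pairBits x w) = [true]) →
        ∃ τ, Holds τ (formula (tab tm inE outE) (p.eval x.length) (pairPre x)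
          (R.eval x.length))) ∧
      ∀ τ, Holds τ (formula (tab tm inE outE) (p.eval x.length) (pairPre x) (R.eval x.length)) →
        (extW (p.eval x.length) (fun j => τ (Var.ce 0 (tab tm inE outE).k₀ j none))
          (fun j => τ (Var.ce 0 (tab tm inE outE).k₀ j (some ((tab tm inE outE).sym true))))).length
            ≤ p.eval x.length ∧
        V (pairBits x (extW (p.eval x.length) (fun j => τ (Var.ce 0 (tab tm inE outE).k₀ j none))
          (fun j => τ (Var.ce 0 (tab tm inE outE).k₀ j
            (some ((tab tm inE outE).sym true)))))) = [true] := by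
  obtain ⟨hV⟩ := hV
  refine ⟨hV.tm, hV.inputAlphabet, hV.outputAlphabet,
    (hV.time.comp (Polynomial.C 2 * Polynomial.X + Polynomial.C 1 + p)) *
      Polynomial.C (maxDepth hV.tm), fun x => ?_⟩
  have key : ∀ w : List Bool, w.length ≤ p.eval x.length →
      (V (pairBits x w) = [true] ↔ Accepts (tab hV.tm hV.inputAlphabet hV.outputAlphabet)
        (run (tab hV.tm hV.inputAlphabet hV.outputAlphabet) (p.eval x.length) (pairPre x) w
          (((hV.time.comp (Polynomial.C 2 * Polynomial.X + Polynomial.C 1 + p)) *
      Polynomial.C (maxDepth hV.tm)).eval x.length))) := by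
    intro w hw
    rw [pairBits_eq]
    refine tab_correct hV.tm hV.inputAlphabet hV.outputAlphabet V _ _ _ _ _ hw
      (hV.outputsFun (pairPre x ++ w)) ?_
    rw [Polynomial.eval_mul, Polynomial.eval_C, Polynomial.eval_comp]
    refine Nat.mul_le_mul_right _ (eval_mono _ ?_)
    simp only [id_eq, List.length_append, pairPre_length, Polynomial.eval_add,
      Polynomial.eval_mul, Polynomial.eval_C, Polynomial.eval_X]
    omega
  constructor
  · rintro ⟨w, hw, hVw⟩
    exact ⟨_, formula_sound _ _ _ w _ hw ((key w hw).1 hVw)⟩
  · intro τ hτ
    have hin := hτ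
    rw [formula, Holds.append_iff] at hin
    obtain ⟨h1, h2⟩ := init_extract' hin.1 _ rfl
    exact ⟨h1, (key _ h1).2 (formula_complete' (fun q => by simp [tab]) (fun k => by simp [tab])
      (fun o => by simp [tab]) hτ _ h2)⟩

/-- **The Cook-Levin theorem with extraction of certificates.** -/
theorem cookLevin_ext {V : List Bool → List Bool} (hV : PolyTime V) (p : Polynomial ℕ) :
    ∃ (U : Type) (_ : TEnc U) (f : List Bool → List (List (Bool × U))) (v0 v1 : ℕ → U),
      Poly f ∧ Poly v0 ∧ Poly v1 ∧
      ∀ x, ((∃ w : List Bool, w.length ≤ p.eval x.length ∧ V (pairBits x w) = [true]) →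
        ∃ τ, Holds τ (f x)) ∧
      ∀ τ, Holds τ (f x) →
        (extW (p.eval x.length) (fun j => τ (v0 j)) (fun j => τ (v1 j))).length ≤
          p.eval x.length ∧
        V (pairBits x (extW (p.eval x.length) (fun j => τ (v0 j)) (fun j => τ (v1 j)))) =
          [true] := by
  obtain ⟨tm, inE, outE, R, h⟩ := np_tab' hV p
  let _ := encFintype (NQ tm)
  let _ := encFintype tm.K
  let _ := encFintype (NA tm)
  refine ⟨Var (NQ tm) tm.K (NA tm), inferInstance, fun x => formula (tab tm inE outE)
    (p.eval x.length) (pairPre x) (R.eval x.length), fun j => Var.ce 0 (tab tm inE outE).k₀ j none,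
    fun j => Var.ce 0 (tab tm inE outE).k₀ j (some ((tab tm inE outE).sym true)), ?_, ?_, ?_, h⟩
  · exact pFormula _ (UPoly.eval (UPoly.length Poly.id) p) (pPre Poly.id)
      (UPoly.eval (UPoly.length Poly.id) R)
  · exact pCe (Poly.const 0) (Poly.const _) Poly.id (Poly.const _)
  · exact pCe (Poly.const 0) (Poly.const _) Poly.id (Poly.const _)

end Pool.Agent.NPC.CL
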