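import Pool.Agent.H243R3.PCP.Fin3

/-!
# The final formula: the number of occurrences of the variables
-/

namespace Pool.Agent.H243R3.PCP

open Finset Pool.Agent.H243R3.TP

/-- The number of occurrences. -/
def cnt (x : ℕ) (φ : List Clause) : ℕ := (occ φ).count x

theorem cnt_flatMap {β : Type} (x : ℕ) (L : List β) (f : β → List Clause) :
    cnt x (L.flatMap f) = (L.map fun b => cnt x (f b)).sum := by
  induction L with
  | nil => simp [cnt, occ]
  | cons b L ih =>
    rw [List.flatMap_cons, List.map_cons, List.sum_cons, ← ih]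
    unfold cnt occ
    rw [List.flatMap_append, List.count_append]

theorem cnt_cons (x : ℕ) (c : Clause) (φ : List Clause) : cnt x (c :: φ) ≤ 3 + cnt x φ := by
  unfold cnt occ
  rw [List.flatMap_cons, List.count_append]
  refine Nat.add_le_add_right ?_ _
  refine (List.count_le_length).trans ?_
  simp [lits]

theorem cnt_cl6 (x : ℕ) (l : ℕ → TP.Lit) (z : ℕ → ℕ) : cnt x (cl6 l z) ≤
    ∑ j ∈ range 8, (if (l j).1 = x then 1 else 0) + 2 * ∑ k ∈ range 5, if z k = x then 1 else 0 := by
  have e : ∀ a : ℕ, (if (a == x) = true then 1 else 0) = if a = x then 1 else 0 := by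
    intro a
    by_cases h : a = x <;> simp [h]
  simp only [cnt, occ, cl6, lits, List.flatMap_cons, List.flatMap_nil, List.map_cons, List.map_nil,
    List.cons_append, List.nil_append, List.count_cons, List.count_nil, sum_range_succ,
    sum_range_zero, e]
  exact le_of_eq (by ring)

theorem sum_pt {N : ℕ} (c : ℕ) : ∑ s ∈ range N, (if s = c then 1 else 0) ≤ 1 := by
  rw [sum_ite_eq']
  split_ifs <;> omega

theorem four (s x : ℕ) : ∑ j ∈ range 4, (if 2 * (4 * s + j) = x then 1 else 0) ≤
    if s = x / 8 then 1 else 0 := by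
  have h1 : ∀ j ∈ range 4, (if 2 * (4 * s + j) = x then 1 else 0) ≤
      if s = x / 8 ∧ j = x / 2 % 4 then 1 else 0 := by
    intro j hj
    rw [mem_range] at hj
    split_ifs <;> omega
  refine (sum_le_sum h1).trans ?_
  by_cases h4 : s = x / 8
  · rw [if_pos h4]
    simp only [h4, true_and]
    exact sum_pt _
  · simp only [h4, false_and, if_false, sum_const_zero, le_refl]

theorem five (y x : ℕ) : ∑ k ∈ range 5, (if 2 * (y * 5 + k) + 1 = x then 1 else 0) ≤
    if y = x / 10 then 1 else 0 := by
  have h1 : ∀ k ∈ range 5, (if 2 * (y * 5 + k) + 1 = x then 1 else 0) ≤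
      if y = x / 10 ∧ k = x / 2 % 5 then 1 else 0 := by
    intro j hj
    rw [mem_range] at hj
    split_ifs <;> omega
  refine (sum_le_sum h1).trans ?_
  by_cases h4 : y = x / 10
  · rw [if_pos h4]
    simp only [h4, true_and]
    exact sum_pt _
  · simp only [h4, false_and, if_false, sum_const_zero, le_refl]

theorem cnt_bl (G : List Con) (x s i p : ℕ) : cnt x (bl G s i p) ≤
    (if s = x / 8 then 1 else 0) + (if (rotG G s i).1 = x / 8 then 1 else 0) +
      2 * (if yn s i p = x / 10 then 1 else 0) := by
  unfold bl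
  by_cases h : conG G s i (p / 16) (p % 16) = true
  · rw [if_pos h]
    exact Nat.zero_le _
  · rw [if_neg h]
    refine (cnt_cl6 x _ _).trans ?_
    refine Nat.add_le_add ?_ (Nat.mul_le_mul_left 2 (five _ x))
    have e : ∑ j ∈ range 8, (if (lt8 s (rotG G s i).1 (p / 16) (p % 16) j).1 = x then 1 else 0) =
        ∑ j ∈ range 4, (if 2 * (4 * s + j) = x then 1 else 0) +
          ∑ j ∈ range 4, (if 2 * (4 * (rotG G s i).1 + j) = x then 1 else 0) := by
      simp only [sum_range_succ, sum_range_zero, lt8]
      norm_num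
      ring
    rw [e]
    exact Nat.add_le_add (four _ _) (four _ _)

theorem sum_yn (N c : ℕ) : ∑ s ∈ range N, ∑ i ∈ range 130, ∑ p ∈ range 256,
    (if yn s i p = c then 1 else 0) ≤ 1 := by
  have h1 : ∀ s ∈ range N, ∑ i ∈ range 130, ∑ p ∈ range 256,
      (if yn s i p = c then 1 else 0) ≤ if s = c / 256 / 130 then 1 else 0 := by
    intro s _
    have h2 : ∀ i ∈ range 130, ∑ p ∈ range 256, (if yn s i p = c then 1 else 0) ≤
        if s = c / 256 / 130 ∧ i = c / 256 % 130 then 1 else 0 := by
      intro i hi
      rw [mem_range] at hi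
      have h3 : ∀ p ∈ range 256, (if yn s i p = c then 1 else 0) ≤
          if (s = c / 256 / 130 ∧ i = c / 256 % 130) ∧ p = c % 256 then 1 else 0 := by
        intro p hp
        rw [mem_range] at hp
        unfold yn
        split_ifs <;> omega
      refine (sum_le_sum h3).trans ?_
      by_cases h4 : s = c / 256 / 130 ∧ i = c / 256 % 130
      · simp only [h4, and_self, true_and, if_true]
        exact sum_pt _
      · simp only [h4, false_and, if_false, sum_const_zero, le_refl]
    refine (sum_le_sum h2).trans ?_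
    by_cases h4 : s = c / 256 / 130
    · simp only [h4, true_and, if_true]
      exact sum_pt _
    · simp only [h4, false_and, if_false, sum_const_zero, le_refl]
  exact (sum_le_sum h1).trans (sum_pt _)

theorem rot_count (G : List Con) (c : ℕ) : ∑ s ∈ range (2 * G.length), ∑ i ∈ range 130,
    (if (rotG G s i).1 = c then 1 else 0) ≤ 130 := by
  have h := (isRotG G).sum fun v _ => if v = c then (1 : ℝ) else 0
  have h1 : ∑ s ∈ range (2 * G.length), ∑ i ∈ range (2 * 65), (if s = c then (1 : ℝ) else 0) ≤
      130 := by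
    have h2 : ∀ s ∈ range (2 * G.length), ∑ i ∈ range (2 * 65), (if s = c then (1 : ℝ) else 0) =
        130 * if s = c then 1 else 0 := by
      intro s _
      rw [sum_const, card_range, nsmul_eq_mul]
      norm_num
    rw [sum_congr rfl h2, ← mul_sum, sum_ite_eq']
    split_ifs <;> norm_num
  have h3 : ((∑ s ∈ range (2 * G.length), ∑ i ∈ range 130,
      (if (rotG G s i).1 = c then 1 else 0) : ℕ) : ℝ) ≤ (130 : ℕ) := by
    push_cast
    refine le_trans (le_of_eq ?_) h1
    rw [← h]
  exact_mod_cast h3

/-- The bound for the number of occurrences. -/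
def Bd : ℕ := 70000

theorem phi_occ (G : List Con) (x : ℕ) : (occ (phi G)).count x ≤ Bd := by
  change cnt x (phi G) ≤ Bd
  unfold phi
  refine (cnt_cons _ _ _).trans ?_
  rw [cnt_flatMap, sum_range_list]
  have h1 : ∀ s ∈ range (2 * G.length), cnt x ((List.range 130).flatMap fun i =>
      (List.range 256).flatMap fun p => bl G s i p) ≤ ∑ i ∈ range 130, ∑ p ∈ range 256,
      ((if s = x / 8 then 1 else 0) + (if (rotG G s i).1 = x / 8 then 1 else 0) +
      2 * (if yn s i p = x / 10 then 1 else 0)) := by
    intro s _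
    rw [cnt_flatMap, sum_range_list]
    refine sum_le_sum fun i _ => ?_
    rw [cnt_flatMap, sum_range_list]
    exact sum_le_sum fun p _ => cnt_bl G x s i p
  have h2 := sum_le_sum h1
  simp only [sum_add_distrib, ← mul_sum] at h2
  have h3 : ∑ s ∈ range (2 * G.length), ∑ i ∈ range 130, ∑ p ∈ range 256,
      (if s = x / 8 then 1 else 0) ≤ 130 * 256 := by
    have h4 : ∀ s ∈ range (2 * G.length), ∑ i ∈ range 130, ∑ p ∈ range 256,
        (if s = x / 8 then 1 else 0) = 130 * 256 * if s = x / 8 then 1 else 0 := by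
      intro s _
      simp only [sum_const, card_range, smul_eq_mul]
      ring
    rw [sum_congr rfl h4, ← mul_sum]
    exact Nat.mul_le_mul_left (130 * 256) (sum_pt _)
  have h5 : ∑ s ∈ range (2 * G.length), ∑ i ∈ range 130, ∑ p ∈ range 256,
      (if (rotG G s i).1 = x / 8 then 1 else 0) ≤ 256 * 130 := by
    have h4 : ∀ s ∈ range (2 * G.length), ∑ i ∈ range 130, ∑ p ∈ range 256,
        (if (rotG G s i).1 = x / 8 then 1 else 0) =
        256 * ∑ i ∈ range 130, if (rotG G s i).1 = x / 8 then 1 else 0 := by
      intro s _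
      simp only [sum_const, card_range, smul_eq_mul]
      rw [mul_sum]
    rw [sum_congr rfl h4, ← mul_sum]
    exact Nat.mul_le_mul_left 256 (rot_count G _)
  have h6 := sum_yn (2 * G.length) (x / 10)
  unfold Bd
  omega

end Pool.Agent.H243R3.PCP
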