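import Pool.Agent.H243R3.PCP.Comp
import Pool.Agent.H243R3.TP.PolyA

/-!
# Polynomial time for the main step
-/

namespace Pool.Agent.NPC.DP

open Pool.Agent.H243R3.PCP Pool.Agent.NPC.TP

variable {α β γ σ : Type} [TEnc α] [TEnc β] [TEnc γ] [TEnc σ]

/-! ### Functions with finite range, constant lists -/

theorem poly_fin {g : α → β} (hg : Poly g) (hfin : (Set.range g).Finite) (F : β → γ) :
    Poly (fun a => F (g a)) := by
  classical
  rcases isEmpty_or_nonempty α with h | ⟨⟨a₀⟩⟩
  · obtain ⟨c, p, _⟩ := hg
    exact ⟨c, p, fun a => isEmptyElim a⟩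
  · set tab : List (β × γ) := hfin.toFinset.toList.map fun b => (b, F b) with htab
    have h1 : Poly (fun a => ((tab.filter fun p => decide (p.1 = g a)).head?.map Prod.snd).getD
        (F (g a₀))) := by
      refine poly_optGetD ?_ (Poly.const _)
      refine (Poly.optCases (Poly.head? (Poly.filter (l := fun _ => tab)
        (p := fun a p => decide (p.1 = g a)) (Poly.const tab)
        (Poly.decide_eq (Poly.fst (Poly.snd Poly.id)) (hg.comp (Poly.fst Poly.id)))))
        (Poly.const none) (h := fun _ b => some b.2)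
        (Poly.some (Poly.snd (Poly.snd Poly.id)))).congr fun a => ?_
      cases (tab.filter fun p => decide (p.1 = g a)).head? <;> rfl
    refine h1.congr fun a => ?_
    have hm : (g a, F (g a)) ∈ tab.filter fun p => decide (p.1 = g a) := by
      rw [List.mem_filter]
      refine ⟨?_, by simp⟩
      rw [htab]
      exact List.mem_map_of_mem (f := fun b => (b, F b)) (Finset.mem_toList.2 (hfin.mem_toFinset.2 ⟨a, rfl⟩))
    cases hh : (tab.filter fun p => decide (p.1 = g a)).head? with
    | none =>
      rw [List.head?_eq_none_iff] at hh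
      rw [hh] at hm
      simp at hm
    | some p =>
      have hp : p ∈ tab.filter fun p => decide (p.1 = g a) := List.mem_of_head? hh
      rw [List.mem_filter, decide_eq_true_eq, htab, List.mem_map] at hp
      obtain ⟨⟨b, _, rfl⟩, hb⟩ := hp
      simp only at hb
      simp [hb]

theorem poly_map_const {ι : Type} (L : List ι) {F : α → ι → γ}
    (hF : ∀ b ∈ L, Poly (fun a => F a b)) : Poly (fun a => L.map (F a)) := by
  induction L with
  | nil => exact Poly.const []
  | cons b L ih =>
    exact Poly.cons (hF b List.mem_cons_self) (ih fun c hc => hF c (List.mem_cons_of_mem _ hc))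

theorem poly_flatMap_const {ι : Type} (L : List ι) {F : α → ι → List γ}
    (hF : ∀ b ∈ L, Poly (fun a => F a b)) : Poly (fun a => L.flatMap (F a)) := by
  induction L with
  | nil => exact Poly.const []
  | cons b L ih =>
    exact (Poly.append (hF b List.mem_cons_self)
      (ih fun c hc => hF c (List.mem_cons_of_mem _ hc))).congr fun a => by rw [List.flatMap_cons]

theorem poly_countP_const {ι : Type} (L : List ι) {p : α → ι → Bool}
    (hp : ∀ b ∈ L, Poly (fun a => p a b)) : Poly (fun a => L.countP (p a)) := by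
  induction L with
  | nil => exact Poly.const 0
  | cons b L ih =>
    refine (Poly.add (ih fun c hc => hp c (List.mem_cons_of_mem _ hc))
      (Poly.cond (hp b List.mem_cons_self) (Poly.const 1) (Poly.const 0))).congr fun a => ?_
    rw [List.countP_cons]
    cases p a b <;> rfl

theorem poly_foldl_const {ι : Type} (L : List ι) {F : α → σ → ι → σ}
    (hF : ∀ b ∈ L, Poly (fun p : α × σ => F p.1 p.2 b)) :
    ∀ {s : α → σ}, Poly s → Poly (fun a => L.foldl (F a) (s a)) := by
  induction L with
  | nil => intro s hs; exact hs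
  | cons b L ih =>
    intro s hs
    exact ih (fun c hc => hF c (List.mem_cons_of_mem _ hc))
      ((hF b List.mem_cons_self).comp (Poly.pair Poly.id hs))

theorem fin_lists {δ : Type} (s : Set δ) (hs : s.Finite) (n : ℕ) :
    {l : List δ | l.length = n ∧ ∀ x ∈ l, x ∈ s}.Finite := by
  induction n with
  | zero =>
    refine (Set.finite_singleton []).subset ?_
    rintro l ⟨hl, _⟩
    exact List.length_eq_zero_iff.1 hl
  | succ n ih =>
    refine (Set.Finite.image2 (fun x l => x :: l) hs ih).subset ?_
    rintro l ⟨hl, hx⟩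
    cases l with
    | nil => simp at hl
    | cons x l =>
      exact ⟨x, hx x List.mem_cons_self, l, ⟨by simpa using hl,
        fun y hy => hx y (List.mem_cons_of_mem _ hy)⟩, rfl⟩

/-! ### The expanders -/

theorem poly_ks {c : α → ℕ} (hc : UPoly c) : Poly (fun a => ks (c a)) := by
  unfold ks
  exact Poly.length (Poly.filter (p := fun a j => decide (j * j < c a)) hc.range
    (Poly.decide_lt (Poly.mul (Poly.snd Poly.id) (Poly.snd Poly.id))
      (hc.toPoly.comp (Poly.fst Poly.id))))

theorem poly_gen {k g w : α → ℕ} (hk : Poly k) (hg : Poly g) (hw : Poly w) :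
    Poly (fun a => gen (k a) (g a) (w a)) := by
  unfold gen
  have hd : Poly (fun a => w a / k a) := Poly.div hw hk
  have hm : Poly (fun a => w a % k a) := Poly.mod hw hk
  have e : ∀ n : ℕ, Poly (fun a => decide (g a = n)) := fun n => Poly.decide_eq hg (Poly.const n)
  exact Poly.ite (e 0) (Poly.add (Poly.mul (Poly.mod (Poly.add hd hm) hk) hk) hm)
    (Poly.ite (e 1) (Poly.add (Poly.mul (Poly.mod (Poly.add hd (Poly.sub hk hm)) hk) hk) hm)
    (Poly.ite (e 2) (Poly.add (Poly.mul hd hk) (Poly.mod (Poly.add hm hd) hk))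
    (Poly.ite (e 3) (Poly.add (Poly.mul hd hk) (Poly.mod (Poly.add hm (Poly.sub hk hd)) hk))
    (Poly.ite (e 4) (Poly.add (Poly.mul (Poly.mod (Poly.add hd (Poly.const 1)) hk) hk) hm)
    (Poly.ite (e 5) (Poly.add (Poly.mul (Poly.mod (Poly.add hd (Poly.sub hk (Poly.const 1))) hk) hk)
      hm)
    (Poly.ite (e 6) (Poly.add (Poly.mul hd hk) (Poly.mod (Poly.add hm (Poly.const 1)) hk))
      (Poly.add (Poly.mul hd hk) (Poly.mod (Poly.add hm (Poly.sub hk (Poly.const 1))) hk))))))))

theorem poly_ginv {g : α → ℕ} (hg : Poly g) : Poly (fun a => ginv (g a)) := by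
  unfold ginv
  exact Poly.ite (Poly.decide_eq (Poly.mod hg (Poly.const 2)) (Poly.const 0))
    (Poly.add hg (Poly.const 1)) (Poly.sub hg (Poly.const 1))

theorem poly_xrot {c j l : α → ℕ} (hc : UPoly c) (hj : Poly j) (hl : Poly l) :
    Poly (fun a => xrot (c a) (j a) (l a)) := by
  unfold xrot
  have hk := poly_ks hc
  have hc' := hc.toPoly
  have hw : Poly (fun a => j a + l a / 8 * c a) :=
    Poly.add hj (Poly.mul (Poly.div hl (Poly.const 8)) hc')
  have hl8 : Poly (fun a => l a % 8) := Poly.mod hl (Poly.const 8)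
  have hg := poly_gen hk hl8 hw
  exact Poly.ite (Poly.decide_lt hw (Poly.mul hk hk))
    (Poly.pair (Poly.mod hg hc') (Poly.add (Poly.mul (Poly.div hg hc') (Poly.const 8))
      (poly_ginv hl8))) (Poly.pair hj hl)

/-! ### The graph -/

theorem poly_cn {G : α → List Con} {s : α → ℕ} (hG : Poly G) (hs : Poly s) :
    Poly (fun a => cn (G a) (s a)) := by
  unfold cn
  exact Poly.getD hG (Poly.div hs (Poly.const 2)) (Poly.const _)

theorem poly_nm {G : α → List Con} {s : α → ℕ} (hG : Poly G) (hs : Poly s) :
    Poly (fun a => nm (G a) (s a)) := by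
  unfold nm
  have h := poly_cn hG hs
  exact Poly.ite (Poly.decide_eq (Poly.mod hs (Poly.const 2)) (Poly.const 0)) (Poly.fst h)
    (Poly.fst (Poly.snd h))

theorem upoly_2len {G : α → List Con} (hG : Poly G) : UPoly (fun a => 2 * (G a).length) :=
  UPoly.mul (UPoly.const 2) (UPoly.length hG)

theorem poly_cl {G : α → List Con} {x : α → ℕ} (hG : Poly G) (hx : Poly x) :
    Poly (fun a => cl (G a) (x a)) := by
  unfold cl
  exact Poly.filter (p := fun a s => decide (nm (G a) s = x a)) (upoly_2len hG).range
    (Poly.decide_eq (poly_nm (hG.comp (Poly.fst Poly.id)) (Poly.snd Poly.id))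
      (hx.comp (Poly.fst Poly.id)))

theorem poly_rotG {G : α → List Con} {s i : α → ℕ} (hG : Poly G) (hs : Poly s) (hi : Poly i) :
    Poly (fun a => rotG (G a) (s a) (i a)) := by
  unfold rotG
  have hcl := poly_cl hG (poly_nm hG hs)
  have hx := poly_xrot (UPoly.length hcl) (Poly.index hcl hs) (Poly.sub hi (Poly.const 1))
  have hx' := poly_xrot (upoly_2len hG) hs (Poly.sub hi (Poly.const 33))
  refine Poly.ite (Poly.decide_eq hi (Poly.const 0)) ?_ (Poly.ite (Poly.decide_le hi (Poly.const 32))
    ?_ (Poly.ite (Poly.decide_le hi (Poly.const 64)) ?_ (Poly.pair hs hi)))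
  · unfold partner
    exact Poly.pair (Poly.ite (Poly.decide_eq (Poly.mod hs (Poly.const 2)) (Poly.const 0))
      (Poly.add hs (Poly.const 1)) (Poly.sub hs (Poly.const 1))) (Poly.const 0)
  · exact Poly.pair (Poly.getD hcl (Poly.fst hx) (Poly.const 0))
      (Poly.add (Poly.snd hx) (Poly.const 1))
  · exact Poly.pair (Poly.fst hx') (Poly.add (Poly.snd hx') (Poly.const 33))

theorem poly_conG {G : α → List Con} {s : α → ℕ} (hG : Poly G) (hs : Poly s) (i a' b' : ℕ) :
    Poly (fun a => conG (G a) (s a) i a' b') := by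
  unfold conG rel
  have hc := Poly.snd (Poly.snd (poly_cn hG hs))
  refine Poly.ite (Poly.const _) (Poly.ite (Poly.decide_eq (Poly.mod hs (Poly.const 2))
    (Poly.const 0)) (Poly.getD hc (Poly.const _) (Poly.const _))
    (Poly.getD hc (Poly.const _) (Poly.const _))) (Poly.const _)

theorem poly_ctab {G : α → List Con} {s : α → ℕ} (hG : Poly G) (hs : Poly s) (i : ℕ) :
    Poly (fun a => ctab (G a) (s a) i) := by
  unfold ctab
  exact poly_map_const _ fun z _ => poly_conG hG hs i _ _

theorem poly_endp {G : α → List Con} (hG : Poly G) (l : List ℕ) :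
    ∀ {s : α → ℕ}, Poly s → Poly (fun a => endp (rotG (G a)) (s a) l) := by
  induction l with
  | nil => intro s hs; exact hs
  | cons i l ih =>
    intro s hs
    exact ih (Poly.fst (poly_rotG hG hs (Poly.const i)))

theorem poly_revl {G : α → List Con} (hG : Poly G) (l : List ℕ) :
    ∀ {s : α → ℕ}, Poly s → Poly (fun a => revl (rotG (G a)) (s a) l) := by
  induction l with
  | nil => intro s hs; exact Poly.const []
  | cons i l ih =>
    intro s hs
    exact Poly.append (ih (Poly.fst (poly_rotG hG hs (Poly.const i))))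
      (Poly.cons (Poly.snd (poly_rotG hG hs (Poly.const i))) (Poly.const []))

theorem poly_view {G : α → List Con} (hG : Poly G) (l : List ℕ) {s : α → ℕ} (hs : Poly s) :
    Poly (fun a => view (G a) (s a) l) := by
  unfold view
  refine Poly.pair (Poly.map (F := fun _ e => e % 130) (poly_revl hG l hs)
    (Poly.mod (Poly.snd Poly.id) (Poly.const 130))) ?_
  exact poly_map_const _ fun k _ => poly_ctab hG (poly_endp hG _ hs) _

omit [TEnc α] in
theorem fin_view (l : List ℕ) {G : α → List Con} {s : α → ℕ} :
    (Set.range fun a => view (G a) (s a) l).Finite := by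
  refine (Set.Finite.prod (fin_lists (Set.Iio 130) (Set.finite_Iio 130) l.length)
    (fin_lists {x : List Bool | x.length = 256} (List.finite_length_eq Bool 256) l.length)).subset ?_
  rintro v ⟨a, rfl⟩
  unfold view
  refine ⟨⟨by simp [length_revl], ?_⟩, ⟨by simp, ?_⟩⟩
  · intro x hx
    simp only [List.mem_map] at hx
    obtain ⟨y, _, rfl⟩ := hx
    exact Nat.mod_lt _ (by norm_num)
  · intro x hx
    simp only [List.mem_map] at hx
    obtain ⟨k, _, rfl⟩ := hx
    simp [ctab]

theorem poly_rn (t : ℕ) {a b q : α → ℕ} {c : α → ℕ × ℕ} (ha : Poly a) (hb : Poly b) (hq : Poly q)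
    (hc : Poly c) : Poly (fun z => rn t (a z) (b z) (q z) (c z)) := by
  unfold rn
  have e : ∀ n : ℕ, Poly (fun z => decide ((c z).1 = n)) := fun n =>
    Poly.decide_eq (Poly.fst hc) (Poly.const n)
  exact Poly.ite (e 0) (Poly.mul (Poly.const _) (Poly.add (Poly.mul ha (Poly.const _)) (Poly.snd hc)))
    (Poly.ite (e 1) (Poly.mul (Poly.const _) (Poly.add (Poly.mul hb (Poly.const _)) (Poly.snd hc)))
    (Poly.ite (e 2) (Poly.add (Poly.mul (Poly.const _) (Poly.add (Poly.mul hq (Poly.const _))
      (Poly.snd hc))) (Poly.const _))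
    (Poly.add (Poly.mul (Poly.const _) (Poly.add (Poly.mul hq (Poly.const _)) (Poly.snd hc)))
      (Poly.const _))))

theorem poly_glob (t : ℕ) {a b q : α → ℕ} {c : α → LCon} (ha : Poly a) (hb : Poly b)
    (hq : Poly q) (hc : Poly c) : Poly (fun z => glob t (a z) (b z) (q z) (c z)) := by
  have h1 : Poly (fun z => (c z).1) := Poly.fst hc
  have h2 : Poly (fun z => (c z).2.1) := Poly.fst (Poly.snd hc)
  have h3 : Poly (fun z => (c z).2.2) := Poly.snd (Poly.snd hc)
  exact Poly.pair (poly_rn t ha hb hq h1) (Poly.pair (poly_rn t ha hb hq h2) h3)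

theorem poly_gad (t : ℕ) {G : α → List Con} (hG : Poly G) {s : α → ℕ} (hs : Poly s) (p : ℕ)
    (l : List ℕ) : Poly (fun a => gad t (G a) (s a) p l) := by
  have h1 : Poly (fun a => tests (CV t l (view (G a) (s a) l))) :=
    poly_fin (poly_view hG l hs) (fin_view l) fun v => tests (CV t l v)
  have hb : Poly (fun a => endp (rotG (G a)) (s a) l) := poly_endp hG l hs
  have hq : Poly (fun a => s a * (PL t).length + p) :=
    Poly.add (Poly.mul hs (Poly.const _)) (Poly.const _)
  have f1 : Poly (fun x : α × LCon => x.1) := Poly.fst Poly.id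
  have f2 : Poly (fun x : α × LCon => x.2) := Poly.snd Poly.id
  have g1 : Poly (fun x : α × LCon => s x.1) := hs.comp f1
  have g2 : Poly (fun x : α × LCon => endp (rotG (G x.1)) (s x.1) l) :=
    Poly.comp (g := fun a => endp (rotG (G a)) (s a) l) hb f1
  have g3 : Poly (fun x : α × LCon => s x.1 * (PL t).length + p) :=
    Poly.comp (g := fun a => s a * (PL t).length + p) hq f1
  have h2 : Poly (fun x : α × LCon => glob t (s x.1) (endp (rotG (G x.1)) (s x.1) l)
      (s x.1 * (PL t).length + p) x.2) := poly_glob t g1 g2 g3 f2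
  exact Poly.map (F := fun a (c : LCon) => glob t (s a) (endp (rotG (G a)) (s a) l)
      (s a * (PL t).length + p) c) h1 h2

/-- The constraints for the paths from `s`. -/
noncomputable def gd (t : ℕ) (G : List Con) (s : ℕ) : List Con :=
  (PL t).zipIdx.flatMap fun lp => gad t G s lp.2 lp.1

theorem poly_gd (t : ℕ) {G : α → List Con} {s : α → ℕ} (hG : Poly G) (hs : Poly s) :
    Poly (fun x => gd t (G x) (s x)) :=
  poly_flatMap_const (F := fun x lp => gad t (G x) (s x) lp.2 lp.1) (PL t).zipIdx
    fun lp _ => poly_gad t hG hs lp.2 lp.1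

theorem poly_stp1 (t : ℕ) {G : α → List Con} (h0 : Poly (fun a => List.range (2 * (G a).length)))
    (h1 : Poly (fun x : α × ℕ => gd t (G x.1) x.2)) :
    Poly (fun a => (List.range (2 * (G a).length)).flatMap fun s => gd t (G a) s) :=
  Poly.flatMap h0 h1

theorem poly_stp2 (t : ℕ) {G : α → List Con}
    (h : Poly (fun a => (List.range (2 * (G a).length)).flatMap fun s => gd t (G a) s)) :
    Poly (fun a => stp t (G a)) := h

theorem poly_stp (t : ℕ) {G : α → List Con} (hG : Poly G) : Poly (fun a => stp t (G a)) := by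
  have f1 : Poly (fun x : α × ℕ => G x.1) := hG.comp (Poly.fst Poly.id)
  have f2 : Poly (fun x : α × ℕ => x.2) := Poly.snd Poly.id
  exact poly_stp2 t (poly_stp1 t (upoly_2len hG).range (poly_gd t f1 f2))

/-! ### Decoding -/

/-- The value of a variable, from the list of the values of the slots. -/
noncomputable def asg (G : List Con) (L : List ℕ) (x : ℕ) : ℕ := L.getD ((cl G x).head?.getD 0) 0

/-- The decoded list. -/
noncomputable def decL (t : ℕ) (G : List Con) (L : List ℕ) : List ℕ :=
  (List.range (2 * G.length)).map fun s => dcG t G (asg (stp t G) L) (nm G s)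

theorem asg_decL (t : ℕ) (G : List Con) (L : List ℕ) {s : ℕ} (hs : s < 2 * G.length) :
    asg G (decL t G L) (nm G s) = dcG t G (asg (stp t G) L) (nm G s) := by
  unfold asg
  have hm : s ∈ cl G (nm G s) := mem_cl.2 ⟨hs, rfl⟩
  cases hh : (cl G (nm G s)).head? with
  | none =>
    rw [List.head?_eq_none_iff] at hh
    rw [hh] at hm
    simp at hm
  | some s' =>
    have h1 := mem_cl.1 (List.mem_of_head? hh)
    rw [Option.getD_some]
    unfold decL
    rw [List.getD_eq_getElem?_getD, List.getElem?_map, List.getElem?_range h1.1]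
    simp only [Option.map_some, Option.getD_some]
    rw [h1.2]
    rfl

theorem viol_congr {G : List Con} {τ τ' : ℕ → ℕ} (h : ∀ s < 2 * G.length, τ (nm G s) = τ' (nm G s)) :
    viol G τ = viol G τ' := by
  unfold viol
  refine List.countP_congr fun c hc => ?_
  obtain ⟨j, hj, rfl⟩ := List.mem_iff_getElem.1 hc
  have e0 : ∀ s, s / 2 = j → cn G s = G[j] := by
    intro s hs
    unfold cn
    rw [hs, List.getD_eq_getElem?_getD, List.getElem?_eq_getElem hj]; rfl
  have e1 : nm G (2 * j) = G[j].1 := by
    unfold nm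
    rw [if_pos (by omega), e0 _ (by omega)]
  have e2 : nm G (2 * j + 1) = G[j].2.1 := by
    unfold nm
    rw [if_neg (by omega), e0 _ (by omega)]
  have h1 := h (2 * j) (by omega)
  have h2 := h (2 * j + 1) (by omega)
  rw [e1] at h1
  rw [e2] at h2
  unfold sat
  rw [h1, h2]

theorem viol_decL (t : ℕ) (G : List Con) (L : List ℕ) :
    viol G (asg G (decL t G L)) = viol G (dcG t G (asg (stp t G) L)) :=
  viol_congr fun _ hs => asg_decL t G L hs

theorem poly_asg {G : α → List Con} {L : α → List ℕ} {x : α → ℕ} (hG : Poly G) (hL : Poly L)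
    (hx : Poly x) : Poly (fun a => asg (G a) (L a) (x a)) := by
  unfold asg
  exact Poly.getD hL (poly_optGetD (Poly.head? (poly_cl hG hx)) (Poly.const 0)) (Poly.const 0)

/-- Labels cut off. -/
def cap (l : List ℕ) : List ℕ := l.map fun e => Min.min e 130

theorem sym_cap {t : ℕ} (α : St t) (l : List ℕ) : sym α (cap l) = sym α l := by
  by_cases h : ∀ i ∈ l, i < 130
  · have : cap l = l := by
      unfold cap
      conv_rhs => rw [← List.map_id l]
      refine List.map_congr_left fun i hi => ?_
      exact Nat.min_eq_left (h i hi).le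
    rw [this]
  · have h1 : l ∉ Us t := fun hc => h (mem_Us.1 hc).2
    have h2 : cap l ∉ Us t := by
      intro hc
      push Not at h
      obtain ⟨i, hi, hi'⟩ := h
      have := (mem_Us.1 hc).2 (Min.min i 130) (List.mem_map_of_mem (f := fun e => Min.min e 130) hi)
      rw [Nat.min_eq_right hi'] at this
      omega
    unfold sym
    rw [dif_neg h1, dif_neg h2]

/-- The table as a list. -/
noncomputable def tabL (t : ℕ) (G : List Con) (L : List ℕ) (a : ℕ) : List Bool :=
  (List.range (Fintype.card (St t))).map fun i =>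
    decide (asg G L (3 * (a * Fintype.card (St t) + i)) % 16 % 2 = 1)

/-- The opinion from the table. -/
noncomputable def opT (t : ℕ) (z : List Bool × List ℕ) : ℕ :=
  sym (t := t) (dcA fun s => z.1.getD (idx s) false) z.2

theorem opn_eq (t : ℕ) (G : List Con) (L : List ℕ) (a : ℕ) (l : List ℕ) :
    opn t (asg G L) a l = opT t (tabL t G L a, cap l) := by
  unfold opn opT
  rw [sym_cap]
  congr 2
  funext s
  unfold tabL tA
  rw [List.getD_eq_getElem?_getD, List.getElem?_map, List.getElem?_range (idx_lt s)]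
  rfl

theorem poly_tabL (t : ℕ) {G : α → List Con} {L : α → List ℕ} {x : α → ℕ} (hG : Poly G)
    (hL : Poly L) (hx : Poly x) : Poly (fun a => tabL t (G a) (L a) (x a)) := by
  unfold tabL
  refine poly_map_const _ fun i _ => ?_
  have h1 : Poly (fun a => 3 * (x a * Fintype.card (St t) + i)) :=
    Poly.mul (Poly.const _) (Poly.add (Poly.mul hx (Poly.const _)) (Poly.const _))
  exact Poly.decide_eq (Poly.mod (Poly.mod (poly_asg hG hL h1) (Poly.const 16)) (Poly.const 2))
    (Poly.const 1)

theorem poly_opn (t n : ℕ) {G : α → List Con} {L : α → List ℕ} {x : α → ℕ} {l : α → List ℕ}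
    (hG : Poly G) (hL : Poly L) (hx : Poly x) (hl : Poly l) (hn : ∀ a, (l a).length = n) :
    Poly (fun a => opn t (asg (G a) (L a)) (x a) (l a)) := by
  have h0 : Poly (fun a => cap (l a)) :=
    Poly.map (F := fun _ e => Min.min e 130) hl (Poly.min (Poly.snd Poly.id) (Poly.const 130))
  have h1 : Poly (fun a => (tabL t (G a) (L a) (x a), cap (l a))) :=
    Poly.pair (poly_tabL t hG hL hx) h0
  have h2 : (Set.range fun a => (tabL t (G a) (L a) (x a), cap (l a))).Finite := by
    refine (Set.Finite.prod (List.finite_length_eq Bool (Fintype.card (St t)))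
      (fin_lists (Set.Iic 130) (Set.finite_Iic 130) n)).subset ?_
    rintro v ⟨a, rfl⟩
    refine ⟨by simp [tabL], by simp [cap, hn], ?_⟩
    intro e he
    simp only [cap, List.mem_map] at he
    obtain ⟨e', _, rfl⟩ := he
    exact Nat.min_le_right _ _
  refine (poly_fin h1 h2 (opT t)).congr fun a => ?_
  rw [opn_eq]

theorem poly_vote (t : ℕ) {G G' : α → List Con} {L : α → List ℕ} {u : α → ℕ}
    (hG : Poly G) (hG' : Poly G') (hL : Poly L) (hu : Poly u) (c : ℕ) :
    Poly (fun a => vote t (G a) (asg (G' a) (L a)) (u a) c) := by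
  unfold vote
  refine poly_countP_const (VL t) fun l _ => ?_
  exact Poly.decide_eq (poly_opn t l.length hG' hL (poly_endp hG l hu) (poly_revl hG l hu)
    fun a => by rw [length_revl]) (Poly.const c)

theorem amax_congr {n : ℕ} {g g' : ℕ → ℕ} (h : ∀ c < n, g c = g' c) : amax n g = amax n g' := by
  have key : ∀ k ≤ n, amax k g = amax k g' ∧ (1 ≤ k → amax k g < k) := by
    intro k
    induction k with
    | zero => intro _; exact ⟨by simp [amax], by omega⟩
    | succ k ih =>
      intro hk
      obtain ⟨h1, h2⟩ := ih (by omega)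
      have e : ∀ g : ℕ → ℕ, amax (k + 1) g = if g (amax k g) < g k then k else amax k g := by
        intro g
        unfold amax
        rw [List.range_succ, List.foldl_append]
        rfl
      refine ⟨?_, fun _ => (amax_spec g (k + 1)).1 (by omega)⟩
      rw [e, e, ← h1, h k (by omega)]
      rcases Nat.eq_zero_or_pos k with h3 | h3
      · subst h3
        simp [amax]
      · rw [h (amax k g) (by have := h2 h3; omega)]
  exact (key n le_rfl).1

theorem poly_amax {g : α → ℕ → ℕ} (hg : ∀ c, Poly (fun a => g a c)) :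
    Poly (fun a => amax 16 (g a)) := by
  have h1 : Poly (fun a => (List.range 16).map (g a)) := poly_map_const _ fun c _ => hg c
  have h2 : Poly (fun a => amax 16 fun c => ((List.range 16).map (g a)).getD c 0) := by
    unfold amax
    refine poly_foldl_const (F := fun a b c => if ((List.range 16).map (g a)).getD b 0 <
      ((List.range 16).map (g a)).getD c 0 then c else b) _ (fun c _ => ?_) (Poly.const 0)
    have h3 : Poly (fun p : α × ℕ => (List.range 16).map (g p.1)) := h1.comp (Poly.fst Poly.id)
    exact Poly.ite (Poly.decide_lt (Poly.getD h3 (Poly.snd Poly.id) (Poly.const 0))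
      (Poly.getD h3 (Poly.const c) (Poly.const 0))) (Poly.const c) (Poly.snd Poly.id)
  refine h2.congr fun a => amax_congr fun c hc => ?_
  rw [List.getD_eq_getElem?_getD, List.getElem?_map, List.getElem?_range hc]
  rfl

theorem poly_rho (t : ℕ) {G G' : α → List Con} {L : α → List ℕ} {u : α → ℕ}
    (hG : Poly G) (hG' : Poly G') (hL : Poly L) (hu : Poly u) :
    Poly (fun a => rho t (G a) (asg (G' a) (L a)) (u a)) := by
  unfold rho
  exact poly_amax fun c => poly_vote t hG hG' hL hu c

theorem poly_plu {G : α → List Con} {ρ : α → ℕ → ℕ} {x : α → ℕ} (hG : Poly G)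
    (hρ : Poly (fun p : α × ℕ => ρ p.1 p.2)) (hx : Poly x) :
    Poly (fun a => plu (G a) (ρ a) (x a)) := by
  unfold plu
  refine poly_amax fun c => ?_
  exact poly_countP (p := fun a s => decide (ρ a s = c)) (poly_cl hG hx)
    (Poly.decide_eq hρ (Poly.const c))

theorem poly_decL (t : ℕ) {G : α → List Con} {L : α → List ℕ} (hG : Poly G) (hL : Poly L) :
    Poly (fun a => decL t (G a) (L a)) := by
  have f1 : Poly (fun x : α × ℕ => G x.1) := hG.comp (Poly.fst Poly.id)
  have f2 : Poly (fun x : α × ℕ => x.2) := Poly.snd Poly.id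
  have f3 : Poly (fun x : α × ℕ => L x.1) := hL.comp (Poly.fst Poly.id)
  have f4 : Poly (fun x : α × ℕ => stp t (G x.1)) := poly_stp t f1
  have k1 : Poly (fun y : (α × ℕ) × ℕ => G y.1.1) := f1.comp (Poly.fst Poly.id)
  have k3 : Poly (fun y : (α × ℕ) × ℕ => L y.1.1) := f3.comp (Poly.fst Poly.id)
  have k4 : Poly (fun y : (α × ℕ) × ℕ => stp t (G y.1.1)) := f4.comp (Poly.fst Poly.id)
  have k5 : Poly (fun y : (α × ℕ) × ℕ => y.2) := Poly.snd Poly.id
  have h1 : Poly (fun y : (α × ℕ) × ℕ => rho t (G y.1.1) (asg (stp t (G y.1.1)) (L y.1.1)) y.2) :=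
    poly_rho t k1 k4 k3 k5
  have h2 : Poly (fun x : α × ℕ => plu (G x.1) (rho t (G x.1) (asg (stp t (G x.1)) (L x.1)))
      (nm (G x.1) x.2)) :=
    poly_plu (ρ := fun x : α × ℕ => rho t (G x.1) (asg (stp t (G x.1)) (L x.1))) f1 h1
      (poly_nm f1 f2)
  exact Poly.map (F := fun a s => plu (G a) (rho t (G a) (asg (stp t (G a)) (L a))) (nm (G a) s))
    (upoly_2len hG).range h2

end Pool.Agent.NPC.DP
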