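import Pool.Agent.H243R3.PCP.Walk

/-!
# Gap amplification by powering: the second moment
-/

namespace Pool.Agent.H243R3.PCP

open Finset

variable {N d : ℕ} {rot : ℕ → ℕ → ℕ × ℕ}

/-- Indicator of a set of labelled edges. -/
def Fi (F : Finset (ℕ × ℕ)) (u e : ℕ) : ℝ := if (u, e) ∈ F then 1 else 0

theorem Fi_nonneg (F : Finset (ℕ × ℕ)) (u e : ℕ) : 0 ≤ Fi F u e := by
  unfold Fi; split_ifs <;> norm_num

theorem Fi_sq (F : Finset (ℕ × ℕ)) (u e : ℕ) : Fi F u e ^ 2 = Fi F u e := by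
  unfold Fi; split_ifs <;> norm_num

/-- The number of steps in `F` of a walk. -/
def Xc (rot : ℕ → ℕ → ℕ × ℕ) (F : Finset (ℕ × ℕ)) : ℕ → List ℕ → ℝ
  | _, [] => 0
  | a, e :: l => Fi F a e + Xc rot F (rot a e).1 l

theorem Xc_nonneg (F : Finset (ℕ × ℕ)) : ∀ (l : List ℕ) (a : ℕ), 0 ≤ Xc rot F a l := by
  intro l
  induction l with
  | nil => intro a; exact le_rfl
  | cons e l ih => intro a; exact add_nonneg (Fi_nonneg _ _ _) (ih _)

/-- Edges of `F` out of a vertex and into a vertex. -/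
noncomputable def outF (F : Finset (ℕ × ℕ)) (d v : ℕ) : ℝ := ∑ e ∈ range d, Fi F v e
noncomputable def inF (rot : ℕ → ℕ → ℕ × ℕ) (F : Finset (ℕ × ℕ)) (d v : ℕ) : ℝ :=
  ∑ i ∈ range d, Fi F (rot v i).1 (rot v i).2

theorem card_F (F : Finset (ℕ × ℕ)) (hF : F ⊆ range N ×ˢ range d) :
    ∑ v ∈ range N, ∑ e ∈ range d, Fi F v e = F.card := by
  rw [← sum_product']
  unfold Fi
  rw [sum_ite_mem, inter_eq_right.2 hF]
  simp

theorem IsRot.sum_in (h : IsRot N d rot) (F : Finset (ℕ × ℕ)) (g : ℕ → ℝ) :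
    ∑ v ∈ range N, ∑ e ∈ range d, Fi F v e * g (rot v e).1 =
      ∑ v ∈ range N, inF rot F d v * g v := by
  have h1 := h.sum fun w j => Fi F (rot w j).1 (rot w j).2 * g w
  have h2 : ∑ v ∈ range N, ∑ e ∈ range d, Fi F v e * g (rot v e).1 =
      ∑ v ∈ range N, ∑ i ∈ range d, Fi F (rot (rot v i).1 (rot v i).2).1
        (rot (rot v i).1 (rot v i).2).2 * g (rot v i).1 := by
    refine sum_congr rfl fun v hv => sum_congr rfl fun i hi => ?_
    rw [h.inv v (mem_range.1 hv) i (mem_range.1 hi)]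
  rw [h2, h1]
  refine sum_congr rfl fun v _ => ?_
  unfold inF
  rw [sum_mul]

theorem IsRot.sum_inF (h : IsRot N d rot) (F : Finset (ℕ × ℕ)) (hF : F ⊆ range N ×ˢ range d) :
    ∑ v ∈ range N, inF rot F d v = F.card := by
  have := h.sum_in F fun _ => 1
  simp only [mul_one] at this
  rw [← this, card_F F hF]

/-- First and second moments. -/
noncomputable def m1 (rot : ℕ → ℕ → ℕ × ℕ) (F : Finset (ℕ × ℕ)) (d L v : ℕ) : ℝ :=
  ∑ l ∈ T d L, Xc rot F v l
noncomputable def m2 (rot : ℕ → ℕ → ℕ × ℕ) (F : Finset (ℕ × ℕ)) (d L v : ℕ) : ℝ :=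
  ∑ l ∈ T d L, Xc rot F v l ^ 2

theorem m1_eq (F : Finset (ℕ × ℕ)) (L : ℕ) : ∀ v, m1 rot F d L v =
    ∑ g ∈ range L, (d : ℝ) ^ (L - 1 - g) * adjn rot d (outF F d) g v := by
  induction L with
  | zero => intro v; simp [m1, T, Xc]
  | succ L ih =>
    intro v
    unfold m1
    rw [sum_T_succ]
    have e1 : ∀ i ∈ range d, ∑ l ∈ T d L, Xc rot F v (i :: l) =
        (d : ℝ) ^ L * Fi F v i + m1 rot F d L (rot v i).1 := by
      intro i _
      simp only [Xc, sum_add_distrib, sum_T_const]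
      rfl
    rw [sum_congr rfl e1, sum_add_distrib, ← mul_sum, sum_range_succ']
    have e2 : ∀ g ∈ range L, (d : ℝ) ^ (L + 1 - 1 - (g + 1)) * adjn rot d (outF F d) (g + 1) v =
        ∑ i ∈ range d, (d : ℝ) ^ (L - 1 - g) * adjn rot d (outF F d) g (rot v i).1 := by
      intro g _
      rw [adjn_succ, adj, ← mul_sum]
      congr 2
      omega
    rw [sum_congr rfl e2, sum_comm]
    simp only [← ih]
    simp [adjn, outF]
    ring

theorem m2_succ (F : Finset (ℕ × ℕ)) (L v : ℕ) : m2 rot F d (L + 1) v =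
    ∑ i ∈ range d, ((d : ℝ) ^ L * Fi F v i + 2 * (Fi F v i * m1 rot F d L (rot v i).1) +
      m2 rot F d L (rot v i).1) := by
  unfold m2
  rw [sum_T_succ]
  refine sum_congr rfl fun i _ => ?_
  have : ∀ l ∈ T d L, Xc rot F v (i :: l) ^ 2 = Fi F v i + 2 * (Fi F v i * Xc rot F (rot v i).1 l) +
      Xc rot F (rot v i).1 l ^ 2 := by
    intro l _
    simp only [Xc]
    have := Fi_sq F v i
    nlinarith
  rw [sum_congr rfl this, sum_add_distrib, sum_add_distrib, sum_T_const, ← mul_sum, ← mul_sum]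
  rfl

variable {d₀ : ℕ} {K : ℝ}

theorem IsExp.m1_le (h : IsExp N d₀ K rot) (hd : 1 ≤ d₀) (hN : 1 ≤ N) (hl : 0 ≤ lam d₀ K)
    (F : Finset (ℕ × ℕ)) (hF : F ⊆ range N ×ˢ range (2 * d₀)) (L : ℕ) :
    (2 * d₀ : ℝ) * ∑ v ∈ range N, inF rot F (2 * d₀) v * m1 rot F (2 * d₀) L v ≤
      (2 * d₀ : ℝ) ^ L * (L * ((F.card : ℝ) ^ 2 / N) + (2 * d₀) * F.card * (8 * d₀ * K)) := by
  have hd' : (1 : ℝ) ≤ d₀ := by exact_mod_cast hd
  have hK := h.pos
  have hcast : (((2 * d₀ : ℕ) : ℝ)) = 2 * d₀ := by push_cast; ring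
  -- bounds for in and out
  have hFi1 : ∀ u e, Fi F u e ≤ 1 := by intro u e; unfold Fi; split_ifs <;> norm_num
  have hin : ∀ v, 0 ≤ inF rot F (2 * d₀) v ∧ inF rot F (2 * d₀) v ≤ 2 * d₀ := by
    intro v
    refine ⟨sum_nonneg fun _ _ => Fi_nonneg _ _ _, ?_⟩
    refine (sum_le_sum (g := fun _ => (1 : ℝ)) fun i _ => hFi1 _ _).trans ?_
    simp
  have hout : ∀ v, 0 ≤ outF F (2 * d₀) v ∧ outF F (2 * d₀) v ≤ 2 * d₀ := by
    intro v
    refine ⟨sum_nonneg fun _ _ => Fi_nonneg _ _ _, ?_⟩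
    refine (sum_le_sum (g := fun _ => (1 : ℝ)) fun i _ => hFi1 _ _).trans ?_
    simp
  have sin := h.isrot.sum_inF F hF
  have sout : ∑ v ∈ range N, outF F (2 * d₀) v = F.card := card_F F hF
  have hx : ∑ v ∈ range N, inF rot F (2 * d₀) v ^ 2 ≤ 2 * d₀ * F.card := by
    rw [← sin, mul_sum]
    refine sum_le_sum fun v _ => ?_
    have := hin v
    nlinarith
  have hy : ∑ v ∈ range N, outF F (2 * d₀) v ^ 2 ≤ 2 * d₀ * F.card := by
    rw [← sout, mul_sum]
    refine sum_le_sum fun v _ => ?_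
    have := hout v
    nlinarith
  have hmix := fun g => h.mixing hd hN hl (inF rot F (2 * d₀)) (outF F (2 * d₀)) _ hx hy g
  simp only [sin, sout] at hmix
  have e1 : ∑ v ∈ range N, inF rot F (2 * d₀) v * m1 rot F (2 * d₀) L v =
      ∑ g ∈ range L, (2 * d₀ : ℝ) ^ (L - 1 - g) *
        ∑ v ∈ range N, inF rot F (2 * d₀) v * adjn rot (2 * d₀) (outF F (2 * d₀)) g v := by
    simp only [m1_eq, mul_sum, hcast]
    rw [sum_comm]
    refine sum_congr rfl fun g _ => sum_congr rfl fun v _ => by ring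
  rw [e1, mul_sum]
  have e2 : ∀ g ∈ range L, (2 * d₀ : ℝ) * ((2 * d₀ : ℝ) ^ (L - 1 - g) *
        ∑ v ∈ range N, inF rot F (2 * d₀) v * adjn rot (2 * d₀) (outF F (2 * d₀)) g v) ≤
      (2 * d₀ : ℝ) ^ L * ((F.card : ℝ) ^ 2 / N + lam d₀ K ^ g * (2 * d₀ * F.card)) := by
    intro g hg
    rw [mem_range] at hg
    have h1 : (2 * d₀ : ℝ) ^ L = 2 * d₀ * ((2 * d₀ : ℝ) ^ (L - 1 - g) * (2 * d₀ : ℝ) ^ g) := by
      rw [← pow_add, ← pow_succ']
      congr 1
      omega
    rw [h1]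
    have h2 : (0 : ℝ) ≤ (2 * d₀ : ℝ) ^ (L - 1 - g) := by positivity
    have := mul_le_mul_of_nonneg_left (hmix g) h2
    have h3 := mul_le_mul_of_nonneg_left this (by positivity : (0 : ℝ) ≤ 2 * (d₀ : ℝ))
    refine le_trans (le_of_eq ?_) (h3.trans (le_of_eq ?_))
    · ring
    · ring
  refine (sum_le_sum e2).trans ?_
  rw [← mul_sum, sum_add_distrib, sum_const, card_range, nsmul_eq_mul, ← sum_mul]
  have hgeo : ∑ g ∈ range L, lam d₀ K ^ g ≤ 8 * d₀ * K := by
    have h1 : 1 - lam d₀ K = 1 / (8 * d₀ * K) := by unfold lam; ring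
    have h2 : (1 - lam d₀ K) * ∑ g ∈ range L, lam d₀ K ^ g = 1 - lam d₀ K ^ L :=
      mul_neg_geom_sum _ _
    have h3 : 0 ≤ lam d₀ K ^ L := pow_nonneg hl _
    have h4 : 0 < 8 * d₀ * K := by positivity
    rw [h1, div_mul_eq_mul_div, one_mul, div_eq_iff h4.ne'] at h2
    nlinarith
  refine mul_le_mul_of_nonneg_left ?_ (by positivity)
  have h5 : (0 : ℝ) ≤ 2 * d₀ * F.card := by positivity
  have := mul_le_mul_of_nonneg_right hgeo h5
  linarith

theorem IsExp.m2_le (h : IsExp N d₀ K rot) (hd : 1 ≤ d₀) (hN : 1 ≤ N) (hl : 0 ≤ lam d₀ K)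
    (F : Finset (ℕ × ℕ)) (hF : F ⊆ range N ×ˢ range (2 * d₀)) (L : ℕ) :
    (2 * d₀ : ℝ) * ∑ v ∈ range N, m2 rot F (2 * d₀) L v ≤
      (2 * d₀ : ℝ) ^ L * (L * F.card * (1 + 2 * (8 * d₀ * K)) +
        (L : ℝ) ^ 2 * ((F.card : ℝ) ^ 2 / (2 * d₀ * N))) := by
  have hd' : (1 : ℝ) ≤ d₀ := by exact_mod_cast hd
  have hK := h.pos
  have hN' : (1 : ℝ) ≤ N := by exact_mod_cast hN
  have hcast : (((2 * d₀ : ℕ) : ℝ)) = 2 * d₀ := by push_cast; ring
  induction L with
  | zero => simp [m2, T, Xc]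
  | succ L ih =>
    have e1 : ∑ v ∈ range N, m2 rot F (2 * d₀) (L + 1) v = (2 * d₀ : ℝ) ^ L * F.card +
        2 * ∑ v ∈ range N, inF rot F (2 * d₀) v * m1 rot F (2 * d₀) L v +
        2 * d₀ * ∑ v ∈ range N, m2 rot F (2 * d₀) L v := by
      simp only [m2_succ, sum_add_distrib, ← mul_sum]
      rw [card_F F hF, h.isrot.sum_in F (m1 rot F (2 * d₀) L),
        h.isrot.sum fun v _ => m2 rot F (2 * d₀) L v, hcast]
      congr 1
      rw [mul_sum]
      refine sum_congr rfl fun v _ => ?_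
      rw [sum_const, card_range, nsmul_eq_mul, hcast]
    have h1 := h.m1_le hd hN hl F hF L
    rw [e1]
    set f : ℝ := (F.card : ℝ)
    set D : ℝ := 2 * d₀ with hD
    set Λ : ℝ := 8 * d₀ * K
    have hDpos : 0 < D := by positivity
    have hf : 0 ≤ f := Nat.cast_nonneg _
    have hΛ : 0 ≤ Λ := by positivity
    have hq : 0 ≤ f ^ 2 / (D * N) := by positivity
    have h2 : D * (D ^ L * f + 2 * ∑ v ∈ range N, inF rot F (2 * d₀) v * m1 rot F (2 * d₀) L v +
        D * ∑ v ∈ range N, m2 rot F (2 * d₀) L v) ≤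
        D ^ (L + 1) * f + 2 * (D ^ L * (L * (f ^ 2 / N) + D * f * Λ)) +
        D * (D ^ L * (L * f * (1 + 2 * Λ) + (L : ℝ) ^ 2 * (f ^ 2 / (D * N)))) := by
      have := mul_le_mul_of_nonneg_left ih hDpos.le
      rw [pow_succ]
      linarith
    refine h2.trans ?_
    have h3 : D ^ (L + 1) * f + 2 * (D ^ L * (L * (f ^ 2 / N) + D * f * Λ)) +
        D * (D ^ L * (L * f * (1 + 2 * Λ) + (L : ℝ) ^ 2 * (f ^ 2 / (D * N)))) =
        D ^ (L + 1) * ((L + 1) * f * (1 + 2 * Λ) + ((L : ℝ) ^ 2 + 2 * L) * (f ^ 2 / (D * N))) := by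
      have hN0 : (N : ℝ) ≠ 0 := by linarith
      field_simp
      ring
    rw [h3]
    refine mul_le_mul_of_nonneg_left ?_ (by positivity)
    push_cast
    nlinarith

/-! ### Opinions -/

section Opinion

variable (rot) (op : ℕ → List ℕ → ℕ) (sg : ℕ → ℕ)

/-- The number of walks from `u` whose end has the opinion `σ u` about `u`. -/
noncomputable def cI (d i u : ℕ) : ℝ :=
  ∑ l ∈ T d i, if op (endp rot u l) (revl rot u l) = sg u then 1 else 0

/-- A good step of a walk. -/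
def Good (F : Finset (ℕ × ℕ)) (t a : ℕ) (l1 : List ℕ) (e : ℕ) (l2 : List ℕ) : Prop :=
  l1.length < t ∧ l2.length < t ∧ (endp rot a l1, e) ∈ F ∧ op a l1 = sg (endp rot a l1) ∧
    op (endp rot (rot (endp rot a l1) e).1 l2) (revl rot (rot (endp rot a l1) e).1 l2) =
      sg (rot (endp rot a l1) e).1

instance (F : Finset (ℕ × ℕ)) (t a : ℕ) (l1 : List ℕ) (e : ℕ) (l2 : List ℕ) :
    Decidable (Good rot op sg F t a l1 e l2) := by unfold Good; infer_instance

/-- The number of good steps. -/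
noncomputable def Xg (F : Finset (ℕ × ℕ)) (t a : ℕ) (l : List ℕ) : ℝ :=
  ∑ k ∈ range l.length,
    if Good rot op sg F t a (l.take k) (l.getD k 0) (l.drop (k + 1)) then 1 else 0

end Opinion

variable {op : ℕ → List ℕ → ℕ} {sg : ℕ → ℕ}

theorem endp_revl (h : IsRot N d rot) : ∀ (l : List ℕ) (v : ℕ), v < N → (∀ i ∈ l, i < d) →
    endp rot (endp rot v l) (revl rot v l) = v := by
  intro l
  induction l with
  | nil => intro v _ _; rfl
  | cons i l ih =>
    intro v hv hl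
    simp only [endp, revl]
    rw [endp_append, ih _ (h.lt1 v hv i (hl i List.mem_cons_self)) fun j hj =>
      hl j (List.mem_cons_of_mem _ hj)]
    simp only [endp]
    rw [h.inv v hv i (hl i List.mem_cons_self)]

theorem Xc_eq (F : Finset (ℕ × ℕ)) : ∀ (l : List ℕ) (a : ℕ),
    Xc rot F a l = ∑ k ∈ range l.length, Fi F (endp rot a (l.take k)) (l.getD k 0) := by
  intro l
  induction l with
  | nil => intro a; simp [Xc]
  | cons e l ih =>
    intro a
    rw [List.length_cons, sum_range_succ']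
    simp only [List.take_succ_cons, endp, List.getD_cons_succ, List.take_zero,
      List.getD_cons_zero, Xc, ih]
    ring

theorem Xg_le (F : Finset (ℕ × ℕ)) (t a : ℕ) (l : List ℕ) :
    0 ≤ Xg rot op sg F t a l ∧ Xg rot op sg F t a l ≤ Xc rot F a l := by
  constructor
  · refine sum_nonneg fun k _ => ?_
    split_ifs <;> norm_num
  · rw [Xc_eq]
    refine sum_le_sum fun k _ => ?_
    split_ifs with h
    · unfold Fi
      rw [if_pos h.2.2.1]
    · exact Fi_nonneg _ _ _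

/-- The first moment, for a fixed position. -/
theorem first_moment (h : IsRot N d rot) (F : Finset (ℕ × ℕ)) (t i j : ℕ) (hi : i < t) (hj : j < t) :
    ∑ a ∈ range N, ∑ l ∈ T d (i + (j + 1)),
      (if Good rot op sg F t a (l.take i) (l.getD i 0) (l.drop (i + 1)) then (1 : ℝ) else 0) =
    ∑ u ∈ range N, ∑ e ∈ range d, Fi F u e * (cI rot op sg d i u * cI rot op sg d j (rot u e).1) := by
  have e1 : ∀ a, ∑ l ∈ T d (i + (j + 1)),
      (if Good rot op sg F t a (l.take i) (l.getD i 0) (l.drop (i + 1)) then (1 : ℝ) else 0) =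
      ∑ l ∈ T d i, (if op a l = sg (endp rot a l) then (1 : ℝ) else 0) *
        ∑ e ∈ range d, Fi F (endp rot a l) e * cI rot op sg d j (rot (endp rot a l) e).1 := by
    intro a
    rw [sum_T_append]
    refine sum_congr rfl fun l1 hl1 => ?_
    rw [sum_T_succ, mul_sum]
    refine sum_congr rfl fun e _ => ?_
    unfold cI
    rw [mul_sum, mul_sum]
    refine sum_congr rfl fun l2 hl2 => ?_
    have n1 := (mem_T.1 hl1).1
    have n2 := (mem_T.1 hl2).1
    have t1 : (l1 ++ e :: l2).take i = l1 := by rw [← n1, List.take_left']; rfl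
    have t2 : (l1 ++ e :: l2).getD i 0 = e := by
      rw [List.getD_append_right _ _ _ _ (by omega), n1]
      simp
    have t3 : (l1 ++ e :: l2).drop (i + 1) = l2 := by
      rw [← n1, List.drop_append]
      simp
    rw [t1, t2, t3]
    unfold Good Fi
    have c1 : l1.length < t := by omega
    have c2 : l2.length < t := by omega
    by_cases h1 : (endp rot a l1, e) ∈ F <;> by_cases h2 : op a l1 = sg (endp rot a l1) <;>
      by_cases h3 : op (endp rot (rot (endp rot a l1) e).1 l2)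
        (revl rot (rot (endp rot a l1) e).1 l2) = sg (rot (endp rot a l1) e).1 <;>
      simp [h1, h2, h3, c1, c2]
  simp only [e1]
  rw [← h.sum_rev i fun a l => (if op a l = sg (endp rot a l) then (1 : ℝ) else 0) *
        ∑ e ∈ range d, Fi F (endp rot a l) e * cI rot op sg d j (rot (endp rot a l) e).1]
  refine sum_congr rfl fun u hu => ?_
  have e2 : ∀ l ∈ T d i, (if op (endp rot u l) (revl rot u l) =
      sg (endp rot (endp rot u l) (revl rot u l)) then (1 : ℝ) else 0) *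
      ∑ e ∈ range d, Fi F (endp rot (endp rot u l) (revl rot u l)) e *
        cI rot op sg d j (rot (endp rot (endp rot u l) (revl rot u l)) e).1 =
      (if op (endp rot u l) (revl rot u l) = sg u then (1 : ℝ) else 0) *
      ∑ e ∈ range d, Fi F u e * cI rot op sg d j (rot u e).1 := by
    intro l hl
    rw [endp_revl h l u (mem_range.1 hu) (mem_T.1 hl).2]
  rw [sum_congr rfl e2, ← sum_mul]
  change cI rot op sg d i u * _ = _
  rw [mul_sum]
  exact sum_congr rfl fun e _ => by ring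

theorem swap4 (A B C E : Finset ℕ) (G : ℕ → ℕ → ℕ → ℕ → ℝ) :
    ∑ i ∈ A, ∑ j ∈ B, ∑ u ∈ C, ∑ e ∈ E, G i j u e = ∑ u ∈ C, ∑ e ∈ E, ∑ i ∈ A, ∑ j ∈ B, G i j u e := by
  have h1 : ∀ i ∈ A, ∑ j ∈ B, ∑ u ∈ C, ∑ e ∈ E, G i j u e =
      ∑ u ∈ C, ∑ e ∈ E, ∑ j ∈ B, G i j u e := by
    intro i _
    rw [sum_comm]
    refine sum_congr rfl fun u _ => ?_
    rw [sum_comm]
  rw [sum_congr rfl h1, sum_comm]
  refine sum_congr rfl fun u _ => ?_
  rw [sum_comm]

/-- **Gap amplification**: many walks have a good step. -/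
theorem IsExp.powering (h : IsExp N d₀ K rot) (hd : 1 ≤ d₀) (hN : 1 ≤ N) (hl : 0 ≤ lam d₀ K)
    (F : Finset (ℕ × ℕ)) (hF : F ⊆ range N ×ˢ range (2 * d₀)) (t q : ℕ) (ht : 1 ≤ t) (hq : 1 ≤ q)
    (hFt : F.card * t ≤ N * (2 * d₀))
    (hplu : ∀ u < N, (t : ℝ) * (2 * d₀ : ℝ) ^ (t - 1) ≤
      q * ∑ i ∈ range t, (2 * d₀ : ℝ) ^ (t - 1 - i) * cI rot op sg (2 * d₀) i u)
    (Bad : ℕ → List ℕ → Prop) [∀ a l, Decidable (Bad a l)]
    (hBad : ∀ a < N, ∀ l1 e l2, (∀ i ∈ l1 ++ e :: l2, i < 2 * d₀) →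
      Good rot op sg F t a l1 e l2 → Bad a (l1 ++ e :: l2)) :
    (F.card : ℝ) * t ^ 2 * (2 * d₀ : ℝ) ^ (2 * t - 2) ≤ q ^ 4 * (12 + 8 * (8 * d₀ * K)) *
      ∑ n ∈ range (2 * t - 1), ∑ a ∈ range N, ∑ l ∈ T (2 * d₀) (2 * t - 1),
        if Bad a (l.take (n + 1)) then 1 else 0 := by
  have hd' : (1 : ℝ) ≤ d₀ := by exact_mod_cast hd
  have hK := h.pos
  have hN' : (1 : ℝ) ≤ N := by exact_mod_cast hN
  have ht' : (1 : ℝ) ≤ t := by exact_mod_cast ht
  have hq' : (1 : ℝ) ≤ q := by exact_mod_cast hq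
  have hcast : (((2 * d₀ : ℕ) : ℝ)) = 2 * d₀ := by push_cast; ring
  set D : ℝ := 2 * d₀ with hD
  have hDpos : 0 < D := by positivity
  set f : ℝ := (F.card : ℝ) with hf
  have hf0 : 0 ≤ f := Nat.cast_nonneg _
  set M := 2 * t - 1 with hM
  set Λ : ℝ := 8 * d₀ * K with hΛ
  have hΛ0 : 0 ≤ Λ := by positivity
  -- the index set
  set I := range M ×ˢ (range N ×ˢ T (2 * d₀) M) with hI
  have hsum : ∀ φ : ℕ → ℕ → List ℕ → ℝ, ∑ x ∈ I, φ x.1 x.2.1 x.2.2 =
      ∑ n ∈ range M, ∑ a ∈ range N, ∑ l ∈ T (2 * d₀) M, φ n a l := by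
    intro φ
    rw [hI, sum_product]
    refine sum_congr rfl fun n _ => ?_
    rw [sum_product]
  set X : ℕ × ℕ × List ℕ → ℝ := fun x => Xg rot op sg F t x.2.1 (x.2.2.take (x.1 + 1)) with hX
  set Bi : ℕ × ℕ × List ℕ → ℝ := fun x => if Bad x.2.1 (x.2.2.take (x.1 + 1)) then 1 else 0 with hBi
  -- bad where there is a good step
  have hXB : ∀ x ∈ I, X x = Bi x * X x := by
    rintro ⟨n, a, l⟩ hx
    rw [hI, mem_product, mem_product, mem_range, mem_range, mem_T] at hx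
    obtain ⟨hn, ha, hlen, hlab⟩ := hx
    simp only at hn ha hlen hlab
    by_cases hb : Bad a (l.take (n + 1))
    · simp [hBi, hb]
    · have : X (n, a, l) = 0 := by
        simp only [hX]
        unfold Xg
        refine sum_eq_zero fun k hk => ?_
        rw [mem_range] at hk
        rw [if_neg]
        intro hg
        apply hb
        set l' := l.take (n + 1) with hl'
        have hsplit : l'.take k ++ l'.getD k 0 :: l'.drop (k + 1) = l' := by
          rw [List.getD_eq_getElem _ _ hk, ← List.drop_eq_getElem_cons hk, List.take_append_drop]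
        rw [← hsplit]
        refine hBad a ha _ _ _ ?_ hg
        rw [hsplit]
        intro i hi
        exact hlab i (List.mem_of_mem_take hi)
      rw [this, mul_zero]
  have hCS : (∑ x ∈ I, X x) ^ 2 ≤ (∑ x ∈ I, Bi x) * ∑ x ∈ I, X x ^ 2 := by
    rw [sum_congr rfl hXB]
    refine (sum_mul_sq_le_sq_mul_sq _ _ _).trans (le_of_eq ?_)
    congr 1
    refine sum_congr rfl fun x _ => ?_
    simp only [hBi]
    split_ifs <;> norm_num
  -- the second moment
  have hS2 : ∑ x ∈ I, X x ^ 2 ≤ D ^ (2 * t - 2) * (t ^ 2 * f * (12 + 8 * Λ)) := by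
    have e1 := hsum fun n a l => Xg rot op sg F t a (l.take (n + 1)) ^ 2
    have e2 : ∑ x ∈ I, X x ^ 2 = ∑ n ∈ range M, ∑ a ∈ range N, ∑ l ∈ T (2 * d₀) M,
      Xg rot op sg F t a (l.take (n + 1)) ^ 2 := e1
    rw [e2]
    have e3 : ∀ n ∈ range M, ∑ a ∈ range N, ∑ l ∈ T (2 * d₀) M,
        Xg rot op sg F t a (l.take (n + 1)) ^ 2 ≤
        D ^ (2 * t - 2) * (M * f * (1 + 2 * Λ) + (M : ℝ) ^ 2 * (f ^ 2 / (D * N))) := by
      intro n hn
      rw [mem_range] at hn
      have a1 : ∀ a, ∑ l ∈ T (2 * d₀) M, Xg rot op sg F t a (l.take (n + 1)) ^ 2 =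
          D ^ (M - (n + 1)) * ∑ l ∈ T (2 * d₀) (n + 1), Xg rot op sg F t a l ^ 2 := by
        intro a
        rw [sum_T_take (by omega) fun l => Xg rot op sg F t a l ^ 2, hcast]
      have a2 : ∀ a, ∑ l ∈ T (2 * d₀) (n + 1), Xg rot op sg F t a l ^ 2 ≤
          m2 rot F (2 * d₀) (n + 1) a := by
        intro a
        refine sum_le_sum fun l _ => ?_
        have := Xg_le (rot := rot) (op := op) (sg := sg) F t a l
        exact pow_le_pow_left₀ this.1 this.2 2
      have a3 := h.m2_le hd hN hl F hF (n + 1)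
      rw [← hD, ← hΛ, ← hf, pow_succ] at a3
      have a4 : ∑ v ∈ range N, m2 rot F (2 * d₀) (n + 1) v ≤ D ^ n * (((n + 1 : ℕ) : ℝ) * f *
          (1 + 2 * Λ) + ((n + 1 : ℕ) : ℝ) ^ 2 * (f ^ 2 / (D * N))) := by
        have : D * ∑ v ∈ range N, m2 rot F (2 * d₀) (n + 1) v ≤ D * (D ^ n * (((n + 1 : ℕ) : ℝ) * f *
          (1 + 2 * Λ) + ((n + 1 : ℕ) : ℝ) ^ 2 * (f ^ 2 / (D * N)))) := by linarith
        exact le_of_mul_le_mul_left this hDpos
      have a5 : ∑ a ∈ range N, ∑ l ∈ T (2 * d₀) M, Xg rot op sg F t a (l.take (n + 1)) ^ 2 ≤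
          D ^ (M - (n + 1)) * (D ^ n * (((n + 1 : ℕ) : ℝ) * f *
          (1 + 2 * Λ) + ((n + 1 : ℕ) : ℝ) ^ 2 * (f ^ 2 / (D * N)))) := by
        simp only [a1, ← mul_sum]
        refine mul_le_mul_of_nonneg_left ?_ (by positivity)
        exact (sum_le_sum fun a _ => a2 a).trans a4
      refine a5.trans ?_
      rw [← mul_assoc, ← pow_add, show M - (n + 1) + n = 2 * t - 2 by omega]
      refine mul_le_mul_of_nonneg_left ?_ (by positivity)
      have hnM : (((n + 1 : ℕ) : ℝ)) ≤ M := by exact_mod_cast hn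
      have hnn : (0 : ℝ) ≤ ((n + 1 : ℕ) : ℝ) := Nat.cast_nonneg _
      have b1 : ((n + 1 : ℕ) : ℝ) * f * (1 + 2 * Λ) ≤ M * f * (1 + 2 * Λ) := by
        have : 0 ≤ f * (1 + 2 * Λ) := by positivity
        nlinarith
      have b2 : ((n + 1 : ℕ) : ℝ) ^ 2 * (f ^ 2 / (D * N)) ≤ (M : ℝ) ^ 2 * (f ^ 2 / (D * N)) := by
        have : 0 ≤ f ^ 2 / (D * N) := by positivity
        exact mul_le_mul_of_nonneg_right (pow_le_pow_left₀ hnn hnM 2) this
      linarith
    refine (sum_le_sum e3).trans ?_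
    rw [sum_const, card_range, nsmul_eq_mul, ← mul_assoc, mul_comm (M : ℝ), mul_assoc]
    refine mul_le_mul_of_nonneg_left ?_ (by positivity)
    have hMt : (M : ℝ) ≤ 2 * t := by
      have : M ≤ 2 * t := by omega
      exact_mod_cast this
    have hM0 : (0 : ℝ) ≤ M := Nat.cast_nonneg _
    have hfd : t * (f ^ 2 / (D * N)) ≤ f := by
      rw [mul_div_assoc', div_le_iff₀ (by positivity)]
      have : f * t ≤ N * D := by
        rw [hf, hD]
        exact_mod_cast hFt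
      nlinarith
    have c1 : (M : ℝ) * (M * f * (1 + 2 * Λ)) ≤ (2 * t) * ((2 * t) * f * (1 + 2 * Λ)) := by
      have : 0 ≤ f * (1 + 2 * Λ) := by positivity
      have h2 : (M : ℝ) * M ≤ (2 * t) * (2 * t) := mul_le_mul hMt hMt hM0 (by positivity)
      nlinarith
    have c2 : (M : ℝ) * ((M : ℝ) ^ 2 * (f ^ 2 / (D * N))) ≤ 8 * t ^ 2 * (t * (f ^ 2 / (D * N))) := by
      have h3 : (M : ℝ) ^ 3 ≤ (2 * t) ^ 3 := pow_le_pow_left₀ hM0 hMt 3
      have : 0 ≤ f ^ 2 / (D * N) := by positivity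
      nlinarith
    have c3 : 8 * (t : ℝ) ^ 2 * (t * (f ^ 2 / (D * N))) ≤ 8 * t ^ 2 * f :=
      mul_le_mul_of_nonneg_left hfd (by positivity)
    nlinarith
  -- the first moment
  have hS1 : f * (t * D ^ (t - 1)) ^ 2 ≤ q ^ 2 * ∑ x ∈ I, X x := by
    have e1 : ∑ x ∈ I, X x = ∑ n ∈ range M, ∑ a ∈ range N, ∑ l ∈ T (2 * d₀) M,
      Xg rot op sg F t a (l.take (n + 1)) := hsum fun n a l => Xg rot op sg F t a (l.take (n + 1))
    have e2 : ∀ n ∈ range M, ∑ a ∈ range N, ∑ l ∈ T (2 * d₀) M,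
        Xg rot op sg F t a (l.take (n + 1)) = ∑ k ∈ range (n + 1), D ^ (M - (n + 1)) *
        ∑ a ∈ range N, ∑ l ∈ T (2 * d₀) (n + 1),
          if Good rot op sg F t a (l.take k) (l.getD k 0) (l.drop (k + 1)) then 1 else 0 := by
      intro n hn
      rw [mem_range] at hn
      have a1 : ∀ a, ∑ l ∈ T (2 * d₀) M, Xg rot op sg F t a (l.take (n + 1)) =
          D ^ (M - (n + 1)) * ∑ l ∈ T (2 * d₀) (n + 1), Xg rot op sg F t a l := by
        intro a
        rw [sum_T_take (by omega) fun l => Xg rot op sg F t a l, hcast]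
      simp only [a1, ← mul_sum]
      congr 1
      symm
      rw [sum_comm]
      refine sum_congr rfl fun a _ => ?_
      rw [sum_comm]
      refine sum_congr rfl fun l hl => ?_
      unfold Xg
      rw [(mem_T.1 hl).1]
    rw [e1, sum_congr rfl e2]
    -- the function of a pair of positions
    set H : ℕ → ℕ → ℝ := fun i j => D ^ (M - (i + j + 1)) *
        ∑ a ∈ range N, ∑ l ∈ T (2 * d₀) (i + j + 1),
          if Good rot op sg F t a (l.take i) (l.getD i 0) (l.drop (i + 1)) then 1 else 0 with hH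
    have hHnn : ∀ i j, 0 ≤ H i j := by
      intro i j
      simp only [hH]
      refine mul_nonneg (by positivity) (sum_nonneg fun a _ => sum_nonneg fun l _ => ?_)
      split_ifs <;> norm_num
    have e3 : ∑ i ∈ range t, ∑ j ∈ range t, H i j ≤ ∑ n ∈ range M, ∑ k ∈ range (n + 1),
        D ^ (M - (n + 1)) * ∑ a ∈ range N, ∑ l ∈ T (2 * d₀) (n + 1),
          if Good rot op sg F t a (l.take k) (l.getD k 0) (l.drop (k + 1)) then (1 : ℝ) else 0 := by
      have e4 : ∀ n ∈ range M, ∑ k ∈ range (n + 1),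
        D ^ (M - (n + 1)) * ∑ a ∈ range N, ∑ l ∈ T (2 * d₀) (n + 1),
          (if Good rot op sg F t a (l.take k) (l.getD k 0) (l.drop (k + 1)) then (1 : ℝ) else 0) =
          ∑ k ∈ range (n + 1), H k (n - k) := by
        intro n _
        refine sum_congr rfl fun k hk => ?_
        rw [mem_range] at hk
        simp only [hH]
        rw [show k + (n - k) + 1 = n + 1 by omega]
      rw [sum_congr rfl e4, ← sum_product', sum_sigma']
      have e8 : ∑ x ∈ range t ×ˢ range t, H x.1 x.2 = ∑ y ∈ (range t ×ˢ range t).image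
          (fun x : ℕ × ℕ => (⟨x.1 + x.2, x.1⟩ : Σ _ : ℕ, ℕ)), H y.2 (y.1 - y.2) := by
        rw [sum_image]
        · refine sum_congr rfl fun x _ => by simp
        · rintro ⟨i, j⟩ _ ⟨i', j'⟩ _ he
          simp only [Sigma.mk.injEq, heq_eq_eq] at he
          obtain ⟨h1, h2⟩ := he
          exact Prod.ext h2 (by simp only; omega)
      rw [e8]
      refine sum_le_sum_of_subset_of_nonneg ?_ fun y _ _ => hHnn _ _
      intro y hy
      rw [mem_image] at hy
      obtain ⟨⟨i, j⟩, hij, rfl⟩ := hy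
      rw [mem_product, mem_range, mem_range] at hij
      simp only at hij
      rw [mem_sigma, mem_range, mem_range]
      simp only
      omega
    have e5 : ∑ i ∈ range t, ∑ j ∈ range t, H i j =
        ∑ u ∈ range N, ∑ e ∈ range (2 * d₀), Fi F u e *
          ((∑ i ∈ range t, D ^ (t - 1 - i) * cI rot op sg (2 * d₀) i u) *
          (∑ j ∈ range t, D ^ (t - 1 - j) * cI rot op sg (2 * d₀) j (rot u e).1)) := by
      have e6 : ∀ i ∈ range t, ∀ j ∈ range t, H i j = ∑ u ∈ range N, ∑ e ∈ range (2 * d₀),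
          Fi F u e * ((D ^ (t - 1 - i) * cI rot op sg (2 * d₀) i u) *
          (D ^ (t - 1 - j) * cI rot op sg (2 * d₀) j (rot u e).1)) := by
        intro i hi j hj
        rw [mem_range] at hi hj
        simp only [hH]
        rw [show i + j + 1 = i + (j + 1) by ring, first_moment h.isrot F t i j hi hj, mul_sum]
        refine sum_congr rfl fun u _ => ?_
        rw [mul_sum]
        refine sum_congr rfl fun e _ => ?_
        have : M - (i + (j + 1)) = (t - 1 - i) + (t - 1 - j) := by omega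
        rw [this, pow_add]
        ring
      rw [sum_congr rfl fun i hi => sum_congr rfl fun j hj => e6 i hi j hj, swap4]
      refine sum_congr rfl fun u _ => sum_congr rfl fun e _ => ?_
      rw [sum_mul_sum, mul_sum]
      refine sum_congr rfl fun i _ => ?_
      rw [mul_sum]
    have e7 : f * (t * D ^ (t - 1)) ^ 2 ≤ q ^ 2 * ∑ i ∈ range t, ∑ j ∈ range t, H i j := by
      rw [e5, hf, ← card_F F hF, sum_mul, mul_sum]
      refine sum_le_sum fun u hu => ?_
      rw [sum_mul, mul_sum]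
      refine sum_le_sum fun e he => ?_
      rw [mem_range] at hu he
      have p1 := hplu u hu
      have p2 := hplu _ (h.isrot.lt1 u hu e he)
      have p3 := Fi_nonneg F u e
      have p4 : 0 ≤ (t : ℝ) * D ^ (t - 1) := by positivity
      have p5 := mul_le_mul p1 p2 p4 (p4.trans p1)
      have p6 := mul_le_mul_of_nonneg_left p5 p3
      refine le_trans (le_of_eq ?_) (p6.trans (le_of_eq ?_))
      · ring
      · ring
    refine e7.trans ?_
    exact mul_le_mul_of_nonneg_left e3 (by positivity)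
  -- the conclusion
  have hVB : ∑ x ∈ I, Bi x = ∑ n ∈ range M, ∑ a ∈ range N, ∑ l ∈ T (2 * d₀) M,
      (if Bad a (l.take (n + 1)) then (1 : ℝ) else 0) :=
    hsum fun n a l => if Bad a (l.take (n + 1)) then 1 else 0
  rw [← hVB]
  set V := ∑ x ∈ I, Bi x with hV
  have hV0 : 0 ≤ V := by
    rw [hV]
    refine sum_nonneg fun x _ => ?_
    simp only [hBi]
    split_ifs <;> norm_num
  by_cases hfz : f = 0
  · rw [hfz]
    have : 0 ≤ (q : ℝ) ^ 4 * (12 + 8 * Λ) * V := by positivity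
    linarith
  · have hfp : 0 < f := lt_of_le_of_ne hf0 (Ne.symm hfz)
    have hpow : (D ^ (t - 1)) ^ 2 = D ^ (2 * t - 2) := by
      rw [← pow_mul]; congr 1; omega
    have k1 : (f * (t * D ^ (t - 1)) ^ 2) ^ 2 ≤ (q ^ 2 * ∑ x ∈ I, X x) ^ 2 :=
      pow_le_pow_left₀ (by positivity) hS1 2
    have k2 : (q ^ 2 * ∑ x ∈ I, X x) ^ 2 ≤ q ^ 4 * (V * (D ^ (2 * t - 2) *
        (t ^ 2 * f * (12 + 8 * Λ)))) := by
      have : (∑ x ∈ I, X x) ^ 2 ≤ V * (D ^ (2 * t - 2) * (t ^ 2 * f * (12 + 8 * Λ))) :=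
        hCS.trans (mul_le_mul_of_nonneg_left hS2 hV0)
      have := mul_le_mul_of_nonneg_left this (by positivity : (0 : ℝ) ≤ (q : ℝ) ^ 4)
      refine le_trans (le_of_eq ?_) this
      ring
    have k3 := k1.trans k2
    have k4 : (f * (t * D ^ (t - 1)) ^ 2) ^ 2 =
        (t ^ 2 * f * D ^ (2 * t - 2)) * (f * t ^ 2 * D ^ (2 * t - 2)) := by
      have : ((t : ℝ) * D ^ (t - 1)) ^ 2 = t ^ 2 * D ^ (2 * t - 2) := by rw [mul_pow, hpow]
      rw [this]; ring
    have k5 : (q : ℝ) ^ 4 * (V * (D ^ (2 * t - 2) * (t ^ 2 * f * (12 + 8 * Λ)))) =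
        (t ^ 2 * f * D ^ (2 * t - 2)) * (q ^ 4 * (12 + 8 * Λ) * V) := by ring
    rw [k4, k5] at k3
    have hpos : 0 < (t : ℝ) ^ 2 * f * D ^ (2 * t - 2) := by positivity
    exact le_of_mul_le_mul_left k3 hpos

end Pool.Agent.H243R3.PCP
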