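import Pool.Agent.H243R3.PCP.Fou

/-!
# The Poincaré inequality on the torus
-/

namespace Pool.Agent.H243R3.PCP

open Finset ZMod

variable {n : ℕ} [NeZero n]

instance (a : ZMod n) : Decidable (Far a) := by unfold Far; infer_instance

/-- Small positive residues. -/
def Ps (a : ZMod n) : Prop := 0 < a.val ∧ 4 * a.val < n

instance (a : ZMod n) : Decidable (Ps a) := by unfold Ps; infer_instance

/-- The mass of the far frequencies. -/
noncomputable def Wm (G : ZMod n × ZMod n → ℝ) : ℝ :=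
  ∑ ξ ∈ univ.filter (fun ξ : ZMod n × ZMod n => Far ξ.1 ∨ Far ξ.2), G ξ ^ 2

/-- The energies. -/
noncomputable def D1 (G : ZMod n × ZMod n → ℝ) : ℝ := ∑ ξ, (G (ξ.1, ξ.1 + ξ.2) - G ξ) ^ 2
noncomputable def D2 (G : ZMod n × ZMod n → ℝ) : ℝ := ∑ ξ, (G (ξ.1 + ξ.2, ξ.2) - G ξ) ^ 2

theorem pt_le (x y : ℝ) : x ^ 2 ≤ 4 / 3 * y ^ 2 + 4 * (y - x) ^ 2 := by
  nlinarith [sq_nonneg (4 * y - 3 * x)]

theorem move (G : ZMod n × ZMod n → ℝ) (φ : ZMod n × ZMod n → ZMod n × ZMod n)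
    (S T : Finset (ZMod n × ZMod n)) (hinj : Set.InjOn φ S) (hmap : ∀ ξ ∈ S, φ ξ ∈ T) (D : ℝ)
    (hD : ∑ ξ, (G (φ ξ) - G ξ) ^ 2 ≤ D) :
    ∑ ξ ∈ S, G ξ ^ 2 ≤ 4 / 3 * ∑ ξ ∈ T, G ξ ^ 2 + 4 * D := by
  have h1 : ∑ ξ ∈ S, G ξ ^ 2 ≤ ∑ ξ ∈ S, (4 / 3 * G (φ ξ) ^ 2 + 4 * (G (φ ξ) - G ξ) ^ 2) :=
    sum_le_sum fun ξ _ => pt_le _ _
  rw [sum_add_distrib, ← mul_sum, ← mul_sum] at h1
  have h2 : ∑ ξ ∈ S, G (φ ξ) ^ 2 ≤ ∑ ξ ∈ T, G ξ ^ 2 := by
    rw [← Finset.sum_image (f := fun ξ => G ξ ^ 2) (g := φ) hinj]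
    refine sum_le_sum_of_subset_of_nonneg ?_ fun _ _ _ => sq_nonneg _
    intro η hη
    rw [mem_image] at hη
    obtain ⟨ξ, hξ, rfl⟩ := hη
    exact hmap ξ hξ
  have h3 : ∑ ξ ∈ S, (G (φ ξ) - G ξ) ^ 2 ≤ ∑ ξ, (G (φ ξ) - G ξ) ^ 2 :=
    sum_le_sum_of_subset_of_nonneg (subset_univ _) fun _ _ _ => sq_nonneg _
  linarith

theorem quad (G : ZMod n × ZMod n → ℝ) :
    ∑ ξ ∈ univ.filter (fun ξ : ZMod n × ZMod n => (Ps ξ.1 ∧ Ps ξ.2) ∨ (Ps ξ.1 ∧ ξ.2 = 0) ∨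
      (ξ.1 = 0 ∧ Ps ξ.2)), G ξ ^ 2 ≤ 8 * Wm G + 26 * (D1 G + D2 G) := by
  set P := univ.filter (fun ξ : ZMod n × ZMod n => Ps ξ.1 ∧ Ps ξ.2) with hP
  have hnn : ∀ S : Finset (ZMod n × ZMod n), 0 ≤ ∑ ξ ∈ S, G ξ ^ 2 :=
    fun S => sum_nonneg fun _ _ => sq_nonneg _
  have hW : 0 ≤ Wm G := hnn _
  have hD1 : 0 ≤ D1 G := sum_nonneg fun _ _ => sq_nonneg _
  have hD2 : 0 ≤ D2 G := sum_nonneg fun _ _ => sq_nonneg _
  have iφ : ∀ S : Set (ZMod n × ZMod n), Set.InjOn (fun ξ : ZMod n × ZMod n => (ξ.1, ξ.1 + ξ.2)) S := by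
    intro S x _ y _ h
    simp only [Prod.mk.injEq] at h
    obtain ⟨h1, h2⟩ := h
    rw [h1] at h2
    exact Prod.ext h1 (add_left_cancel h2)
  have iψ : ∀ S : Set (ZMod n × ZMod n), Set.InjOn (fun ξ : ZMod n × ZMod n => (ξ.1 + ξ.2, ξ.2)) S := by
    intro S x _ y _ h
    simp only [Prod.mk.injEq] at h
    obtain ⟨h1, h2⟩ := h
    rw [h2] at h1
    exact Prod.ext (add_right_cancel h1) h2
  set Big := univ.filter (fun ξ : ZMod n × ZMod n => 0 < ξ.1.val ∧ 2 * ξ.1.val < n ∧ 0 < ξ.2.val ∧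
    2 * ξ.2.val < n) with hBig
  set Up := Big.filter (fun ξ => ξ.1.val < ξ.2.val) with hUp
  set Lo := Big.filter (fun ξ => ξ.2.val < ξ.1.val) with hLo
  have hval : ∀ ξ ∈ P, (ξ.1 + ξ.2).val = ξ.1.val + ξ.2.val := by
    intro ξ hξ
    simp only [hP, mem_filter, mem_univ, true_and, Ps] at hξ
    exact ZMod.val_add_of_lt (by omega)
  have a1 : ∑ ξ ∈ P, G ξ ^ 2 ≤ 4 / 3 * ∑ ξ ∈ Up, G ξ ^ 2 + 4 * D1 G := by
    refine move G (fun ξ => (ξ.1, ξ.1 + ξ.2)) P Up (iφ _) ?_ _ le_rfl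
    intro ξ hξ
    have := hval ξ hξ
    simp only [hP, mem_filter, mem_univ, true_and, Ps] at hξ
    simp only [hUp, hBig, mem_filter, mem_univ, true_and]
    omega
  have a2 : ∑ ξ ∈ P, G ξ ^ 2 ≤ 4 / 3 * ∑ ξ ∈ Lo, G ξ ^ 2 + 4 * D2 G := by
    refine move G (fun ξ => (ξ.1 + ξ.2, ξ.2)) P Lo (iψ _) ?_ _ le_rfl
    intro ξ hξ
    have := hval ξ hξ
    simp only [hP, mem_filter, mem_univ, true_and, Ps] at hξ
    simp only [hLo, hBig, mem_filter, mem_univ, true_and]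
    omega
  have hdisj : Disjoint Up Lo := by
    rw [Finset.disjoint_left]
    intro ξ h1 h2
    simp only [hUp, hLo, mem_filter] at h1 h2
    omega
  have a3 : ∑ ξ ∈ Up, G ξ ^ 2 + ∑ ξ ∈ Lo, G ξ ^ 2 ≤ ∑ ξ ∈ P, G ξ ^ 2 + Wm G := by
    rw [← sum_union hdisj]
    have h1 : Up ∪ Lo ⊆ P ∪ univ.filter (fun ξ : ZMod n × ZMod n => Far ξ.1 ∨ Far ξ.2) := by
      intro ξ hξ
      simp only [hUp, hLo, hBig, hP, mem_union, mem_filter, mem_univ, true_and, Ps, Far] at hξ ⊢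
      omega
    have h2 := sum_union_inter (s₁ := P)
      (s₂ := univ.filter (fun ξ : ZMod n × ZMod n => Far ξ.1 ∨ Far ξ.2)) (f := fun ξ => G ξ ^ 2)
    have h3 := hnn (P ∩ univ.filter (fun ξ : ZMod n × ZMod n => Far ξ.1 ∨ Far ξ.2))
    have h4 : ∑ ξ ∈ Up ∪ Lo, G ξ ^ 2 ≤
        ∑ ξ ∈ P ∪ univ.filter (fun ξ : ZMod n × ZMod n => Far ξ.1 ∨ Far ξ.2), G ξ ^ 2 :=
      sum_le_sum_of_subset_of_nonneg h1 fun _ _ _ => sq_nonneg _
    unfold Wm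
    linarith
  have a4 : ∑ ξ ∈ P, G ξ ^ 2 ≤ 2 * Wm G + 3 * (D1 G + D2 G) + 3 * (D1 G + D2 G) := by linarith
  have a5 : ∑ ξ ∈ univ.filter (fun ξ : ZMod n × ZMod n => Ps ξ.1 ∧ ξ.2 = 0), G ξ ^ 2 ≤
      4 / 3 * ∑ ξ ∈ P, G ξ ^ 2 + 4 * D1 G := by
    refine move G (fun ξ => (ξ.1, ξ.1 + ξ.2)) _ P (iφ _) ?_ _ le_rfl
    intro ξ hξ
    simp only [mem_filter, mem_univ, true_and] at hξ
    simp only [hP, mem_filter, mem_univ, true_and, hξ.2, add_zero]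
    exact ⟨hξ.1, hξ.1⟩
  have a6 : ∑ ξ ∈ univ.filter (fun ξ : ZMod n × ZMod n => ξ.1 = 0 ∧ Ps ξ.2), G ξ ^ 2 ≤
      4 / 3 * ∑ ξ ∈ P, G ξ ^ 2 + 4 * D2 G := by
    refine move G (fun ξ => (ξ.1 + ξ.2, ξ.2)) _ P (iψ _) ?_ _ le_rfl
    intro ξ hξ
    simp only [mem_filter, mem_univ, true_and] at hξ
    simp only [hP, mem_filter, mem_univ, true_and, hξ.1, zero_add]
    exact ⟨hξ.2, hξ.2⟩
  have a7 : ∑ ξ ∈ univ.filter (fun ξ : ZMod n × ZMod n => (Ps ξ.1 ∧ Ps ξ.2) ∨ (Ps ξ.1 ∧ ξ.2 = 0) ∨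
      (ξ.1 = 0 ∧ Ps ξ.2)), G ξ ^ 2 ≤ ∑ ξ ∈ P, G ξ ^ 2 +
      (∑ ξ ∈ univ.filter (fun ξ : ZMod n × ZMod n => Ps ξ.1 ∧ ξ.2 = 0), G ξ ^ 2 +
      ∑ ξ ∈ univ.filter (fun ξ : ZMod n × ZMod n => ξ.1 = 0 ∧ Ps ξ.2), G ξ ^ 2) := by
    have hu : ∀ S T : Finset (ZMod n × ZMod n), ∑ ξ ∈ S ∪ T, G ξ ^ 2 ≤
        ∑ ξ ∈ S, G ξ ^ 2 + ∑ ξ ∈ T, G ξ ^ 2 := by
      intro S T
      rw [← sum_union_inter]
      have := hnn (S ∩ T)
      linarith
    refine le_trans ?_ ((hu _ _).trans (add_le_add le_rfl (hu _ _)))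
    refine sum_le_sum_of_subset_of_nonneg ?_ fun _ _ _ => sq_nonneg _
    intro ξ hξ
    simp only [hP, mem_union, mem_filter, mem_univ, true_and] at hξ ⊢
    exact hξ
  linarith

theorem val_neg' {a : ZMod n} (h : a ≠ 0) : (-a).val = n - a.val := by
  rw [ZMod.neg_val, if_neg h]

theorem far_neg {a : ZMod n} : Far (-a) ↔ Far a := by
  by_cases h : a = 0
  · rw [h, neg_zero]
  · have h1 := val_neg' h
    have h2 := ZMod.val_lt a
    unfold Far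
    rw [h1]
    omega

/-- A reflection. -/
def rf (s t : Bool) (ξ : ZMod n × ZMod n) : ZMod n × ZMod n :=
  (if s then -ξ.1 else ξ.1, if t then -ξ.2 else ξ.2)

theorem rf_rf (s t : Bool) (ξ : ZMod n × ZMod n) : rf s t (rf s t ξ) = ξ := by
  unfold rf
  cases s <;> cases t <;> simp

/-- Reflection as a bijection. -/
def rfe (s t : Bool) : (ZMod n × ZMod n) ≃ (ZMod n × ZMod n) :=
  ⟨rf s t, rf s t, rf_rf s t, rf_rf s t⟩

theorem sum_rf (s t : Bool) (g : ZMod n × ZMod n → ℝ) : ∑ ξ, g (rf s t ξ) = ∑ ξ, g ξ :=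
  Equiv.sum_comp (rfe s t) g

theorem Wm_rf (s t : Bool) (G : ZMod n × ZMod n → ℝ) : Wm (fun ξ => G (rf s t ξ)) = Wm G := by
  unfold Wm
  rw [sum_filter, sum_filter, ← sum_rf s t]
  refine sum_congr rfl fun ξ _ => ?_
  simp only [rf_rf]
  have h1 : Far (rf s t ξ).1 ↔ Far ξ.1 := by
    unfold rf; cases s <;> simp [far_neg]
  have h2 : Far (rf s t ξ).2 ↔ Far ξ.2 := by
    unfold rf; cases t <;> simp [far_neg]
  simp only [h1, h2]

theorem D1_inv (G : ZMod n × ZMod n → ℝ) : ∑ ξ, (G (ξ.1, ξ.2 - ξ.1) - G ξ) ^ 2 = D1 G := by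
  unfold D1
  refine Finset.sum_nbij' (fun z => (z.1, z.2 - z.1)) (fun z => (z.1, z.1 + z.2)) ?_ ?_ ?_ ?_ ?_
  · intro z _; exact mem_univ _
  · intro z _; exact mem_univ _
  · intro z _; simp
  · intro z _; simp
  · intro z _
    simp only [add_sub_cancel]
    ring

theorem D2_inv (G : ZMod n × ZMod n → ℝ) : ∑ ξ, (G (ξ.1 - ξ.2, ξ.2) - G ξ) ^ 2 = D2 G := by
  unfold D2
  refine Finset.sum_nbij' (fun z => (z.1 - z.2, z.2)) (fun z => (z.1 + z.2, z.2)) ?_ ?_ ?_ ?_ ?_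
  · intro z _; exact mem_univ _
  · intro z _; exact mem_univ _
  · intro z _; simp
  · intro z _; simp
  · intro z _
    simp only [sub_add_cancel]
    ring

theorem D1_rf (s t : Bool) (G : ZMod n × ZMod n → ℝ) : D1 (fun ξ => G (rf s t ξ)) = D1 G := by
  cases s <;> cases t
  · rfl
  · rw [← D1_inv G]
    unfold D1
    rw [← sum_rf false true]
    refine sum_congr rfl fun ξ _ => ?_
    simp only [rf, if_true, Bool.false_eq_true, if_false]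
    congr 3
    · congr 1; ring
    · congr 1; ring
  · rw [← D1_inv G]
    unfold D1
    rw [← sum_rf true false]
    refine sum_congr rfl fun ξ _ => ?_
    simp only [rf, if_true, Bool.false_eq_true, if_false]
    congr 3
    · congr 1
      · ring
      · ring
    · congr 1; ring
  · unfold D1
    rw [← sum_rf true true]
    refine sum_congr rfl fun ξ _ => ?_
    simp only [rf, if_true]
    congr 3
    · congr 1
      · ring
      · ring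
    · congr 1
      · ring
      · ring

theorem D2_rf (s t : Bool) (G : ZMod n × ZMod n → ℝ) : D2 (fun ξ => G (rf s t ξ)) = D2 G := by
  cases s <;> cases t
  · rfl
  · rw [← D2_inv G]
    unfold D2
    rw [← sum_rf false true]
    refine sum_congr rfl fun ξ _ => ?_
    simp only [rf, if_true, Bool.false_eq_true, if_false]
    congr 3
    · congr 1
      · ring
      · ring
    · congr 1; ring
  · rw [← D2_inv G]
    unfold D2
    rw [← sum_rf true false]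
    refine sum_congr rfl fun ξ _ => ?_
    simp only [rf, if_true, Bool.false_eq_true, if_false]
    congr 3
    · congr 1; ring
    · congr 1; ring
  · unfold D2
    rw [← sum_rf true true]
    refine sum_congr rfl fun ξ _ => ?_
    simp only [rf, if_true]
    congr 3
    · congr 1
      · ring
      · ring
    · congr 1
      · ring
      · ring

theorem total (G : ZMod n × ZMod n → ℝ) (h0 : G (0, 0) = 0) :
    ∑ ξ, G ξ ^ 2 ≤ 33 * Wm G + 104 * (D1 G + D2 G) := by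
  have hq := fun s t => quad (fun ξ => G (rf s t ξ))
  simp only [Wm_rf, D1_rf, D2_rf] at hq
  have key : ∀ ξ : ZMod n × ZMod n, G ξ ^ 2 ≤
      (if Far ξ.1 ∨ Far ξ.2 then G ξ ^ 2 else 0) +
      ∑ s : Bool, ∑ t : Bool, (if (Ps (rf s t ξ).1 ∧ Ps (rf s t ξ).2) ∨
        (Ps (rf s t ξ).1 ∧ (rf s t ξ).2 = 0) ∨ ((rf s t ξ).1 = 0 ∧ Ps (rf s t ξ).2)
        then G ξ ^ 2 else 0) := by
    intro ξ
    have hG : 0 ≤ G ξ ^ 2 := sq_nonneg _
    have hnn : ∀ p : Prop, ∀ [Decidable p], 0 ≤ (if p then G ξ ^ 2 else 0) := by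
      intro p _; split_ifs
      · exact hG
      · exact le_rfl
    by_cases hf : Far ξ.1 ∨ Far ξ.2
    · rw [if_pos hf]
      have : 0 ≤ ∑ s : Bool, ∑ t : Bool, (if (Ps (rf s t ξ).1 ∧ Ps (rf s t ξ).2) ∨
        (Ps (rf s t ξ).1 ∧ (rf s t ξ).2 = 0) ∨ ((rf s t ξ).1 = 0 ∧ Ps (rf s t ξ).2)
        then G ξ ^ 2 else 0) := sum_nonneg fun s _ => sum_nonneg fun t _ => hnn _
      linarith
    · rw [if_neg hf, zero_add]
      by_cases hz : ξ.1 = 0 ∧ ξ.2 = 0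
      · have : ξ = (0, 0) := Prod.ext hz.1 hz.2
        rw [this, h0]
        simp
      · have hs : ∀ a : ZMod n, ¬ Far a → a ≠ 0 → ∃ s : Bool, Ps (if s then -a else a) := by
          intro a ha h
          have h1 := val_neg' h
          have h2 := ZMod.val_lt a
          have h3 : 0 < a.val := by
            rw [Nat.pos_iff_ne_zero, Ne, ZMod.val_eq_zero]
            exact h
          unfold Far at ha
          by_cases h4 : 4 * a.val < n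
          · exact ⟨false, by simp only [Bool.false_eq_true, if_false]; exact ⟨h3, h4⟩⟩
          · refine ⟨true, ?_⟩
            simp only [if_true]
            unfold Ps
            rw [h1]
            omega
        push Not at hf
        obtain ⟨s, t, hst⟩ : ∃ s t : Bool, (Ps (rf s t ξ).1 ∧ Ps (rf s t ξ).2) ∨
            (Ps (rf s t ξ).1 ∧ (rf s t ξ).2 = 0) ∨ ((rf s t ξ).1 = 0 ∧ Ps (rf s t ξ).2) := by
          by_cases h1 : ξ.1 = 0
          · have h2 : ξ.2 ≠ 0 := fun h => hz ⟨h1, h⟩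
            obtain ⟨t, ht⟩ := hs ξ.2 hf.2 h2
            exact ⟨false, t, Or.inr (Or.inr ⟨by simp [rf, h1], ht⟩)⟩
          · obtain ⟨s, hs1⟩ := hs ξ.1 hf.1 h1
            by_cases h2 : ξ.2 = 0
            · exact ⟨s, false, Or.inr (Or.inl ⟨hs1, by simp [rf, h2]⟩)⟩
            · obtain ⟨t, ht⟩ := hs ξ.2 hf.2 h2
              exact ⟨s, t, Or.inl ⟨hs1, ht⟩⟩
        have e1 : G ξ ^ 2 = (if (Ps (rf s t ξ).1 ∧ Ps (rf s t ξ).2) ∨
            (Ps (rf s t ξ).1 ∧ (rf s t ξ).2 = 0) ∨ ((rf s t ξ).1 = 0 ∧ Ps (rf s t ξ).2)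
            then G ξ ^ 2 else 0) := by rw [if_pos hst]
        conv_lhs => rw [e1]
        refine le_trans ?_ (single_le_sum (f := fun s : Bool => ∑ t : Bool,
          (if (Ps (rf s t ξ).1 ∧ Ps (rf s t ξ).2) ∨
            (Ps (rf s t ξ).1 ∧ (rf s t ξ).2 = 0) ∨ ((rf s t ξ).1 = 0 ∧ Ps (rf s t ξ).2)
            then G ξ ^ 2 else 0)) (fun s _ => sum_nonneg fun t _ => hnn _) (mem_univ s))
        exact single_le_sum (f := fun t : Bool =>
          (if (Ps (rf s t ξ).1 ∧ Ps (rf s t ξ).2) ∨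
            (Ps (rf s t ξ).1 ∧ (rf s t ξ).2 = 0) ∨ ((rf s t ξ).1 = 0 ∧ Ps (rf s t ξ).2)
            then G ξ ^ 2 else 0)) (fun t _ => hnn _) (mem_univ t)
  have h1 := sum_le_sum (s := univ) fun ξ (_ : ξ ∈ univ) => key ξ
  rw [sum_add_distrib, ← sum_filter] at h1
  have h2 : ∑ ξ : ZMod n × ZMod n, ∑ s : Bool, ∑ t : Bool, (if (Ps (rf s t ξ).1 ∧ Ps (rf s t ξ).2) ∨
        (Ps (rf s t ξ).1 ∧ (rf s t ξ).2 = 0) ∨ ((rf s t ξ).1 = 0 ∧ Ps (rf s t ξ).2)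
        then G ξ ^ 2 else 0) ≤ ∑ _s : Bool, ∑ _t : Bool, (8 * Wm G + 26 * (D1 G + D2 G)) := by
    rw [sum_comm]
    refine sum_le_sum fun s _ => ?_
    rw [sum_comm]
    refine sum_le_sum fun t _ => ?_
    refine le_trans (le_of_eq ?_) (hq s t)
    rw [sum_filter, ← sum_rf s t]
    refine sum_congr rfl fun ξ _ => ?_
    rw [rf_rf]
  simp only [sum_const, card_univ, Fintype.card_bool, smul_eq_mul, nsmul_eq_mul] at h2
  unfold Wm at h2 ⊢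
  push_cast at h2
  linarith

/-- **The Poincaré inequality.** -/
theorem poincare (f : ZMod n × ZMod n → ℝ) (h0 : ∑ z, f z = 0) :
    ∑ z, f z ^ 2 ≤ 104 * (∑ z, (f (z.1 + z.2, z.2) - f z) ^ 2 + ∑ z, (f (z.1, z.2 + z.1) - f z) ^ 2 +
      ∑ z, (f (z.1 + 1, z.2) - f z) ^ 2 + ∑ z, (f (z.1, z.2 + 1) - f z) ^ 2) := by
  have hn : (0 : ℝ) < n := by exact_mod_cast NeZero.pos n
  set F : ZMod n × ZMod n → ℂ := fun z => (f z : ℂ) with hF
  set G : ZMod n × ZMod n → ℝ := fun ξ => ‖ft F ξ‖ with hG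
  have hG0 : G (0, 0) = 0 := by
    simp only [hG, ft, zero_mul, add_zero, AddChar.map_zero_eq_one, mul_one, hF]
    rw [← Complex.ofReal_sum, h0]
    simp
  have hp : ∀ g : ZMod n × ZMod n → ℝ, ∑ ξ, ‖ft (fun z => (g z : ℂ)) ξ‖ ^ 2 =
      (n : ℝ) ^ 2 * ∑ z, g z ^ 2 := by
    intro g
    rw [parseval]
    simp
  have hT := total G hG0
  have e0 : ∑ ξ, G ξ ^ 2 = (n : ℝ) ^ 2 * ∑ z, f z ^ 2 := hp f
  have e1 : D1 G ≤ (n : ℝ) ^ 2 * ∑ z, (f (z.1 + z.2, z.2) - f z) ^ 2 := by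
    rw [← D1_inv, ← hp]
    refine sum_le_sum fun ξ _ => ?_
    have : (fun z : ZMod n × ZMod n => ((f (z.1 + z.2, z.2) - f z : ℝ) : ℂ)) =
        fun z => (fun z => F (z.1 + z.2, z.2)) z - F z := by
      funext z; simp [hF]
    rw [this, ft_sub, ft_A]
    rw [← sq_abs]
    exact pow_le_pow_left₀ (abs_nonneg _) (abs_norm_sub_norm_le _ _) 2
  have e2 : D2 G ≤ (n : ℝ) ^ 2 * ∑ z, (f (z.1, z.2 + z.1) - f z) ^ 2 := by
    rw [← D2_inv, ← hp]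
    refine sum_le_sum fun ξ _ => ?_
    have : (fun z : ZMod n × ZMod n => ((f (z.1, z.2 + z.1) - f z : ℝ) : ℂ)) =
        fun z => (fun z => F (z.1, z.2 + z.1)) z - F z := by
      funext z; simp [hF]
    rw [this, ft_sub, ft_B]
    rw [← sq_abs]
    exact pow_le_pow_left₀ (abs_nonneg _) (abs_norm_sub_norm_le _ _) 2
  have e3 : 2 * ∑ ξ ∈ univ.filter (fun ξ : ZMod n × ZMod n => Far ξ.1), G ξ ^ 2 ≤
      (n : ℝ) ^ 2 * ∑ z, (f (z.1 + 1, z.2) - f z) ^ 2 := by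
    rw [← hp, mul_sum]
    refine le_trans ?_ (sum_le_sum_of_subset_of_nonneg (filter_subset (fun ξ : ZMod n × ZMod n => Far ξ.1) univ) fun _ _ _ => sq_nonneg _)
    refine sum_le_sum fun ξ hξ => ?_
    rw [mem_filter] at hξ
    have : (fun z : ZMod n × ZMod n => ((f (z.1 + 1, z.2) - f z : ℝ) : ℂ)) =
        fun z => (fun z => F (z.1 + 1, z.2)) z - F z := by
      funext z; simp [hF]
    rw [this, ft_sub, ft_E]
    have h2 : ZMod.stdAddChar (-ξ.1) * ft F ξ - ft F ξ =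
        ((ZMod.stdAddChar (-ξ.1) : ℂ) - 1) * ft F ξ := by ring
    rw [h2, norm_mul, mul_pow]
    exact mul_le_mul_of_nonneg_right (far_char hξ.2) (sq_nonneg _)
  have e4 : 2 * ∑ ξ ∈ univ.filter (fun ξ : ZMod n × ZMod n => Far ξ.2), G ξ ^ 2 ≤
      (n : ℝ) ^ 2 * ∑ z, (f (z.1, z.2 + 1) - f z) ^ 2 := by
    rw [← hp, mul_sum]
    refine le_trans ?_ (sum_le_sum_of_subset_of_nonneg (filter_subset (fun ξ : ZMod n × ZMod n => Far ξ.2) univ) fun _ _ _ => sq_nonneg _)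
    refine sum_le_sum fun ξ hξ => ?_
    rw [mem_filter] at hξ
    have : (fun z : ZMod n × ZMod n => ((f (z.1, z.2 + 1) - f z : ℝ) : ℂ)) =
        fun z => (fun z => F (z.1, z.2 + 1)) z - F z := by
      funext z; simp [hF]
    rw [this, ft_sub, ft_E']
    have h2 : ZMod.stdAddChar (-ξ.2) * ft F ξ - ft F ξ =
        ((ZMod.stdAddChar (-ξ.2) : ℂ) - 1) * ft F ξ := by ring
    rw [h2, norm_mul, mul_pow]
    exact mul_le_mul_of_nonneg_right (far_char hξ.2) (sq_nonneg _)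
  have e5 : Wm G ≤ ∑ ξ ∈ univ.filter (fun ξ : ZMod n × ZMod n => Far ξ.1), G ξ ^ 2 +
      ∑ ξ ∈ univ.filter (fun ξ : ZMod n × ZMod n => Far ξ.2), G ξ ^ 2 := by
    unfold Wm
    rw [sum_filter, sum_filter, sum_filter, ← sum_add_distrib]
    refine sum_le_sum fun ξ _ => ?_
    have := sq_nonneg (G ξ)
    by_cases h1 : Far ξ.1 <;> by_cases h2 : Far ξ.2 <;> simp only [h1, h2, or_self, or_true,
      true_or, if_true, if_false] <;> linarith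
  have hn2 : (0 : ℝ) < (n : ℝ) ^ 2 := by positivity
  have fin : (n : ℝ) ^ 2 * ∑ z, f z ^ 2 ≤ (n : ℝ) ^ 2 * (104 * (∑ z, (f (z.1 + z.2, z.2) - f z) ^ 2 +
      ∑ z, (f (z.1, z.2 + z.1) - f z) ^ 2 +
      ∑ z, (f (z.1 + 1, z.2) - f z) ^ 2 + ∑ z, (f (z.1, z.2 + 1) - f z) ^ 2)) := by
    have p3 : 0 ≤ (n : ℝ) ^ 2 * ∑ z, (f (z.1 + 1, z.2) - f z) ^ 2 := by
      have : 0 ≤ ∑ z, (f (z.1 + 1, z.2) - f z) ^ 2 := sum_nonneg fun _ _ => sq_nonneg _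
      positivity
    have p4 : 0 ≤ (n : ℝ) ^ 2 * ∑ z, (f (z.1, z.2 + 1) - f z) ^ 2 := by
      have : 0 ≤ ∑ z, (f (z.1, z.2 + 1) - f z) ^ 2 := sum_nonneg fun _ _ => sq_nonneg _
      positivity
    rw [← e0]
    linarith
  exact le_of_mul_le_mul_left fin hn2

end Pool.Agent.H243R3.PCP
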