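import Pool.Agent.NPC.Dec
import Pool.Agent.H243R3.TP.PolyA

/-!
# Raw strings
-/

namespace Pool.Agent.NPC.DP

/-- From the coded list of bits to the raw bit string. -/
theorem rawOut : PC (bits : List Bool → List Bool) (fun x : List Bool => x) (fun x => x) := by
  refine ⟨Cmd.seq (Cmd.loop 0 (Cmd.cases 0 Cmd.skip (Cmd.pop 0) (Cmd.seq (Cmd.pop 0)
    (Cmd.cases 0 Cmd.skip (Cmd.seq (Cmd.pop 0) (Cmd.push 1 false))
      (Cmd.seq (Cmd.pop 0) (Cmd.seq (Cmd.pop 0) (Cmd.seq (Cmd.pop 0) (Cmd.push 1 true)))))))
    ) (mv 1 0), Polynomial.C 40 * Polynomial.X + Polynomial.C 40, fun x => ?_⟩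
  rw [inp_eq_st, inp_eq_st]
  have h3 : ∀ (l y : List Bool), Runs (Cmd.loop 0 (Cmd.cases 0 Cmd.skip (Cmd.pop 0)
      (Cmd.seq (Cmd.pop 0) (Cmd.cases 0 Cmd.skip (Cmd.seq (Cmd.pop 0) (Cmd.push 1 false))
      (Cmd.seq (Cmd.pop 0) (Cmd.seq (Cmd.pop 0) (Cmd.seq (Cmd.pop 0) (Cmd.push 1 true))))))))
      (st (T.ofList (l.map T.ofBool)).enc y []) (st [] (l.reverse ++ y) [])
      (20 * l.length + 20) := by
    intro l
    induction l with
    | nil =>
      intro y
      have h1 : Runs (Cmd.cases 0 Cmd.skip (Cmd.pop 0)
          (Cmd.seq (Cmd.pop 0) (Cmd.cases 0 Cmd.skip (Cmd.seq (Cmd.pop 0) (Cmd.push 1 false))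
          (Cmd.seq (Cmd.pop 0) (Cmd.seq (Cmd.pop 0) (Cmd.seq (Cmd.pop 0) (Cmd.push 1 true)))))))
          (st [false] y []) (st [] y []) 2 :=
        (Runs.casesFalse (l := []) (by simp) (Runs.pop _ 0)).conv rfl (by simp) (by simp)
      have h2 := Runs.loopCons (k := 0) (by simp) h1 (Runs.loopNil (s := st [] y []) (by simp))
      exact h2.conv (by simp [T.ofList, T.enc]) (by simp) (by simp)
    | cons b l ih =>
      intro y
      have ih' := ih (b :: y)
      have hb : Runs (Cmd.cases 0 Cmd.skip (Cmd.pop 0)
          (Cmd.seq (Cmd.pop 0) (Cmd.cases 0 Cmd.skip (Cmd.seq (Cmd.pop 0) (Cmd.push 1 false))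
          (Cmd.seq (Cmd.pop 0) (Cmd.seq (Cmd.pop 0) (Cmd.seq (Cmd.pop 0) (Cmd.push 1 true)))))))
          (st (T.ofList ((b :: l).map T.ofBool)).enc y [])
          (st (T.ofList (l.map T.ofBool)).enc (b :: y) []) 12 := by
        cases b
        · have e : (T.ofList ((false :: l).map T.ofBool)).enc =
              true :: false :: (T.ofList (l.map T.ofBool)).enc := by
            simp [T.ofList, T.ofBool, T.enc]
          rw [e]
          set r := (T.ofList (l.map T.ofBool)).enc with hr
          have a1 : Runs (Cmd.pop 0) (st (true :: false :: r) y []) (st (false :: r) y []) 1 :=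
            (Runs.pop _ 0).conv rfl (by simp) le_rfl
          have a2 : Runs (Cmd.seq (Cmd.pop 0) (Cmd.push 1 false)) (st (false :: r) y [])
              (st r (false :: y) []) 2 :=
            ((Runs.pop _ 0).seq (Runs.push _ 1 false)).conv rfl (by simp) le_rfl
          exact (Runs.casesTrue (l := false :: r) (by simp) (a1.seq
            (Runs.casesFalse (l := r) (by simp) a2))).mono (by norm_num)
        · have e : (T.ofList ((true :: l).map T.ofBool)).enc =
              true :: true :: false :: false :: (T.ofList (l.map T.ofBool)).enc := by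
            simp [T.ofList, T.ofBool, T.enc]
          rw [e]
          set r := (T.ofList (l.map T.ofBool)).enc with hr
          have a1 : Runs (Cmd.pop 0) (st (true :: true :: false :: false :: r) y [])
              (st (true :: false :: false :: r) y []) 1 :=
            (Runs.pop _ 0).conv rfl (by simp) le_rfl
          have a2 : Runs (Cmd.pop 0) (st (true :: false :: false :: r) y [])
              (st (false :: false :: r) y []) 1 :=
            (Runs.pop _ 0).conv rfl (by simp) le_rfl
          have a3 : Runs (Cmd.pop 0) (st (false :: false :: r) y []) (st (false :: r) y []) 1 :=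
            (Runs.pop _ 0).conv rfl (by simp) le_rfl
          have a4 : Runs (Cmd.seq (Cmd.pop 0) (Cmd.push 1 true)) (st (false :: r) y [])
              (st r (true :: y) []) 2 :=
            ((Runs.pop _ 0).seq (Runs.push _ 1 true)).conv rfl (by simp) le_rfl
          exact (Runs.casesTrue (l := true :: false :: false :: r) (by simp) (a1.seq
            (Runs.casesTrue (l := false :: false :: r) (by simp)
              (a2.seq (a3.seq a4))))).mono (by norm_num)
      refine (Runs.loopCons ?_ hb ih').conv rfl (by simp) ?_
      · simp [T.ofList, T.enc]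
      · simp; omega
  have h4 := mv_runs (i := 1) (j := 0) (by decide) x.reverse (st [] x.reverse []) (st x [] [])
    (by simp) (by simp)
  have h5 := h3 x []
  rw [List.append_nil] at h5
  refine (h5.seq h4).conv rfl rfl ?_
  have h6 : x.length ≤ (bits x).length := (length_lt_sz x).le
  simp only [List.length_reverse, Polynomial.eval_add, Polynomial.eval_mul, Polynomial.eval_C,
    Polynomial.eval_X]
  omega

/-- A polynomial-time function of raw strings, as a polynomial-time function of coded strings. -/
theorem poly_raw {F : List Bool → List Bool} (hF : PolyTime F) : Poly F := by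
  have h1 : PC (fun x : List Bool => x) (fun x : List Bool => x) F :=
    H642R2.TMSim.polyTime_toPC hF
  have h2 : PC (bits : List Bool → List Bool) (fun x : List Bool => x) F :=
    PC.comp (g := F) (f := fun x => x) h1 rawOut
  exact PC.comp (g := fun x => x) (f := F) PC.rawIn h2

end Pool.Agent.NPC.DP
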