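import Pool.Agent.H243R3.PCP.Gr
import Pool.Agent.H243R3.PCP.Pow
import Pool.Agent.H243R3.PCP.Blr

/-!
# The gadget for a path, and the main step
-/

namespace Pool.Agent.H243R3.PCP

open Finset Pool.Agent.NPC

/-! ### Numbering -/

/-- The number of an element of a finite type. -/
noncomputable def idx {A : Type} [Fintype A] (a : A) : ℕ := (Fintype.equivFin A a).val

theorem idx_lt {A : Type} [Fintype A] (a : A) : idx a < Fintype.card A :=
  (Fintype.equivFin A a).isLt
theorem idx_inj {A : Type} [Fintype A] {a b : A} (h : idx a = idx b) : a = b :=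
  (Fintype.equivFin A).injective (Fin.ext h)

/-! ### Four bits -/

/-- The number with the binary digits `f 0`, …, `f 3`. -/
def bits4 (f : ℕ → Bool) : ℕ :=
  (if f 0 then 1 else 0) + (if f 1 then 2 else 0) + (if f 2 then 4 else 0) + (if f 3 then 8 else 0)

theorem bits4_lt (f : ℕ → Bool) : bits4 f < 16 := by
  unfold bits4; split_ifs <;> omega

theorem testBit_bits4 (f : ℕ → Bool) {j : ℕ} (hj : j < 4) : (bits4 f).testBit j = f j := by
  unfold bits4
  cases h0 : f 0 <;> cases h1 : f 1 <;> cases h2 : f 2 <;> cases h3 : f 3 <;>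
    interval_cases j <;> simp [h0, h1, h2, h3] <;> decide

theorem bits4_testBit {n : ℕ} (h : n < 16) : bits4 n.testBit = n := by
  interval_cases n <;> decide

theorem bits4_congr {f g : ℕ → Bool} (h : ∀ j < 4, f j = g j) : bits4 f = bits4 g := by
  unfold bits4
  rw [h 0 (by norm_num), h 1 (by norm_num), h 2 (by norm_num), h 3 (by norm_num)]

/-! ### The types -/

/-- The lists of labels of length less than `t`. -/
def Us (t : ℕ) : Finset (List ℕ) := (range t).biUnion (T 130)

theorem mem_Us {t : ℕ} {l : List ℕ} : l ∈ Us t ↔ l.length < t ∧ ∀ i ∈ l, i < 130 := by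
  unfold Us
  rw [mem_biUnion]
  constructor
  · rintro ⟨n, hn, hl⟩
    rw [mem_T] at hl
    rw [mem_range] at hn
    exact ⟨hl.1 ▸ hn, hl.2⟩
  · rintro ⟨h1, h2⟩
    exact ⟨l.length, mem_range.2 h1, mem_T.2 ⟨rfl, h2⟩⟩

/-- Positions of the bits of an opinion vector. -/
abbrev Xt (t : ℕ) : Type := ↥(Us t) × Fin 4
/-- Opinion vectors. -/
abbrev St (t : ℕ) : Type := Xt t → Bool
/-- Relations between two opinion vectors. -/
abbrev Wt (t : ℕ) : Type := St t × St t → Bool
/-- The random choices of the tests. -/
abbrev Om (t : ℕ) : Type := Wt t × Wt t × Wt t × St t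

variable {t : ℕ}

instance instF1 : Fintype (Wt t × St t) := instFintypeProd (Wt t) (St t)
instance instF2 : Fintype (Wt t × Wt t × St t) := instFintypeProd (Wt t) (Wt t × St t)
instance instFOm : Fintype (Om t) := instFintypeProd (Wt t) (Wt t × Wt t × St t)

/-- The symbol of the opinion vector `α` for the list `l` of labels. -/
def sym (α : St t) (l : List ℕ) : ℕ :=
  if h : l ∈ Us t then bits4 fun j => α (⟨l, h⟩, Fin.ofNat 4 j) else 0

theorem sym_lt (α : St t) (l : List ℕ) : sym α l < 16 := by
  unfold sym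
  split_ifs
  · exact bits4_lt _
  · norm_num

/-- The opinion vector with given symbols. -/
def vec (t : ℕ) (ρ : List ℕ → ℕ) : St t := fun x => (ρ x.1).testBit x.2

theorem sym_vec {ρ : List ℕ → ℕ} {l : List ℕ} (hl : l ∈ Us t) (h : ρ l < 16) :
    sym (vec t ρ) l = ρ l := by
  unfold sym vec
  rw [dif_pos hl]
  conv_rhs => rw [← bits4_testBit h]
  refine bits4_congr fun j hj => ?_
  simp only [Fin.ofNat]
  rw [Nat.mod_eq_of_lt hj]

/-! ### The tests -/

/-- Queries: to the table of the first vertex, to the table of the last vertex, and to the table of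
the path. -/
inductive Q (t : ℕ) : Type
  | A (s : St t) : Q t
  | B (s : St t) : Q t
  | F (x : Wt t) : Q t

/-- The answer to a query. -/
def Q.ans (a b : St t → Bool) (f : Wt t → Bool) : Q t → Bool
  | Q.A s => a s
  | Q.B s => b s
  | Q.F x => f x

/-- The code of a query. -/
noncomputable def Q.code : Q t → ℕ × ℕ
  | Q.A s => (0, idx s)
  | Q.B s => (1, idx s)
  | Q.F x => (2, idx x)

/-- The queries of the tests. -/
def qs (C : Wt t) (ω : Om t) (i j : ℕ) : Q t :=
  if i = 0 then
    (if j = 0 then Q.F (an ω.1 C) else if j = 1 then Q.F (an ω.2.1 C)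
      else if j = 2 then Q.F (an (xr ω.1 ω.2.1) C) else Q.F (an ω.1 C))
  else if i = 1 then
    (if j = 0 then Q.F (an (xr ω.2.2.1 (an ω.1 ω.2.1)) C) else if j = 1 then Q.F (an ω.2.2.1 C)
      else if j = 2 then Q.F (an ω.1 C) else Q.F (an ω.2.1 C))
  else if i = 2 then
    (if j = 0 then Q.F (an (xr ω.2.2.1 fun _ => true) C) else Q.F (an ω.2.2.1 C))
  else if i = 3 then
    (if j = 0 then Q.A ω.2.2.2 else if j = 1 then Q.F (an (xr ω.2.2.1 (lin1 ω.2.2.2)) C)
      else Q.F (an ω.2.2.1 C))
  else
    (if j = 0 then Q.B ω.2.2.2 else if j = 1 then Q.F (an (xr ω.2.2.1 (lin2 ω.2.2.2)) C)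
      else Q.F (an ω.2.2.1 C))

/-- The predicates of the tests. -/
def prd (i : ℕ) (b : ℕ → Bool) : Bool :=
  if i = 0 then !(b 0 ^^ b 1 ^^ b 2)
  else if i = 1 then !(b 0 ^^ b 1 ^^ (b 2 && b 3))
  else if i = 2 then (b 0 ^^ b 1)
  else !(b 0 ^^ b 1 ^^ b 2)

theorem prd_congr (i : ℕ) {b b' : ℕ → Bool} (h : ∀ j < 4, b j = b' j) : prd i b = prd i b' := by
  unfold prd
  rw [h 0 (by norm_num), h 1 (by norm_num), h 2 (by norm_num), h 3 (by norm_num)]

/-- The table of the constraint between a test and its `j`-th query. -/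
def tb (i j : ℕ) : List Bool := (List.range 256).map fun z =>
  decide ((z / 16).testBit j = decide (z % 16 % 2 = 1)) && prd i (z / 16).testBit

theorem rel_tab (F : ℕ → Bool) {a b : ℕ} (ha : a < 16) (hb : b < 16) :
    rel ((List.range 256).map F) a b = F (16 * a + b) := by
  unfold rel
  rw [List.getD_eq_getElem?_getD, List.getElem?_map, List.getElem?_range (by omega)]
  rfl

theorem rel_tb (i j : ℕ) {a b : ℕ} (ha : a < 16) (hb : b < 16) :
    rel (tb i j) a b = (decide (a.testBit j = decide (b % 2 = 1)) && prd i a.testBit) := by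
  unfold tb
  rw [rel_tab _ ha hb, show (16 * a + b) / 16 = a by omega, show (16 * a + b) % 16 = b by omega]

/-- A constraint with local names. -/
abbrev LCon : Type := (ℕ × ℕ) × (ℕ × ℕ) × List Bool

/-- The constraints of a test. -/
noncomputable def blk (C : Wt t) (ω : Om t) (i : ℕ) : List LCon :=
  (List.range 4).map fun j => ((3, idx ω * 5 + i), (qs C ω i j).code, tb i j)

/-- The constraints of all tests. -/
noncomputable def tests (C : Wt t) : List LCon :=
  (univ : Finset (Om t)).toList.flatMap fun ω => (List.range 5).flatMap fun i => blk C ω i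

/-- The global name. -/
noncomputable def rn (t a b q : ℕ) (c : ℕ × ℕ) : ℕ :=
  if c.1 = 0 then 3 * (a * Fintype.card (St t) + c.2)
  else if c.1 = 1 then 3 * (b * Fintype.card (St t) + c.2)
  else if c.1 = 2 then 3 * (q * Fintype.card (Wt t) + c.2) + 1
  else 3 * (q * (Fintype.card (Om t) * 5) + c.2) + 2

/-- The global constraint. -/
noncomputable def glob (t a b q : ℕ) (c : LCon) : Con := (rn t a b q c.1, rn t a b q c.2.1, c.2.2)

/-- The table of a vertex. -/
noncomputable def tA (t : ℕ) (τ : ℕ → ℕ) (a : ℕ) (s : St t) : Bool :=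
  decide (τ (3 * (a * Fintype.card (St t) + idx s)) % 16 % 2 = 1)

/-- The table of a path. -/
noncomputable def tF (t : ℕ) (τ : ℕ → ℕ) (q : ℕ) (x : Wt t) : Bool :=
  decide (τ (3 * (q * Fintype.card (Wt t) + idx x) + 1) % 16 % 2 = 1)

theorem ans_eq (τ : ℕ → ℕ) (a b q : ℕ) (u : Q t) :
    u.ans (tA t τ a) (tA t τ b) (tF t τ q) = decide (τ (rn t a b q u.code) % 16 % 2 = 1) := by
  cases u <;> simp [Q.ans, Q.code, rn, tA, tF]

/-! ### Violated constraints -/

theorem viol_flatMap {β : Type} (L : List β) (f : β → List Con) (τ : ℕ → ℕ) :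
    viol (L.flatMap f) τ = (L.map fun b => viol (f b) τ).sum := by
  induction L with
  | nil => simp [viol]
  | cons b L ih =>
    rw [List.flatMap_cons, List.map_cons, List.sum_cons, ← ih]
    unfold viol
    rw [List.countP_append]

theorem sum_range_list {M : Type} [AddCommMonoid M] (f : ℕ → M) (n : ℕ) :
    ((List.range n).map f).sum = ∑ i ∈ range n, f i := by
  induction n with
  | zero => simp
  | succ n ih => rw [List.range_succ, List.map_append, List.sum_append, ih, sum_range_succ]; simp

/-- A failed test has a violated constraint. -/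
theorem blk_viol (C : Wt t) (ω : Om t) (i a b q : ℕ) (τ : ℕ → ℕ)
    (h : prd i (fun j => (qs C ω i j).ans (tA t τ a) (tA t τ b) (tF t τ q)) = false) :
    1 ≤ viol ((blk C ω i).map (glob t a b q)) τ := by
  set u := τ (rn t a b q (3, idx ω * 5 + i)) % 16 with hu
  have hu16 : u < 16 := Nat.mod_lt _ (by norm_num)
  obtain ⟨j, hj, hv⟩ : ∃ j < 4, (decide (u.testBit j = (qs C ω i j).ans (tA t τ a) (tA t τ b)
      (tF t τ q)) && prd i u.testBit) = false := by
    by_contra hc
    push Not at hc
    have h1 : ∀ j < 4, u.testBit j = (qs C ω i j).ans (tA t τ a) (tA t τ b) (tF t τ q) ∧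
        prd i u.testBit = true := by
      intro j hj
      have := hc j hj
      rw [ne_eq, Bool.not_eq_false, Bool.and_eq_true, decide_eq_true_eq] at this
      exact this
    have h2 := prd_congr i (fun j hj => (h1 j hj).1)
    rw [(h1 0 (by norm_num)).2, h] at h2
    exact Bool.noConfusion h2
  unfold viol
  rw [Nat.one_le_iff_ne_zero, ← Nat.pos_iff_ne_zero, List.countP_pos_iff]
  refine ⟨glob t a b q ((3, idx ω * 5 + i), (qs C ω i j).code, tb i j), ?_, ?_⟩
  · refine List.mem_map_of_mem ?_
    unfold blk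
    exact List.mem_map_of_mem (f := fun j => ((3, idx ω * 5 + i), (qs C ω i j).code, tb i j))
      (List.mem_range.2 hj)
  · unfold sat glob
    simp only
    rw [rel_tb i j hu16 (Nat.mod_lt _ (by norm_num)), ← ans_eq, hv]
    rfl

/-- The number of violated constraints in the tests. -/
theorem tests_viol (C : Wt t) (a b q : ℕ) (τ : ℕ → ℕ) (i : ℕ) (hi : i < 5) :
    ∑ ω : Om t, ind (!(prd i fun j => (qs C ω i j).ans (tA t τ a) (tA t τ b) (tF t τ q))) ≤
      (viol ((tests C).map (glob t a b q)) τ : ℝ) := by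
  unfold tests
  rw [List.map_flatMap, viol_flatMap]
  have h1 : ((((univ : Finset (Om t)).toList.map fun ω => viol (List.map (glob t a b q)
      ((List.range 5).flatMap fun i => blk C ω i)) τ).sum : ℕ) : ℝ) =
      ∑ ω : Om t, (viol (List.map (glob t a b q)
      ((List.range 5).flatMap fun i => blk C ω i)) τ : ℝ) := by
    rw [Finset.sum_map_toList]
    push_cast
    rfl
  rw [h1]
  refine sum_le_sum fun ω _ => ?_
  rw [List.map_flatMap, viol_flatMap, sum_range_list]
  have h2 : viol (List.map (glob t a b q) (blk C ω i)) τ ≤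
      ∑ i ∈ range 5, viol (List.map (glob t a b q) (blk C ω i)) τ :=
    single_le_sum (f := fun i => viol (List.map (glob t a b q) (blk C ω i)) τ)
      (fun _ _ => Nat.zero_le _) (mem_range.2 hi)
  have h3 : ind (!(prd i fun j => (qs C ω i j).ans (tA t τ a) (tA t τ b) (tF t τ q))) ≤
      (viol (List.map (glob t a b q) (blk C ω i)) τ : ℝ) := by
    cases hp : prd i fun j => (qs C ω i j).ans (tA t τ a) (tA t τ b) (tF t τ q)
    · have := blk_viol C ω i a b q τ hp
      simp only [Bool.not_false, ind, if_true]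
      exact_mod_cast this
    · simp [ind]
  refine h3.trans ?_
  exact_mod_cast h2

/-! ### Soundness of the tests -/

/-- The table `A` is near the linear function given by `α`. -/
def near (A : St t → Bool) (α : St t) : Prop :=
  4 * ∑ s, ind (A s ^^ dot s α) < (Fintype.card (St t) : ℝ)

theorem sum_Om (g : Wt t → Wt t → Wt t → St t → ℝ) :
    ∑ ω : Om t, g ω.1 ω.2.1 ω.2.2.1 ω.2.2.2 = ∑ x, ∑ y, ∑ r, ∑ s, g x y r s := by
  rw [Fintype.sum_prod_type]
  refine sum_congr rfl fun x _ => ?_
  rw [Fintype.sum_prod_type]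
  refine sum_congr rfl fun y _ => ?_
  rw [Fintype.sum_prod_type]

theorem tests_sound (C : Wt t) (a b q : ℕ) (τ : ℕ → ℕ)
    (h : 32 * (viol ((tests C).map (glob t a b q)) τ : ℝ) <
      (Fintype.card (Wt t) : ℝ) ^ 3 * Fintype.card (St t)) :
    ∃ α β, C (α, β) = true ∧ near (tA t τ a) α ∧ near (tA t τ b) β := by
  set w : ℝ := (Fintype.card (Wt t) : ℝ) with hw
  set n : ℝ := (Fintype.card (St t) : ℝ) with hn
  have hwpos : 0 < w := by
    rw [hw]; exact_mod_cast Fintype.card_pos
  have hnpos : 0 < n := by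
    rw [hn]; exact_mod_cast Fintype.card_pos
  set f : Wt t → Bool := fun x => tF t τ q (an x C) with hf
  have hf' : ∀ x, f (an x C) = f x := by
    intro x
    simp only [hf]
    congr 1
    funext p
    simp only [an]
    cases x p <;> cases C p <;> rfl
  have key : ∀ i < 5, 32 * ∑ ω : Om t, ind (!(prd i fun j => (qs C ω i j).ans (tA t τ a)
      (tA t τ b) (tF t τ q))) < w ^ 3 * n := fun i hi =>
    lt_of_le_of_lt (mul_le_mul_of_nonneg_left (tests_viol C a b q τ i hi) (by norm_num)) h
  have hcw : ∀ c : ℝ, ∑ _x : Wt t, c = w * c := by intro c; simp [hw]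
  have hcn : ∀ c : ℝ, ∑ _x : St t, c = n * c := by intro c; simp [hn]
  refine test_sound f C hf' (tA t τ a) (tA t τ b) w n hw hn ?_ ?_ ?_ ?_ ?_
  · have k := key 0 (by norm_num)
    have e : ∀ ω : Om t, ind (!(prd 0 fun j => (qs C ω 0 j).ans (tA t τ a)
      (tA t τ b) (tF t τ q))) = ind (f ω.1 ^^ f ω.2.1 ^^ f (xr ω.1 ω.2.1)) := by
      intro ω; simp [prd, qs, Q.ans, hf]
    rw [sum_congr rfl fun ω _ => e ω,
      sum_Om fun x y _ _ => ind (f x ^^ f y ^^ f (xr x y))] at k
    simp only [hcn, hcw, ← mul_sum] at k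
    have k2 : (w * n) * (32 * ∑ x, ∑ y, ind (f x ^^ f y ^^ f (xr x y))) < (w * n) * (w * w) := by
      nlinarith
    exact lt_of_mul_lt_mul_left k2 (by positivity)
  · have k := key 1 (by norm_num)
    have e : ∀ ω : Om t, ind (!(prd 1 fun j => (qs C ω 1 j).ans (tA t τ a)
      (tA t τ b) (tF t τ q))) = ind (f (xr ω.2.2.1 (an ω.1 ω.2.1)) ^^ f ω.2.2.1 ^^
        (f ω.1 && f ω.2.1)) := by
      intro ω; simp [prd, qs, Q.ans, hf]
    rw [sum_congr rfl fun ω _ => e ω,
      sum_Om fun x y r _ => ind (f (xr r (an x y)) ^^ f r ^^ (f x && f y))] at k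
    simp only [hcn, ← mul_sum] at k
    have k2 : n * (32 * ∑ x, ∑ y, ∑ r, ind (f (xr r (an x y)) ^^ f r ^^ (f x && f y))) <
        n * (w * w * w) := by
      nlinarith
    exact lt_of_mul_lt_mul_left k2 (by positivity)
  · have k := key 2 (by norm_num)
    have e : ∀ ω : Om t, ind (!(prd 2 fun j => (qs C ω 2 j).ans (tA t τ a)
      (tA t τ b) (tF t τ q))) = ind (!(f (xr ω.2.2.1 fun _ => true) ^^ f ω.2.2.1)) := by
      intro ω; simp [prd, qs, Q.ans, hf]
    rw [sum_congr rfl fun ω _ => e ω,
      sum_Om fun _ _ r _ => ind (!(f (xr r fun _ => true) ^^ f r))] at k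
    simp only [hcn, hcw, ← mul_sum] at k
    have k2 : (w * w * n) * (32 * ∑ r, ind (!(f (xr r fun _ => true) ^^ f r))) <
        (w * w * n) * w := by
      nlinarith
    exact lt_of_mul_lt_mul_left k2 (by positivity)
  · have k := key 3 (by norm_num)
    have e : ∀ ω : Om t, ind (!(prd 3 fun j => (qs C ω 3 j).ans (tA t τ a)
      (tA t τ b) (tF t τ q))) = ind (tA t τ a ω.2.2.2 ^^ f (xr ω.2.2.1 (lin1 ω.2.2.2)) ^^
        f ω.2.2.1) := by
      intro ω; simp [prd, qs, Q.ans, hf]
    rw [sum_congr rfl fun ω _ => e ω,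
      sum_Om fun _ _ r s => ind (tA t τ a s ^^ f (xr r (lin1 s)) ^^ f r)] at k
    simp only [hcw, ← mul_sum] at k
    rw [sum_comm] at k
    have k2 : (w * w) * (32 * ∑ s, ∑ r, ind (tA t τ a s ^^ f (xr r (lin1 s)) ^^ f r)) <
        (w * w) * (n * w) := by
      nlinarith
    exact lt_of_mul_lt_mul_left k2 (by positivity)
  · have k := key 4 (by norm_num)
    have e : ∀ ω : Om t, ind (!(prd 4 fun j => (qs C ω 4 j).ans (tA t τ a)
      (tA t τ b) (tF t τ q))) = ind (tA t τ b ω.2.2.2 ^^ f (xr ω.2.2.1 (lin2 ω.2.2.2)) ^^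
        f ω.2.2.1) := by
      intro ω; simp [prd, qs, Q.ans, hf]
    rw [sum_congr rfl fun ω _ => e ω,
      sum_Om fun _ _ r s => ind (tA t τ b s ^^ f (xr r (lin2 s)) ^^ f r)] at k
    simp only [hcw, ← mul_sum] at k
    rw [sum_comm] at k
    have k2 : (w * w) * (32 * ∑ s, ∑ r, ind (tA t τ b s ^^ f (xr r (lin2 s)) ^^ f r)) <
        (w * w) * (n * w) := by
      nlinarith
    exact lt_of_mul_lt_mul_left k2 (by positivity)

/-! ### The constraint of a path -/

/-- The table of the constraint of a labelled edge. -/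
def ctab (G : List Con) (s i : ℕ) : List Bool :=
  (List.range 256).map fun z => conG G s i (z / 16) (z % 16)

theorem rel_ctab (G : List Con) (s i : ℕ) {a b : ℕ} (ha : a < 16) (hb : b < 16) :
    rel (ctab G s i) a b = conG G s i a b := by
  unfold ctab
  rw [rel_tab _ ha hb, show (16 * a + b) / 16 = a by omega, show (16 * a + b) % 16 = b by omega]

/-- What has to be known about the path from `a` with the labels `l`: the labels of the way back
and the tables of the constraints. -/
noncomputable def view (G : List Con) (a : ℕ) (l : List ℕ) : List ℕ × List (List Bool) :=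
  ((revl (rotG G) a l).map (· % 130),
    (List.range l.length).map fun k => ctab G (endp (rotG G) a (l.take k)) (l.getD k 0))

/-- The relation of a path. -/
def CV (t : ℕ) (l : List ℕ) (v : List ℕ × List (List Bool)) : Wt t := fun p =>
  (List.range l.length).all fun k => !(decide (k < t) && decide (l.length - 1 - k < t)) ||
    rel (v.2.getD k []) (sym p.1 (l.take k)) (sym p.2 (v.1.take (l.length - 1 - k)))

theorem CV_eq (G : List Con) {a : ℕ} (ha : a < 2 * G.length) {l : List ℕ} (hl : ∀ i ∈ l, i < 130)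
    (α β : St t) : CV t l (view G a l) (α, β) = true ↔ ∀ k < l.length, k < t →
      l.length - 1 - k < t → conG G (endp (rotG G) a (l.take k)) (l.getD k 0)
        (sym α (l.take k)) (sym β ((revl (rotG G) a l).take (l.length - 1 - k))) = true := by
  have h1 : (revl (rotG G) a l).map (· % 130) = revl (rotG G) a l := by
    have hr := isRotG G
    have h2 : ∀ (l : List ℕ) (a : ℕ), a < 2 * G.length → (∀ i ∈ l, i < 130) →
        ∀ i ∈ revl (rotG G) a l, i < 130 := by
      intro l
      induction l with
      | nil => intro a _ _ i hi; simp [revl] at hi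
      | cons e l ih =>
        intro a ha hl i hi
        simp only [revl, List.mem_append, List.mem_singleton] at hi
        rcases hi with hi | hi
        · exact ih _ (hr.lt1 a ha e (hl e List.mem_cons_self))
            (fun j hj => hl j (List.mem_cons_of_mem _ hj)) i hi
        · rw [hi]
          exact hr.lt2 a ha e (hl e List.mem_cons_self)
    conv_rhs => rw [← List.map_id (revl (rotG G) a l)]
    refine List.map_congr_left fun i hi => ?_
    exact Nat.mod_eq_of_lt (h2 l a ha hl i hi)
  unfold CV
  simp only [List.all_eq_true, List.mem_range]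
  refine forall_congr' fun k => forall_congr' fun hk => ?_
  have h3 : (view G a l).2.getD k [] = ctab G (endp (rotG G) a (l.take k)) (l.getD k 0) := by
    unfold view
    simp only
    rw [List.getD_eq_getElem?_getD, List.getElem?_map, List.getElem?_range hk]
    rfl
  have h4 : (view G a l).1 = revl (rotG G) a l := h1
  rw [h3, h4, rel_ctab _ _ _ (sym_lt _ _) (sym_lt _ _)]
  by_cases h5 : k < t
  · by_cases h6 : l.length - 1 - k < t
    · simp [h5, h6]
    · simp [h6]
  · simp [h5]

/-! ### The construction -/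

/-- The lists of labels of the paths. -/
noncomputable def PL (t : ℕ) : List (List ℕ) :=
  (List.range (2 * t - 1)).flatMap fun n => (T 130 (2 * t - 1)).toList.map fun l => l.take (n + 1)

/-- The lists of labels for the vote. -/
noncomputable def VL (t : ℕ) : List (List ℕ) :=
  (List.range t).flatMap fun n => (T 130 (t - 1)).toList.map fun l => l.take n

/-- The constraints for a path. -/
noncomputable def gad (t : ℕ) (G : List Con) (a p : ℕ) (l : List ℕ) : List Con :=
  (tests (CV t l (view G a l))).map (glob t a (endp (rotG G) a l) (a * (PL t).length + p))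

/-- The main step. -/
noncomputable def stp (t : ℕ) (G : List Con) : List Con :=
  (List.range (2 * G.length)).flatMap fun a => (PL t).zipIdx.flatMap fun lp => gad t G a lp.2 lp.1

/-- The linear function near a table. -/
noncomputable def dcA (A : St t → Bool) : St t :=
  open Classical in if h : ∃ α, near A α then h.choose else fun _ => false

theorem dcA_eq {A : St t → Bool} {α : St t} (h : near A α) : dcA A = α := by
  have h1 : ∃ α, near A α := ⟨α, h⟩
  unfold dcA
  rw [dif_pos h1]
  exact decode_unique A h1.choose_spec h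

/-- The opinions. -/
noncomputable def opn (t : ℕ) (τ : ℕ → ℕ) (a : ℕ) (l : List ℕ) : ℕ := sym (dcA (tA t τ a)) l

/-- The votes. -/
noncomputable def vote (t : ℕ) (G : List Con) (τ : ℕ → ℕ) (u c : ℕ) : ℕ :=
  (VL t).countP fun l => decide (opn t τ (endp (rotG G) u l) (revl (rotG G) u l) = c)

/-- The decoded symbols of the slots. -/
noncomputable def rho (t : ℕ) (G : List Con) (τ : ℕ → ℕ) (u : ℕ) : ℕ := amax 16 (vote t G τ u)

/-- The decoded assignment. -/
noncomputable def dcG (t : ℕ) (G : List Con) (τ : ℕ → ℕ) (x : ℕ) : ℕ := plu G (rho t G τ) x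

theorem rho_lt (t : ℕ) (G : List Con) (τ : ℕ → ℕ) (u : ℕ) : rho t G τ u < 16 :=
  (amax_spec _ 16).1 (by norm_num)

/-! ### Sums over the lists -/

theorem PL_sum (t : ℕ) (φ : List ℕ → ℝ) : ((PL t).map φ).sum =
    ∑ n ∈ range (2 * t - 1), ∑ l ∈ T 130 (2 * t - 1), φ (l.take (n + 1)) := by
  unfold PL
  rw [List.map_flatMap, List.flatMap_def, List.sum_flatten, List.map_map, sum_range_list]
  refine sum_congr rfl fun n _ => ?_
  simp only [Function.comp_apply, List.map_map]
  rw [← Finset.sum_map_toList]
  rfl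

theorem VL_sum (t : ℕ) (φ : List ℕ → ℝ) : ((VL t).map φ).sum =
    ∑ n ∈ range t, (130 : ℝ) ^ (t - 1 - n) * ∑ l ∈ T 130 n, φ l := by
  unfold VL
  rw [List.map_flatMap, List.flatMap_def, List.sum_flatten, List.map_map, sum_range_list]
  refine sum_congr rfl fun n hn => ?_
  rw [mem_range] at hn
  simp only [Function.comp_apply, List.map_map]
  have := sum_T_take (d := 130) (m := n) (n := t - 1) (by omega) φ
  rw [← Finset.sum_map_toList] at this
  push_cast at this
  rw [← this]
  rfl

theorem PL_length (t : ℕ) : ((PL t).length : ℝ) = (2 * t - 1 : ℕ) * (130 : ℝ) ^ (2 * t - 1) := by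
  have h := PL_sum t fun _ => 1
  have h2 : ((PL t).map fun _ => (1 : ℝ)).sum = (PL t).length := by simp
  rw [← h2, h]
  have h3 := card_T (d := 130) (2 * t - 1)
  push_cast at h3
  simp only [h3, sum_const, card_range, nsmul_eq_mul]

theorem countP_real {β : Type} (L : List β) (p : β → Bool) :
    (L.countP p : ℝ) = (L.map fun b => ind (p b)).sum := by
  induction L with
  | nil => simp
  | cons b L ih =>
    rw [List.countP_cons, List.map_cons, List.sum_cons]
    push_cast
    rw [ih]
    cases p b <;> simp [ind, add_comm]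

theorem length_tests (C : Wt t) : (tests C).length = Fintype.card (Om t) * 20 := by
  unfold tests blk
  simp only [List.length_flatMap, List.length_map, List.length_range, List.map_const',
    List.sum_replicate, Finset.length_toList, smul_eq_mul, card_univ]

theorem length_stp (t : ℕ) (G : List Con) : (stp t G).length =
    2 * G.length * ((PL t).length * (Fintype.card (Om t) * 20)) := by
  unfold stp gad
  simp only [List.length_flatMap, List.length_map, length_tests, List.map_const',
    List.sum_replicate, List.length_zipIdx, List.length_range, smul_eq_mul]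

theorem card_Om (t : ℕ) : (Fintype.card (Om t) : ℝ) =
    (Fintype.card (Wt t) : ℝ) ^ 3 * Fintype.card (St t) := by
  have : Fintype.card (Om t) = Fintype.card (Wt t) * (Fintype.card (Wt t) *
      (Fintype.card (Wt t) * Fintype.card (St t))) := by
    rw [Fintype.card_prod, Fintype.card_prod, Fintype.card_prod]
  rw [this]
  push_cast
  ring

/-- Bad paths. -/
def BadP (t : ℕ) (G : List Con) (τ : ℕ → ℕ) (a : ℕ) (l : List ℕ) : Prop :=
  ¬ ∃ α β : St t, CV t l (view G a l) (α, β) = true ∧ near (tA t τ a) α ∧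
    near (tA t τ (endp (rotG G) a l)) β

open Classical in
theorem stp_viol (t : ℕ) (G : List Con) (τ : ℕ → ℕ) :
    (Fintype.card (Om t) : ℝ) * (∑ n ∈ range (2 * t - 1), ∑ a ∈ range (2 * G.length),
      ∑ l ∈ T 130 (2 * t - 1), if BadP t G τ a (l.take (n + 1)) then (1 : ℝ) else 0) ≤
      32 * viol (stp t G) τ := by
  have h1 : ∀ a p l, (Fintype.card (Om t) : ℝ) * (if BadP t G τ a l then (1 : ℝ) else 0) ≤
      32 * viol (gad t G a p l) τ := by
    intro a p l
    split_ifs with h
    · by_contra hc
      push Not at hc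
      rw [mul_one, card_Om] at hc
      exact h (tests_sound _ a (endp (rotG G) a l) (a * (PL t).length + p) τ hc)
    · rw [mul_zero]; positivity
  have h2 : viol (stp t G) τ = ∑ a ∈ range (2 * G.length),
      ((PL t).zipIdx.map fun lp => viol (gad t G a lp.2 lp.1) τ).sum := by
    unfold stp
    rw [viol_flatMap, sum_range_list]
    refine sum_congr rfl fun a _ => ?_
    rw [viol_flatMap]
  have h3 : ∀ (L : List (List ℕ)) (a k : ℕ), (Fintype.card (Om t) : ℝ) *
      (L.map fun l => if BadP t G τ a l then (1 : ℝ) else 0).sum ≤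
      32 * (((L.zipIdx k).map fun lp => viol (gad t G a lp.2 lp.1) τ).sum : ℕ) := by
    intro L a
    induction L with
    | nil => intro k; simp
    | cons l L ih =>
      intro k
      rw [List.map_cons, List.sum_cons, List.zipIdx_cons, List.map_cons, List.sum_cons]
      push_cast
      have e1 := ih (k + 1)
      have e2 := h1 a k l
      push_cast at e1
      rw [mul_add, mul_add]
      exact add_le_add e2 e1
  rw [h2, sum_comm]
  push_cast
  rw [mul_sum, mul_sum]
  refine sum_le_sum fun a _ => ?_
  have h4 := h3 (PL t) a 0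
  rw [PL_sum] at h4
  push_cast at h4
  exact h4

/-- A walk with a good step is bad. -/
theorem good_bad (t : ℕ) (G : List Con) (τ : ℕ → ℕ) (F : Finset (ℕ × ℕ))
    (hF : F ⊆ FG G (rho t G τ)) {a : ℕ} (ha : a < 2 * G.length) (l1 : List ℕ) (e : ℕ)
    (l2 : List ℕ) (hl : ∀ i ∈ l1 ++ e :: l2, i < 130)
    (h : Good (rotG G) (opn t τ) (rho t G τ) F t a l1 e l2) : BadP t G τ a (l1 ++ e :: l2) := by
  obtain ⟨h1, h2, h3, h4, h5⟩ := h
  rintro ⟨α, β, hC, hα, hβ⟩
  have e1 : endp (rotG G) a (l1 ++ e :: l2) =
      endp (rotG G) (rotG G (endp (rotG G) a l1) e).1 l2 := by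
    rw [endp_append]; rfl
  have e2 : revl (rotG G) a (l1 ++ e :: l2) =
      revl (rotG G) (rotG G (endp (rotG G) a l1) e).1 l2 ++
        ([(rotG G (endp (rotG G) a l1) e).2] ++ revl (rotG G) a l1) := by
    rw [revl_append, ← List.append_assoc]; rfl
  rw [CV_eq G ha hl] at hC
  have hk := hC l1.length (by simp) h1 (by simp; omega)
  have e3 : (l1 ++ e :: l2).take l1.length = l1 := List.take_left
  have e4 : (l1 ++ e :: l2).getD l1.length 0 = e := by
    rw [List.getD_eq_getElem?_getD, List.getElem?_append_right le_rfl, Nat.sub_self]; rfl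
  have e5 : (l1 ++ e :: l2).length - 1 - l1.length = l2.length := by
    rw [List.length_append, List.length_cons]; omega
  rw [e3, e4, e5, e2, List.take_append_of_le_length (by rw [length_revl]),
    List.take_of_length_le (by rw [length_revl])] at hk
  have e6 : sym α l1 = rho t G τ (endp (rotG G) a l1) := by
    rw [← h4]
    unfold opn
    rw [dcA_eq hα]
  have e7 : sym β (revl (rotG G) (rotG G (endp (rotG G) a l1) e).1 l2) =
      rho t G τ (rotG G (endp (rotG G) a l1) e).1 := by
    rw [← h5]
    unfold opn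
    rw [← e1, dcA_eq hβ]
  rw [e6, e7] at hk
  have h6 := hF h3
  unfold FG at h6
  rw [mem_filter] at h6
  simp only at h6
  rw [h6.2] at hk
  exact Bool.noConfusion hk

theorem ind_decide (p : Prop) [Decidable p] : ind (decide p) = if p then 1 else 0 := by
  unfold ind
  by_cases h : p <;> simp [h]

/-- The winner of the vote has many votes. -/
theorem plurality (t : ℕ) (G : List Con) (τ : ℕ → ℕ) (u : ℕ) :
    (t : ℝ) * (130 : ℝ) ^ (t - 1) ≤ 16 * ∑ i ∈ range t, (130 : ℝ) ^ (t - 1 - i) *
      cI (rotG G) (opn t τ) (rho t G τ) 130 i u := by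
  have h1 : ∀ c, (vote t G τ u c : ℝ) = ∑ i ∈ range t, (130 : ℝ) ^ (t - 1 - i) *
      ∑ l ∈ T 130 i, if opn t τ (endp (rotG G) u l) (revl (rotG G) u l) = c then 1 else 0 := by
    intro c
    unfold vote
    rw [countP_real]
    simp only [ind_decide]
    exact VL_sum t _
  have h2 : ∑ c ∈ range 16, (vote t G τ u c : ℝ) = t * (130 : ℝ) ^ (t - 1) := by
    simp only [h1]
    rw [sum_comm]
    have h3 : ∀ i ∈ range t, ∑ c ∈ range 16, (130 : ℝ) ^ (t - 1 - i) *
        ∑ l ∈ T 130 i, (if opn t τ (endp (rotG G) u l) (revl (rotG G) u l) = c then (1 : ℝ) else 0) =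
        (130 : ℝ) ^ (t - 1) := by
      intro i hi
      rw [mem_range] at hi
      rw [← mul_sum, sum_comm]
      have h4 : ∀ l ∈ T 130 i, ∑ c ∈ range 16,
          (if opn t τ (endp (rotG G) u l) (revl (rotG G) u l) = c then (1 : ℝ) else 0) = 1 := by
        intro l _
        rw [sum_ite_eq, if_pos (show opn t τ (endp (rotG G) u l) (revl (rotG G) u l) ∈ range 16 from
          mem_range.2 (sym_lt _ _))]
      rw [sum_congr rfl h4, card_T]
      push_cast
      rw [← pow_add]
      congr 1
      omega
    rw [sum_congr rfl h3, sum_const, card_range, nsmul_eq_mul]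
  have h5 : ∀ c ∈ range 16, (vote t G τ u c : ℝ) ≤ vote t G τ u (rho t G τ u) := by
    intro c hc
    exact_mod_cast (amax_spec (vote t G τ u) 16).2 c (mem_range.1 hc)
  have h6 := sum_le_sum h5
  rw [h2, sum_const, card_range, nsmul_eq_mul, h1] at h6
  push_cast at h6
  exact h6

/-- The constant of the amplification. -/
def c1 : ℕ := 28354281472

/-- **Gap amplification.** -/
theorem step_sound {t : ℕ} (ht : 32 * 417 * 20800 * c1 ≤ t) (G : List Con) (hG : t ≤ G.length)
    (τ : ℕ → ℕ) :
    2 * viol G (dcG t G τ) * (stp t G).length ≤ viol (stp t G) τ * G.length ∨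
      (stp t G).length ≤ 2560 * c1 * viol (stp t G) τ := by
  classical
  have ht1 : 1 ≤ t := le_trans (by unfold c1; norm_num) ht
  have hG1 : 1 ≤ G.length := ht1.trans hG
  have hexp := isExpG G hG1
  have hlam : 0 ≤ lam 65 104 := by unfold lam; norm_num
  set F := FG G (rho t G τ) with hF
  -- the main inequality for a part of the violated edges
  have main : ∀ F' ⊆ F, F'.card * t ≤ 2 * G.length * 130 →
      (F'.card : ℝ) * t ^ 2 * (130 : ℝ) ^ (2 * t - 2) * Fintype.card (Om t) ≤
        c1 * (32 * viol (stp t G) τ) := by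
    intro F' hF' hFt
    have hp := hexp.powering (op := opn t τ) (sg := rho t G τ) (by norm_num) (by omega) hlam F'
      (hF'.trans (FG_sub _ _)) t 16 ht1 (by norm_num) hFt (by
        intro u _
        have := plurality t G τ u
        push_cast
        norm_num
        exact this)
      (BadP t G τ) (by
        intro a ha l1 e l2 hl hgood
        exact good_bad t G τ F' hF' ha l1 e l2 hl hgood)
    have hs := stp_viol t G τ
    have e1 : ((16 : ℕ) : ℝ) ^ 4 * (12 + 8 * (8 * ((65 : ℕ) : ℝ) * 104)) = c1 := by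
      unfold c1; norm_num
    have e2 : (2 * ((65 : ℕ) : ℝ)) = 130 := by norm_num
    rw [e1, e2] at hp
    have hpos : (0 : ℝ) ≤ Fintype.card (Om t) := Nat.cast_nonneg _
    have h1 := mul_le_mul_of_nonneg_right hp hpos
    refine h1.trans ?_
    rw [mul_assoc, mul_comm (∑ n ∈ range (2 * t - 1), _)]
    refine mul_le_mul_of_nonneg_left ?_ (Nat.cast_nonneg _)
    exact hs
  -- the sizes
  set f : ℝ := (F.card : ℝ) with hf
  set m : ℝ := (G.length : ℝ) with hm
  set T' : ℝ := (t : ℝ) with hT
  set E : ℝ := (130 : ℝ) ^ (2 * t - 2) with hE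
  set O : ℝ := (Fintype.card (Om t) : ℝ) with hO
  set V : ℝ := (viol (stp t G) τ : ℝ) with hV
  have hm0 : 0 < m := by rw [hm]; exact_mod_cast hG1
  have hT0 : 0 < T' := by rw [hT]; exact_mod_cast ht1
  have hE0 : 0 < E := by positivity
  have hO0 : 0 < O := by
    rw [hO]
    exact_mod_cast Fintype.card_pos
  have hV0 : 0 ≤ V := Nat.cast_nonneg _
  have hc0 : (0 : ℝ) < c1 := by unfold c1; norm_num
  have hlen : ((stp t G).length : ℝ) ≤ 10400 * m * T' * E * O := by
    rw [length_stp]
    push_cast
    rw [PL_length]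
    have e1 : (130 : ℝ) ^ (2 * t - 1) = 130 * E := by
      rw [hE, show 2 * t - 1 = (2 * t - 2) + 1 by omega, pow_succ]
      ring
    have e2 : ((2 * t - 1 : ℕ) : ℝ) ≤ 2 * T' := by
      rw [hT]
      have : 2 * t - 1 ≤ 2 * t := Nat.sub_le _ _
      exact_mod_cast this
    rw [e1]
    have e3 : 0 ≤ m * (130 * E) * (O * 20) := by positivity
    nlinarith
  have hviol := viol_le G (rho t G τ) (rho_lt t G τ)
  by_cases hcase : F.card * t ≤ 2 * G.length * 130
  · left
    have h1 := main F (Subset.refl _) hcase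
    have hT2 : 32 * 417 * 20800 * (c1 : ℝ) ≤ T' := by
      rw [hT]; exact_mod_cast ht
    have h2 : (2 : ℝ) * viol G (dcG t G τ) * (stp t G).length ≤ V * m := by
      have hv : (viol G (dcG t G τ) : ℝ) ≤ 417 * f := hviol
      have hv0 : (0 : ℝ) ≤ viol G (dcG t G τ) := Nat.cast_nonneg _
      have hf0 : 0 ≤ f := Nat.cast_nonneg _
      have h3 : (2 : ℝ) * viol G (dcG t G τ) * (stp t G).length ≤
          2 * (417 * f) * (10400 * m * T' * E * O) := by
        refine mul_le_mul (by linarith) hlen (Nat.cast_nonneg _) (by positivity)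
      refine h3.trans ?_
      have h4 : (32 * (c1 : ℝ)) * (2 * (417 * f) * (10400 * m * T' * E * O)) ≤
          (32 * (c1 : ℝ)) * (V * m) := by
        have h5 : f * T' ^ 2 * E * O * m ≤ (c1 * (32 * V)) * m :=
          mul_le_mul_of_nonneg_right h1 hm0.le
        have h6 : 0 ≤ f * m * T' * E * O := by positivity
        nlinarith [mul_le_mul_of_nonneg_right hT2 h6]
      exact le_of_mul_le_mul_left h4 (by positivity)
    have h7 : ((2 * viol G (dcG t G τ) * (stp t G).length : ℕ) : ℝ) ≤
        ((viol (stp t G) τ * G.length : ℕ) : ℝ) := by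
      push_cast
      exact h2
    exact_mod_cast h7
  · right
    push Not at hcase
    have hq : 2 * G.length * 130 / t ≤ F.card := by
      rw [Nat.div_le_iff_le_mul_add_pred (by omega)]
      have : F.card * t = t * F.card := mul_comm _ _
      omega
    obtain ⟨F', hF', hcard⟩ := exists_subset_card_eq hq
    have h1 := main F' hF' (by rw [hcard]; exact Nat.div_mul_le_self _ _)
    rw [hcard] at h1
    have h2 : (130 : ℝ) * m ≤ ((2 * G.length * 130 / t : ℕ) : ℝ) * T' := by
      have h3 := Nat.div_add_mod (2 * G.length * 130) t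
      have h4 := Nat.mod_lt (2 * G.length * 130) (show t > 0 by omega)
      have h5 : 130 * G.length ≤ t * (2 * G.length * 130 / t) := by omega
      have h6 : ((130 * G.length : ℕ) : ℝ) ≤ ((t * (2 * G.length * 130 / t) : ℕ) : ℝ) := by
        exact_mod_cast h5
      push_cast at h6
      rw [mul_comm T'] at *
      push_cast
      linarith
    have h4 : ((stp t G).length : ℝ) ≤ 2560 * c1 * V := by
      set q : ℝ := ((2 * G.length * 130 / t : ℕ) : ℝ) with hq'
      have h6 : 0 ≤ T' * E * O := by positivity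
      have h7 := mul_le_mul_of_nonneg_right h2 h6
      nlinarith
    have h7 : (((stp t G).length : ℕ) : ℝ) ≤ ((2560 * c1 * viol (stp t G) τ : ℕ) : ℝ) := by
      push_cast
      exact h4
    exact_mod_cast h7

end Pool.Agent.H243R3.PCP
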