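import Pool.Agent.H243R3.PCP.Quad

/-!
# Explicit expanders
-/

namespace Pool.Agent.H243R3.PCP

open Finset

/-- The side of the torus used for `c` vertices. -/
def ks (c : ℕ) : ℕ := ((List.range c).filter fun j => decide (j * j < c)).length

theorem ks_eq (c : ℕ) (hc : 1 ≤ c) : c ≤ ks c * ks c ∧ ks c * ks c ≤ 4 * c ∧ 1 ≤ ks c := by
  -- the filter is an initial segment
  have key : ∀ k : ℕ, (∀ j < k, j * j < c) → c ≤ k * k → k ≤ c → ks c = k := by
    intro k h1 h2 h3
    unfold ks
    have : (List.range c).filter (fun j => decide (j * j < c)) = List.range k := by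
      obtain ⟨e, rfl⟩ := Nat.exists_eq_add_of_le h3
      rw [List.range_add, List.filter_append]
      have e1 : (List.range k).filter (fun j => decide (j * j < k + e)) = List.range k := by
        rw [List.filter_eq_self]
        intro j hj
        simpa using h1 j (List.mem_range.1 hj)
      have e2 : ((List.range e).map (fun x => k + x)).filter (fun j => decide (j * j < k + e)) =
          [] := by
        rw [List.filter_eq_nil_iff]
        intro j hj
        rw [List.mem_map] at hj
        obtain ⟨x, _, rfl⟩ := hj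
        rw [decide_eq_true_eq, not_lt]
        nlinarith
      rw [e1, e2, List.append_nil]
    rw [this, List.length_range]
  have hex : ∃ k, c ≤ k * k := ⟨c, Nat.le_mul_self c⟩
  classical
  have hk := Nat.find_spec hex
  have hk' : ∀ j < Nat.find hex, j * j < c := by
    intro j hj
    have := Nat.find_min hex hj
    omega
  have hle : Nat.find hex ≤ c := Nat.find_min' hex (Nat.le_mul_self c)
  have := key _ hk' hk hle
  rw [this]
  have hpos : 1 ≤ Nat.find hex := by
    by_contra h
    have : Nat.find hex = 0 := by omega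
    rw [this] at hk
    omega
  refine ⟨hk, ?_, hpos⟩
  have := hk' (Nat.find hex - 1) (by omega)
  obtain ⟨j, hj⟩ : ∃ j, Nat.find hex = j + 1 := ⟨Nat.find hex - 1, by omega⟩
  rw [hj] at this ⊢
  simp only [Nat.add_sub_cancel] at this
  nlinarith

/-- The generators on the torus of side `k`, the point `(x, y)` being coded by `x * k + y`. -/
def gen (k g w : ℕ) : ℕ :=
  if g = 0 then ((w / k + w % k) % k) * k + w % k
  else if g = 1 then ((w / k + (k - w % k)) % k) * k + w % k
  else if g = 2 then (w / k) * k + (w % k + w / k) % k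
  else if g = 3 then (w / k) * k + (w % k + (k - w / k)) % k
  else if g = 4 then ((w / k + 1) % k) * k + w % k
  else if g = 5 then ((w / k + (k - 1)) % k) * k + w % k
  else if g = 6 then (w / k) * k + (w % k + 1) % k
  else (w / k) * k + (w % k + (k - 1)) % k

/-- The number of the inverse generator. -/
def ginv (g : ℕ) : ℕ := if g % 2 = 0 then g + 1 else g - 1

theorem ginv_lt {g : ℕ} (hg : g < 8) : ginv g < 8 := by unfold ginv; split_ifs <;> omega
theorem ginv_ginv {g : ℕ} (hg : g < 8) : ginv (ginv g) = g := by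
  unfold ginv; interval_cases g <;> simp

theorem dm {k x y : ℕ} (hy : y < k) : (x * k + y) / k = x ∧ (x * k + y) % k = y := by
  constructor
  · rw [mul_comm, Nat.mul_add_div (by omega), Nat.div_eq_of_lt hy, add_zero]
  · rw [mul_comm, Nat.mul_add_mod, Nat.mod_eq_of_lt hy]

theorem pair_lt {k x y : ℕ} (hx : x < k) (hy : y < k) : x * k + y < k * k := by
  have : x + 1 ≤ k := hx
  nlinarith

theorem add_inv_mod {k a b : ℕ} (ha : a < k) (hb : b < k) :
    ((a + b) % k + (k - b)) % k = a ∧ ((a + (k - b)) % k + b) % k = a := by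
  constructor
  · rw [Nat.mod_add_mod, show a + b + (k - b) = a + k by omega, Nat.add_mod_right,
      Nat.mod_eq_of_lt ha]
  · rw [Nat.mod_add_mod, show a + (k - b) + b = a + k by omega, Nat.add_mod_right,
      Nat.mod_eq_of_lt ha]

theorem add_one_mod {k a : ℕ} (ha : a < k) :
    ((a + 1) % k + (k - 1)) % k = a ∧ ((a + (k - 1)) % k + 1) % k = a := by
  constructor
  · rw [Nat.mod_add_mod, show a + 1 + (k - 1) = a + k by omega, Nat.add_mod_right,
      Nat.mod_eq_of_lt ha]
  · rw [Nat.mod_add_mod, show a + (k - 1) + 1 = a + k by omega, Nat.add_mod_right,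
      Nat.mod_eq_of_lt ha]

theorem gen_lt {k g w : ℕ} (hk : 1 ≤ k) (hw : w < k * k) : gen k g w < k * k := by
  have hx : w / k < k := Nat.div_lt_of_lt_mul hw
  have hy : w % k < k := Nat.mod_lt _ (by omega)
  unfold gen
  split_ifs <;> exact pair_lt (by first | exact hx | exact Nat.mod_lt _ (by omega))
    (by first | exact hy | exact Nat.mod_lt _ (by omega))

theorem gen_inv {k g w : ℕ} (hk : 1 ≤ k) (hg : g < 8) (hw : w < k * k) :
    gen k (ginv g) (gen k g w) = w := by
  have hx : w / k < k := Nat.div_lt_of_lt_mul hw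
  have hy : w % k < k := Nat.mod_lt _ (by omega)
  have hxy : w = (w / k) * k + w % k := by rw [mul_comm]; exact (Nat.div_add_mod w k).symm
  have e1 := add_inv_mod hx hy
  have e2 := add_inv_mod hy hx
  have e3 := add_one_mod hx
  have e4 := add_one_mod hy
  have hm : ∀ z, z % k < k := fun z => Nat.mod_lt _ (by omega)
  have hd := fun z : ℕ => dm (k := k) (x := z % k) hy
  have hd' := fun z : ℕ => dm (k := k) (x := w / k) (hm z)
  interval_cases g <;> simp only [gen, ginv, (hd _).1, (hd _).2, (hd' _).1, (hd' _).2, if_true,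
    Nat.reduceMod, Nat.reduceAdd, Nat.reduceSub, Nat.reduceEqDiff, if_false, one_ne_zero, e1, e2, e3, e4,
    OfNat.ofNat_ne_zero, OfNat.ofNat_ne_one] <;> exact hxy.symm

/-- **Expanders.** The neighbour of `j` along the label `l`, with the label of the way back, in the
expander with `c` vertices and degree `32`. -/
def xrot (c j l : ℕ) : ℕ × ℕ :=
  if j + (l / 8) * c < ks c * ks c then
    (gen (ks c) (l % 8) (j + (l / 8) * c) % c,
      (gen (ks c) (l % 8) (j + (l / 8) * c) / c) * 8 + ginv (l % 8))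
  else (j, l)

theorem xrot_lt {c j l : ℕ} (hj : j < c) (hl : l < 32) :
    (xrot c j l).1 < c ∧ (xrot c j l).2 < 32 := by
  unfold xrot
  obtain ⟨h1, h2, h3⟩ := ks_eq c (by omega)
  split_ifs with h
  · refine ⟨Nat.mod_lt _ (by omega), ?_⟩
    have h4 := gen_lt (g := l % 8) h3 h
    have h5 : gen (ks c) (l % 8) (j + (l / 8) * c) / c < 4 := by
      rw [Nat.div_lt_iff_lt_mul (by omega)]
      omega
    have h6 := ginv_lt (g := l % 8) (by omega)
    simp only
    omega
  · exact ⟨hj, hl⟩

theorem xrot_xrot {c j l : ℕ} (hj : j < c) (_hl : l < 32) :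
    xrot c (xrot c j l).1 (xrot c j l).2 = (j, l) := by
  obtain ⟨h1, h2, h3⟩ := ks_eq c (by omega)
  by_cases h : j + (l / 8) * c < ks c * ks c
  · have e1 : xrot c j l = (gen (ks c) (l % 8) (j + (l / 8) * c) % c,
      (gen (ks c) (l % 8) (j + (l / 8) * c) / c) * 8 + ginv (l % 8)) := by
      unfold xrot; rw [if_pos h]
    have h6 := ginv_lt (g := l % 8) (by omega)
    have h4 := gen_lt (g := l % 8) h3 h
    have h7 := gen_inv (g := l % 8) h3 (by omega) h
    rw [e1]
    simp only
    set w := gen (ks c) (l % 8) (j + (l / 8) * c) with hw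
    have e2 : (w / c * 8 + ginv (l % 8)) / 8 = w / c := by omega
    have e3 : (w / c * 8 + ginv (l % 8)) % 8 = ginv (l % 8) := by omega
    have e4 : w % c + w / c * c = w := by rw [mul_comm]; exact Nat.mod_add_div w c
    unfold xrot
    rw [e2, e3, e4, if_pos h4, h7, ginv_ginv (by omega)]
    have e5 : (j + l / 8 * c) % c = j := by
      rw [Nat.add_mul_mod_self_right, Nat.mod_eq_of_lt hj]
    have e6 : (j + l / 8 * c) / c = l / 8 := by
      rw [Nat.add_mul_div_right _ _ (by omega), Nat.div_eq_of_lt hj, zero_add]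
    rw [e5, e6]
    congr 1
    omega
  · have e1 : xrot c j l = (j, l) := by unfold xrot; rw [if_neg h]
    rw [e1]
    exact e1

/-- The torus of side `k` and the numbers below `k * k`. -/
theorem sum_torus (k : ℕ) [NeZero k] (g : ℕ → ℝ) :
    ∑ z : ZMod k × ZMod k, g (z.1.val * k + z.2.val) = ∑ w ∈ range (k * k), g w := by
  have hk : 0 < k := NeZero.pos k
  refine Finset.sum_nbij' (fun z => z.1.val * k + z.2.val)
    (fun w => (((w / k : ℕ) : ZMod k), ((w % k : ℕ) : ZMod k))) ?_ ?_ ?_ ?_ ?_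
  · intro z _
    rw [mem_range]
    exact pair_lt (ZMod.val_lt _) (ZMod.val_lt _)
  · intro w _; exact mem_univ _
  · intro z _
    obtain ⟨h1, h2⟩ := dm (k := k) (x := z.1.val) (ZMod.val_lt z.2)
    rw [h1, h2]
    apply Prod.ext <;> simp
  · intro w hw
    rw [mem_range] at hw
    have hx : w / k < k := Nat.div_lt_of_lt_mul hw
    have hy : w % k < k := Nat.mod_lt _ hk
    simp only
    rw [ZMod.val_natCast_of_lt hx, ZMod.val_natCast_of_lt hy, mul_comm]
    exact Nat.div_add_mod w k
  · intro z _; rfl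

theorem poincare_gen (k : ℕ) (hk : 1 ≤ k) (f : ℕ → ℝ) (h0 : ∑ w ∈ range (k * k), f w = 0) :
    ∑ w ∈ range (k * k), f w ^ 2 ≤
      104 * ∑ g ∈ range 8, ∑ w ∈ range (k * k), (f (gen k g w) - f w) ^ 2 := by
  have : NeZero k := ⟨by omega⟩
  have hp := poincare (n := k) (fun z => f (z.1.val * k + z.2.val)) (by
    rw [sum_torus k f]; exact h0)
  have hval : ∀ z : ZMod k × ZMod k, z.1.val < k ∧ z.2.val < k :=
    fun z => ⟨ZMod.val_lt _, ZMod.val_lt _⟩
  have hone : ∀ a : ZMod k, (a + 1).val = (a.val + 1) % k := by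
    intro a
    rw [ZMod.val_add, ZMod.val_one_eq_one_mod, Nat.add_mod_mod]
  have e0 : ∑ z : ZMod k × ZMod k, f (z.1.val * k + z.2.val) ^ 2 =
      ∑ w ∈ range (k * k), f w ^ 2 := sum_torus k fun w => f w ^ 2
  have e1 : ∑ z : ZMod k × ZMod k, (f ((z.1 + z.2).val * k + z.2.val) -
      f (z.1.val * k + z.2.val)) ^ 2 = ∑ w ∈ range (k * k), (f (gen k 0 w) - f w) ^ 2 := by
    rw [← sum_torus k fun w => (f (gen k 0 w) - f w) ^ 2]
    refine sum_congr rfl fun z _ => ?_
    obtain ⟨h1, h2⟩ := dm (k := k) (x := z.1.val) (ZMod.val_lt z.2)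
    simp only [gen, if_true, h1, h2, ZMod.val_add]
  have e2 : ∑ z : ZMod k × ZMod k, (f (z.1.val * k + (z.2 + z.1).val) -
      f (z.1.val * k + z.2.val)) ^ 2 = ∑ w ∈ range (k * k), (f (gen k 2 w) - f w) ^ 2 := by
    rw [← sum_torus k fun w => (f (gen k 2 w) - f w) ^ 2]
    refine sum_congr rfl fun z _ => ?_
    obtain ⟨h1, h2⟩ := dm (k := k) (x := z.1.val) (ZMod.val_lt z.2)
    simp only [gen, h1, h2, ZMod.val_add]
    norm_num
  have e3 : ∑ z : ZMod k × ZMod k, (f ((z.1 + 1).val * k + z.2.val) -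
      f (z.1.val * k + z.2.val)) ^ 2 = ∑ w ∈ range (k * k), (f (gen k 4 w) - f w) ^ 2 := by
    rw [← sum_torus k fun w => (f (gen k 4 w) - f w) ^ 2]
    refine sum_congr rfl fun z _ => ?_
    obtain ⟨h1, h2⟩ := dm (k := k) (x := z.1.val) (ZMod.val_lt z.2)
    simp only [gen, h1, h2, hone]
    norm_num
  have e4 : ∑ z : ZMod k × ZMod k, (f (z.1.val * k + (z.2 + 1).val) -
      f (z.1.val * k + z.2.val)) ^ 2 = ∑ w ∈ range (k * k), (f (gen k 6 w) - f w) ^ 2 := by
    rw [← sum_torus k fun w => (f (gen k 6 w) - f w) ^ 2]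
    refine sum_congr rfl fun z _ => ?_
    obtain ⟨h1, h2⟩ := dm (k := k) (x := z.1.val) (ZMod.val_lt z.2)
    simp only [gen, h1, h2, hone]
    norm_num
  simp only at hp
  rw [e0, e1, e2, e3, e4] at hp
  have hnn : ∀ g, 0 ≤ ∑ w ∈ range (k * k), (f (gen k g w) - f w) ^ 2 :=
    fun g => sum_nonneg fun _ _ => sq_nonneg _
  have h8 : ∑ g ∈ range 8, ∑ w ∈ range (k * k), (f (gen k g w) - f w) ^ 2 =
      ∑ w ∈ range (k * k), (f (gen k 0 w) - f w) ^ 2 + ∑ w ∈ range (k * k), (f (gen k 1 w) - f w) ^ 2 +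
      ∑ w ∈ range (k * k), (f (gen k 2 w) - f w) ^ 2 + ∑ w ∈ range (k * k), (f (gen k 3 w) - f w) ^ 2 +
      ∑ w ∈ range (k * k), (f (gen k 4 w) - f w) ^ 2 + ∑ w ∈ range (k * k), (f (gen k 5 w) - f w) ^ 2 +
      ∑ w ∈ range (k * k), (f (gen k 6 w) - f w) ^ 2 + ∑ w ∈ range (k * k), (f (gen k 7 w) - f w) ^ 2
      := by
    simp only [Finset.sum_range_succ, Finset.sum_range_zero, zero_add]
  rw [h8]
  linarith [hnn 1, hnn 3, hnn 5, hnn 7]

/-- **The Poincaré inequality for the expanders.** -/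
theorem poincare_x (c : ℕ) (hc : 1 ≤ c) (f : ℕ → ℝ) :
    ∃ m : ℝ, ∑ j ∈ range c, (f j - m) ^ 2 ≤
      104 * ∑ j ∈ range c, ∑ l ∈ range 32, (f (xrot c j l).1 - f j) ^ 2 := by
  obtain ⟨h1, h2, h3⟩ := ks_eq c hc
  set k := ks c with hk
  set m : ℝ := (∑ w ∈ range (k * k), f (w % c)) / (k * k : ℕ) with hm
  have hkk : (0 : ℝ) < (k * k : ℕ) := by
    have : 0 < k * k := by positivity
    exact_mod_cast this
  refine ⟨m, ?_⟩
  have hp := poincare_gen k h3 (fun w => f (w % c) - m) (by
    rw [sum_sub_distrib, sum_const, card_range, nsmul_eq_mul, hm]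
    field_simp
    ring)
  have e1 : ∑ j ∈ range c, (f j - m) ^ 2 ≤ ∑ w ∈ range (k * k), (f (w % c) - m) ^ 2 := by
    have : ∑ j ∈ range c, (f j - m) ^ 2 = ∑ j ∈ range c, (f (j % c) - m) ^ 2 :=
      sum_congr rfl fun j hj => by rw [Nat.mod_eq_of_lt (mem_range.1 hj)]
    rw [this]
    exact sum_le_sum_of_subset_of_nonneg (range_subset_range.2 h1) fun _ _ _ => sq_nonneg _
  have e2 : ∑ g ∈ range 8, ∑ w ∈ range (k * k), (f (gen k g w % c) - m - (f (w % c) - m)) ^ 2 ≤
      ∑ j ∈ range c, ∑ l ∈ range 32, (f (xrot c j l).1 - f j) ^ 2 := by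
    rw [sum_comm, ← sum_product', ← sum_product']
    have hinj : Set.InjOn (fun q : ℕ × ℕ => (q.1 % c, q.1 / c * 8 + q.2))
        ((range (k * k) ×ˢ range 8 : Finset (ℕ × ℕ)) : Set (ℕ × ℕ)) := by
      rintro ⟨w, g⟩ h ⟨w', g'⟩ h' e
      simp only [coe_product, coe_range, Set.mem_prod, Set.mem_Iio] at h h'
      simp only [Prod.mk.injEq] at e
      obtain ⟨e1, e2⟩ := e
      have e3 : w / c = w' / c := by omega
      have e4 : g = g' := by omega
      have e5 : w = w' := by
        rw [← Nat.mod_add_div w c, ← Nat.mod_add_div w' c, e1, e3]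
      rw [e4, e5]
    have hval : ∀ q ∈ range (k * k) ×ˢ range 8, (f (gen k q.2 q.1 % c) - m - (f (q.1 % c) - m)) ^ 2 =
        (fun q : ℕ × ℕ => (f (xrot c q.1 q.2).1 - f q.1) ^ 2) (q.1 % c, q.1 / c * 8 + q.2) := by
      rintro ⟨w, g⟩ h
      rw [mem_product, mem_range, mem_range] at h
      simp only at h ⊢
      have a1 : (w / c * 8 + g) / 8 = w / c := by omega
      have a2 : (w / c * 8 + g) % 8 = g := by omega
      have a3 : w % c + w / c * c = w := by rw [mul_comm]; exact Nat.mod_add_div w c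
      have a4 : (xrot c (w % c) (w / c * 8 + g)).1 = gen k g w % c := by
        unfold xrot
        rw [a1, a2, a3, ← hk, if_pos h.1]
      rw [a4]
      ring
    rw [sum_congr rfl hval, ← sum_image (f := fun q : ℕ × ℕ => (f (xrot c q.1 q.2).1 - f q.1) ^ 2)
      hinj]
    refine sum_le_sum_of_subset_of_nonneg ?_ fun _ _ _ => sq_nonneg _
    intro q hq
    rw [mem_image] at hq
    obtain ⟨⟨w, g⟩, h, rfl⟩ := hq
    rw [mem_product, mem_range, mem_range] at h
    simp only at h
    rw [mem_product, mem_range, mem_range]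
    refine ⟨Nat.mod_lt _ (by omega), ?_⟩
    have h5 : w / c < 4 := by
      rw [Nat.div_lt_iff_lt_mul (by omega)]
      omega
    simp only
    omega
  linarith

end Pool.Agent.H243R3.PCP
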